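import Pool.Agent.NC.Core

/-!
Evaluation of the sums over connected spanning subgraphs by a dynamic programme over the set partitions,
coded by natural numbers.
-/

set_option autoImplicit false

namespace Pool.Agent.NC

open Finset

section Forget

variable {V : Type*}

open Classical in
/-- `1` for the one class partition, `0` otherwise. -/
noncomputable def phi (R : Type*) [Zero R] [One R] (r : Setoid V) : R := if r = ⊤ then 1 else 0

/-- The partition into `{x}` and the rest. -/
def Sx (x : V) : Setoid V := Setoid.ker fun a => a = x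

theorem ZL_alone {R : Type*} [CommSemiring R] (x y : V) (hy : y ≠ x) (l : List (Setoid V × R × R))
    (hl : ∀ e ∈ l, e.1 ≤ Sx x) (r : Setoid V) (hr : r ≤ Sx x) : ZL (phi R) l r = 0 := by
  induction l generalizing r with
  | nil =>
    rw [ZL, phi, if_neg]
    intro h
    rw [h] at hr
    have h1 : Sx x y x := hr (trivial : (⊤ : Setoid V) y x)
    have h2 : (y = x) = (x = x) := h1
    exact hy (by rw [h2])
  | cons e l ih =>
    have he := hl e (by simp)
    have hl' : ∀ e ∈ l, e.1 ≤ Sx x := fun e he => hl e (by simp [he])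
    rw [ZL, ih hl' r hr, ih hl' (r ⊔ e.1) (sup_le hr he)]
    simp

/-- `r` and `r'` agree outside of `x` and `x` is attached in both. -/
def Rel (x : V) (r r' : Setoid V) : Prop :=
  (∀ a b, a ≠ x → b ≠ x → (r a b ↔ r' a b)) ∧ (∃ y, y ≠ x ∧ r x y) ∧ ∃ y, y ≠ x ∧ r' x y

theorem Rel.symm {x : V} {r r' : Setoid V} (h : Rel x r r') : Rel x r' r :=
  ⟨fun a b ha hb => (h.1 a b ha hb).symm, h.2.2, h.2.1⟩

theorem Rel.sup_le {x : V} {r r' g : Setoid V} (h : Rel x r r') (hg : g ≤ Sx x) {a b : V} (ha : a ≠ x)
    (hb : b ≠ x) (hab : (r ⊔ g) a b) : (r' ⊔ g) a b := by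
  classical
  obtain ⟨y, hy, hxy⟩ := h.2.1
  have key : r ⊔ g ≤ Setoid.comap (fun c => if c = x then y else c) (r' ⊔ g) := by
    refine _root_.sup_le ?_ ?_
    · intro c d hcd
      rw [Setoid.comap_rel]
      have h1 : r (if c = x then y else c) c := by
        split_ifs with hc
        · rw [hc]; exact r.symm hxy
        · exact r.refl _
      have h2 : r d (if d = x then y else d) := by
        split_ifs with hd
        · rw [hd]; exact hxy
        · exact r.refl _
      have h3 := r.trans h1 (r.trans hcd h2)
      have hne : ∀ c : V, (if c = x then y else c) ≠ x := by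
        intro c; split_ifs with hc
        · exact hy
        · exact hc
      exact (le_sup_left : r' ≤ r' ⊔ g) ((h.1 _ _ (hne c) (hne d)).1 h3)
    · intro c d hcd
      rw [Setoid.comap_rel]
      have h1 : (c = x) = (d = x) := hg hcd
      by_cases hc : c = x
      · have hd : d = x := by rw [← h1]; exact hc
        rw [if_pos hc, if_pos hd]
      · have hd : d ≠ x := by intro hd; exact hc (by rw [h1]; exact hd)
        rw [if_neg hc, if_neg hd]
        exact (le_sup_right : g ≤ r' ⊔ g) hcd
  have h1 := key hab
  rw [Setoid.comap_rel, if_neg ha, if_neg hb] at h1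
  exact h1

theorem Rel.sup {x : V} {r r' g : Setoid V} (h : Rel x r r') (hg : g ≤ Sx x) :
    Rel x (r ⊔ g) (r' ⊔ g) := by
  refine ⟨fun a b ha hb => ⟨h.sup_le hg ha hb, h.symm.sup_le hg ha hb⟩, ?_, ?_⟩
  · obtain ⟨y, hy, hxy⟩ := h.2.1
    exact ⟨y, hy, (le_sup_left : r ≤ r ⊔ g) hxy⟩
  · obtain ⟨y, hy, hxy⟩ := h.2.2
    exact ⟨y, hy, (le_sup_left : r' ≤ r' ⊔ g) hxy⟩

theorem Rel.top {x : V} {r r' : Setoid V} (h : Rel x r r') (hr : r = ⊤) : r' = ⊤ := by
  obtain ⟨y, hy, hxy⟩ := h.2.2
  have h1 : ∀ a b, a ≠ x → b ≠ x → r' a b := fun a b ha hb => (h.1 a b ha hb).1 (by rw [hr]; trivial)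
  have h2 : ∀ a, r' a y := by
    intro a
    by_cases ha : a = x
    · rw [ha]; exact hxy
    · exact h1 a y ha hy
  rw [eq_top_iff]
  intro a b _
  exact r'.trans (h2 a) (r'.symm (h2 b))

theorem ZL_forget {R : Type*} [CommSemiring R] (x : V) (l : List (Setoid V × R × R))
    (hl : ∀ e ∈ l, e.1 ≤ Sx x) (r r' : Setoid V) (h : Rel x r r') :
    ZL (phi R) l r = ZL (phi R) l r' := by
  induction l generalizing r r' with
  | nil =>
    rw [ZL, ZL, phi, phi]
    by_cases hr : r = ⊤
    · rw [if_pos hr, if_pos (h.top hr)]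
    · rw [if_neg hr, if_neg fun hr' => hr (h.symm.top hr')]
  | cons e l ih =>
    have he := hl e (by simp)
    have hl' : ∀ e ∈ l, e.1 ≤ Sx x := fun e he => hl e (by simp [he])
    rw [ZL, ZL, ih hl' r r' h, ih hl' (r ⊔ e.1) (r' ⊔ e.1) (h.sup he)]

end Forget

/-! ### Codes of partitions -/

/-- The label of `i` in the code `s`. -/
def lab (s i : ℕ) : ℕ := s / 16 ^ i % 16

/-- The code with the labels `f i % 16`, `i < n`. -/
def build (f : ℕ → ℕ) : ℕ → ℕ
  | 0 => 0
  | n + 1 => build f n + 16 ^ n * (f n % 16)

theorem build_lt (f : ℕ → ℕ) (n : ℕ) : build f n < 16 ^ n := by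
  induction n with
  | zero => simp [build]
  | succ n ih =>
    rw [build, pow_succ]
    have : f n % 16 < 16 := Nat.mod_lt _ (by norm_num)
    have h2 : 16 ^ n * (f n % 16) ≤ 16 ^ n * 15 := Nat.mul_le_mul_left _ (by omega)
    omega

theorem lab_build (f : ℕ → ℕ) {n i : ℕ} (hi : i < n) : lab (build f n) i = f i % 16 := by
  induction n with
  | zero => omega
  | succ n ih =>
    rw [build, lab]
    rcases Nat.lt_succ_iff_lt_or_eq.1 hi with h | h
    · have h1 : (16 : ℕ) ^ n = 16 ^ i * (16 * 16 ^ (n - i - 1)) := by
        rw [← pow_succ', ← pow_add]; congr 1; omega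
      rw [h1, mul_assoc, Nat.add_mul_div_left _ _ (by positivity), mul_assoc, Nat.add_mul_mod_self_left]
      exact ih h
    · subst h
      rw [Nat.add_mul_div_left _ _ (by positivity), Nat.div_eq_of_lt (build_lt f i), zero_add, Nat.mod_mod]

theorem lab_lt (s i : ℕ) : lab s i < 16 := Nat.mod_lt _ (by norm_num)

/-- The partition of `Fin n` with the code `s`. -/
def sem (n s : ℕ) : Setoid (Fin n) := Setoid.ker fun i : Fin n => lab s i

theorem sem_rel {n s : ℕ} {a b : Fin n} : sem n s a b ↔ lab s a = lab s b := Iff.rfl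

/-- Joining the classes with the labels `x` and `y`. -/
def relab (n s x y : ℕ) : ℕ :=
  bif Nat.beq x y then s else
    bif Nat.ble x y then build (fun i => bif Nat.beq (lab s i) y then x else lab s i) n
    else build (fun i => bif Nat.beq (lab s i) x then y else lab s i) n

/-- Joining the classes of `u` and `v`. -/
def join (n s u v : ℕ) : ℕ := relab n s (lab s u) (lab s v)

theorem ker_join {V : Type*} (f f' : V → ℕ) (u v : V) (x y : ℕ) (hx : f u = x) (hy : f v = y)
    (hf' : ∀ i, f' i = if f i = y then x else f i) :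
    Setoid.ker f' = Setoid.ker f ⊔ gS s(u, v) := by
  apply le_antisymm
  · intro a b hab
    have hab' : f' a = f' b := hab
    have hle1 : Setoid.ker f ≤ Setoid.ker f ⊔ gS s(u, v) := le_sup_left
    have hle2 : gS s(u, v) ≤ Setoid.ker f ⊔ gS s(u, v) := le_sup_right
    have huv : (Setoid.ker f ⊔ gS s(u, v)) u v := hle2 (gS_rel rfl)
    rw [hf', hf'] at hab'
    by_cases ha : f a = y
    · by_cases hb : f b = y
      · exact hle1 (show f a = f b by rw [ha, hb])
      · rw [if_pos ha, if_neg hb] at hab'
        have h1 : (Setoid.ker f ⊔ gS s(u, v)) a v := hle1 (show f a = f v by rw [ha, hy])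
        have h2 : (Setoid.ker f ⊔ gS s(u, v)) u b := hle1 (show f u = f b by rw [hx, hab'])
        exact (Setoid.ker f ⊔ gS s(u, v)).trans h1
          ((Setoid.ker f ⊔ gS s(u, v)).trans ((Setoid.ker f ⊔ gS s(u, v)).symm huv) h2)
    · by_cases hb : f b = y
      · rw [if_neg ha, if_pos hb] at hab'
        have h1 : (Setoid.ker f ⊔ gS s(u, v)) a u := hle1 (show f a = f u by rw [hab', hx])
        have h2 : (Setoid.ker f ⊔ gS s(u, v)) v b := hle1 (show f v = f b by rw [hy, hb])
        exact (Setoid.ker f ⊔ gS s(u, v)).trans h1 ((Setoid.ker f ⊔ gS s(u, v)).trans huv h2)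
      · rw [if_neg ha, if_neg hb] at hab'
        exact hle1 (show f a = f b from hab')
  · refine sup_le ?_ ?_
    · intro a b hab
      have hab' : f a = f b := hab
      change f' a = f' b
      rw [hf', hf', hab']
    · rw [gS_le]
      intro a b hab
      have h : f' u = f' v := by
        rw [hf', hf', if_pos hy, hx]
        split_ifs <;> rfl
      rw [Sym2.eq_iff] at hab
      rcases hab with ⟨h1, h2⟩ | ⟨h1, h2⟩
      · rw [h1, h2]; exact h
      · rw [h1, h2]; exact h.symm

theorem beq_decide (x y : ℕ) : Nat.beq x y = decide (x = y) := by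
  cases h : Nat.beq x y with
  | true => rw [decide_eq_true (Nat.eq_of_beq_eq_true h)]
  | false => rw [decide_eq_false (Nat.ne_of_beq_eq_false h)]

theorem sem_join (n s : ℕ) (u v : Fin n) : sem n (join n s u v) = sem n s ⊔ gS s(u, v) := by
  unfold join relab
  have hb := beq_decide
  by_cases h : lab s u = lab s v
  · rw [hb, decide_eq_true h, cond_true]
    symm
    rw [sup_eq_left, gS_le]
    intro a b hab
    rw [Sym2.eq_iff] at hab
    rcases hab with ⟨h1, h2⟩ | ⟨h1, h2⟩
    · rw [h1, h2]; exact h
    · rw [h1, h2]; exact h.symm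
  · rw [hb, decide_eq_false h, cond_false]
    cases Nat.ble (lab s u) (lab s v) with
    | true =>
      rw [cond_true]
      refine ker_join (fun i : Fin n => lab s i) _ u v (lab s u) (lab s v) rfl rfl fun i => ?_
      change lab _ i = _
      rw [lab_build _ i.2, hb]
      by_cases hi : lab s i = lab s v
      · rw [decide_eq_true hi, cond_true, if_pos hi, Nat.mod_eq_of_lt (lab_lt _ _)]
      · rw [decide_eq_false hi, cond_false, if_neg hi, Nat.mod_eq_of_lt (lab_lt _ _)]
    | false =>
      rw [cond_false, show (s(u, v) : Sym2 (Fin n)) = s(v, u) from Sym2.eq_swap]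
      refine ker_join (fun i : Fin n => lab s i) _ v u (lab s v) (lab s u) rfl rfl fun i => ?_
      change lab _ i = _
      rw [lab_build _ i.2, hb]
      by_cases hi : lab s i = lab s u
      · rw [decide_eq_true hi, cond_true, if_pos hi, Nat.mod_eq_of_lt (lab_lt _ _)]
      · rw [decide_eq_false hi, cond_false, if_neg hi, Nat.mod_eq_of_lt (lab_lt _ _)]

/-! ### Weighted sets of codes -/

/-- Search trees with keys and values in `ℕ`. -/
inductive Tr where
  | nil : Tr
  | node : Tr → ℕ → ℕ → Tr → Tr

/-- Adding `v` at the key `k`. -/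
def Tr.ins (k v : ℕ) : Tr → Tr
  | .nil => .node .nil k v .nil
  | .node l k' v' r =>
    bif Nat.beq k k' then .node l k' (v' + v) r
    else bif Nat.ble k k' then .node (Tr.ins k v l) k' v' r else .node l k' v' (Tr.ins k v r)

/-- The sum of `v * f k` over all pairs `(k, v)` of the tree. -/
def Tr.val (f : ℕ → ℕ) : Tr → ℕ
  | .nil => 0
  | .node l k v r => Tr.val f l + v * f k + Tr.val f r

theorem Tr.val_ins (f : ℕ → ℕ) (k v : ℕ) (t : Tr) : (t.ins k v).val f = t.val f + v * f k := by
  induction t with
  | nil => simp [Tr.ins, Tr.val]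
  | node l k' v' r ihl ihr =>
    rw [Tr.ins]
    cases h : Nat.beq k k' with
    | true =>
      rw [cond_true, Tr.val, Tr.val, Nat.eq_of_beq_eq_true h]
      ring
    | false =>
      rw [cond_false]
      cases Nat.ble k k' with
      | true => rw [cond_true, Tr.val, Tr.val, ihl]; ring
      | false => rw [cond_false, Tr.val, Tr.val, ihr]; ring

/-- One edge `uv` with the weights `a` (present) and `b` (absent). -/
def Tr.edge (n u v a b : ℕ) : Tr → Tr → Tr
  | .nil, acc => acc
  | .node l k c r, acc =>
    Tr.edge n u v a b r (Tr.edge n u v a b l ((acc.ins k (b * c)).ins (join n k u v) (a * c)))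

theorem Tr.val_edge (f : ℕ → ℕ) (n u v a b : ℕ) (t acc : Tr) :
    (t.edge n u v a b acc).val f = acc.val f + t.val fun k => b * f k + a * f (join n k u v) := by
  induction t generalizing acc with
  | nil => simp [Tr.edge, Tr.val]
  | node l k c r ihl ihr =>
    rw [Tr.edge, ihr, ihl, Tr.val_ins, Tr.val_ins, Tr.val]
    ring

/-- Is the label of `x` different from the labels of all other `i < m`? -/
def alone (s x : ℕ) : ℕ → Bool
  | 0 => true
  | m + 1 => (bif Nat.beq m x then true else !(Nat.beq (lab s m) (lab s x))) && alone s x m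

/-- Move `x` to the class of `0`. -/
def move (n s x : ℕ) : ℕ := build (fun i => bif Nat.beq i x then lab s 0 else lab s i) n

/-- Forget the vertex `x`: drop the codes in which it is alone, otherwise move it to the class of `0`. -/
def Tr.forget (n x : ℕ) : Tr → Tr → Tr
  | .nil, acc => acc
  | .node l k c r, acc =>
    Tr.forget n x r (Tr.forget n x l (bif alone k x n then acc else acc.ins (move n k x) c))

theorem Tr.val_forget (f : ℕ → ℕ) (n x : ℕ) (h0 : ∀ k, alone k x n = true → f k = 0)
    (h1 : ∀ k, alone k x n = false → f (move n k x) = f k) (t acc : Tr) :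
    (t.forget n x acc).val f = acc.val f + t.val f := by
  induction t generalizing acc with
  | nil => simp [Tr.forget, Tr.val]
  | node l k c r ihl ihr =>
    rw [Tr.forget, ihr, ihl, Tr.val]
    cases h : alone k x n with
    | true => rw [cond_true, h0 k h]; ring
    | false => rw [cond_false, Tr.val_ins, h1 k h]; ring

theorem alone_true {s x m : ℕ} (h : alone s x m = true) {i : ℕ} (hi : i < m) (hix : i ≠ x) :
    lab s i ≠ lab s x := by
  induction m with
  | zero => omega
  | succ m ih =>
    rw [alone, Bool.and_eq_true] at h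
    rcases Nat.lt_succ_iff_lt_or_eq.1 hi with h' | h'
    · exact ih h.2 h'
    · subst h'
      have h1 := h.1
      rw [beq_decide, decide_eq_false hix, cond_false, beq_decide, Bool.not_eq_true',
        decide_eq_false_iff_not] at h1
      exact h1

theorem alone_false {s x m : ℕ} (h : alone s x m = false) : ∃ i, i < m ∧ i ≠ x ∧ lab s i = lab s x := by
  induction m with
  | zero => simp [alone] at h
  | succ m ih =>
    rw [alone, Bool.and_eq_false_iff] at h
    rcases h with h | h
    · refine ⟨m, Nat.lt_succ_self m, ?_⟩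
      by_cases hm : m = x
      · rw [beq_decide, decide_eq_true hm] at h
        simp at h
      · rw [beq_decide, decide_eq_false hm, cond_false, beq_decide, Bool.not_eq_false',
          decide_eq_true_iff] at h
        exact ⟨hm, h⟩
    · obtain ⟨i, hi, h1⟩ := ih h
      exact ⟨i, Nat.lt_succ_of_lt hi, h1⟩

/-- An operation of the programme. -/
inductive Op (n : ℕ) where
  | edge : Fin n → Fin n → ℕ → ℕ → Op n
  | forget : Fin n → Op n

/-- The edges of a programme. -/
def Op.edges {n : ℕ} : List (Op n) → List (Setoid (Fin n) × ℕ × ℕ)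
  | [] => []
  | .edge u v a b :: l => (gS s(u, v), a, b) :: Op.edges l
  | .forget _ :: l => Op.edges l

/-- No edge at `x` in the programme. -/
def Op.free {n : ℕ} (x : Fin n) : List (Op n) → Bool
  | [] => true
  | .edge u v _ _ :: l => !(Nat.beq u x) && !(Nat.beq v x) && Op.free x l
  | .forget _ :: l => Op.free x l

/-- Vertices are forgotten only when there are no more edges at them. -/
def Op.ok {n : ℕ} : List (Op n) → Bool
  | [] => true
  | .edge _ _ _ _ :: l => Op.ok l
  | .forget x :: l => !(Nat.beq x 0) && Op.free x l && Op.ok l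

/-- Running the programme. -/
def Op.run {n : ℕ} : List (Op n) → Tr → Tr
  | [], t => t
  | .edge u v a b :: l, t => Op.run l (t.edge n u v a b .nil)
  | .forget x :: l, t => Op.run l (t.forget n x .nil)

/-- All labels of `s` below `m` are equal to the label of `0`. -/
def allEq (s : ℕ) : ℕ → Bool
  | 0 => true
  | m + 1 => Nat.beq (lab s m) (lab s 0) && allEq s m

/-- The number of connected codes with their weights. -/
def Tr.final (n : ℕ) : Tr → ℕ
  | .nil => 0
  | .node l k v r => Tr.final n l + (bif allEq k n then v else 0) + Tr.final n r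

theorem allEq_iff {s m : ℕ} : allEq s m = true ↔ ∀ i < m, lab s i = lab s 0 := by
  induction m with
  | zero => simp [allEq]
  | succ m ih =>
    rw [allEq, Bool.and_eq_true, ih, beq_decide, decide_eq_true_iff]
    constructor
    · rintro ⟨h1, h2⟩ i hi
      rcases Nat.lt_succ_iff_lt_or_eq.1 hi with h | h
      · exact h2 i h
      · rw [h]; exact h1
    · intro h
      exact ⟨h m (Nat.lt_succ_self m), fun i hi => h i (Nat.lt_succ_of_lt hi)⟩

theorem sem_top {n s : ℕ} (hn : 0 < n) : sem n s = ⊤ ↔ allEq s n = true := by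
  rw [allEq_iff, eq_top_iff]
  constructor
  · intro h i hi
    exact h (show (⊤ : Setoid (Fin n)) ⟨i, hi⟩ ⟨0, hn⟩ from trivial)
  · intro h a b _
    change lab s a = lab s b
    rw [h a a.2, h b b.2]

theorem Tr.final_eq {n : ℕ} (hn : 0 < n) (t : Tr) : t.final n = t.val fun s => phi ℕ (sem n s) := by
  induction t with
  | nil => rfl
  | node l k v r ihl ihr =>
    rw [Tr.final, Tr.val, ihl, ihr, phi]
    by_cases h : sem n k = ⊤
    · rw [if_pos h, (sem_top hn).1 h, cond_true, mul_one]
    · rw [if_neg h, Bool.eq_false_iff.2 fun h' => h ((sem_top hn).2 h'), cond_false, mul_zero]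

theorem Op.free_le {n : ℕ} {x : Fin n} {l : List (Op n)} (h : Op.free x l = true) :
    ∀ e ∈ Op.edges l, e.1 ≤ Sx x := by
  induction l with
  | nil => simp [Op.edges]
  | cons o l ih =>
    cases o with
    | edge u v a b =>
      rw [Op.free, Bool.and_eq_true, Bool.and_eq_true, beq_decide, beq_decide, Bool.not_eq_true',
        Bool.not_eq_true', decide_eq_false_iff_not, decide_eq_false_iff_not] at h
      intro e he
      rw [Op.edges, List.mem_cons] at he
      rcases he with he | he
      · rw [he, gS_le]
        intro c d hcd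
        change (c = x) = (d = x)
        have hu : u ≠ x := fun h' => h.1.1 (by rw [h'])
        have hv : v ≠ x := fun h' => h.1.2 (by rw [h'])
        rw [Sym2.eq_iff] at hcd
        rcases hcd with ⟨h1, h2⟩ | ⟨h1, h2⟩
        · rw [h1, h2, eq_iff_iff]; exact ⟨fun h => absurd h hu, fun h => absurd h hv⟩
        · rw [h1, h2, eq_iff_iff]; exact ⟨fun h => absurd h hv, fun h => absurd h hu⟩
      · exact ih h.2 e he
    | forget y =>
      rw [Op.free] at h
      exact ih h

theorem Op.run_eq {n : ℕ} (l : List (Op n)) (hl : Op.ok l = true) (t : Tr) :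
    (Op.run l t).val (fun s => phi ℕ (sem n s)) = t.val fun s => ZL (phi ℕ) (Op.edges l) (sem n s) := by
  induction l generalizing t with
  | nil => rfl
  | cons o l ih =>
    cases o with
    | edge u v a b =>
      rw [Op.ok] at hl
      rw [Op.run, ih hl, Tr.val_edge]
      simp only [Tr.val, Nat.zero_add, Op.edges, ZL, sem_join]
    | forget x =>
      rw [Op.ok, Bool.and_eq_true, Bool.and_eq_true, beq_decide, Bool.not_eq_true',
        decide_eq_false_iff_not] at hl
      have hfree := Op.free_le hl.1.2
      have hx0 : (x : ℕ) ≠ 0 := hl.1.1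
      have hn : 0 < n := lt_of_le_of_lt (Nat.zero_le _) x.2
      rw [Op.run, ih hl.2, Tr.val_forget]
      · simp only [Tr.val, Nat.zero_add, Op.edges]
      · intro k hk
        refine ZL_alone x ⟨0, hn⟩ (fun h => hx0 (by rw [← h])) _ hfree _ ?_
        intro c d hcd
        change (c = x) = (d = x)
        have hcd' : lab k c = lab k d := hcd
        rw [eq_iff_iff]
        constructor
        · intro hc
          by_contra hd
          exact alone_true hk d.2 (fun h => hd (Fin.ext h)) (by rw [← hcd', hc])
        · intro hd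
          by_contra hc
          exact alone_true hk c.2 (fun h => hc (Fin.ext h)) (by rw [hcd', hd])
      · intro k hk
        refine ZL_forget x _ hfree _ _ ⟨?_, ?_, ?_⟩
        · intro c d hc hd
          change lab (move n k x) c = lab (move n k x) d ↔ lab k c = lab k d
          have hcx : (c : ℕ) ≠ x := fun h => hc (Fin.ext h)
          have hdx : (d : ℕ) ≠ x := fun h => hd (Fin.ext h)
          rw [move, lab_build _ c.2, lab_build _ d.2, beq_decide, beq_decide, decide_eq_false hcx,
            decide_eq_false hdx, cond_false, cond_false, Nat.mod_eq_of_lt (lab_lt _ _),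
            Nat.mod_eq_of_lt (lab_lt _ _)]
        · refine ⟨⟨0, hn⟩, fun h => hx0 (by rw [← h]), ?_⟩
          change lab (move n k x) x = lab (move n k x) 0
          rw [move, lab_build _ x.2, lab_build _ hn, beq_decide, beq_decide, decide_eq_true rfl,
            decide_eq_false (Ne.symm hx0), cond_true, cond_false]
        · obtain ⟨i, hi, hix, h⟩ := alone_false hk
          exact ⟨⟨i, hi⟩, fun h' => hix (by rw [← h']), h.symm⟩

/-- The value of the programme. -/
theorem Op.value {n : ℕ} (hn : 0 < n) (l : List (Op n)) (hl : Op.ok l = true) (s N : ℕ)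
    (h : Nat.beq ((Op.run l (.node .nil s 1 .nil)).final n) N = true) :
    ZL (phi ℕ) (Op.edges l) (sem n s) = N := by
  rw [← Nat.eq_of_beq_eq_true h, Tr.final_eq hn, Op.run_eq l hl]
  simp [Tr.val]

end Pool.Agent.NC
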