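import Pool.Agent.NC.Dp

/-!
The graph on ten vertices, with twenty one weighted edges: `K_{3,3}` and four further vertices.
-/

set_option autoImplicit false

namespace Pool.Agent.NC

/-- The programme of the graph. -/
def ops : List (Op 10) :=
  [.edge 0 2 1 20, .edge 0 3 1 20, .edge 0 4 1 20, .edge 1 2 1 20, .edge 1 3 1 20, .edge 1 4 1 20,
   .edge 5 2 1 20, .edge 5 3 1 20, .edge 5 4 1 20,
   .edge 6 3 1 200, .edge 6 4 1 200, .edge 6 1 1 1000, .forget 6,
   .edge 7 0 1 200, .edge 7 5 1 200, .edge 7 2 1 1000, .forget 7,
   .edge 8 1 1 500, .edge 8 2 1 500, .forget 8,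
   .edge 9 0 1 1000, .edge 9 3 1 1000, .edge 9 4 1 1000, .edge 9 5 1 1000]

theorem ops_ok : Op.ok ops = true := by decide +kernel

/-- Codes of the discrete partition, and of the partitions with the classes `67`, `89`. -/
def c00 : ℕ := 0x9876543210
def c10 : ℕ := 0x9866543210
def c01 : ℕ := 0x8876543210
def c11 : ℕ := 0x8866543210

theorem v00 : ZL (phi ℕ) (Op.edges ops) (sem 10 c00) = 11794649530619386701236069418381 :=
  Op.value (by norm_num) ops ops_ok _ _ (by decide +kernel)

theorem v10 : ZL (phi ℕ) (Op.edges ops) (sem 10 c10) = 2196582734364233965774274549418381 :=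
  Op.value (by norm_num) ops ops_ok _ _ (by decide +kernel)

theorem v01 : ZL (phi ℕ) (Op.edges ops) (sem 10 c01) = 5958374266902266501513293414668381 :=
  Op.value (by norm_num) ops ops_ok _ _ (by decide +kernel)

theorem v11 : ZL (phi ℕ) (Op.edges ops) (sem 10 c11) = 1109661009002684468787002811894668381 :=
  Op.value (by norm_num) ops ops_ok _ _ (by decide +kernel)

theorem violation : 2196582734364233965774274549418381 * 5958374266902266501513293414668381 <
    (1109661009002684468787002811894668381 * 11794649530619386701236069418381 : ℕ) := by norm_num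

end Pool.Agent.NC
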