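import Mathlib

/-!
The graph with `10` vertices and `23` edges for the counterexample to negative correlation.
Edge `0` is `67`, edge `1` is `89`. `len i` is the weight of the absence of the edge `i` (the length of a path
which replaces it).
-/

set_option autoImplicit false

namespace Pool.NC

/-- The ends of the edges. -/
def ends : Fin 23 → Fin 10 × Fin 10 :=
  ![(6, 7), (8, 9), (0, 2), (0, 3), (0, 4), (1, 2), (1, 3), (1, 4), (5, 2), (5, 3), (5, 4),
    (6, 3), (6, 4), (6, 1), (7, 0), (7, 5), (7, 2), (8, 1), (8, 2), (9, 0), (9, 3), (9, 4), (9, 5)]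

/-- The weights of absence. -/
def len : Fin 23 → ℕ :=
  ![1, 1, 20, 20, 20, 20, 20, 20, 20, 20, 20,
    200, 200, 1000, 200, 200, 1000, 500, 500, 1000, 1000, 1000, 1000]

/-- The edge number `i` as an unordered pair. -/
def edge (i : Fin 23) : Sym2 (Fin 10) := s((ends i).1, (ends i).2)

/-- The graph with the edges in `A`. -/
def gr (A : Finset (Fin 23)) : SimpleGraph (Fin 10) :=
  SimpleGraph.fromEdgeSet ((fun i => s((ends i).1, (ends i).2)) '' (A : Set (Fin 23)))

open Classical in
/-- The weighted number of connected spanning edge sets `A` which contain `X`. -/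
noncomputable def K (X : Finset (Fin 23)) : ℕ :=
  ∑ A ∈ (Finset.univ : Finset (Finset (Fin 23))).filter (fun A => X ⊆ A ∧ (gr A).Connected),
    ∏ i ∈ Aᶜ, len i

theorem edge_injective : Function.Injective edge := by
  have h : ∀ i j : Fin 23, edge i = edge j → i = j := by
    unfold edge ends
    decide
  exact fun i j => h i j

theorem not_loop (i : Fin 23) : (ends i).1 ≠ (ends i).2 := by
  revert i; decide

theorem len_pos (i : Fin 23) : 0 < len i := by
  revert i; decide

end Pool.NC
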