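import Mathlib

/-!
SWARM 16, row L2, first file: weighted sums over subsets with weights of ABSENCE, and how they
change when one edge `uv` of a graph is replaced by a path `u, *, v`.
-/

set_option autoImplicit false

namespace Pool.NC

open Finset

section general

variable {α β : Type*} [DecidableEq α] [DecidableEq β]

/-- `Zg E b φ` is the sum over all `F ⊆ E` of `φ F` times the product of the absence weights
`b x`, `x ∈ E \ F`. -/
def Zg (E : Finset α) (b : α → ℕ) (φ : Finset α → ℕ) : ℕ :=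
  ∑ F ∈ E.powerset, (∏ x ∈ E \ F, b x) * φ F

theorem Zg_insert {x : α} {E : Finset α} (hx : x ∉ E) (b : α → ℕ) (φ : Finset α → ℕ) :
    Zg (insert x E) b φ = b x * Zg E b φ + Zg E b (fun F => φ (insert x F)) := by
  unfold Zg
  rw [Finset.sum_powerset_insert hx, Finset.mul_sum]
  congr 1
  · refine Finset.sum_congr rfl fun F hF => ?_
    rw [Finset.mem_powerset] at hF
    have hxF : x ∉ F := fun h => hx (hF h)
    rw [Finset.insert_sdiff_of_notMem _ hxF, Finset.prod_insert, mul_assoc]
    simp [hx]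
  · refine Finset.sum_congr rfl fun F hF => ?_
    rw [Finset.mem_powerset] at hF
    congr 2
    ext y
    simp only [Finset.mem_sdiff, Finset.mem_insert]
    constructor
    · rintro ⟨h1 | h1, h2⟩
      · exact absurd (Or.inl h1) h2
      · exact ⟨h1, fun h => h2 (Or.inr h)⟩
    · rintro ⟨h1, h2⟩
      refine ⟨Or.inr h1, ?_⟩
      rintro (h | h)
      · exact hx (h ▸ h1)
      · exact h2 h

theorem Zg_congr {E : Finset α} {b b' : α → ℕ} {φ φ' : Finset α → ℕ}
    (hb : ∀ x ∈ E, b x = b' x) (hφ : ∀ F ⊆ E, φ F = φ' F) : Zg E b φ = Zg E b' φ' := by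
  unfold Zg
  refine Finset.sum_congr rfl fun F hF => ?_
  rw [Finset.mem_powerset] at hF
  rw [hφ F hF]
  congr 1
  exact Finset.prod_congr rfl fun x hx => hb x (Finset.mem_sdiff.1 hx).1

theorem Zg_map (g : α ↪ β) (E : Finset α) (b : β → ℕ) (φ : Finset β → ℕ) :
    Zg (E.map g) b φ = Zg E (fun x => b (g x)) (fun F => φ (F.map g)) := by
  unfold Zg
  symm
  refine Finset.sum_bij (fun F _ => F.map g) ?_ ?_ ?_ ?_
  · intro F hF
    rw [Finset.mem_powerset] at hF ⊢
    exact Finset.map_subset_map.2 hF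
  · intro F _ F' _ h
    exact Finset.map_injective g h
  · intro F hF
    rw [Finset.mem_powerset] at hF
    obtain ⟨F', hF', rfl⟩ := Finset.subset_map_iff.1 hF
    exact ⟨F', Finset.mem_powerset.2 hF', rfl⟩
  · intro F hF
    congr 1
    have : E.map g \ F.map g = (E \ F).map g := by
      rw [Finset.map_sdiff]
    rw [this, Finset.prod_map]

theorem Zg_zero (E : Finset α) (b : α → ℕ) : Zg E b (fun _ => 0) = 0 := by
  unfold Zg
  simp

/-- series step for the abstract sums: `p`, `q` new, `x ↦ g x` old. -/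
theorem Zg_series (g : α ↪ β) {E : Finset α} {x : α} (hx : x ∈ E) {p q : β}
    (hp : ∀ y, g y ≠ p) (hq : ∀ y, g y ≠ q) (hpq : p ≠ q)
    (b : α → ℕ) (b' : β → ℕ) (hb : ∀ y ∈ E, y ≠ x → b' (g y) = b y)
    (hbx : b' p + b' q = b x)
    (φ : Finset α → ℕ) (φ' : Finset β → ℕ)
    (h0 : ∀ F ⊆ E.erase x, φ' (F.map g) = 0)
    (h1 : ∀ F ⊆ E.erase x, φ' (insert p (F.map g)) = φ F)
    (h2 : ∀ F ⊆ E.erase x, φ' (insert q (F.map g)) = φ F)
    (h3 : ∀ F ⊆ E.erase x, φ' (insert p (insert q (F.map g))) = φ (insert x F)) :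
    Zg (insert p (insert q ((E.erase x).map g))) b' φ' = Zg E b φ := by
  have hpE : p ∉ insert q ((E.erase x).map g) := by
    rw [Finset.mem_insert]
    rintro (h | h)
    · exact hpq h
    · obtain ⟨y, _, h⟩ := Finset.mem_map.1 h
      exact hp y h
  have hqE : q ∉ (E.erase x).map g := by
    intro h
    obtain ⟨y, _, h⟩ := Finset.mem_map.1 h
    exact hq y h
  have hE : E = insert x (E.erase x) := (Finset.insert_erase hx).symm
  conv_rhs => rw [hE]
  rw [Zg_insert hpE, Zg_insert hqE, Zg_insert hqE, Zg_insert (Finset.notMem_erase x E),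
    Zg_map, Zg_map, Zg_map, Zg_map]
  have hb' : ∀ y ∈ E.erase x, b' (g y) = b y := fun y hy =>
    hb y (Finset.mem_of_mem_erase hy) (Finset.ne_of_mem_erase hy)
  rw [Zg_congr (φ' := fun _ => 0) hb' h0, Zg_congr (φ' := φ) hb' h1, Zg_congr (φ' := φ) hb' h2,
    Zg_congr (φ' := fun F => φ (insert x F)) hb' h3, Zg_zero, ← hbx]
  ring

end general

end Pool.NC
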