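import Mathlib

/-!
SWARM 16, row L2: connectivity of `fromEdgeSet` under the subdivision of one edge.
-/

set_option autoImplicit false

namespace Pool.NC

open SimpleGraph

section

variable {V W : Type*}

/-- Walks may be transported along a map which sends every edge of `S` to a pair of vertices
connected by `T`. -/
theorem reach_map {S : Set (Sym2 V)} {T : Set (Sym2 W)} (h : V → W)
    (hST : ∀ a b, s(a, b) ∈ S → (fromEdgeSet T).Reachable (h a) (h b)) {a b : V}
    (hab : (fromEdgeSet S).Reachable a b) : (fromEdgeSet T).Reachable (h a) (h b) := by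
  obtain ⟨p⟩ := hab
  induction p with
  | nil => exact Reachable.refl _
  | cons hadj _ ih =>
    rw [fromEdgeSet_adj] at hadj
    exact (hST _ _ hadj.1).trans ih

theorem reach_of_mem {T : Set (Sym2 V)} {a b : V} (h : s(a, b) ∈ T) :
    (fromEdgeSet T).Reachable a b := by
  by_cases hab : a = b
  · subst hab; exact Reachable.refl _
  · exact Adj.reachable ((fromEdgeSet_adj T).2 ⟨h, hab⟩)

theorem mem_image_some {F : Set (Sym2 V)} {x y : Option V}
    (h : s(x, y) ∈ Sym2.map some '' F) : ∃ a b, x = some a ∧ y = some b ∧ s(a, b) ∈ F := by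
  obtain ⟨z, hz, hzz⟩ := h
  induction z with
  | _ a b =>
    rw [Sym2.map_mk] at hzz
    rcases Sym2.eq_iff.1 hzz with ⟨h1, h2⟩ | ⟨h1, h2⟩
    · exact ⟨a, b, h1.symm, h2.symm, hz⟩
    · exact ⟨b, a, h2.symm, h1.symm, by rwa [Sym2.eq_swap]⟩

theorem mem_image_of {F : Set (Sym2 V)} {a b : V} (h : s(a, b) ∈ F) :
    s(some a, some b) ∈ Sym2.map (some : V → Option V) '' F := ⟨s(a, b), h, rfl⟩

/-- the new vertex alone is isolated. -/
theorem con_none [Nonempty V] (F : Set (Sym2 V)) :
    ¬ (fromEdgeSet (Sym2.map (some : V → Option V) '' F)).Connected := by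
  intro h
  obtain ⟨v⟩ := ‹Nonempty V›
  have hr := h.preconnected none (some v)
  obtain ⟨p⟩ := hr
  cases p with
  | cons hadj _ =>
    rw [fromEdgeSet_adj] at hadj
    obtain ⟨a, b, h1, _, _⟩ := mem_image_some hadj.1
    cases h1

/-- a pendant edge does not change connectedness. -/
theorem con_one (F : Set (Sym2 V)) (u : V) :
    (fromEdgeSet (insert s(some u, none) (Sym2.map (some : V → Option V) '' F))).Connected ↔
      (fromEdgeSet F).Connected := by
  set T := insert s(some u, none) (Sym2.map (some : V → Option V) '' F) with hT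
  have hsome : ∀ a b, (fromEdgeSet F).Reachable a b → (fromEdgeSet T).Reachable (some a) (some b) := by
    intro a b h
    exact reach_map some (fun x y hxy => reach_of_mem (Or.inr (mem_image_of hxy))) h
  let ρ : Option V → V := fun x => x.getD u
  have hret : ∀ x y, (fromEdgeSet T).Reachable x y → (fromEdgeSet F).Reachable (ρ x) (ρ y) := by
    intro x y h
    refine reach_map ρ ?_ h
    rintro x y (hxy | hxy)
    · rcases Sym2.eq_iff.1 hxy with ⟨rfl, rfl⟩ | ⟨rfl, rfl⟩ <;> exact Reachable.refl _
    · obtain ⟨a, b, rfl, rfl, hab⟩ := mem_image_some hxy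
      exact reach_of_mem hab
  have hn : (fromEdgeSet T).Reachable (some u) none := reach_of_mem (Or.inl rfl)
  constructor
  · intro h
    have : Nonempty V := ⟨u⟩
    exact ⟨fun a b => hret _ _ (h.preconnected (some a) (some b))⟩
  · intro h
    refine ⟨fun x y => ?_⟩
    have key : ∀ x : Option V, (fromEdgeSet T).Reachable (some u) x := by
      rintro (_ | a)
      · exact hn
      · exact hsome _ _ (h.preconnected u a)
    exact (key x).symm.trans (key y)

/-- a subdivided edge with both halves present acts like the edge. -/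
theorem con_two (F : Set (Sym2 V)) (u v : V) :
    (fromEdgeSet (insert s(some u, none) (insert s(none, some v)
      (Sym2.map (some : V → Option V) '' F)))).Connected ↔
      (fromEdgeSet (insert s(u, v) F)).Connected := by
  set T := insert s(some u, none) (insert s(none, some v)
    (Sym2.map (some : V → Option V) '' F)) with hT
  have hun : (fromEdgeSet T).Reachable (some u) none := reach_of_mem (Or.inl rfl)
  have hnv : (fromEdgeSet T).Reachable none (some v) := reach_of_mem (Or.inr (Or.inl rfl))
  have hsome : ∀ a b, (fromEdgeSet (insert s(u, v) F)).Reachable a b →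
      (fromEdgeSet T).Reachable (some a) (some b) := by
    intro a b h
    refine reach_map some ?_ h
    rintro x y (hxy | hxy)
    · rcases Sym2.eq_iff.1 hxy with ⟨rfl, rfl⟩ | ⟨rfl, rfl⟩
      · exact hun.trans hnv
      · exact (hun.trans hnv).symm
    · exact reach_of_mem (Or.inr (Or.inr (mem_image_of hxy)))
  let ρ : Option V → V := fun x => x.getD u
  have huv : (fromEdgeSet (insert s(u, v) F)).Reachable u v := reach_of_mem (Or.inl rfl)
  have hret : ∀ x y, (fromEdgeSet T).Reachable x y →
      (fromEdgeSet (insert s(u, v) F)).Reachable (ρ x) (ρ y) := by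
    intro x y h
    refine reach_map ρ ?_ h
    rintro x y (hxy | hxy | hxy)
    · rcases Sym2.eq_iff.1 hxy with ⟨rfl, rfl⟩ | ⟨rfl, rfl⟩ <;> exact Reachable.refl _
    · rcases Sym2.eq_iff.1 hxy with ⟨rfl, rfl⟩ | ⟨rfl, rfl⟩
      · exact huv
      · exact huv.symm
    · obtain ⟨a, b, rfl, rfl, hab⟩ := mem_image_some hxy
      exact reach_of_mem (Or.inr hab)
  constructor
  · intro h
    have : Nonempty V := ⟨u⟩
    exact ⟨fun a b => hret _ _ (h.preconnected (some a) (some b))⟩
  · intro h
    refine ⟨fun x y => ?_⟩
    have key : ∀ x : Option V, (fromEdgeSet T).Reachable (some u) x := by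
      rintro (_ | a)
      · exact hun
      · exact hsome _ _ (h.preconnected u a)
    exact (key x).symm.trans (key y)

theorem con_equiv (F : Set (Sym2 V)) (g : V ≃ W) :
    (fromEdgeSet (Sym2.map g '' F)).Connected ↔ (fromEdgeSet F).Connected := by
  constructor
  · intro h
    have : Nonempty V := g.symm.nonempty_congr.1 h.nonempty
    refine ⟨fun a b => ?_⟩
    have h1 := reach_map (S := Sym2.map g '' F) (T := F) g.symm ?_
      (h.preconnected (g a) (g b))
    · simpa using h1
    · rintro x y ⟨z, hz, hzz⟩
      induction z with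
      | _ c d =>
        rw [Sym2.map_mk] at hzz
        rcases Sym2.eq_iff.1 hzz with ⟨h1, h2⟩ | ⟨h1, h2⟩
        · rw [← h1, ← h2]; simpa using reach_of_mem hz
        · rw [← h1, ← h2]; simpa using (reach_of_mem hz).symm
  · intro h
    have : Nonempty W := g.nonempty_congr.1 h.nonempty
    refine ⟨fun x y => ?_⟩
    have h1 := reach_map (S := F) (T := Sym2.map g '' F) g ?_
      (h.preconnected (g.symm x) (g.symm y))
    · simpa using h1
    · intro a b hab
      exact reach_of_mem ⟨s(a, b), hab, rfl⟩

end

end Pool.NC
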