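import Mathlib
import Pool.Agent.NC.Sub0
import Pool.Agent.NC.SubConn

/-!
SWARM 16, row L2: from a weighted graph (absence weights `b x ≥ 1`, presence weight `1`) violating
`K(e,f) K(∅) ≤ K(e) K(f)` to an unweighted simple graph on some `Fin n` violating it.
One edge `uv` of absence weight `b ≥ 2` is replaced by `u, *, v` with absence weights `1` and
`b - 1`; all four sums stay the same.
-/

set_option autoImplicit false

namespace Pool.NC

open Finset SimpleGraph

/-- `1` if the edge set `F` makes a connected graph on the whole of `V`, `0` otherwise. -/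
noncomputable def con {V : Type*} (F : Finset (Sym2 V)) : ℕ := by
  classical exact if (fromEdgeSet (F : Set (Sym2 V))).Connected then 1 else 0

theorem con_eq_one {V : Type*} {F : Finset (Sym2 V)}
    (h : (fromEdgeSet (F : Set (Sym2 V))).Connected) : con F = 1 := by
  unfold con; exact if_pos h

theorem con_eq_zero {V : Type*} {F : Finset (Sym2 V)}
    (h : ¬ (fromEdgeSet (F : Set (Sym2 V))).Connected) : con F = 0 := by
  unfold con; exact if_neg h

theorem con_congr {V W : Type*} {F : Finset (Sym2 V)} {F' : Finset (Sym2 W)}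
    (h : (fromEdgeSet (F : Set (Sym2 V))).Connected ↔
      (fromEdgeSet (F' : Set (Sym2 W))).Connected) : con F = con F' := by
  by_cases h1 : (fromEdgeSet (F : Set (Sym2 V))).Connected
  · rw [con_eq_one h1, con_eq_one (h.1 h1)]
  · rw [con_eq_zero h1, con_eq_zero (fun h2 => h1 (h.2 h2))]

/-- the weight function `b` made zero on `X` (so that all elements of `X` must be present). -/
def zb {α : Type*} [DecidableEq α] (b : α → ℕ) (X : Finset α) : α → ℕ :=
  fun x => if x ∈ X then 0 else b x

/-- Weighted connected sum: present weight `1`, absent weight `b`. -/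
noncomputable def KK {V : Type*} [DecidableEq V] (E : Finset (Sym2 V)) (b : Sym2 V → ℕ) : ℕ :=
  Zg E b con

/-- A weighted counterexample. -/
structure Bad {V : Type*} [DecidableEq V] (E : Finset (Sym2 V)) (b : Sym2 V → ℕ)
    (e f : Sym2 V) : Prop where
  he : e ∈ E
  hf : f ∈ E
  hef : e ≠ f
  hd : ∀ x ∈ E, ¬ x.IsDiag
  be : b e = 1
  bf : b f = 1
  hb : ∀ x ∈ E, 1 ≤ b x
  lt : KK E (zb b {e}) * KK E (zb b {f}) < KK E (zb b {e, f}) * KK E (zb b ∅)

/-- pushing pairs forward along `some`. -/
def embO (V : Type*) : Sym2 V ↪ Sym2 (Option V) :=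
  ⟨Sym2.map some, Sym2.map.injective (Option.some_injective V)⟩

theorem emb_ne {V : Type*} (u : V) (y : Sym2 V) : embO V y ≠ s(some u, none) := by
  intro h
  induction y with
  | _ a b =>
    change Sym2.map some s(a, b) = s(some u, none) at h
    rw [Sym2.map_mk] at h
    rcases Sym2.eq_iff.1 h with ⟨_, h2⟩ | ⟨h1, _⟩
    · cases h2
    · cases h1

theorem emb_ne' {V : Type*} (v : V) (y : Sym2 V) : embO V y ≠ s(none, some v) := by
  rw [Sym2.eq_swap]; exact emb_ne v y

/-- the new weights. -/
noncomputable def nb {V : Type*} [DecidableEq V] (b : Sym2 V → ℕ) (u v : V) :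
    Sym2 (Option V) → ℕ :=
  Function.update (Function.update (Function.extend (embO V) b 0) s(none, some v)
    (b s(u, v) - 1)) s(some u, none) 1

theorem pq_ne {V : Type*} {u v : V} (huv : u ≠ v) :
    (s(some u, none) : Sym2 (Option V)) ≠ s(none, some v) := by
  intro h
  rcases Sym2.eq_iff.1 h with ⟨h1, _⟩ | ⟨h1, _⟩
  · cases h1
  · exact huv (Option.some.inj h1)

theorem nb_emb {V : Type*} [DecidableEq V] (b : Sym2 V → ℕ) (u v : V) (y : Sym2 V) :
    nb b u v (embO V y) = b y := by
  unfold nb
  rw [Function.update_of_ne (emb_ne u y), Function.update_of_ne (emb_ne' v y),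
    (embO V).injective.extend_apply]

theorem nb_p {V : Type*} [DecidableEq V] (b : Sym2 V → ℕ) (u v : V) :
    nb b u v s(some u, none) = 1 := by
  unfold nb; rw [Function.update_self]

theorem nb_q {V : Type*} [DecidableEq V] (b : Sym2 V → ℕ) {u v : V} (huv : u ≠ v) :
    nb b u v s(none, some v) = b s(u, v) - 1 := by
  unfold nb; rw [Function.update_of_ne (pq_ne huv).symm, Function.update_self]

/-- the new edge set. -/
def nE {V : Type*} [DecidableEq V] (E : Finset (Sym2 V)) (u v : V) : Finset (Sym2 (Option V)) :=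
  insert s(some u, none) (insert s(none, some v) ((E.erase s(u, v)).map (embO V)))

theorem coe_map_embO {V : Type*} (F : Finset (Sym2 V)) :
    ((F.map (embO V) : Finset (Sym2 (Option V))) : Set (Sym2 (Option V))) =
      Sym2.map (some : V → Option V) '' (F : Set (Sym2 V)) := by
  rw [Finset.coe_map]; rfl

theorem KK_step {V : Type*} [DecidableEq V] {E : Finset (Sym2 V)} {u v : V} (huv : u ≠ v)
    (hx : s(u, v) ∈ E) (b : Sym2 V → ℕ) (hb : 1 ≤ b s(u, v)) (X : Finset (Sym2 V))
    (hX : s(u, v) ∉ X) :
    KK (nE E u v) (zb (nb b u v) (X.map (embO V))) = KK E (zb b X) := by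
  have hne : Nonempty V := ⟨u⟩
  unfold KK nE
  have hmem : ∀ y, embO V y ∈ X.map (embO V) ↔ y ∈ X := fun y => by
    rw [Finset.mem_map']
  have hpX : (s(some u, none) : Sym2 (Option V)) ∉ X.map (embO V) := by
    intro h
    obtain ⟨y, _, h⟩ := Finset.mem_map.1 h
    exact emb_ne u y h
  have hqX : (s(none, some v) : Sym2 (Option V)) ∉ X.map (embO V) := by
    intro h
    obtain ⟨y, _, h⟩ := Finset.mem_map.1 h
    exact emb_ne' v y h
  refine Zg_series (embO V) hx (emb_ne u) (emb_ne' v) (pq_ne huv) (zb b X) _ ?_ ?_ con con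
    ?_ ?_ ?_ ?_
  · intro y _ _
    unfold zb
    simp only [hmem, nb_emb]
  · unfold zb
    rw [if_neg hpX, if_neg hqX, if_neg hX, nb_p, nb_q b huv]
    omega
  · intro F _
    refine con_eq_zero ?_
    rw [coe_map_embO]
    exact con_none _
  · intro F _
    refine con_congr ?_
    rw [Finset.coe_insert, coe_map_embO]
    exact con_one _ u
  · intro F _
    refine con_congr ?_
    rw [Finset.coe_insert, coe_map_embO, Sym2.eq_swap]
    exact con_one _ v
  · intro F _
    refine con_congr ?_
    rw [Finset.coe_insert, Finset.coe_insert, coe_map_embO, Finset.coe_insert]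
    exact con_two _ u v

theorem Bad.step {V : Type*} [DecidableEq V] {E : Finset (Sym2 V)} {b : Sym2 V → ℕ}
    {e f : Sym2 V} (h : Bad E b e f) {u v : V} (hx : s(u, v) ∈ E) (hb2 : 2 ≤ b s(u, v)) :
    Bad (nE E u v) (nb b u v) (embO V e) (embO V f) ∧
      ∑ z ∈ nE E u v, (nb b u v z - 1) < ∑ y ∈ E, (b y - 1) := by
  have huv : u ≠ v := by
    intro huv
    exact h.hd _ hx (by rw [huv]; exact Sym2.mk_isDiag_iff.2 rfl)
  have hxe : e ≠ s(u, v) := by rintro rfl; rw [h.be] at hb2; omega
  have hxf : f ≠ s(u, v) := by rintro rfl; rw [h.bf] at hb2; omega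
  have hK : ∀ X : Finset (Sym2 V), s(u, v) ∉ X →
      KK (nE E u v) (zb (nb b u v) (X.map (embO V))) = KK E (zb b X) :=
    KK_step huv hx b (by omega)
  refine ⟨⟨?_, ?_, ?_, ?_, ?_, ?_, ?_, ?_⟩, ?_⟩
  · unfold nE
    rw [Finset.mem_insert, Finset.mem_insert, Finset.mem_map', Finset.mem_erase]
    exact Or.inr (Or.inr ⟨hxe, h.he⟩)
  · unfold nE
    rw [Finset.mem_insert, Finset.mem_insert, Finset.mem_map', Finset.mem_erase]
    exact Or.inr (Or.inr ⟨hxf, h.hf⟩)
  · exact fun h1 => h.hef ((embO V).injective h1)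
  · intro z hz
    unfold nE at hz
    rw [Finset.mem_insert, Finset.mem_insert] at hz
    rcases hz with rfl | rfl | hz
    · rw [Sym2.mk_isDiag_iff]; intro h1; cases h1
    · rw [Sym2.mk_isDiag_iff]; intro h1; cases h1
    · obtain ⟨y, hy, rfl⟩ := Finset.mem_map.1 hz
      have hy' := h.hd y (Finset.mem_of_mem_erase hy)
      induction y with
      | _ a c =>
        change ¬ (Sym2.map some s(a, c)).IsDiag
        rw [Sym2.map_mk, Sym2.mk_isDiag_iff]
        intro h1
        exact hy' (Sym2.mk_isDiag_iff.2 (Option.some.inj h1))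
  · rw [nb_emb, h.be]
  · rw [nb_emb, h.bf]
  · intro z hz
    unfold nE at hz
    rw [Finset.mem_insert, Finset.mem_insert] at hz
    rcases hz with rfl | rfl | hz
    · rw [nb_p]
    · rw [nb_q b huv]; omega
    · obtain ⟨y, hy, rfl⟩ := Finset.mem_map.1 hz
      rw [nb_emb]
      exact h.hb y (Finset.mem_of_mem_erase hy)
  · have h1 := hK {e} (by simpa using hxe.symm)
    have h2 := hK {f} (by simpa using hxf.symm)
    have h3 := hK {e, f} (by simp [hxe.symm, hxf.symm])
    have h4 := hK ∅ (by simp)
    rw [Finset.map_singleton] at h1 h2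
    rw [Finset.map_insert, Finset.map_singleton] at h3
    rw [Finset.map_empty] at h4
    rw [h1, h2, h3, h4]
    exact h.lt
  · unfold nE
    have hpE : (s(some u, none) : Sym2 (Option V)) ∉
        insert s(none, some v) ((E.erase s(u, v)).map (embO V)) := by
      rw [Finset.mem_insert]
      rintro (h1 | h1)
      · exact pq_ne huv h1
      · obtain ⟨y, _, h1⟩ := Finset.mem_map.1 h1
        exact emb_ne u y h1
    have hqE : (s(none, some v) : Sym2 (Option V)) ∉ (E.erase s(u, v)).map (embO V) := by
      intro h1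
      obtain ⟨y, _, h1⟩ := Finset.mem_map.1 h1
      exact emb_ne' v y h1
    rw [Finset.sum_insert hpE, Finset.sum_insert hqE, Finset.sum_map, nb_p, nb_q b huv,
      ← Finset.add_sum_erase E (fun y => b y - 1) hx]
    simp only [nb_emb]
    omega

/-- Reduction to all absence weights equal to one. -/
theorem reduce : ∀ (N : ℕ) (V : Type) (_ : Fintype V) (_ : DecidableEq V)
    (E : Finset (Sym2 V)) (b : Sym2 V → ℕ) (e f : Sym2 V), Bad E b e f →
    ∑ y ∈ E, (b y - 1) = N →
    ∃ (W : Type) (_ : Fintype W) (_ : DecidableEq W) (E' : Finset (Sym2 W))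
      (b' : Sym2 W → ℕ) (e' f' : Sym2 W), Bad E' b' e' f' ∧ ∀ y ∈ E', b' y = 1 := by
  intro N
  induction N using Nat.strong_induction_on with
  | _ N ih =>
    intro V _ _ E b e f h hN
    by_cases hall : ∀ y ∈ E, b y = 1
    · exact ⟨V, ‹_›, ‹_›, E, b, e, f, h, hall⟩
    · push Not at hall
      obtain ⟨x, hx, hbx⟩ := hall
      have hb2 : 2 ≤ b x := by
        have := h.hb x hx
        omega
      induction x with
      | _ u v =>
        obtain ⟨h', hlt⟩ := h.step hx hb2
        exact ih _ (hN ▸ hlt) (Option V) inferInstance inferInstance _ _ _ _ h' rfl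

end Pool.NC
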