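import Mathlib
import Pool.Agent.NC.Sub

/-!
SWARM 16, row L2, end: every weighted counterexample `Bad E b e f` gives an unweighted
counterexample on `Fin n`, in the form of the negation of `S10671`.
-/

set_option autoImplicit false

namespace Pool.NC

open Finset SimpleGraph

/-- the four numbers of `S10672`: connected spanning edge sets of `G` containing `X`. -/
def CS {V : Type*} (G : SimpleGraph V) (X : Set (Sym2 V)) : Set (Finset (Sym2 V)) :=
  {F | (F : Set (Sym2 V)) ⊆ G.edgeSet ∧ X ⊆ F ∧ (fromEdgeSet (F : Set (Sym2 V))).Connected}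

theorem KK_eq_ncard {V : Type*} [DecidableEq V] {E : Finset (Sym2 V)}
    (hd : ∀ x ∈ E, ¬ x.IsDiag) {b : Sym2 V → ℕ} (hb : ∀ x ∈ E, b x = 1) {X : Finset (Sym2 V)}
    (hX : X ⊆ E) :
    KK E (zb b X) = (CS (fromEdgeSet (E : Set (Sym2 V))) (X : Set (Sym2 V))).ncard := by
  classical
  have hE : (fromEdgeSet (E : Set (Sym2 V))).edgeSet = (E : Set (Sym2 V)) := by
    rw [edgeSet_fromEdgeSet]
    ext x
    constructor
    · exact fun h => h.1
    · exact fun h => ⟨h, fun h' => hd x h h'⟩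
  have hset : CS (fromEdgeSet (E : Set (Sym2 V))) (X : Set (Sym2 V)) =
      ((E.powerset.filter (fun F => X ⊆ F ∧
        (fromEdgeSet (F : Set (Sym2 V))).Connected) : Finset (Finset (Sym2 V))) :
          Set (Finset (Sym2 V))) := by
    ext F
    unfold CS
    rw [hE]
    simp only [Set.mem_ofPred_eq, Finset.coe_filter, Finset.mem_powerset, Finset.coe_subset]
  rw [hset, Set.ncard_coe_finset, Finset.card_filter]
  unfold KK Zg
  refine Finset.sum_congr rfl fun F hF => ?_
  rw [Finset.mem_powerset] at hF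
  by_cases hc : (fromEdgeSet (F : Set (Sym2 V))).Connected
  · rw [con_eq_one hc, mul_one]
    by_cases hXF : X ⊆ F
    · rw [if_pos ⟨hXF, hc⟩]
      refine Finset.prod_eq_one fun x hx => ?_
      rw [Finset.mem_sdiff] at hx
      unfold zb
      rw [if_neg (fun h => hx.2 (hXF h)), hb x hx.1]
    · rw [if_neg (fun h => hXF h.1)]
      obtain ⟨x, hx, hxF⟩ := Finset.not_subset.1 hXF
      refine Finset.prod_eq_zero (i := x) (Finset.mem_sdiff.2 ⟨hX hx, hxF⟩) ?_
      unfold zb
      rw [if_pos hx]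
  · rw [con_eq_zero hc, mul_zero, if_neg (fun h => hc h.2)]

/-- transport of pairs along a bijection. -/
def embE {V W : Type*} (g : V ≃ W) : Sym2 V ↪ Sym2 W :=
  ⟨Sym2.map g, Sym2.map.injective g.injective⟩

theorem KK_equiv {V W : Type*} [DecidableEq V] [DecidableEq W] (g : V ≃ W)
    (E : Finset (Sym2 V)) (b : Sym2 W → ℕ) :
    KK (E.map (embE g)) b = KK E (fun x => b (embE g x)) := by
  unfold KK
  rw [Zg_map]
  refine Zg_congr (fun _ _ => rfl) fun F _ => con_congr ?_
  have : ((F.map (embE g) : Finset (Sym2 W)) : Set (Sym2 W)) =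
      Sym2.map g '' (F : Set (Sym2 V)) := by
    rw [Finset.coe_map]; rfl
  rw [this]
  exact con_equiv _ g

theorem KK_equiv_zb {V W : Type*} [DecidableEq V] [DecidableEq W] (g : V ≃ W)
    {E : Finset (Sym2 V)} {b : Sym2 V → ℕ} (hb : ∀ x ∈ E, b x = 1) (X : Finset (Sym2 V)) :
    KK (E.map (embE g)) (zb (fun _ => 1) (X.map (embE g))) = KK E (zb b X) := by
  rw [KK_equiv]
  unfold KK
  refine Zg_congr (fun x hx => ?_) fun F _ => rfl
  unfold zb
  simp only [Finset.mem_map', hb x hx]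

/-- **From a weighted to an unweighted counterexample on `Fin n`.** -/
theorem exists_simple {V : Type} [Fintype V] [DecidableEq V] {E : Finset (Sym2 V)}
    {b : Sym2 V → ℕ} {e f : Sym2 V} (h : Bad E b e f) :
    ∃ (n : ℕ) (G : SimpleGraph (Fin n)) (e f : Sym2 (Fin n)),
      e ∈ G.edgeSet ∧ f ∈ G.edgeSet ∧ e ≠ f ∧
      (CS G {e}).ncard * (CS G {f}).ncard < (CS G {e, f}).ncard * (CS G ∅).ncard := by
  obtain ⟨W, _, _, E', b', e', f', h', hb'⟩ := reduce _ V inferInstance inferInstance E b e f h rfl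
  let g : W ≃ Fin (Fintype.card W) := Fintype.equivFin W
  set E'' := E'.map (embE g) with hE''
  have hd'' : ∀ x ∈ E'', ¬ x.IsDiag := by
    intro x hx
    obtain ⟨y, hy, rfl⟩ := Finset.mem_map.1 hx
    have hy' := h'.hd y hy
    induction y with
    | _ a c =>
      change ¬ (Sym2.map g s(a, c)).IsDiag
      rw [Sym2.map_mk, Sym2.mk_isDiag_iff]
      intro h1
      exact hy' (Sym2.mk_isDiag_iff.2 (g.injective h1))
  have hE : (fromEdgeSet (E'' : Set (Sym2 (Fin (Fintype.card W))))).edgeSet =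
      (E'' : Set (Sym2 (Fin (Fintype.card W)))) := by
    rw [edgeSet_fromEdgeSet]
    ext x
    constructor
    · exact fun h => h.1
    · exact fun h => ⟨h, fun h' => hd'' x h h'⟩
  have key : ∀ X : Finset (Sym2 W), X ⊆ E' →
      (CS (fromEdgeSet (E'' : Set (Sym2 (Fin (Fintype.card W)))))
        ((X.map (embE g) : Finset (Sym2 (Fin (Fintype.card W)))) : Set _)).ncard =
        KK E' (zb b' X) := by
    intro X hX
    rw [← KK_equiv_zb g hb' X, ← KK_eq_ncard hd'' (b := fun _ => 1) (fun _ _ => rfl)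
      (Finset.map_subset_map.2 hX)]
  refine ⟨Fintype.card W, fromEdgeSet (E'' : Set (Sym2 (Fin (Fintype.card W)))),
    embE g e', embE g f', ?_, ?_, ?_, ?_⟩
  · rw [hE]; exact Finset.mem_coe.2 (Finset.mem_map_of_mem _ h'.he)
  · rw [hE]; exact Finset.mem_coe.2 (Finset.mem_map_of_mem _ h'.hf)
  · exact fun h1 => h'.hef ((embE g).injective h1)
  · have k1 := key {e'} (Finset.singleton_subset_iff.2 h'.he)
    have k2 := key {f'} (Finset.singleton_subset_iff.2 h'.hf)
    have k3 := key {e', f'} (by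
      intro x hx
      rw [Finset.mem_insert, Finset.mem_singleton] at hx
      rcases hx with rfl | rfl
      · exact h'.he
      · exact h'.hf)
    have k4 := key ∅ (Finset.empty_subset _)
    rw [Finset.map_singleton, Finset.coe_singleton] at k1 k2
    rw [Finset.map_insert, Finset.map_singleton, Finset.coe_insert, Finset.coe_singleton] at k3
    rw [Finset.map_empty, Finset.coe_empty] at k4
    rw [k1, k2, k3, k4]
    exact h'.lt

/-- The literal shape of `S10672`. -/
theorem not_S10671_of_bad {V : Type} [Fintype V] [DecidableEq V] {E : Finset (Sym2 V)}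
    {b : Sym2 V → ℕ} {e f : Sym2 V} (h : Bad E b e f) :
    ¬ (∀ (n : ℕ) (G : SimpleGraph (Fin n)) (e f : Sym2 (Fin n)),
      e ∈ G.edgeSet → f ∈ G.edgeSet → e ≠ f →
      {F : Finset (Sym2 (Fin n)) | (↑F : Set (Sym2 (Fin n))) ⊆ G.edgeSet ∧ e ∈ F ∧ f ∈ F ∧
          (SimpleGraph.fromEdgeSet (↑F : Set (Sym2 (Fin n)))).Connected}.ncard *
        {F : Finset (Sym2 (Fin n)) | (↑F : Set (Sym2 (Fin n))) ⊆ G.edgeSet ∧
          (SimpleGraph.fromEdgeSet (↑F : Set (Sym2 (Fin n)))).Connected}.ncard ≤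
      {F : Finset (Sym2 (Fin n)) | (↑F : Set (Sym2 (Fin n))) ⊆ G.edgeSet ∧ e ∈ F ∧
          (SimpleGraph.fromEdgeSet (↑F : Set (Sym2 (Fin n)))).Connected}.ncard *
        {F : Finset (Sym2 (Fin n)) | (↑F : Set (Sym2 (Fin n))) ⊆ G.edgeSet ∧ f ∈ F ∧
          (SimpleGraph.fromEdgeSet (↑F : Set (Sym2 (Fin n)))).Connected}.ncard) := by
  intro hall
  obtain ⟨n, G, e, f, he, hf, hef, hlt⟩ := exists_simple h
  have h1 := hall n G e f he hf hef
  have e1 : {F : Finset (Sym2 (Fin n)) | (↑F : Set (Sym2 (Fin n))) ⊆ G.edgeSet ∧ e ∈ F ∧ f ∈ F ∧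
      (SimpleGraph.fromEdgeSet (↑F : Set (Sym2 (Fin n)))).Connected} = CS G {e, f} := by
    ext F
    simp only [CS, Set.mem_ofPred_eq, Set.insert_subset_iff, Set.singleton_subset_iff,
      Finset.mem_coe, and_assoc]
  have e2 : {F : Finset (Sym2 (Fin n)) | (↑F : Set (Sym2 (Fin n))) ⊆ G.edgeSet ∧
      (SimpleGraph.fromEdgeSet (↑F : Set (Sym2 (Fin n)))).Connected} = CS G ∅ := by
    ext F
    simp only [CS, Set.mem_ofPred_eq, Set.empty_subset, true_and]
  have e3 : ∀ x : Sym2 (Fin n), {F : Finset (Sym2 (Fin n)) |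
      (↑F : Set (Sym2 (Fin n))) ⊆ G.edgeSet ∧ x ∈ F ∧
      (SimpleGraph.fromEdgeSet (↑F : Set (Sym2 (Fin n)))).Connected} = CS G {x} := by
    intro x
    ext F
    simp only [CS, Set.mem_ofPred_eq, Set.singleton_subset_iff, Finset.mem_coe]
  rw [e1, e2, e3, e3] at h1
  omega

end Pool.NC
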