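import Mathlib
import Pool.Agent.NC.Defs
import Pool.Agent.NC.Simple

/-!
SWARM 16, row L2: from the numerical inequality for the weighted graph with `10` vertices and `23`
edges (`Pool.NC.K`) to the structure `Pool.NC.Bad`.
-/

set_option autoImplicit false

namespace Pool.NC

open Finset SimpleGraph

/-- the edges of the graph, as an embedding. -/
def edgeEmb : Fin 23 ↪ Sym2 (Fin 10) := ⟨edge, edge_injective⟩

/-- the edge set. -/
def E10 : Finset (Sym2 (Fin 10)) := (Finset.univ : Finset (Fin 23)).map edgeEmb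

/-- the absence weights as a function on pairs. -/
noncomputable def b10 : Sym2 (Fin 10) → ℕ := Function.extend edge len 0

theorem edgeEmb_apply (i : Fin 23) : edgeEmb i = edge i := rfl

theorem b10_edge (i : Fin 23) : b10 (edge i) = len i :=
  edge_injective.extend_apply len 0 i

theorem coe_map_edgeEmb (A : Finset (Fin 23)) :
    ((A.map edgeEmb : Finset (Sym2 (Fin 10))) : Set (Sym2 (Fin 10))) =
      (fun i => s((ends i).1, (ends i).2)) '' (A : Set (Fin 23)) := by
  rw [Finset.coe_map]; rfl

theorem KK_eq_K (X : Finset (Fin 23)) : KK E10 (zb b10 (X.map edgeEmb)) = K X := by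
  classical
  unfold KK E10 K
  rw [Zg_map]
  unfold Zg
  rw [Finset.powerset_univ, Finset.sum_filter]
  refine Finset.sum_congr rfl fun A _ => ?_
  have hgr : (fromEdgeSet ((A.map edgeEmb : Finset (Sym2 (Fin 10))) : Set (Sym2 (Fin 10)))) =
      gr A := by
    rw [coe_map_edgeEmb]; rfl
  have hcompl : (Finset.univ : Finset (Fin 23)) \ A = Aᶜ := (Finset.compl_eq_univ_sdiff A).symm
  beta_reduce
  by_cases hc : (gr A).Connected
  · rw [con_eq_one (by rw [hgr]; exact hc), mul_one, hcompl]
    by_cases hX : X ⊆ A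
    · rw [if_pos ⟨hX, hc⟩]
      refine Finset.prod_congr rfl fun i hi => ?_
      have hiX : i ∉ X := fun h => (Finset.mem_compl.1 hi) (hX h)
      unfold zb
      have : edgeEmb i ∉ X.map edgeEmb := by rw [Finset.mem_map']; exact hiX
      rw [if_neg this]
      exact b10_edge i
    · rw [if_neg (fun h => hX h.1)]
      obtain ⟨i, hi, hiA⟩ := Finset.not_subset.1 hX
      refine Finset.prod_eq_zero (i := i) (Finset.mem_compl.2 hiA) ?_
      unfold zb
      rw [if_pos (Finset.mem_map_of_mem _ hi)]
  · rw [con_eq_zero (by rw [hgr]; exact hc), mul_zero, if_neg (fun h => hc h.2)]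

theorem bad_of_K_ineq (h : K {0} * K {1} < K {0, 1} * K ∅) :
    Bad E10 b10 (edge 0) (edge 1) where
  he := Finset.mem_map_of_mem edgeEmb (Finset.mem_univ 0)
  hf := Finset.mem_map_of_mem edgeEmb (Finset.mem_univ 1)
  hef := fun h' => absurd (edge_injective h') (by decide)
  hd := by
    intro x hx
    obtain ⟨i, _, rfl⟩ := Finset.mem_map.1 hx
    change ¬ (s((ends i).1, (ends i).2) : Sym2 (Fin 10)).IsDiag
    rw [Sym2.mk_isDiag_iff]
    exact not_loop i
  be := by rw [b10_edge]; rfl
  bf := by rw [b10_edge]; rfl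
  hb := by
    intro x hx
    obtain ⟨i, _, rfl⟩ := Finset.mem_map.1 hx
    change 1 ≤ b10 (edge i)
    rw [b10_edge]
    exact len_pos i
  lt := by
    have h1 := KK_eq_K {0}
    have h2 := KK_eq_K {1}
    have h3 := KK_eq_K {0, 1}
    have h4 := KK_eq_K ∅
    rw [Finset.map_singleton, edgeEmb_apply] at h1 h2
    rw [Finset.map_insert, Finset.map_singleton, edgeEmb_apply, edgeEmb_apply] at h3
    rw [Finset.map_empty] at h4
    rw [h1, h2, h3, h4]
    exact h

end Pool.NC
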