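import Mathlib

/-!
Sums over spanning subgraphs of a finite graph, as sums in the lattice of set partitions, and their
evaluation by a dynamic programme over the set partitions.
-/

set_option autoImplicit false

namespace Pool.Agent.NC

open Finset

section Abstract

variable {ι L R : Type*} [DecidableEq ι] [SemilatticeSup L] [OrderBot L] [CommSemiring R]

/-- The sum over all `F ⊆ E` of the product of the weights `a i` (`i ∈ F`) and `b i` (`i ∈ E \ F`), times
`φ` of the join of `r` and all `g i`, `i ∈ F`. -/
def Z (g : ι → L) (a b : ι → R) (φ : L → R) (E : Finset ι) (r : L) : R :=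
  ∑ F ∈ E.powerset, ((∏ i ∈ F, a i) * ∏ i ∈ E \ F, b i) * φ (r ⊔ F.sup g)

theorem Z_empty (g : ι → L) (a b : ι → R) (φ : L → R) (r : L) : Z g a b φ ∅ r = φ r := by
  simp [Z]

theorem Z_insert (g : ι → L) (a b : ι → R) (φ : L → R) {E : Finset ι} {i : ι} (hi : i ∉ E) (r : L) :
    Z g a b φ (insert i E) r = b i * Z g a b φ E r + a i * Z g a b φ E (r ⊔ g i) := by
  unfold Z
  rw [Finset.sum_powerset_insert hi, Finset.mul_sum, Finset.mul_sum]
  congr 1
  · refine Finset.sum_congr rfl fun F hF => ?_
    rw [Finset.mem_powerset] at hF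
    have hiF : i ∉ F := fun h => hi (hF h)
    rw [Finset.insert_sdiff_of_notMem _ hiF, Finset.prod_insert (by simp [hi])]
    ring
  · refine Finset.sum_congr rfl fun F hF => ?_
    rw [Finset.mem_powerset] at hF
    have hiF : i ∉ F := fun h => hi (hF h)
    rw [Finset.prod_insert hiF, Finset.sup_insert]
    have : insert i E \ insert i F = E \ F := by
      ext x
      simp only [Finset.mem_sdiff, Finset.mem_insert, not_or]
      constructor
      · rintro ⟨h | h, h1, h2⟩
        · exact absurd h h1
        · exact ⟨h, h2⟩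
      · rintro ⟨h, h2⟩
        exact ⟨Or.inr h, fun hx => hi (hx ▸ h), h2⟩
    rw [this, sup_assoc]
    ring

/-- The same sum for a list of weighted lattice elements. -/
def ZL (φ : L → R) : List (L × R × R) → L → R
  | [], r => φ r
  | e :: l, r => e.2.2 * ZL φ l r + e.2.1 * ZL φ l (r ⊔ e.1)

theorem Z_eq_ZL (g : ι → L) (a b : ι → R) (φ : L → R) (is : List ι) (hn : is.Nodup) (r : L) :
    Z g a b φ is.toFinset r = ZL φ (is.map fun i => (g i, a i, b i)) r := by
  induction is generalizing r with
  | nil => simp [Z_empty, ZL]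
  | cons i is ih =>
    rw [List.nodup_cons] at hn
    rw [List.toFinset_cons, Z_insert g a b φ (by simpa using hn.1), ih hn.2, ih hn.2]
    rfl

end Abstract

section Graph

variable {V : Type*}

/-- The partition of `V` whose only nontrivial class is the edge `e`. -/
def gS (e : Sym2 V) : Setoid V := Relation.EqvGen.setoid fun a b => s(a, b) = e

theorem gS_rel {e : Sym2 V} {a b : V} (h : s(a, b) = e) : gS e a b :=
  Relation.EqvGen.rel _ _ h

theorem gS_le {e : Sym2 V} {r : Setoid V} : gS e ≤ r ↔ ∀ a b, s(a, b) = e → r a b := by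
  constructor
  · intro h a b hab
    exact h (gS_rel hab)
  · intro h a b hab
    exact Setoid.eqvGen_le (r := fun a b => s(a, b) = e) (s := r) h hab

/-- Components of the graph with the edge set `F`. -/
theorem reachable_iff (F : Finset (Sym2 V)) [DecidableEq V] (a b : V) :
    (SimpleGraph.fromEdgeSet (F : Set (Sym2 V))).Reachable a b ↔ (F.sup gS : Setoid V) a b := by
  constructor
  · rintro ⟨p⟩
    induction p with
    | nil => exact (F.sup gS : Setoid V).refl _
    | @cons u v w h _ ih =>
      rw [SimpleGraph.fromEdgeSet_adj] at h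
      have h1 : gS s(u, v) ≤ (F.sup gS : Setoid V) := Finset.le_sup (f := gS) h.1
      exact (F.sup gS : Setoid V).trans (h1 (gS_rel rfl)) ih
  · have h : (F.sup gS : Setoid V) ≤ (SimpleGraph.fromEdgeSet (F : Set (Sym2 V))).reachableSetoid := by
      refine Finset.sup_le fun e he => ?_
      rw [gS_le]
      intro a b hab
      change (SimpleGraph.fromEdgeSet (F : Set (Sym2 V))).Reachable a b
      by_cases hne : a = b
      · subst hne; exact SimpleGraph.Reachable.refl _
      · refine SimpleGraph.Adj.reachable ?_
        rw [SimpleGraph.fromEdgeSet_adj]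
        exact ⟨by rw [hab]; exact he, hne⟩
    intro hab
    exact h hab

theorem connected_iff [Nonempty V] [DecidableEq V] (F : Finset (Sym2 V)) :
    (SimpleGraph.fromEdgeSet (F : Set (Sym2 V))).Connected ↔ (F.sup gS : Setoid V) = ⊤ := by
  rw [SimpleGraph.connected_iff]
  constructor
  · rintro ⟨h, _⟩
    rw [eq_top_iff]
    intro a b _
    exact (reachable_iff F a b).1 (h a b)
  · intro h
    refine ⟨fun a b => (reachable_iff F a b).2 ?_, inferInstance⟩
    rw [h]; trivial

end Graph

end Pool.Agent.NC
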