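import Mathlib

/-!
# The cycle matroid of a finite multigraph: half plane property and Rayleigh property
-/

set_option autoImplicit false

open Finset

namespace Pool.Agent.NC

/-! ### The matroid of a family of vectors -/

section Vec
variable {E : Type} [Finite E] {d : ℕ}

/-- the matroid of a family of rational vectors -/
noncomputable def vmat (r : E → Fin d → ℚ) : Matroid E :=
  (IndepMatroid.ofFinite (Set.finite_univ (α := E)) (fun I => LinearIndepOn ℚ r I)
    (linearIndepOn_empty ℚ r) (fun _ _ hJ hIJ => hJ.mono hIJ)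
    (by
      intro I J hI hJ hIJ
      by_contra hcon
      push Not at hcon
      have h1 : Submodule.span ℚ (r '' J) ≤ Submodule.span ℚ (r '' I) := by
        rw [Submodule.span_le]
        rintro _ ⟨e, he, rfl⟩
        by_cases heI : e ∈ I
        · exact Submodule.subset_span ⟨e, heI, rfl⟩
        · have h2 := hcon e he heI
          rw [linearIndepOn_insert heI] at h2
          by_contra h3
          exact h2 ⟨hI, h3⟩
      have h2 := Submodule.finrank_mono h1
      have key : ∀ S : Set E, LinearIndepOn ℚ r S →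
          Module.finrank ℚ (Submodule.span ℚ (r '' S)) = S.ncard := by
        intro S hS
        have := Fintype.ofFinite S
        have h3 := finrank_span_eq_card hS
        rw [Set.image_eq_range, h3, Set.ncard_eq_toFinset_card', Set.toFinset_card]
      rw [key I hI, key J hJ] at h2
      omega)
    (fun _ _ => Set.subset_univ _)).matroid

lemma vmat_E (r : E → Fin d → ℚ) : (vmat r).E = Set.univ := rfl

lemma vmat_indep (r : E → Fin d → ℚ) (I : Set E) : (vmat r).Indep I ↔ LinearIndepOn ℚ r I :=
  Iff.rfl

lemma ncard_le (r : E → Fin d → ℚ) {I : Set E} (h : LinearIndepOn ℚ r I) : I.ncard ≤ d := by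
  have := Fintype.ofFinite I
  have h1 := LinearIndependent.fintype_card_le_finrank h
  rw [Module.finrank_fin_fun] at h1
  rwa [Set.ncard_eq_toFinset_card', Set.toFinset_card]

omit [Finite E] in
lemma det_ne_iff (r : E → Fin d → ℚ) (B : Fin d → E) :
    (Matrix.of fun i j => r (B i) j : Matrix (Fin d) (Fin d) ℚ).det ≠ 0 ↔
      LinearIndependent ℚ fun i => r (B i) := by
  have h1 := Matrix.linearIndependent_rows_iff_isUnit
    (A := (Matrix.of fun i j => r (B i) j : Matrix (Fin d) (Fin d) ℚ))
  rw [Matrix.isUnit_iff_isUnit_det, isUnit_iff_ne_zero] at h1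
  exact h1.symm

lemma det_ne_iff_base (r : E → Fin d → ℚ) (B : Fin d → E) :
    (Matrix.of fun i j => r (B i) j : Matrix (Fin d) (Fin d) ℚ).det ≠ 0 ↔
      Function.Injective B ∧ (vmat r).IsBase (Set.range B) := by
  rw [det_ne_iff]
  constructor
  · intro h
    have hinj : Function.Injective B := by
      intro i j hij
      have h1 := h.injective (a₁ := i) (a₂ := j)
      exact h1 (by simp only [hij])
    refine ⟨hinj, ?_⟩
    rw [Matroid.isBase_iff_maximal_indep]
    refine ⟨(vmat_indep _ _).2 ((linearIndepOn_range_iff hinj r).2 h), fun J hJ hBJ => ?_⟩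
    have h2 := ncard_le _ ((vmat_indep _ J).1 hJ)
    have h3 : (Set.range B).ncard = d := by
      rw [Set.ncard_range_of_injective hinj, Nat.card_fin]
    exact (Set.eq_of_subset_of_ncard_le hBJ (by rw [h3]; exact h2)).symm.le
  · rintro ⟨hinj, hB⟩
    exact (linearIndepOn_range_iff hinj r).1 ((vmat_indep _ _).1 hB.indep)

/-- a set whose vectors span the whole space is spanning -/
lemma spanning_of_span (r : E → Fin d → ℚ) (S : Set E)
    (h : Submodule.span ℚ (r '' S) = ⊤) : (vmat r).Spanning S := by
  obtain ⟨I, hI⟩ := (vmat r).exists_isBasis S (Set.subset_univ S)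
  have h1 : Submodule.span ℚ (r '' S) ≤ Submodule.span ℚ (r '' I) := by
    rw [Submodule.span_le]
    rintro _ ⟨e, he, rfl⟩
    by_cases heI : e ∈ I
    · exact Submodule.subset_span ⟨e, heI, rfl⟩
    · by_contra h3
      have h4 : LinearIndepOn ℚ r (insert e I) := by
        rw [linearIndepOn_insert heI]
        exact ⟨(vmat_indep _ _).1 hI.indep, h3⟩
      exact heI (hI.mem_of_insert_indep he ((vmat_indep _ _).2 h4))
  have h2 : Submodule.span ℚ (r '' I) = ⊤ := top_le_iff.mp (h ▸ h1)
  have h3 : (vmat r).IsBase I := by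
    rw [Matroid.isBase_iff_maximal_indep]
    refine ⟨hI.indep, fun J hJ hIJ => ?_⟩
    intro e he
    by_contra heI
    have h4 : LinearIndepOn ℚ r (insert e I) :=
      ((vmat_indep _ _).1 hJ).mono (Set.insert_subset he hIJ)
    rw [linearIndepOn_insert heI] at h4
    exact h4.2 (by rw [h2]; trivial)
  exact (Matroid.spanning_iff_exists_isBase_subset (Set.subset_univ S)).2 ⟨I, h3, hI.subset⟩

end Vec

/-! ### Cauchy-Binet for a unimodular family -/

section CB
variable {E : Type} [Fintype E] [DecidableEq E] {d : ℕ}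

/-- the matrix `∑ e, x e • (r e) (r e)ᵀ` -/
def lap {R : Type} [CommRing R] (r : E → Fin d → ℤ) (x : E → R) : Matrix (Fin d) (Fin d) R :=
  Matrix.of fun i j => ∑ e : E, (x e * (r e i : R)) * (r e j : R)

/-- the matrix with rows the vectors of the elements `g i` -/
def NN (r : E → Fin d → ℤ) (g : Fin d → E) : Matrix (Fin d) (Fin d) ℤ :=
  Matrix.of fun i j => r (g i) j

omit [DecidableEq E] in
lemma det_expand {R : Type} [CommRing R] (r : E → Fin d → ℤ) (x : E → R) :
    (lap r x).det = ∑ f : Fin d → E, (∏ i, x (f i) * (r (f i) i : R)) *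
        Matrix.det (Matrix.of fun i j => (r (f i) j : R)) := by
  have h1 : lap r x = fun i => ∑ e : E, (x e * (r e i : R)) • (fun j : Fin d => (r e j : R)) := by
    funext v w
    simp [lap, Finset.sum_apply]
  have h2 := (Matrix.detRowAlternating (n := Fin d) (R := R)).toMultilinearMap.map_sum
    (fun (i : Fin d) (e : E) => (x e * (r e i : R)) • (fun j : Fin d => (r e j : R)))
  have h3 : (lap r x).det = (Matrix.detRowAlternating (n := Fin d) (R := R)).toMultilinearMap
      (fun i => ∑ e : E, (x e * (r e i : R)) • (fun j : Fin d => (r e j : R))) := by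
    rw [h1]; rfl
  rw [h3, h2]
  refine Finset.sum_congr rfl fun f _ => ?_
  rw [MultilinearMap.map_smul_univ]
  rfl

omit [Fintype E] [DecidableEq E] in
lemma cast_det {R : Type} [CommRing R] (r : E → Fin d → ℤ) (g : Fin d → E) :
    ((NN r g).det : R) = Matrix.det (Matrix.of fun i j : Fin d => (r (g i) j : R)) := by
  have := (Int.castRingHom R).map_det (NN r g)
  simp only [eq_intCast] at this
  rw [this]
  rfl

omit [Fintype E] [DecidableEq E] in
lemma sum_perm {R : Type} [CommRing R] (r : E → Fin d → ℤ) (x : E → R) (g : Fin d → E) :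
    ∑ σ : Equiv.Perm (Fin d), (∏ i, x (g (σ i)) * (r (g (σ i)) i : R)) *
        Matrix.det (Matrix.of fun i j => (r (g (σ i)) j : R)) =
      (∏ i, x (g i)) * (((NN r g).det * (NN r g).det : ℤ) : R) := by
  have h1 : ∀ σ : Equiv.Perm (Fin d),
      Matrix.det (Matrix.of fun i j => (r (g (σ i)) j : R)) =
      (Equiv.Perm.sign σ : R) * ((NN r g).det : R) := by
    intro σ
    rw [cast_det, ← Matrix.det_permute]
    rfl
  have h2 : ((NN r g).det : R) = ∑ σ : Equiv.Perm (Fin d), (Equiv.Perm.sign σ : R) *
      ∏ i, (r (g (σ i)) i : R) := by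
    rw [cast_det, Matrix.det_apply']
    rfl
  rw [Int.cast_mul]
  nth_rewrite 1 [h2]
  rw [Finset.sum_mul, Finset.mul_sum]
  refine Finset.sum_congr rfl fun σ _ => ?_
  rw [h1, Finset.prod_mul_distrib, Equiv.prod_comp σ (fun v => x (g v))]
  ring

/-- the matroid of a family of integer vectors -/
noncomputable def imat (r : E → Fin d → ℤ) : Matroid E := vmat fun e i => (r e i : ℚ)

omit [DecidableEq E] in
lemma imat_base_iff (r : E → Fin d → ℤ) (g : Fin d → E) :
    (NN r g).det ≠ 0 ↔ Function.Injective g ∧ (imat r).IsBase (Set.range g) := by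
  have h := det_ne_iff_base (fun e i => (r e i : ℚ)) g
  rw [← cast_det r g] at h
  rw [imat, ← h]
  norm_cast

omit [DecidableEq E] in
lemma imat_base_ncard (r : E → Fin d → ℤ) (g₀ : Fin d → E) (h₀ : (NN r g₀).det ≠ 0) {S : Set E}
    (hS : (imat r).IsBase S) : S.ncard = d := by
  have h1 := (imat_base_iff r g₀).1 h₀
  rw [hS.ncard_eq_ncard_of_isBase h1.2, Set.ncard_range_of_injective h1.1, Nat.card_fin]

open Classical in
/-- Cauchy-Binet for a unimodular family -/
theorem det_lap {R : Type} [CommRing R] (r : E → Fin d → ℤ)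
    (hU : ∀ g : Fin d → E, (NN r g).det ≠ 0 → (NN r g).det * (NN r g).det = 1)
    (g₀ : Fin d → E) (h₀ : (NN r g₀).det ≠ 0) (x : E → R) :
    (lap r x).det = ∑ S : Finset E, if (imat r).IsBase (S : Set E) then ∏ e ∈ S, x e else 0 := by
  rw [det_expand, ← Finset.sum_fiberwise (Finset.univ : Finset (Fin d → E))
    (fun f => Finset.univ.image f)]
  refine Finset.sum_congr rfl fun T _ => ?_
  by_cases hT : T.card = d
  · -- fix a bijection
    have e0 : Fin d ≃ T := by
      refine Fintype.equivOfCardEq ?_
      simp [hT]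
    set g : Fin d → E := fun v => (e0 v).1 with hg
    have hginj : Function.Injective g := fun a b h => e0.injective (Subtype.ext h)
    have hrange : Set.range g = (T : Set E) := by
      ext e
      constructor
      · rintro ⟨v, rfl⟩
        exact (e0 v).2
      · intro he
        exact ⟨e0.symm ⟨e, he⟩, by simp [hg]⟩
    have hprod : ∏ v, x (g v) = ∏ e ∈ T, x e := by
      rw [← Finset.prod_coe_sort T, ← Equiv.prod_comp e0]
    have hsum : ∑ f ∈ (Finset.univ : Finset (Fin d → E)) with Finset.univ.image f = T,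
        ((∏ v, x (f v) * (r (f v) v : R)) *
          Matrix.det (Matrix.of fun v w => (r (f v) w : R))) =
        ∑ σ : Equiv.Perm (Fin d), (∏ v, x (g (σ v)) * (r (g (σ v)) v : R)) *
          Matrix.det (Matrix.of fun v w => (r (g (σ v)) w : R)) := by
      symm
      refine Finset.sum_nbij (fun σ => g ∘ σ) ?_ ?_ ?_ ?_
      · intro σ _
        simp only [Finset.mem_filter, Finset.mem_univ, true_and]
        ext e
        rw [← Finset.mem_coe, ← Finset.mem_coe, Finset.coe_image, Finset.coe_univ, Set.image_univ,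
          ← hrange, Set.range_comp]
        simp
      · intro σ _ τ _ h
        refine Equiv.ext fun v => hginj (congrFun h v)
      · intro f hf
        simp only [Finset.coe_filter, Finset.mem_univ, true_and, Set.mem_ofPred_eq] at hf
        have hmem : ∀ v, f v ∈ T := fun v => by
          rw [← hf]; exact Finset.mem_image_of_mem _ (Finset.mem_univ v)
        have hbij : Function.Bijective (fun v => e0.symm ⟨f v, hmem v⟩) := by
          rw [← Finite.surjective_iff_bijective]
          intro v
          have : g v ∈ Finset.univ.image f := by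
            rw [hf]; exact (e0 v).2
          obtain ⟨w, _, hw⟩ := Finset.mem_image.mp this
          refine ⟨w, ?_⟩
          rw [Equiv.symm_apply_eq]
          exact Subtype.ext hw
        refine ⟨Equiv.ofBijective _ hbij, by simp, ?_⟩
        funext v
        simp [hg]
      · intro σ _
        rfl
    rw [hsum, sum_perm, hprod]
    by_cases hc : (NN r g).det = 0
    · have hnb : ¬ (imat r).IsBase (T : Set E) := by
        intro hb
        exact (imat_base_iff r g).2 ⟨hginj, hrange ▸ hb⟩ hc
      rw [hc, if_neg hnb]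
      simp
    · have hb : (imat r).IsBase (T : Set E) := hrange ▸ ((imat_base_iff r g).1 hc).2
      rw [hU g hc, if_pos hb]
      simp
  · rw [if_neg]
    · refine Finset.sum_eq_zero fun f hf => ?_
      simp only [Finset.mem_filter, Finset.mem_univ, true_and] at hf
      have hninj : ¬ Function.Injective f := by
        intro hinj
        apply hT
        rw [← hf, Finset.card_image_of_injective _ hinj, Finset.card_univ, Fintype.card_fin]
      rw [Function.not_injective_iff] at hninj
      obtain ⟨a, b, hab, hne⟩ := hninj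
      rw [Matrix.det_zero_of_row_eq hne, mul_zero]
      funext w
      simp [hab]
    · intro hb
      apply hT
      have := imat_base_ncard r g₀ h₀ hb
      rwa [Set.ncard_coe_finset] at this

end CB


/-! ### Half plane property -/

section HPP
variable {E : Type} [Fintype E] [DecidableEq E] {d : ℕ}

omit [Fintype E] [DecidableEq E] in
/-- a vector orthogonal to a nonsingular family vanishes -/
lemma eq_zero_of_orth {K : Type} [Field K] [CharZero K] (r : E → Fin d → ℤ) (g₀ : Fin d → E)
    (h₀ : (NN r g₀).det ≠ 0) (w : Fin d → K) (hw : ∀ i, ∑ j, (r (g₀ i) j : K) * w j = 0) :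
    w = 0 := by
  by_contra hne
  have h1 : ((NN r g₀).det : K) = 0 := by
    rw [cast_det, ← Matrix.exists_mulVec_eq_zero_iff]
    exact ⟨w, hne, funext fun i => hw i⟩
  exact h₀ (by exact_mod_cast h1)

omit [DecidableEq E] in
lemma quad {x : E → ℂ} (r : E → Fin d → ℤ) (w : Fin d → ℂ) :
    ∑ i, (starRingEnd ℂ) (w i) * (lap r x).mulVec w i =
      ∑ e : E, x e * (Complex.normSq (∑ j, (r e j : ℂ) * w j) : ℂ) := by
  have h1 : ∀ e : E, (Complex.normSq (∑ j, (r e j : ℂ) * w j) : ℂ) =
      ∑ i, ∑ j, (starRingEnd ℂ) (w i) * (r e i : ℂ) * ((r e j : ℂ) * w j) := by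
    intro e
    rw [Complex.normSq_eq_conj_mul_self, map_sum, Finset.sum_mul]
    refine Finset.sum_congr rfl fun i _ => ?_
    rw [Finset.mul_sum]
    refine Finset.sum_congr rfl fun j _ => ?_
    rw [map_mul, map_intCast]
    ring
  simp only [h1, Matrix.mulVec, dotProduct, lap, Matrix.of_apply, Finset.mul_sum, Finset.sum_mul]
  conv_rhs => rw [Finset.sum_comm]
  refine Finset.sum_congr rfl fun i _ => ?_
  conv_rhs => rw [Finset.sum_comm]
  refine Finset.sum_congr rfl fun j _ => ?_
  refine Finset.sum_congr rfl fun e _ => ?_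
  ring

omit [DecidableEq E] in
/-- the half plane property -/
theorem lap_det_ne_zero (r : E → Fin d → ℤ) (g₀ : Fin d → E) (h₀ : (NN r g₀).det ≠ 0)
    (x : E → ℂ) (hx : ∀ e, 0 < (x e).re) : (lap r x).det ≠ 0 := by
  intro h
  rw [← Matrix.exists_mulVec_eq_zero_iff] at h
  obtain ⟨w, hw0, hw⟩ := h
  apply hw0
  have h1 := quad (x := x) r w
  rw [hw] at h1
  simp only [Pi.zero_apply, mul_zero, Finset.sum_const_zero] at h1
  have h2 : ∑ e : E, (x e).re * Complex.normSq (∑ j, (r e j : ℂ) * w j) = 0 := by
    have := congrArg Complex.re h1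
    rw [Complex.zero_re, Complex.re_sum] at this
    rw [this]
    refine Finset.sum_congr rfl fun e _ => ?_
    simp
  have h3 : ∀ e : E, ∑ j, (r e j : ℂ) * w j = 0 := by
    intro e
    have h4 := (Finset.sum_eq_zero_iff_of_nonneg (fun e _ => mul_nonneg (hx e).le
      (Complex.normSq_nonneg _))).1 h2 e (Finset.mem_univ e)
    rcases mul_eq_zero.1 h4 with h5 | h5
    · exact absurd h5 (hx e).ne'
    · exact Complex.normSq_eq_zero.1 h5
  exact eq_zero_of_orth r g₀ h₀ w fun i => h3 (g₀ i)

omit [DecidableEq E] in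
theorem lap_det_ne_zero_real (r : E → Fin d → ℤ) (g₀ : Fin d → E) (h₀ : (NN r g₀).det ≠ 0)
    (x : E → ℝ) (hx : ∀ e, 0 < x e) : (lap r x).det ≠ 0 := by
  intro h
  apply lap_det_ne_zero r g₀ h₀ (fun e => (x e : ℂ)) (fun e => by simpa using hx e)
  have h1 : lap r (fun e => (x e : ℂ)) = (lap r x).map (Complex.ofRealHom) := by
    ext i j
    simp [lap]
  rw [h1]
  have h2 := (Complex.ofRealHom).map_det (lap r x)
  rw [h, map_zero] at h2
  exact h2.symm

end HPP


/-! ### Rayleigh property -/

section Ray
variable {E : Type} [Fintype E] [DecidableEq E] {d : ℕ}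

/-- determinant of a symmetric rank two update -/
lemma det_upd (L : Matrix (Fin d) (Fin d) ℝ) (hL : L.det ≠ 0) (hs : L.transpose = L)
    (v w : Fin d → ℝ) : ∃ a b c : ℝ, ∀ p q : ℝ,
      (L + Matrix.of fun i j => p * v i * v j + q * w i * w j).det =
        L.det * ((1 + p * a) * (1 + q * b) - p * q * c ^ 2) := by
  have hu : IsUnit L.det := isUnit_iff_ne_zero.2 hL
  have hs' : (L⁻¹).transpose = L⁻¹ := by rw [Matrix.transpose_nonsing_inv, hs]
  refine ⟨v ⬝ᵥ L⁻¹.mulVec v, w ⬝ᵥ L⁻¹.mulVec w, v ⬝ᵥ L⁻¹.mulVec w, fun p q => ?_⟩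
  set U : Matrix (Fin d) (Fin 2) ℝ := Matrix.of fun i k => if k = 0 then p * v i else q * w i with hU
  set V : Matrix (Fin 2) (Fin d) ℝ := Matrix.of fun k j => if k = 0 then v j else w j with hV
  have h1 : (Matrix.of fun i j => p * v i * v j + q * w i * w j) = U * V := by
    ext i j
    simp [hU, hV, Matrix.mul_apply, Fin.sum_univ_two]
  rw [h1, Matrix.det_add_mul _ _ hu]
  congr 1
  have hsym : w ⬝ᵥ L⁻¹.mulVec v = v ⬝ᵥ L⁻¹.mulVec w := by
    rw [Matrix.dotProduct_mulVec, ← Matrix.mulVec_transpose, hs', dotProduct_comm]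
  have e : ∀ k l, (V * L⁻¹ * U) k l = (V k) ⬝ᵥ L⁻¹.mulVec (fun i => U i l) := by
    intro k l
    rw [Matrix.mul_assoc]
    rfl
  have c0 : (fun i => U i 0) = p • v := by
    funext i; simp [hU]
  have c1 : (fun i => U i 1) = q • w := by
    funext i; simp [hU]
  have r0 : V 0 = v := by
    funext i; simp [hV]
  have r1 : V 1 = w := by
    funext i; simp [hV]
  rw [Matrix.det_fin_two]
  simp only [Matrix.add_apply, Matrix.one_apply_eq, e, c0, c1, r0, r1, Matrix.mulVec_smul,
    dotProduct_smul, smul_eq_mul, hsym]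
  rw [Matrix.one_apply_ne (by decide), Matrix.one_apply_ne (by decide)]
  ring

omit [DecidableEq E] in
lemma lap_symm {R : Type} [CommRing R] (r : E → Fin d → ℤ) (x : E → R) :
    (lap r x).transpose = lap r x := by
  ext i j
  simp only [Matrix.transpose_apply, lap, Matrix.of_apply]
  exact Finset.sum_congr rfl fun e _ => by ring

open Classical in
/-- the Rayleigh property -/
theorem rayleigh (r : E → Fin d → ℤ)
    (hU : ∀ g : Fin d → E, (NN r g).det ≠ 0 → (NN r g).det * (NN r g).det = 1)
    (g₀ : Fin d → E) (h₀ : (NN r g₀).det ≠ 0) (z : E → ℝ) (hz : ∀ x, 0 < z x) (e f : E)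
    (hef : e ≠ f) :
    (∑ A : Finset E, if (imat r).IsBase (A : Set E) ∧ e ∈ A ∧ f ∈ A then ∏ x ∈ A, z x else 0) *
      (∑ A : Finset E, if (imat r).IsBase (A : Set E) then ∏ x ∈ A, z x else 0) ≤
    (∑ A : Finset E, if (imat r).IsBase (A : Set E) ∧ e ∈ A then ∏ x ∈ A, z x else 0) *
      (∑ A : Finset E, if (imat r).IsBase (A : Set E) ∧ f ∈ A then ∏ x ∈ A, z x else 0) := by
  -- the two parameter family of weights
  set y : ℝ → ℝ → E → ℝ := fun p q a =>
    if a = e then (1 - p) * z e else if a = f then (1 - q) * z f else z a with hy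
  set P : ℝ → ℝ → ℝ := fun p q => ∑ A : Finset E,
    if (imat r).IsBase (A : Set E) then ∏ x ∈ A, y p q x else 0 with hP
  obtain ⟨a, b, c, habc⟩ := det_upd (lap r z) (lap_det_ne_zero_real r g₀ h₀ z hz)
    (lap_symm r z) (fun i => (r e i : ℝ)) (fun i => (r f i : ℝ))
  have hPd : ∀ p q, P p q = (lap r z).det *
      ((1 + (-(p * z e)) * a) * (1 + (-(q * z f)) * b) - (-(p * z e)) * (-(q * z f)) * c ^ 2) := by
    intro p q
    rw [← habc, hP]
    simp only
    rw [← det_lap r hU g₀ h₀ (y p q)]
    congr 1
    ext i j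
    simp only [lap, Matrix.of_apply, Matrix.add_apply]
    have h1 : ∀ x : E, y p q x * (r x i : ℝ) * (r x j : ℝ) =
        z x * (r x i : ℝ) * (r x j : ℝ) + ((if x = e then -(p * z e) * (r e i : ℝ) * (r e j : ℝ) else 0) +
          (if x = f then -(q * z f) * (r f i : ℝ) * (r f j : ℝ) else 0)) := by
      intro x
      simp only [hy]
      by_cases h1 : x = e
      · subst h1
        simp [hef]
        ring
      · by_cases h2 : x = f
        · subst h2
          simp [h1]
          ring
        · simp [h1, h2]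
    rw [Finset.sum_congr rfl fun x _ => h1 x, Finset.sum_add_distrib, Finset.sum_add_distrib]
    simp
  have hprod : ∀ (A : Finset E) p q, ∏ x ∈ A, y p q x =
      (if e ∈ A then 1 - p else 1) * (if f ∈ A then 1 - q else 1) * ∏ x ∈ A, z x := by
    intro A p q
    have h1 : ∀ x, y p q x = (if x = e then 1 - p else 1) * (if x = f then 1 - q else 1) * z x := by
      intro x
      simp only [hy]
      by_cases h1 : x = e
      · subst h1
        simp [hef]
      · by_cases h2 : x = f
        · subst h2
          simp [h1]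
        · simp [h1, h2]
    rw [Finset.prod_congr rfl fun x _ => h1 x, Finset.prod_mul_distrib, Finset.prod_mul_distrib,
      Finset.prod_ite_eq', Finset.prod_ite_eq']
  have hB : (∑ A : Finset E, if (imat r).IsBase (A : Set E) then ∏ x ∈ A, z x else 0) = P 0 0 := by
    rw [hP]
    simp only [hprod]
    refine Finset.sum_congr rfl fun A _ => ?_
    split_ifs <;> simp
  have hBe : (∑ A : Finset E, if (imat r).IsBase (A : Set E) ∧ e ∈ A then ∏ x ∈ A, z x else 0) =
      P 0 0 - P 1 0 := by
    rw [hP]
    simp only [hprod]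
    rw [← Finset.sum_sub_distrib]
    refine Finset.sum_congr rfl fun A _ => ?_
    by_cases h1 : (imat r).IsBase (A : Set E) <;> by_cases h2 : e ∈ A <;> simp [h1, h2]
  have hBf : (∑ A : Finset E, if (imat r).IsBase (A : Set E) ∧ f ∈ A then ∏ x ∈ A, z x else 0) =
      P 0 0 - P 0 1 := by
    rw [hP]
    simp only [hprod]
    rw [← Finset.sum_sub_distrib]
    refine Finset.sum_congr rfl fun A _ => ?_
    by_cases h1 : (imat r).IsBase (A : Set E) <;> by_cases h2 : f ∈ A <;> simp [h1, h2]
  have hBef : (∑ A : Finset E, if (imat r).IsBase (A : Set E) ∧ e ∈ A ∧ f ∈ A then ∏ x ∈ A, z x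
      else 0) = P 0 0 - P 1 0 - P 0 1 + P 1 1 := by
    rw [hP]
    simp only [hprod]
    rw [← Finset.sum_sub_distrib, ← Finset.sum_sub_distrib, ← Finset.sum_add_distrib]
    refine Finset.sum_congr rfl fun A _ => ?_
    by_cases h1 : (imat r).IsBase (A : Set E) <;> by_cases h2 : e ∈ A <;>
      by_cases h3 : f ∈ A <;> simp [h1, h2, h3]
  rw [hB, hBe, hBf, hBef, hPd 0 0, hPd 1 0, hPd 0 1, hPd 1 1]
  have h5 : 0 ≤ (lap r z).det ^ 2 * (z e * z f * c ^ 2) :=
    mul_nonneg (sq_nonneg _) (mul_nonneg (mul_nonneg (hz e).le (hz f).le) (sq_nonneg _))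
  nlinarith [h5]

end Ray


/-! ### The cycle matroid of a multigraph -/

section Graph
variable {E : Type} {d : ℕ}

/-- reduced incidence vector (the coordinate of the vertex `0` is dropped) -/
def inc (src tgt : E → Fin (d + 1)) (e : E) (i : Fin d) : ℤ :=
  (if src e = i.succ then 1 else 0) - (if tgt e = i.succ then 1 else 0)

/-- the graph with the edges in `S` is connected -/
def Conn (src tgt : E → Fin (d + 1)) (S : Set E) : Prop :=
  (SimpleGraph.fromEdgeSet ((fun e => s(src e, tgt e)) '' S)).Connected

lemma Conn.mono {src tgt : E → Fin (d + 1)} {S T : Set E} (h : Conn src tgt S) (hST : S ⊆ T) :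
    Conn src tgt T :=
  SimpleGraph.Connected.mono (SimpleGraph.fromEdgeSet_mono (Set.image_mono hST)) h

lemma inc_sum {K : Type} [CommRing K] (src tgt : E → Fin (d + 1)) (e : E) (W : Fin (d + 1) → K)
    (h0 : W 0 = 0) : ∑ j : Fin d, (inc src tgt e j : K) * W j.succ = W (src e) - W (tgt e) := by
  have h1 : ∀ v : Fin (d + 1), ∑ j : Fin d, (if v = j.succ then (1 : K) else 0) * W j.succ = W v := by
    intro v
    refine Fin.cases ?_ (fun i => ?_) v
    · rw [h0]
      refine Finset.sum_eq_zero fun j _ => ?_
      rw [if_neg (Fin.succ_ne_zero j).symm, zero_mul]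
    · rw [Finset.sum_eq_single i]
      · simp
      · intro j _ hj
        rw [if_neg (fun h => hj (Fin.succ_injective _ h).symm), zero_mul]
      · simp
  have h2 : ∀ j : Fin d, (inc src tgt e j : K) * W j.succ =
      (if src e = j.succ then (1 : K) else 0) * W j.succ -
        (if tgt e = j.succ then (1 : K) else 0) * W j.succ := by
    intro j
    unfold inc
    push_cast
    ring
  rw [Finset.sum_congr rfl fun j _ => h2 j, Finset.sum_sub_distrib, h1, h1]

/-- a function which is constant along the edges of a connected graph is constant -/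
lemma const_of_conn {K : Type} {src tgt : E → Fin (d + 1)} {S : Set E} (h : Conn src tgt S)
    (W : Fin (d + 1) → K) (hW : ∀ e ∈ S, W (src e) = W (tgt e)) (v : Fin (d + 1)) : W v = W 0 := by
  have hadj : ∀ a b, (SimpleGraph.fromEdgeSet ((fun e => s(src e, tgt e)) '' S)).Adj a b →
      W a = W b := by
    intro a b hab
    rw [SimpleGraph.fromEdgeSet_adj] at hab
    obtain ⟨⟨e, he, hs⟩, -⟩ := hab
    rw [Sym2.eq_iff] at hs
    rcases hs with ⟨h1, h2⟩ | ⟨h1, h2⟩
    · rw [← h1, ← h2, hW e he]
    · rw [← h1, ← h2, hW e he]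
  have hreach : ∀ a b, (SimpleGraph.fromEdgeSet ((fun e => s(src e, tgt e)) '' S)).Reachable a b →
      W a = W b := by
    intro a b hab
    obtain ⟨p⟩ := hab
    induction p with
    | nil => rfl
    | cons h _ ih => rw [hadj _ _ h, ih]
  exact hreach v 0 (h.preconnected v 0)

/-- if the graph is not connected, there is a nonzero function constant along the edges -/
lemma exists_of_not_conn {K : Type} [Ring K] [Nontrivial K] {src tgt : E → Fin (d + 1)} {S : Set E}
    (h : ¬ Conn src tgt S) : ∃ W : Fin (d + 1) → K, W 0 = 0 ∧ (∀ e ∈ S, W (src e) = W (tgt e)) ∧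
      ∃ v, W v ≠ 0 := by
  classical
  set G := SimpleGraph.fromEdgeSet ((fun e => s(src e, tgt e)) '' S) with hG
  refine ⟨fun v => if G.Reachable v 0 then 0 else 1, ?_, ?_, ?_⟩
  · simp
  · intro e he
    by_cases h1 : src e = tgt e
    · rw [h1]
    · have hadj : G.Adj (src e) (tgt e) := by
        rw [hG, SimpleGraph.fromEdgeSet_adj]
        exact ⟨⟨e, he, rfl⟩, h1⟩
      have : G.Reachable (src e) 0 ↔ G.Reachable (tgt e) 0 :=
        ⟨fun h => (hadj.reachable.symm).trans h, fun h => hadj.reachable.trans h⟩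
      simp only [this]
  · by_contra hcon
    push Not at hcon
    apply h
    have hall : ∀ a, G.Reachable a 0 := by
      intro a
      by_contra hr
      have := hcon a
      simp [hr] at this
    exact ⟨fun a b => (hall a).trans (hall b).symm⟩

lemma inc_det_eq_zero_iff (K : Type) [CommRing K] [IsDomain K] (src tgt : E → Fin (d + 1))
    (g : Fin d → E) : ((NN (inc src tgt) g).det : K) = 0 ↔ ¬ Conn src tgt (Set.range g) := by
  rw [cast_det, ← Matrix.exists_mulVec_eq_zero_iff]
  constructor
  · rintro ⟨w, hw0, hw⟩ hc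
    apply hw0
    set W : Fin (d + 1) → K := Fin.cons 0 w with hW
    have hsum : ∀ e, ∑ j : Fin d, (inc src tgt e j : K) * w j = W (src e) - W (tgt e) := by
      intro e
      rw [← inc_sum src tgt e W (by simp [hW])]
      simp [hW]
    have h1 : ∀ e ∈ Set.range g, W (src e) = W (tgt e) := by
      rintro _ ⟨i, rfl⟩
      have h2 : ∑ j : Fin d, (inc src tgt (g i) j : K) * w j = 0 := congrFun hw i
      rw [hsum, sub_eq_zero] at h2
      exact h2
    funext j
    have h3 := const_of_conn hc W h1 j.succ
    simpa [hW] using h3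
  · intro hc
    obtain ⟨W, h0, h1, v, hv⟩ := exists_of_not_conn (K := K) hc
    refine ⟨fun j => W j.succ, ?_, ?_⟩
    · intro hz
      apply hv
      refine Fin.cases h0 (fun j => congrFun hz j) v
    · funext i
      have h2 := inc_sum src tgt (g i) W h0
      rw [h1 _ ⟨i, rfl⟩, sub_self] at h2
      exact h2

lemma inc_unimodular (src tgt : E → Fin (d + 1)) (g : Fin d → E)
    (h : (NN (inc src tgt) g).det ≠ 0) :
    (NN (inc src tgt) g).det * (NN (inc src tgt) g).det = 1 := by
  have hc : Conn src tgt (Set.range g) := by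
    by_contra hc
    have := (inc_det_eq_zero_iff ℤ src tgt g).2 hc
    exact h (by simpa using this)
  have h1 : (NN (inc src tgt) g).det.natAbs = 1 := by
    rw [Nat.eq_one_iff_not_exists_prime_dvd]
    intro p hp hd
    have : Fact p.Prime := ⟨hp⟩
    have h2 : ((NN (inc src tgt) g).det : ZMod p) = 0 := by
      rw [ZMod.intCast_zmod_eq_zero_iff_dvd]
      exact Int.natCast_dvd.mpr hd
    exact (inc_det_eq_zero_iff (ZMod p) src tgt g).mp h2 hc
  rw [← Int.natAbs_mul_self' ]
  simp [h1]

lemma span_of_conn (src tgt : E → Fin (d + 1)) (S : Set E) (h : Conn src tgt S) :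
    Submodule.span ℚ ((fun e i => (inc src tgt e i : ℚ)) '' S) = ⊤ := by
  by_contra hne
  obtain ⟨φ, hφ, hle⟩ := Submodule.exists_le_ker_of_lt_top _ (lt_top_iff_ne_top.2 hne)
  apply hφ
  set W : Fin (d + 1) → ℚ := Fin.cons 0 (fun j => φ (Pi.single j 1)) with hW
  have hφe : ∀ u : Fin d → ℚ, φ u = ∑ j, u j * φ (Pi.single j 1) := by
    intro u
    conv_lhs => rw [← Finset.univ_sum_single u]
    rw [map_sum]
    refine Finset.sum_congr rfl fun j _ => ?_
    have : (Pi.single j (u j) : Fin d → ℚ) = u j • Pi.single j 1 := by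
      rw [← Pi.single_smul]; simp
    rw [this, map_smul, smul_eq_mul]
  have h1 : ∀ e ∈ S, W (src e) = W (tgt e) := by
    intro e he
    have h2 : φ (fun i => (inc src tgt e i : ℚ)) = 0 :=
      hle (Submodule.subset_span ⟨e, he, rfl⟩)
    have h3 := inc_sum src tgt e W (by simp [hW])
    rw [hφe] at h2
    have h4 : ∑ j : Fin d, (inc src tgt e j : ℚ) * W j.succ = 0 := by
      simpa [hW] using h2
    rw [h4] at h3
    linarith
  have h5 : ∀ j : Fin d, φ (Pi.single j 1) = 0 := by
    intro j
    have := const_of_conn h W h1 j.succ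
    simpa [hW] using this
  ext u
  simp [h5]

variable [Fintype E]

/-- the cycle matroid of a multigraph -/
noncomputable def cyc (src tgt : E → Fin (d + 1)) : Matroid E := imat (inc src tgt)

lemma cyc_E (src tgt : E → Fin (d + 1)) : (cyc src tgt).E = Set.univ := rfl

/-- a connected graph has a spanning tree (nonzero determinant) -/
lemma exists_det (src tgt : E → Fin (d + 1)) (S : Set E) (h : Conn src tgt S) :
    ∃ g : Fin d → E, (NN (inc src tgt) g).det ≠ 0 ∧ Set.range g ⊆ S := by
  have hsp := spanning_of_span (fun e i => (inc src tgt e i : ℚ)) S (span_of_conn src tgt S h)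
  obtain ⟨B, hB, hBS⟩ := (Matroid.spanning_iff_exists_isBase_subset (Set.subset_univ S)).1 hsp
  have hBi : LinearIndepOn ℚ (fun e i => (inc src tgt e i : ℚ)) B := (vmat_indep _ _).1 hB.indep
  -- the span of the base is everything
  have h2 : Submodule.span ℚ ((fun e i => (inc src tgt e i : ℚ)) '' B) = ⊤ := by
    rw [← top_le_iff, ← span_of_conn src tgt S h, Submodule.span_le]
    rintro _ ⟨e, he, rfl⟩
    by_cases heI : e ∈ B
    · exact Submodule.subset_span ⟨e, heI, rfl⟩
    · by_contra h3
      have h4 : LinearIndepOn ℚ (fun e i => (inc src tgt e i : ℚ)) (insert e B) := by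
        rw [linearIndepOn_insert heI]
        exact ⟨hBi, h3⟩
      rw [Matroid.isBase_iff_maximal_indep] at hB
      exact heI (hB.2 ((vmat_indep _ _).2 h4) (Set.subset_insert e B) (Set.mem_insert e B))
  have hcard : B.ncard = d := by
    have := Fintype.ofFinite B
    have h3 := finrank_span_eq_card hBi
    rw [Set.image_eq_range] at h2
    rw [h2, finrank_top, Module.finrank_fin_fun] at h3
    rw [Set.ncard_eq_toFinset_card', Set.toFinset_card, ← h3]
  have e0 : Fin d ≃ B := by
    have := Fintype.ofFinite B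
    refine Fintype.equivOfCardEq ?_
    rw [Fintype.card_fin, ← hcard, Set.ncard_eq_toFinset_card', Set.toFinset_card]
  have hr : Set.range (fun i => (e0 i).1) = B := by
    rw [← Function.comp_def (f := Subtype.val), Set.range_comp, e0.range_eq_univ]
    simp
  refine ⟨fun i => (e0 i).1, ?_, by rw [hr]; exact hBS⟩
  rw [imat_base_iff]
  exact ⟨fun a b hab => e0.injective (Subtype.ext hab), by rw [hr]; exact hB⟩

/-- spanning sets of the cycle matroid of a connected graph -/
theorem cyc_spanning_iff (src tgt : E → Fin (d + 1)) (hG : Conn src tgt Set.univ) (S : Set E) :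
    (cyc src tgt).Spanning S ↔ Conn src tgt S := by
  classical
  constructor
  · intro hS
    obtain ⟨B, hB, hBS⟩ := (Matroid.spanning_iff_exists_isBase_subset (Set.subset_univ S)).1 hS
    obtain ⟨g₀, h₀, -⟩ := exists_det src tgt _ hG
    have hcard := imat_base_ncard _ g₀ h₀ hB
    have e0 : Fin d ≃ B := by
      have := Fintype.ofFinite B
      refine Fintype.equivOfCardEq ?_
      rw [Fintype.card_fin, ← hcard, Set.ncard_eq_toFinset_card', Set.toFinset_card]
    have hr : Set.range (fun i => (e0 i).1) = B := by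
      rw [← Function.comp_def (f := Subtype.val), Set.range_comp, e0.range_eq_univ]
      simp
    have h1 : (NN (inc src tgt) (fun i => (e0 i).1)).det ≠ 0 := by
      rw [imat_base_iff]
      exact ⟨fun a b hab => e0.injective (Subtype.ext hab), by rw [hr]; exact hB⟩
    have h2 : Conn src tgt B := by
      by_contra hc
      rw [← hr] at hc
      have := (inc_det_eq_zero_iff ℤ src tgt _).2 hc
      exact h1 (by simpa using this)
    exact h2.mono hBS
  · intro hS
    exact spanning_of_span _ S (span_of_conn src tgt S hS)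

open Classical in
/-- the cycle matroid of a connected multigraph has the half plane property -/
theorem cyc_hpp [DecidableEq E] (src tgt : E → Fin (d + 1)) (hG : Conn src tgt Set.univ) (x : E → ℂ)
    (hx : ∀ a, 0 < (x a).re) :
    (∑ S : Finset E, if (cyc src tgt).IsBase (S : Set E) then ∏ a ∈ S, x a else 0) ≠ 0 := by
  obtain ⟨g₀, h₀, -⟩ := exists_det src tgt _ hG
  have h1 := det_lap (inc src tgt) (inc_unimodular src tgt) g₀ h₀ x
  have h2 := lap_det_ne_zero (inc src tgt) g₀ h₀ x hx
  rw [h1] at h2
  exact h2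

open Classical in
/-- the cycle matroid of a connected multigraph is Rayleigh -/
theorem cyc_rayleigh [DecidableEq E] (src tgt : E → Fin (d + 1)) (hG : Conn src tgt Set.univ)
    (z : E → ℝ) (hz : ∀ x, 0 < z x) (e f : E) (hef : e ≠ f) :
    (∑ A : Finset E, if (cyc src tgt).IsBase (A : Set E) ∧ e ∈ A ∧ f ∈ A then ∏ x ∈ A, z x
      else 0) * (∑ A : Finset E, if (cyc src tgt).IsBase (A : Set E) then ∏ x ∈ A, z x else 0) ≤
    (∑ A : Finset E, if (cyc src tgt).IsBase (A : Set E) ∧ e ∈ A then ∏ x ∈ A, z x else 0) *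
      (∑ A : Finset E, if (cyc src tgt).IsBase (A : Set E) ∧ f ∈ A then ∏ x ∈ A, z x else 0) := by
  obtain ⟨g₀, h₀, -⟩ := exists_det src tgt _ hG
  exact rayleigh (inc src tgt) (inc_unimodular src tgt) g₀ h₀ z hz e f hef

end Graph

end Pool.Agent.NC
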