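import Pool.Agent.NC.Dp

/-!
A kernel test for inequalities between sums of products of squarefree polynomials with coefficients in the
natural numbers: the polynomials are binary trees in the outer variables whose leaves are polynomials in the
inner variables, packed into natural numbers.
-/

set_option autoImplicit false

namespace Pool.NC.Eng

/-! ### Formal squarefree polynomials -/

/-- Squarefree polynomials in `k` variables; the last variable is the outermost. -/
def IP : ℕ → Type
  | 0 => ℕ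
  | k + 1 => IP k × IP k

/-- The value at the point `x`. -/
def ev {R : Type*} [CommSemiring R] (x : ℕ → R) : (k : ℕ) → IP k → R
  | 0, a => ((show ℕ from a : ℕ) : R)
  | k + 1, p => ev x k p.1 + x k * ev x k p.2

/-- The sum of the products of the pairs of a list. -/
def sm {R : Type*} [CommSemiring R] (x : ℕ → R) (k : ℕ) (l : List (IP k × IP k)) : R :=
  (l.map fun p => ev x k p.1 * ev x k p.2).sum

/-- Coefficients of the products at the powers of the last variable. -/
def s0 {k : ℕ} (l : List (IP (k + 1) × IP (k + 1))) : List (IP k × IP k) :=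
  l.map fun p => (p.1.1, p.2.1)
def s1 {k : ℕ} (l : List (IP (k + 1) × IP (k + 1))) : List (IP k × IP k) :=
  (l.map fun p => (p.1.1, p.2.2)) ++ l.map fun p => (p.1.2, p.2.1)
def s2 {k : ℕ} (l : List (IP (k + 1) × IP (k + 1))) : List (IP k × IP k) :=
  l.map fun p => (p.1.2, p.2.2)

theorem sm_cons {R : Type*} [CommSemiring R] (x : ℕ → R) (k : ℕ) (p : IP k × IP k)
    (l : List (IP k × IP k)) : sm x k (p :: l) = ev x k p.1 * ev x k p.2 + sm x k l := by
  simp [sm]

theorem sm_append {R : Type*} [CommSemiring R] (x : ℕ → R) (k : ℕ) (l l' : List (IP k × IP k)) :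
    sm x k (l ++ l') = sm x k l + sm x k l' := by
  simp [sm]

theorem sm_split {R : Type*} [CommSemiring R] (x : ℕ → R) (k : ℕ)
    (l : List (IP (k + 1) × IP (k + 1))) :
    sm x (k + 1) l = sm x k (s0 l) + x k * sm x k (s1 l) + x k ^ 2 * sm x k (s2 l) := by
  induction l with
  | nil => simp [sm, s0, s1, s2]
  | cons p l ih =>
    have e0 : s0 (p :: l) = (p.1.1, p.2.1) :: s0 l := rfl
    have e1 : sm x k (s1 (p :: l)) = ev x k p.1.1 * ev x k p.2.2 + ev x k p.1.2 * ev x k p.2.1 +
        sm x k (s1 l) := by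
      simp only [s1, List.map_cons, List.cons_append, sm_cons, sm_append]
      ring
    have e2 : s2 (p :: l) = (p.1.2, p.2.2) :: s2 l := rfl
    rw [sm_cons, ih, e0, e2, e1, sm_cons, sm_cons]
    change (ev x k p.1.1 + x k * ev x k p.1.2) * (ev x k p.2.1 + x k * ev x k p.2.2) + _ = _
    ring

/-- The packing base of the variable number `k`. -/
def X (w k : ℕ) : ℕ := 2 ^ (w * 3 ^ k)

/-- The number with all digits one. -/
def S (w : ℕ) : ℕ → ℕ
  | 0 => 1
  | k + 1 => S w k * (1 + X w k + X w k ^ 2)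

def hh : ℕ → ℕ
  | 0 => 0
  | k + 1 => hh k + 3 ^ k

theorem S_eq (w k : ℕ) : S w k * (2 ^ w - 1) + 1 = X w k := by
  have h1 : 1 ≤ 2 ^ w := Nat.one_le_two_pow
  obtain ⟨b, hb⟩ : ∃ b, 2 ^ w = b + 1 := ⟨2 ^ w - 1, by omega⟩
  induction k with
  | zero => simp [S, X]; omega
  | succ k ih =>
    have hX : X w (k + 1) = X w k ^ 3 := by
      unfold X
      rw [← pow_mul]
      congr 1
      ring
    rw [hb, Nat.add_sub_cancel] at ih ⊢
    rw [S, hX, ← ih]
    ring

theorem S_ge (w k : ℕ) : 2 ^ (w * hh k) * 2 ^ (w * hh k) ≤ S w k := by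
  induction k with
  | zero => simp [S, hh]
  | succ k ih =>
    rw [S, hh]
    have h1 : (2 : ℕ) ^ (w * (hh k + 3 ^ k)) * 2 ^ (w * (hh k + 3 ^ k)) =
        (2 ^ (w * hh k) * 2 ^ (w * hh k)) * X w k ^ 2 := by
      unfold X
      rw [mul_add, pow_add]
      ring
    rw [h1]
    exact Nat.mul_le_mul ih (by omega)

theorem ev_le (w : ℕ) : ∀ (k : ℕ) (p : IP k),
    ev (X w) k p ≤ ev (fun _ => (1 : ℕ)) k p * 2 ^ (w * hh k)
  | 0, a => by simp [ev, hh]
  | k + 1, p => by
    have h1 := ev_le w k p.1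
    have h2 := ev_le w k p.2
    change ev (X w) k p.1 + X w k * ev (X w) k p.2 ≤
      (ev (fun _ => 1) k p.1 + 1 * ev (fun _ => 1) k p.2) * 2 ^ (w * (hh k + 3 ^ k))
    have h3 : (2 : ℕ) ^ (w * (hh k + 3 ^ k)) = 2 ^ (w * hh k) * X w k := by
      rw [mul_add, pow_add]; rfl
    have h4 : 1 ≤ X w k := Nat.one_le_two_pow
    rw [h3]
    have h5 : ev (fun _ => (1 : ℕ)) k p.1 * 2 ^ (w * hh k) ≤
        ev (fun _ => (1 : ℕ)) k p.1 * 2 ^ (w * hh k) * X w k := Nat.le_mul_of_pos_right _ h4
    have h6 : X w k * ev (X w) k p.2 ≤ X w k * (ev (fun _ => (1 : ℕ)) k p.2 * 2 ^ (w * hh k)) :=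
      Nat.mul_le_mul_left _ h2
    calc _ ≤ ev (fun _ => (1 : ℕ)) k p.1 * 2 ^ (w * hh k) * X w k +
        X w k * (ev (fun _ => (1 : ℕ)) k p.2 * 2 ^ (w * hh k)) := by omega
      _ = _ := by ring

theorem sm_le (w k : ℕ) (l : List (IP k × IP k)) :
    sm (X w) k l ≤ sm (fun _ => (1 : ℕ)) k l * S w k := by
  induction l with
  | nil => simp [sm]
  | cons p l ih =>
    rw [sm_cons, sm_cons, add_mul]
    refine Nat.add_le_add ?_ ih
    calc ev (X w) k p.1 * ev (X w) k p.2 ≤ (ev (fun _ => (1 : ℕ)) k p.1 * 2 ^ (w * hh k)) *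
        (ev (fun _ => (1 : ℕ)) k p.2 * 2 ^ (w * hh k)) := Nat.mul_le_mul (ev_le w k _) (ev_le w k _)
      _ = ev (fun _ => (1 : ℕ)) k p.1 * ev (fun _ => (1 : ℕ)) k p.2 *
        (2 ^ (w * hh k) * 2 ^ (w * hh k)) := by ring
      _ ≤ _ := Nat.mul_le_mul_left _ (S_ge w k)

theorem testBit_low {n a b i : ℕ} (hb : b < 2 ^ n) (hi : i < n) :
    (2 ^ n * a + b).testBit i = b.testBit i := by
  rw [Nat.testBit_two_pow_mul_add _ hb, if_pos hi]

theorem testBit_high {n a b i : ℕ} (hb : b < 2 ^ n) :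
    (2 ^ n * a + b).testBit (n + i) = a.testBit i := by
  rw [Nat.testBit_two_pow_mul_add _ hb, if_neg (by omega), Nat.add_sub_cancel_left]

theorem inner_sound (w : ℕ) (hw : 1 ≤ w) : ∀ (k : ℕ) (pos neg : List (IP k × IP k)) (N : ℕ),
    sm (fun _ => (1 : ℕ)) k pos < 2 ^ (w - 1) → sm (fun _ => (1 : ℕ)) k neg ≤ 2 ^ (w - 1) →
    N + sm (X w) k neg = sm (X w) k pos + 2 ^ (w - 1) * S w k →
    (∀ i < 3 ^ k, N.testBit (w * i + (w - 1)) = true) →
    ∀ z : ℕ → ℝ, (∀ i, 0 ≤ z i) → sm z k neg ≤ sm z k pos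
  | 0, pos, neg, N => by
    intro hp hn hN hb z hz
    have hcast : ∀ l : List (IP 0 × IP 0), sm z 0 l = ((sm (X w) 0 l : ℕ) : ℝ) := by
      intro l
      induction l with
      | nil => simp [sm]
      | cons p l ih =>
        rw [sm_cons, sm_cons, ih, Nat.cast_add, Nat.cast_mul]
        simp [ev]
    have h1 := hb 0 (by norm_num)
    have h2 : 2 ^ (w - 1) ≤ N := by
      have h3 := Nat.ge_two_pow_of_testBit h1
      simpa using h3
    rw [hcast, hcast, Nat.cast_le]
    rw [S, mul_one] at hN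
    omega
  | k + 1, pos, neg, N => by
    intro hp hn hN hb z hz
    have hG : 2 ^ w = 2 * 2 ^ (w - 1) := by
      rw [← pow_succ']; congr 1; omega
    have hS := S_eq w k
    have hone : ∀ l : List (IP (k + 1) × IP (k + 1)), sm (fun _ => (1 : ℕ)) (k + 1) l =
        sm (fun _ => (1 : ℕ)) k (s0 l) + sm (fun _ => (1 : ℕ)) k (s1 l) +
          sm (fun _ => (1 : ℕ)) k (s2 l) := by
      intro l; rw [sm_split]; ring
    rw [hone] at hp hn
    have key : ∀ p n : List (IP k × IP k), sm (fun _ => (1 : ℕ)) k p < 2 ^ (w - 1) →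
        sm (fun _ => (1 : ℕ)) k n ≤ 2 ^ (w - 1) →
        ∃ M, M + sm (X w) k n = sm (X w) k p + 2 ^ (w - 1) * S w k ∧ M < X w k := by
      intro p n hp hn
      have h1 : sm (X w) k n ≤ 2 ^ (w - 1) * S w k :=
        (sm_le w k n).trans (Nat.mul_le_mul_right _ hn)
      have h2 : sm (X w) k p + S w k ≤ 2 ^ (w - 1) * S w k := by
        have h3 := sm_le w k p
        have h4 : (sm (fun _ => (1 : ℕ)) k p + 1) * S w k ≤ 2 ^ (w - 1) * S w k :=
          Nat.mul_le_mul_right _ hp
        rw [add_mul, one_mul] at h4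
        omega
      refine ⟨sm (X w) k p + 2 ^ (w - 1) * S w k - sm (X w) k n, by omega, ?_⟩
      have h5 : S w k * (2 ^ w - 1) = 2 ^ (w - 1) * S w k + 2 ^ (w - 1) * S w k - S w k := by
        rw [hG, Nat.mul_sub, mul_one, mul_comm (S w k), mul_assoc, two_mul]
      omega
    obtain ⟨M0, hM0, hM0'⟩ := key (s0 pos) (s0 neg) (by omega) (by omega)
    obtain ⟨M1, hM1, hM1'⟩ := key (s1 pos) (s1 neg) (by omega) (by omega)
    obtain ⟨M2, hM2, hM2'⟩ := key (s2 pos) (s2 neg) (by omega) (by omega)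
    have hNeq : N = 2 ^ (w * 3 ^ k) * (2 ^ (w * 3 ^ k) * M2 + M1) + M0 := by
      rw [sm_split, sm_split, S] at hN
      have hX : X w k = 2 ^ (w * 3 ^ k) := rfl
      rw [← hX]
      have h1 : N + (sm (X w) k (s0 neg) + X w k * sm (X w) k (s1 neg) +
          X w k ^ 2 * sm (X w) k (s2 neg)) =
          (X w k * (X w k * M2 + M1) + M0) + (sm (X w) k (s0 neg) + X w k * sm (X w) k (s1 neg) +
          X w k ^ 2 * sm (X w) k (s2 neg)) := by
        rw [hN]
        calc _ = (sm (X w) k (s0 pos) + 2 ^ (w - 1) * S w k) +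
            X w k * (sm (X w) k (s1 pos) + 2 ^ (w - 1) * S w k) +
            X w k ^ 2 * (sm (X w) k (s2 pos) + 2 ^ (w - 1) * S w k) := by ring
          _ = _ := by rw [← hM0, ← hM1, ← hM2]; ring
      exact Nat.add_right_cancel h1
    have hlt : ∀ i < 3 ^ k, w * i + (w - 1) < w * 3 ^ k := by
      intro i hi
      have : w * (i + 1) ≤ w * 3 ^ k := Nat.mul_le_mul_left _ hi
      rw [mul_add, mul_one] at this
      omega
    have hb0 : ∀ i < 3 ^ k, M0.testBit (w * i + (w - 1)) = true := by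
      intro i hi
      have h1 := hb i (by rw [pow_succ]; omega)
      rwa [hNeq, testBit_low hM0' (hlt i hi)] at h1
    have hb1 : ∀ i < 3 ^ k, M1.testBit (w * i + (w - 1)) = true := by
      intro i hi
      have h1 := hb (3 ^ k + i) (by rw [pow_succ]; omega)
      rw [mul_add, add_assoc, hNeq, testBit_high hM0', testBit_low hM1' (hlt i hi)] at h1
      exact h1
    have hb2 : ∀ i < 3 ^ k, M2.testBit (w * i + (w - 1)) = true := by
      intro i hi
      have h1 := hb (3 ^ k + (3 ^ k + i)) (by rw [pow_succ]; omega)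
      rw [mul_add, mul_add, add_assoc, add_assoc, hNeq, testBit_high hM0', testBit_high hM1'] at h1
      exact h1
    have r0 := inner_sound w hw k (s0 pos) (s0 neg) M0 (by omega) (by omega) hM0 hb0 z hz
    have r1 := inner_sound w hw k (s1 pos) (s1 neg) M1 (by omega) (by omega) hM1 hb1 z hz
    have r2 := inner_sound w hw k (s2 pos) (s2 neg) M2 (by omega) (by omega) hM2 hb2 z hz
    rw [sm_split, sm_split]
    have h1 := mul_le_mul_of_nonneg_left r1 (hz k)
    have h2 := mul_le_mul_of_nonneg_left r2 (pow_nonneg (hz k) 2)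
    linarith

/-- The guard number has all the top bits. -/
theorem guard_bits (w : ℕ) (hw : 1 ≤ w) : ∀ (k : ℕ), ∀ i < 3 ^ k,
    (2 ^ (w - 1) * S w k).testBit (w * i + (w - 1)) = true
  | 0, i, hi => by
    have h0 : i = 0 := by simpa using hi
    subst h0
    simp [S, Nat.testBit_two_pow_self]
  | k + 1, i, hi => by
    have ih := guard_bits w hw k
    have hG : 2 ^ w = 2 * 2 ^ (w - 1) := by
      rw [← pow_succ']; congr 1; omega
    have hS := S_eq w k
    have hlt : 2 ^ (w - 1) * S w k < 2 ^ (w * 3 ^ k) := by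
      have h1 : S w k * (2 ^ w - 1) = 2 ^ (w - 1) * S w k + 2 ^ (w - 1) * S w k - S w k := by
        rw [hG, Nat.mul_sub, mul_one, mul_comm (S w k), mul_assoc, two_mul]
      have h2 : 1 * S w k ≤ 2 ^ (w - 1) * S w k := Nat.mul_le_mul_right _ Nat.one_le_two_pow
      have h3 : X w k = 2 ^ (w * 3 ^ k) := rfl
      omega
    have hE : 2 ^ (w - 1) * S w (k + 1) = 2 ^ (w * 3 ^ k) * (2 ^ (w * 3 ^ k) * (2 ^ (w - 1) * S w k) +
        2 ^ (w - 1) * S w k) + 2 ^ (w - 1) * S w k := by
      rw [S]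
      have h3 : X w k = 2 ^ (w * 3 ^ k) := rfl
      rw [h3]; ring
    have hlt' : ∀ i < 3 ^ k, w * i + (w - 1) < w * 3 ^ k := by
      intro i hi
      have : w * (i + 1) ≤ w * 3 ^ k := Nat.mul_le_mul_left _ hi
      rw [mul_add, mul_one] at this
      omega
    rw [hE]
    rcases Nat.lt_or_ge i (3 ^ k) with h | h
    · rw [testBit_low hlt (hlt' i h)]; exact ih i h
    · obtain ⟨j, rfl⟩ := Nat.exists_eq_add_of_le h
      have e1 : ∀ j, w * (3 ^ k + j) + (w - 1) = w * 3 ^ k + (w * j + (w - 1)) := by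
        intro j; rw [mul_add, add_assoc]
      rw [e1, testBit_high hlt]
      rcases Nat.lt_or_ge j (3 ^ k) with h' | h'
      · rw [testBit_low hlt (hlt' j h')]; exact ih j h'
      · obtain ⟨j, rfl⟩ := Nat.exists_eq_add_of_le h'
        rw [e1, testBit_high hlt]
        exact ih j (by rw [pow_succ] at hi; omega)

/-! ### Trees in the outer variables -/

inductive TT (α : Type) where
  | z : TT α
  | lf : α → TT α
  | nd : TT α → TT α → TT α

def TT.map {α β : Type} (g : α → β) : TT α → TT β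
  | .z => .z
  | .lf a => .lf (g a)
  | .nd a b => .nd (a.map g) (b.map g)

def c0 {α : Type} : TT α → TT α
  | .nd a _ => a
  | _ => .z

def c1 {α : Type} : TT α → TT α
  | .nd _ b => b
  | _ => .z

/-- The value of a tree, `k` inner variables, `m` outer variables. -/
def tv {α R : Type} [CommSemiring R] (x : ℕ → R) (k : ℕ) (v : α → R) : ℕ → TT α → R
  | 0, .lf a => v a
  | 0, _ => 0
  | m + 1, t => tv x k v m (c0 t) + x (k + m) * tv x k v m (c1 t)

def tsm {α R : Type} [CommSemiring R] (x : ℕ → R) (k : ℕ) (v : α → R) (m : ℕ)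
    (l : List (TT α × TT α)) : R :=
  (l.map fun p => tv x k v m p.1 * tv x k v m p.2).sum

def csb {α : Type} (a : TT α) (l : List (TT α × TT α)) : TT α → List (TT α × TT α)
  | .z => l
  | .lf y => (a, .lf y) :: l
  | .nd y y' => (a, .nd y y') :: l

/-- Adding a pair unless one of the two trees is zero. -/
def cs {α : Type} (a b : TT α) (l : List (TT α × TT α)) : List (TT α × TT α) :=
  match a with
  | .z => l
  | .lf x => csb (.lf x) l b
  | .nd x x' => csb (.nd x x') l b

def sp0 {α : Type} : List (TT α × TT α) → List (TT α × TT α)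
  | [] => []
  | (a, b) :: l => cs (c0 a) (c0 b) (sp0 l)

def sp1 {α : Type} : List (TT α × TT α) → List (TT α × TT α)
  | [] => []
  | (a, b) :: l => cs (c0 a) (c1 b) (cs (c1 a) (c0 b) (sp1 l))

def sp2 {α : Type} : List (TT α × TT α) → List (TT α × TT α)
  | [] => []
  | (a, b) :: l => cs (c1 a) (c1 b) (sp2 l)

def nl {α : Type} : List α → Bool
  | [] => true
  | _ => false

def chk {α : Type} (tst : List (TT α × TT α) → List (TT α × TT α) → Bool) :
    ℕ → List (TT α × TT α) → List (TT α × TT α) → Bool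
  | 0, p, n => bif nl n then true else tst p n
  | m + 1, p, n => bif nl n then true else
      bif chk tst m (sp0 p) (sp0 n) then
        bif chk tst m (sp1 p) (sp1 n) then chk tst m (sp2 p) (sp2 n) else false
      else false

/-- The test from its three parts. -/
theorem chk_join {α : Type} (tst : List (TT α × TT α) → List (TT α × TT α) → Bool) (m : ℕ)
    (p n : List (TT α × TT α)) (h0 : chk tst m (sp0 p) (sp0 n) = true)
    (h1 : chk tst m (sp1 p) (sp1 n) = true) (h2 : chk tst m (sp2 p) (sp2 n) = true) :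
    chk tst (m + 1) p n = true := by
  rw [chk, h0, h1, h2]
  cases nl n <;> rfl

section sums
variable {α R : Type} [CommSemiring R] (x : ℕ → R) (k : ℕ) (v : α → R)

theorem tv_z (m : ℕ) : tv x k v m (.z : TT α) = 0 := by
  induction m with
  | zero => rfl
  | succ m ih =>
    rw [tv]
    change tv x k v m .z + x (k + m) * tv x k v m .z = 0
    rw [ih, mul_zero, add_zero]

theorem tsm_cons (m : ℕ) (p : TT α × TT α) (l : List (TT α × TT α)) :
    tsm x k v m (p :: l) = tv x k v m p.1 * tv x k v m p.2 + tsm x k v m l := by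
  simp [tsm]

theorem tsm_append (m : ℕ) (l l' : List (TT α × TT α)) :
    tsm x k v m (l ++ l') = tsm x k v m l + tsm x k v m l' := by
  simp [tsm]

theorem tsm_cs (m : ℕ) (a b : TT α) (l : List (TT α × TT α)) :
    tsm x k v m (cs a b l) = tv x k v m a * tv x k v m b + tsm x k v m l := by
  unfold cs
  cases a with
  | z => simp [tv_z]
  | lf a =>
    cases b with
    | z => simp [csb, tv_z]
    | lf b => simp [csb, tsm_cons]
    | nd b c => simp [csb, tsm_cons]
  | nd a a' =>
    cases b with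
    | z => simp [csb, tv_z]
    | lf b => simp [csb, tsm_cons]
    | nd b c => simp [csb, tsm_cons]

theorem tsm_split (m : ℕ) (l : List (TT α × TT α)) :
    tsm x k v (m + 1) l = tsm x k v m (sp0 l) + x (k + m) * tsm x k v m (sp1 l) +
      x (k + m) ^ 2 * tsm x k v m (sp2 l) := by
  induction l with
  | nil => simp [tsm, sp0, sp1, sp2]
  | cons p l ih =>
    obtain ⟨a, b⟩ := p
    rw [tsm_cons, ih, sp0, sp1, sp2, tsm_cs, tsm_cs, tsm_cs, tsm_cs, tv, tv]
    ring

end sums

theorem chk_sound {α : Type} (tst : List (TT α × TT α) → List (TT α × TT α) → Bool) (k G : ℕ)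
    (v1 : α → ℕ) (z : ℕ → ℝ) (hz : ∀ i, 0 ≤ z i) (vz : α → ℝ) (hv : ∀ a, 0 ≤ vz a)
    (H : ∀ p n, tst p n = true → tsm (fun _ => (1 : ℕ)) k v1 0 p < G →
      tsm (fun _ => (1 : ℕ)) k v1 0 n ≤ G → tsm z k vz 0 n ≤ tsm z k vz 0 p) :
    ∀ m p n, chk tst m p n = true → tsm (fun _ => (1 : ℕ)) k v1 m p < G →
      tsm (fun _ => (1 : ℕ)) k v1 m n ≤ G → tsm z k vz m n ≤ tsm z k vz m p := by
  have htv : ∀ m (t : TT α), 0 ≤ tv z k vz m t := by
    intro m
    induction m with
    | zero =>
      intro t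
      cases t with
      | z => exact le_refl _
      | lf a => exact hv a
      | nd a b => exact le_refl _
    | succ m ih =>
      intro t
      rw [tv]
      exact add_nonneg (ih _) (mul_nonneg (hz _) (ih _))
  have hnn : ∀ m (p : List (TT α × TT α)), 0 ≤ tsm z k vz m p := by
    intro m p
    induction p with
    | nil => simp [tsm]
    | cons q p ih =>
      rw [tsm_cons]
      exact add_nonneg (mul_nonneg (htv _ _) (htv _ _)) ih
  have hnil : ∀ m p (n : List (TT α × TT α)), nl n = true → tsm z k vz m n ≤ tsm z k vz m p := by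
    intro m p n h
    cases n with
    | nil =>
      have : tsm z k vz m ([] : List (TT α × TT α)) = 0 := by simp [tsm]
      rw [this]; exact hnn m p
    | cons q n => simp [nl] at h
  intro m
  induction m with
  | zero =>
    intro p n h hp hn
    rw [chk] at h
    cases hc : nl n with
    | true => exact hnil 0 p n hc
    | false =>
      rw [hc, cond_false] at h
      exact H p n h hp hn
  | succ m ih =>
    intro p n h hp hn
    rw [chk] at h
    cases hc : nl n with
    | true => exact hnil _ p n hc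
    | false =>
      rw [hc, cond_false] at h
      have h0 : chk tst m (sp0 p) (sp0 n) = true := by
        cases h' : chk tst m (sp0 p) (sp0 n) with
        | true => rfl
        | false => rw [h', cond_false] at h; exact h
      rw [h0, cond_true] at h
      have h1 : chk tst m (sp1 p) (sp1 n) = true := by
        cases h' : chk tst m (sp1 p) (sp1 n) with
        | true => rfl
        | false => rw [h', cond_false] at h; exact h
      rw [h1, cond_true] at h
      rw [tsm_split] at hp hn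
      simp only [one_mul, one_pow] at hp hn
      have r0 := ih (sp0 p) (sp0 n) h0 (by omega) (by omega)
      have r1 := ih (sp1 p) (sp1 n) h1 (by omega) (by omega)
      have r2 := ih (sp2 p) (sp2 n) h (by omega) (by omega)
      rw [tsm_split, tsm_split]
      have q1 := mul_le_mul_of_nonneg_left r1 (hz (k + m))
      have q2 := mul_le_mul_of_nonneg_left r2 (pow_nonneg (hz (k + m)) 2)
      linarith

/-- The map on pairs. -/
def pm {α β : Type} (g : α → β) (p : TT α × TT α) : TT β × TT β := (p.1.map g, p.2.map g)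

section nat
variable {α β : Type} (g : α → β)

theorem c0_map (t : TT α) : c0 (t.map g) = (c0 t).map g := by cases t <;> rfl
theorem c1_map (t : TT α) : c1 (t.map g) = (c1 t).map g := by cases t <;> rfl

theorem cs_map (a b : TT α) (l : List (TT α × TT α)) :
    cs (a.map g) (b.map g) (l.map (pm g)) = (cs a b l).map (pm g) := by
  cases a <;> cases b <;> rfl

theorem sp0_map (l : List (TT α × TT α)) : sp0 (l.map (pm g)) = (sp0 l).map (pm g) := by
  induction l with
  | nil => rfl
  | cons p l ih =>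
    obtain ⟨a, b⟩ := p
    rw [List.map_cons, pm, sp0, sp0, ih, ← cs_map, c0_map, c0_map]

theorem sp1_map (l : List (TT α × TT α)) : sp1 (l.map (pm g)) = (sp1 l).map (pm g) := by
  induction l with
  | nil => rfl
  | cons p l ih =>
    obtain ⟨a, b⟩ := p
    rw [List.map_cons, pm, sp1, sp1, ih, ← cs_map, ← cs_map, c0_map, c0_map, c1_map, c1_map]

theorem sp2_map (l : List (TT α × TT α)) : sp2 (l.map (pm g)) = (sp2 l).map (pm g) := by
  induction l with
  | nil => rfl
  | cons p l ih =>
    obtain ⟨a, b⟩ := p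
    rw [List.map_cons, pm, sp2, sp2, ih, ← cs_map, c1_map, c1_map]

theorem nl_map {γ δ : Type} (f : γ → δ) (l : List γ) : nl (l.map f) = nl l := by cases l <;> rfl

theorem chk_map (tst : List (TT β × TT β) → List (TT β × TT β) → Bool) (m : ℕ) :
    ∀ p n : List (TT α × TT α), chk tst m (p.map (pm g)) (n.map (pm g)) =
      chk (fun p n => tst (p.map (pm g)) (n.map (pm g))) m p n := by
  induction m with
  | zero => intro p n; rw [chk, chk, nl_map]
  | succ m ih =>
    intro p n
    rw [chk, chk, nl_map, sp0_map, sp0_map, sp1_map, sp1_map, sp2_map, sp2_map, ih, ih, ih]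

end nat

/-! ### The test at the leaves -/

def lv : TT ℕ → ℕ
  | .lf n => n
  | _ => 0

def sN : List (TT ℕ × TT ℕ) → ℕ
  | [] => 0
  | (a, b) :: l => Nat.add (Nat.mul (lv a) (lv b)) (sN l)

def tstN (G : ℕ) (p n : List (TT ℕ × TT ℕ)) : Bool :=
  Nat.beq (Nat.land (Nat.sub (Nat.add (sN p) G) (sN n)) G) G

/-- Forces the evaluation of the argument. -/
def fc {α : Type} (f : ℕ → α) : ℕ → α
  | 0 => f 0
  | n + 1 => f (n + 1)

theorem fc_eq {α : Type} (f : ℕ → α) (n : ℕ) : fc f n = f n := by cases n <;> rfl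

/-- The pairs of leaves. -/
def lfs {α : Type} : List (TT α × TT α) → List (α × α)
  | [] => []
  | (.lf a, .lf b) :: l => (a, b) :: lfs l
  | _ :: l => lfs l

theorem tsm_lfs {R : Type} [CommSemiring R] (x : ℕ → R) (k : ℕ) (l : List (TT (IP k) × TT (IP k))) :
    tsm x k (ev x k) 0 l = sm x k (lfs l) := by
  induction l with
  | nil => simp [tsm, sm, lfs]
  | cons p l ih =>
    rw [tsm_cons, ih]
    obtain ⟨a, b⟩ := p
    cases a <;> cases b <;> simp [lfs, tv, sm]

theorem sN_lfs (w k : ℕ) (l : List (TT (IP k) × TT (IP k))) :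
    sN (l.map (pm (ev (X w) k))) = sm (X w) k (lfs l) := by
  induction l with
  | nil => simp [sN, sm, lfs]
  | cons p l ih =>
    obtain ⟨a, b⟩ := p
    rw [List.map_cons, pm, sN, ih]
    change lv _ * lv _ + _ = _
    cases a <;> cases b <;> simp [lfs, lv, sm, TT.map]

theorem ev_nonneg (z : ℕ → ℝ) (hz : ∀ i, 0 ≤ z i) : ∀ (k : ℕ) (p : IP k), 0 ≤ ev z k p
  | 0, _ => Nat.cast_nonneg _
  | k + 1, p => add_nonneg (ev_nonneg z hz k p.1) (mul_nonneg (hz k) (ev_nonneg z hz k p.2))

theorem engine (w k m : ℕ) (hw : 1 ≤ w) (pos neg : List (TT (IP k) × TT (IP k)))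
    (h : chk (tstN (2 ^ (w - 1) * S w k)) m (pos.map (pm (ev (X w) k)))
      (neg.map (pm (ev (X w) k))) = true)
    (hp : tsm (fun _ => (1 : ℕ)) k (ev (fun _ => 1) k) m pos < 2 ^ (w - 1))
    (hn : tsm (fun _ => (1 : ℕ)) k (ev (fun _ => 1) k) m neg ≤ 2 ^ (w - 1))
    (z : ℕ → ℝ) (hz : ∀ i, 0 ≤ z i) :
    tsm z k (ev z k) m neg ≤ tsm z k (ev z k) m pos := by
  rw [chk_map] at h
  refine chk_sound _ k (2 ^ (w - 1)) (ev (fun _ => 1) k) z hz (ev z k) (ev_nonneg z hz k) ?_ m pos neg
    h hp hn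
  intro p n ht hp hn
  rw [tsm_lfs] at hp hn ⊢
  rw [tsm_lfs]
  have ht' := Nat.eq_of_beq_eq_true ht
  rw [sN_lfs, sN_lfs] at ht'
  have h1 : sm (X w) k (lfs n) ≤ 2 ^ (w - 1) * S w k :=
    (sm_le w k _).trans (Nat.mul_le_mul_right _ hn)
  refine inner_sound w hw k (lfs p) (lfs n) (sm (X w) k (lfs p) + 2 ^ (w - 1) * S w k -
    sm (X w) k (lfs n)) hp hn (by omega) ?_ z hz
  intro i hi
  have h2 := guard_bits w hw k i hi
  have h3 : (sm (X w) k (lfs p) + 2 ^ (w - 1) * S w k - sm (X w) k (lfs n)) &&&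
      (2 ^ (w - 1) * S w k) = 2 ^ (w - 1) * S w k := ht'
  rw [← h3, Nat.testBit_and, Bool.and_eq_true] at h2
  exact h2.1

end Pool.NC.Eng
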