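import Pool.Agent.NC.K44I
import Pool.Agent.KR56.Kron

/-!
The engine: inequalities between sums of products of multi-affine polynomials, given as binary trees in the outer
variables whose leaves are polynomials in the inner variables, packed in one natural number.
-/

set_option autoImplicit false

namespace Pool.NC.E35

open MvPolynomial Pool.Agent.KR56 Pool.Agent.NC Pool.NC

/-- Binary trees. -/
inductive T (R : Type) where
  | z : T R
  | l : R → T R
  | n : T R → T R → T R

section Tree

variable {R : Type}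

/-- The part without the first variable. -/
def T.s0 : T R → T R
  | .z => .z
  | .l a => .l a
  | .n a _ => a

/-- The part with the first variable. -/
def T.s1 : T R → T R
  | .z => .z
  | .l _ => .z
  | .n _ b => b

/-- Adding a pair of trees, if both are not zero. -/
def cons' : T R → T R → List (T R × T R) → List (T R × T R)
  | .z, _, L => L
  | .l a, .z, L => L
  | .l a, .l b, L => (.l a, .l b) :: L
  | .l a, .n b c, L => (.l a, .n b c) :: L
  | .n a a', .z, L => L
  | .n a a', .l b, L => (.n a a', .l b) :: L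
  | .n a a', .n b c, L => (.n a a', .n b c) :: L

/-- exponent `0` -/
def p0 : List (T R × T R) → List (T R × T R)
  | [] => []
  | (a, b) :: L => cons' a.s0 b.s0 (p0 L)

/-- exponent `1` -/
def p1 : List (T R × T R) → List (T R × T R)
  | [] => []
  | (a, b) :: L => cons' a.s0 b.s1 (cons' a.s1 b.s0 (p1 L))

/-- exponent `2` -/
def p2 : List (T R × T R) → List (T R × T R)
  | [] => []
  | (a, b) :: L => cons' a.s1 b.s1 (p2 L)

/-- Recursive test. -/
def chk (test : List (T R × T R) → List (T R × T R) → Bool) :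
    ℕ → List (T R × T R) → List (T R × T R) → Bool
  | 0, P, Q => test P Q
  | k + 1, P, Q => chk test k (p0 P) (p0 Q) && chk test k (p1 P) (p1 Q) && chk test k (p2 P) (p2 Q)

/-- All leaves have the property. -/
def T.All (p : R → Prop) : T R → Prop
  | .z => True
  | .l a => p a
  | .n a b => T.All p a ∧ T.All p b

/-- All leaves of all trees of the list have the property. -/
def AllL (p : R → Prop) (L : List (T R × T R)) : Prop := ∀ e ∈ L, e.1.All p ∧ e.2.All p

theorem T.All.s0 {p : R → Prop} {t : T R} (h : t.All p) : t.s0.All p := by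
  cases t with
  | z => trivial
  | l a => exact h
  | n a b => exact h.1

theorem T.All.s1 {p : R → Prop} {t : T R} (h : t.All p) : t.s1.All p := by
  cases t with
  | z => trivial
  | l a => trivial
  | n a b => exact h.2

theorem AllL.cons' {p : R → Prop} {a b : T R} {L : List (T R × T R)} (ha : a.All p) (hb : b.All p)
    (hL : AllL p L) : AllL p (cons' a b L) := by
  have key : AllL p ((a, b) :: L) := by
    intro e he
    rcases List.mem_cons.1 he with rfl | he
    · exact ⟨ha, hb⟩
    · exact hL e he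
  cases a <;> cases b <;> first | exact hL | exact key

theorem AllL.p0 {p : R → Prop} {L : List (T R × T R)} (h : AllL p L) : AllL p (p0 L) := by
  induction L with
  | nil => exact h
  | cons e L ih =>
    obtain ⟨a, b⟩ := e
    have h1 := h (a, b) (by simp)
    exact AllL.cons' h1.1.s0 h1.2.s0 (ih fun e he => h e (by simp [he]))

theorem AllL.p1 {p : R → Prop} {L : List (T R × T R)} (h : AllL p L) : AllL p (p1 L) := by
  induction L with
  | nil => exact h
  | cons e L ih =>
    obtain ⟨a, b⟩ := e
    have h1 := h (a, b) (by simp)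
    exact AllL.cons' h1.1.s0 h1.2.s1 (AllL.cons' h1.1.s1 h1.2.s0 (ih fun e he => h e (by simp [he])))

theorem AllL.p2 {p : R → Prop} {L : List (T R × T R)} (h : AllL p L) : AllL p (p2 L) := by
  induction L with
  | nil => exact h
  | cons e L ih =>
    obtain ⟨a, b⟩ := e
    have h1 := h (a, b) (by simp)
    exact AllL.cons' h1.1.s1 h1.2.s1 (ih fun e he => h e (by simp [he]))

/-- The image of a tree. -/
def T.map {R' : Type} (g : R → R') : T R → T R'
  | .z => .z
  | .l a => .l (g a)
  | .n a b => .n (T.map g a) (T.map g b)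

/-- The image of a list. -/
def mapL {R' : Type} (g : R → R') (L : List (T R × T R)) : List (T R' × T R') :=
  L.map fun e => (e.1.map g, e.2.map g)

theorem map_s0 {R' : Type} (g : R → R') (t : T R) : (t.s0).map g = (t.map g).s0 := by
  cases t <;> rfl

theorem map_s1 {R' : Type} (g : R → R') (t : T R) : (t.s1).map g = (t.map g).s1 := by
  cases t <;> rfl

theorem map_cons' {R' : Type} (g : R → R') (a b : T R) (L : List (T R × T R)) :
    mapL g (cons' a b L) = cons' (a.map g) (b.map g) (mapL g L) := by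
  cases a <;> cases b <;> rfl

theorem map_p0 {R' : Type} (g : R → R') (L : List (T R × T R)) : mapL g (p0 L) = p0 (mapL g L) := by
  induction L with
  | nil => rfl
  | cons e L ih =>
    obtain ⟨a, b⟩ := e
    rw [p0, map_cons', ih, map_s0, map_s0]
    rfl

theorem map_p1 {R' : Type} (g : R → R') (L : List (T R × T R)) : mapL g (p1 L) = p1 (mapL g L) := by
  induction L with
  | nil => rfl
  | cons e L ih =>
    obtain ⟨a, b⟩ := e
    rw [p1, map_cons', map_cons', ih, map_s0, map_s0, map_s1, map_s1]
    rfl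

theorem map_p2 {R' : Type} (g : R → R') (L : List (T R × T R)) : mapL g (p2 L) = p2 (mapL g L) := by
  induction L with
  | nil => rfl
  | cons e L ih =>
    obtain ⟨a, b⟩ := e
    rw [p2, map_cons', ih, map_s1, map_s1]
    rfl

end Tree

section Val

variable {R : Type} [CommSemiring R]

/-- The value of a tree. -/
def T.val : List R → T R → R
  | _, .z => 0
  | _, .l a => a
  | [], .n _ _ => 0
  | x :: w, .n a b => T.val w a + x * T.val w b

theorem val_split (x : R) (w : List R) (t : T R) :
    t.val (x :: w) = t.s0.val w + x * t.s1.val w := by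
  cases t with
  | z => simp [T.val, T.s0, T.s1]
  | l a => simp [T.val, T.s0, T.s1]
  | n a b => rfl

/-- The sum of the products of the values. -/
def SV (w : List R) : List (T R × T R) → R
  | [] => 0
  | e :: L => e.1.val w * e.2.val w + SV w L

theorem SV_cons' (w : List R) (a b : T R) (L : List (T R × T R)) :
    SV w (cons' a b L) = a.val w * b.val w + SV w L := by
  cases a <;> cases b <;> simp [cons', SV, T.val]

theorem SV_split (x : R) (w : List R) (L : List (T R × T R)) :
    SV (x :: w) L = SV w (p0 L) + x * SV w (p1 L) + x * x * SV w (p2 L) := by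
  induction L with
  | nil => simp [SV, p0, p1, p2]
  | cons e L ih =>
    obtain ⟨a, b⟩ := e
    rw [SV, p0, p1, p2, SV_cons', SV_cons', SV_cons', SV_cons', ih, val_split, val_split]
    ring

/-- The sum of the products of the leaves. -/
def dot : List (T R × T R) → R
  | [] => 0
  | (.l a, .l b) :: L => a * b + dot L
  | _ :: L => dot L

theorem SV_nil (L : List (T R × T R)) : SV [] L = dot L := by
  induction L with
  | nil => rfl
  | cons e L ih =>
    obtain ⟨a, b⟩ := e
    cases a <;> cases b <;> simp [SV, T.val, dot, ih]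

theorem map_dot {R' : Type} [CommSemiring R'] (g : R →+* R') (L : List (T R × T R)) :
    g (dot L) = dot (mapL g L) := by
  induction L with
  | nil => simp [dot, mapL]
  | cons e L ih =>
    obtain ⟨a, b⟩ := e
    cases a <;> cases b <;> simp_all [dot, mapL, T.map]

end Val

/-- `dot` for the kernel. -/
def dotN : List (T ℕ × T ℕ) → ℕ
  | [] => 0
  | (.l a, .l b) :: L => Nat.add (Nat.mul a b) (dotN L)
  | _ :: L => dotN L

theorem dotN_eq (L : List (T ℕ × T ℕ)) : dotN L = dot L := by
  induction L with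
  | nil => rfl
  | cons e L ih =>
    obtain ⟨a, b⟩ := e
    cases a <;> cases b <;> simp_all [dot, dotN]

/-- The mask. -/
def msk (b m : ℕ) : ℕ := 2 ^ b * (((2 ^ (b + 1)) ^ (3 ^ m) - 1) / (2 ^ (b + 1) - 1))

/-- The test with two numbers. -/
def tK (b m : ℕ) (P Q : ℕ) : Bool := Nat.ble Q P && Nat.beq (Nat.land (Nat.sub P Q) (msk b m)) 0

/-- The test at a leaf. -/
def testK (b m : ℕ) (P Q : List (T ℕ × T ℕ)) : Bool := tK b m (dotN P) (dotN Q)

/-- The test of the size at a leaf. -/
def test1 (b : ℕ) (P Q : List (T ℕ × T ℕ)) : Bool :=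
  Nat.ble (dotN P + 1) (2 ^ (b + 1)) && Nat.ble (dotN Q + 1) (2 ^ b)

/-- Multi-affine polynomials. -/
def Good {m : ℕ} (p : MvPolynomial (Fin m) ℕ) : Prop := ∀ i, degreeOf i p ≤ 1

theorem dot_deg {m : ℕ} (L : List (T (MvPolynomial (Fin m) ℕ) × T (MvPolynomial (Fin m) ℕ)))
    (h : AllL Good L) (i : Fin m) : degreeOf i (dot L) ≤ 2 := by
  induction L with
  | nil => simp [dot]
  | cons e L ih =>
    obtain ⟨a, b⟩ := e
    have h1 := h (a, b) (by simp)
    have h2 := ih fun e he => h e (by simp [he])
    cases a <;> cases b <;> try exact h2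
    rename_i a b
    refine (degreeOf_add_le i _ _).trans (max_le ?_ h2)
    refine (degreeOf_mul_le i _ _).trans ?_
    have h3 : degreeOf i a ≤ 1 := h1.1 i
    have h4 : degreeOf i b ≤ 1 := h1.2 i
    omega

/-- Evaluation at the Kronecker point. -/
noncomputable def evK (b m : ℕ) : MvPolynomial (Fin m) ℕ →+* ℕ := eval (kp m (2 ^ (b + 1)))

/-- The sum of the coefficients. -/
noncomputable def ev1 (m : ℕ) : MvPolynomial (Fin m) ℕ →+* ℕ := eval (fun _ => 1)

/-- Evaluation at a real point. -/
noncomputable def evR {m : ℕ} (y : Fin m → ℝ) : MvPolynomial (Fin m) ℕ →+* ℝ :=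
  eval₂Hom (Nat.castRingHom ℝ) y

theorem leaf_ok (b m : ℕ) (P Q : List (T (MvPolynomial (Fin m) ℕ) × T (MvPolynomial (Fin m) ℕ)))
    (hP : AllL Good P) (hQ : AllL Good Q)
    (h1 : testK b m (mapL (evK b m) P) (mapL (evK b m) Q) = true)
    (h2 : test1 b (mapL (ev1 m) P) (mapL (ev1 m) Q) = true)
    (y : Fin m → ℝ) (hy : ∀ i, 0 ≤ y i) :
    dot (mapL (evR y) Q) ≤ dot (mapL (evR y) P) := by
  rw [testK, tK, Bool.and_eq_true, dotN_eq, dotN_eq, ← map_dot, ← map_dot] at h1
  rw [test1, Bool.and_eq_true, dotN_eq, dotN_eq, ← map_dot, ← map_dot] at h2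
  have a1 := Nat.le_of_ble_eq_true h1.1
  have a2 := Nat.eq_of_beq_eq_true h1.2
  have a3 := Nat.le_of_ble_eq_true h2.1
  have a4 := Nat.le_of_ble_eq_true h2.2
  have hB : 2 ≤ 2 ^ (b + 1) := by
    calc 2 = 2 ^ 1 := by norm_num
      _ ≤ 2 ^ (b + 1) := Nat.pow_le_pow_right (by norm_num) (by omega)
  rw [← map_dot, ← map_dot]
  refine aeval_mono (dot P) (dot Q) (le_of_land b (dot P) (dot Q) (dot_deg P hP) (dot_deg Q hQ)
    a3 a4 a1 ?_) y hy
  rw [geo_eq _ _ hB]
  exact a2

/-- THE ENGINE. -/
theorem sound (b m : ℕ) (y : Fin m → ℝ) (hy : ∀ i, 0 ≤ y i) (k : ℕ) :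
    ∀ (P Q : List (T (MvPolynomial (Fin m) ℕ) × T (MvPolynomial (Fin m) ℕ)))
      (_ : AllL Good P) (_ : AllL Good Q)
      (_ : chk (testK b m) k (mapL (evK b m) P) (mapL (evK b m) Q) = true)
      (_ : chk (test1 b) k (mapL (ev1 m) P) (mapL (ev1 m) Q) = true)
      (w : List ℝ) (_ : ∀ x ∈ w, 0 ≤ x) (_ : w.length = k),
      SV w (mapL (evR y) Q) ≤ SV w (mapL (evR y) P) := by
  induction k with
  | zero =>
    intro P Q hP hQ h1 h2 w _ hlen
    rw [List.length_eq_zero_iff.1 hlen, SV_nil, SV_nil]
    exact leaf_ok b m P Q hP hQ h1 h2 y hy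
  | succ k ih =>
    intro P Q hP hQ h1 h2 w hw hlen
    obtain ⟨x, w, rfl⟩ : ∃ x w', w = x :: w' := by
      cases w with
      | nil => simp at hlen
      | cons x w => exact ⟨x, w, rfl⟩
    have hlen' : w.length = k := by simpa using hlen
    have hx : 0 ≤ x := hw x (by simp)
    have hw' : ∀ x ∈ w, 0 ≤ x := fun x hx => hw x (by simp [hx])
    rw [chk, Bool.and_eq_true, Bool.and_eq_true, ← map_p0, ← map_p0, ← map_p1, ← map_p1, ← map_p2,
      ← map_p2] at h1 h2
    rw [SV_split, SV_split, ← map_p0, ← map_p0, ← map_p1, ← map_p1, ← map_p2, ← map_p2]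
    have i0 := ih (p0 P) (p0 Q) hP.p0 hQ.p0 h1.1.1 h2.1.1 w hw' hlen'
    have i1 := ih (p1 P) (p1 Q) hP.p1 hQ.p1 h1.1.2 h2.1.2 w hw' hlen'
    have i2 := ih (p2 P) (p2 Q) hP.p2 hQ.p2 h1.2 h2.2 w hw' hlen'
    have j1 := mul_le_mul_of_nonneg_left i1 hx
    have j2 := mul_le_mul_of_nonneg_left i2 (mul_nonneg hx hx)
    linarith

end Pool.NC.E35
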