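import Pool.Agent.NC.Eng35

/-!
The trees of the forest sums of `K_{4,4} + e` and the reduction of the inequality for a pair of edges to two runs
of the engine.
-/

set_option autoImplicit false

namespace Pool.NC.E35

open MvPolynomial Pool.Agent.KR56 Pool.Agent.NC Pool.NC

section Build

variable {R : Type} [CommSemiring R]

/-- The programme with numbered variables. -/
def FV (n : ℕ) (y : ℕ → R) : ℕ → List (ℕ × ℕ) → ℕ → R
  | _, [], _ => 1
  | j, e :: l, c => bif Nat.beq (lab c e.1) (lab c e.2) then FV n y (j + 1) l c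
      else FV n y (j + 1) l c + y j * FV n y (j + 1) l (join n c e.1 e.2)

theorem FV_congr (n : ℕ) (y y' : ℕ → R) (l : List (ℕ × ℕ)) (j : ℕ)
    (h : ∀ i, i < l.length → y (j + i) = y' (j + i)) (c : ℕ) : FV n y j l c = FV n y' j l c := by
  induction l generalizing j c with
  | nil => rfl
  | cons e l ih =>
    have h0 : y j = y' j := h 0 (by simp)
    have h1 : ∀ i, i < l.length → y (j + 1 + i) = y' (j + 1 + i) := by
      intro i hi
      have := h (i + 1) (by simpa using hi)
      rwa [show j + (i + 1) = j + 1 + i by ring] at this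
    rw [FV, FV, ih (j + 1) h1, ih (j + 1) h1, h0]

theorem map_FV {R' : Type} [CommSemiring R'] (g : R →+* R') (n : ℕ) (y : ℕ → R) (l : List (ℕ × ℕ))
    (j c : ℕ) : g (FV n y j l c) = FV n (fun i => g (y i)) j l c := by
  induction l generalizing j c with
  | nil => simp [FV]
  | cons e l ih =>
    rw [FV, FV]
    cases Nat.beq (lab c e.1) (lab c e.2) with
    | true => rw [cond_true, cond_true, ih]
    | false => rw [cond_false, cond_false, map_add, map_mul, ih, ih]

/-- The tree of the programme. -/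
def TB (n : ℕ) (F : ℕ → R) : List (ℕ × ℕ) → ℕ → T R
  | [], c => .l (F c)
  | e :: l, c => bif Nat.beq (lab c e.1) (lab c e.2) then .n (TB n F l c) .z
      else .n (TB n F l c) (TB n F l (join n c e.1 e.2))

theorem map_TB {R' : Type} [CommSemiring R'] (g : R →+* R') (n : ℕ) (F : ℕ → R) (F' : ℕ → R')
    (h : ∀ c, g (F c) = F' c) (l : List (ℕ × ℕ)) (c : ℕ) :
    (TB n F l c).map g = TB n F' l c := by
  induction l generalizing c with
  | nil => rw [TB, TB, T.map, h]
  | cons e l ih =>
    rw [TB, TB]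
    cases Nat.beq (lab c e.1) (lab c e.2) with
    | true => rw [cond_true, cond_true, T.map, ih]; rfl
    | false => rw [cond_false, cond_false, T.map, ih, ih]

theorem TB_All (p : R → Prop) (n : ℕ) (F : ℕ → R) (h : ∀ c, p (F c)) (l : List (ℕ × ℕ)) (c : ℕ) :
    (TB n F l c).All p := by
  induction l generalizing c with
  | nil => exact h c
  | cons e l ih =>
    rw [TB]
    cases Nat.beq (lab c e.1) (lab c e.2) with
    | true => rw [cond_true]; exact ⟨ih c, trivial⟩
    | false => rw [cond_false]; exact ⟨ih _, ih _⟩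

end Build

/-- The programme for the kernel. -/
def FN (n : ℕ) (y : ℕ → ℕ) : ℕ → List (ℕ × ℕ) → ℕ → ℕ
  | _, [], _ => 1
  | j, e :: l, c => bif Nat.beq (lab c e.1) (lab c e.2) then FN n y (j + 1) l c
      else Nat.add (FN n y (j + 1) l c) (Nat.mul (y j) (FN n y (j + 1) l (join n c e.1 e.2)))

theorem FN_eq (n : ℕ) (y : ℕ → ℕ) (l : List (ℕ × ℕ)) (j c : ℕ) : FN n y j l c = FV n y j l c := by
  induction l generalizing j c with
  | nil => rfl
  | cons e l ih =>
    rw [FN, FV, ih, ih]
    rfl

/-- The variables. -/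
noncomputable def yX (m : ℕ) (j : ℕ) : MvPolynomial (Fin m) ℕ := if h : j < m then X ⟨j, h⟩ else 0

/-- The Kronecker point. -/
def yK (b : ℕ) (j : ℕ) : ℕ := (2 ^ (b + 1)) ^ (3 ^ j)

/-- The point with all coordinates `1`. -/
def y1 (_ : ℕ) : ℕ := 1

theorem FV_deg {m n : ℕ} (l : List (ℕ × ℕ)) (j c : ℕ) (i : Fin m) :
    degreeOf i (FV n (yX m) j l c) ≤ if (i : ℕ) < j then 0 else 1 := by
  induction l generalizing j c with
  | nil =>
    rw [FV]
    have : degreeOf i (1 : MvPolynomial (Fin m) ℕ) = 0 := degreeOf_one i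
    rw [this]
    exact Nat.zero_le _
  | cons e l ih =>
    have h1 : ∀ c, degreeOf i (FV n (yX m) (j + 1) l c) ≤ if (i : ℕ) < j then 0 else 1 := by
      intro c
      refine (ih (j + 1) c).trans ?_
      split_ifs <;> omega
    have h2 : ∀ c, degreeOf i (yX m j * FV n (yX m) (j + 1) l c) ≤ if (i : ℕ) < j then 0 else 1 := by
      intro c
      refine (degreeOf_mul_le i _ _).trans ?_
      have h3 := ih (j + 1) c
      have h4 : degreeOf i (yX m j) ≤ if (i : ℕ) = j then 1 else 0 := by
        unfold yX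
        split_ifs with h5 h6 h6
        · have : i = ⟨j, h5⟩ := Fin.ext h6
          rw [this, degreeOf_X_self]
        · rw [degreeOf_X_of_ne]
          intro h7
          exact h6 (by rw [h7])
        · simp
        · simp
      split_ifs at h3 h4 ⊢ <;> omega
    rw [FV]
    cases Nat.beq (lab c e.1) (lab c e.2) with
    | true => rw [cond_true]; exact h1 c
    | false =>
      rw [cond_false]
      exact (degreeOf_add_le i _ _).trans (max_le (h1 _) (h2 _))

theorem FV_good {m n : ℕ} (l : List (ℕ × ℕ)) (c : ℕ) : Good (FV n (yX m) 0 l c) := by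
  intro i
  have := FV_deg (n := n) l 0 c i
  simpa using this

section Link

open K44

/-- The ends of an edge. -/
def ends (i : Fin 17) : ℕ × ℕ := (((src i : Fin 8) : ℕ), ((tgt i : Fin 8) : ℕ))

variable {R : Type} [CommSemiring R]

theorem FL_nil (z : Fin 17 → R) (c : ℕ) : FL z [] c = 1 := rfl

theorem FL_cons (z : Fin 17 → R) (i : Fin 17) (L : List (Fin 17)) (c : ℕ) :
    FL z (i :: L) c = bif Nat.beq (lab c (ends i).1) (lab c (ends i).2) then FL z L c
      else FL z L c + z i * FL z L (join 8 c (ends i).1 (ends i).2) := rfl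

theorem FV_FL (z : Fin 17 → R) (L pre : List (Fin 17)) (c : ℕ) :
    FV 8 (fun j => z ((pre ++ L).getD j 0)) pre.length (L.map ends) c = FL z L c := by
  induction L generalizing pre c with
  | nil => rfl
  | cons i L ih =>
    have h1 : (pre ++ i :: L).getD pre.length 0 = i := by simp
    have h2 : pre ++ i :: L = (pre ++ [i]) ++ L := by simp
    have h3 : pre.length + 1 = (pre ++ [i]).length := by simp
    rw [List.map_cons, FV, FL_cons, h1, h3, h2, ih, ih]

theorem val_TB (z : Fin 17 → R) (F : ℕ → R) (Li : List (Fin 17)) (hF : ∀ c, F c = FL z Li c)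
    (Lo : List (Fin 17)) (c : ℕ) :
    (TB 8 F (Lo.map ends) c).val (Lo.map z) = FL z (Lo ++ Li) c := by
  induction Lo generalizing c with
  | nil => exact hF c
  | cons i Lo ih =>
    rw [List.map_cons, List.map_cons, TB, List.cons_append, FL_cons]
    cases Nat.beq (lab c (ends i).1) (lab c (ends i).2) with
    | true => rw [cond_true, cond_true, T.val, ih]; simp [T.val]
    | false => rw [cond_false, cond_false, T.val, ih, ih]

end Link

/-- The tree for the kernel. -/
def TK (y : ℕ → ℕ) (Lo Li : List (ℕ × ℕ)) (c : ℕ) : T ℕ := TB 8 (FN 8 y 0 Li) Lo c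

open K44 in
/-- THE REDUCTION of the inequality for a pair of edges to two runs of the engine. -/
theorem fin (b m : ℕ) (e f : Fin 17) (Lo Li : List (Fin 17)) (hm : Li.length = m)
    (hok : okL e f (Lo ++ Li))
    (P Q : List (T (MvPolynomial (Fin m) ℕ) × T (MvPolynomial (Fin m) ℕ)))
    (hP : AllL Good P) (hQ : AllL Good Q)
    (hsq : ∀ (y : Fin m → ℝ) (w : List ℝ), (∀ i, 0 ≤ y i) → (∀ x ∈ w, 0 ≤ x) →
      SV w (mapL (evR y) P) ≤ SV w (mapL (evR y) Q))
    (h1 : chk (testK b m) Lo.length
      ((TK (yK b) (Lo.map ends) (Li.map ends) (ce e), TK (yK b) (Lo.map ends) (Li.map ends) (ce f)) ::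
        mapL (evK b m) P)
      ((TK (yK b) (Lo.map ends) (Li.map ends) (cef e f), TK (yK b) (Lo.map ends) (Li.map ends) (c0 8)) ::
        mapL (evK b m) Q) = true)
    (h2 : chk (test1 b) Lo.length
      ((TK y1 (Lo.map ends) (Li.map ends) (ce e), TK y1 (Lo.map ends) (Li.map ends) (ce f)) ::
        mapL (ev1 m) P)
      ((TK y1 (Lo.map ends) (Li.map ends) (cef e f), TK y1 (Lo.map ends) (Li.map ends) (c0 8)) ::
        mapL (ev1 m) Q) = true) : ICor M e f := by
  refine red e f (Lo ++ Li) hok fun z hz => ?_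
  set y : Fin m → ℝ := fun j => z (Li.getD j 0) with hy
  set GX : ℕ → T (MvPolynomial (Fin m) ℕ) := fun c => TB 8 (FV 8 (yX m) 0 (Li.map ends)) (Lo.map ends) c
    with hGX
  have hK : ∀ c, (GX c).map (evK b m) = TK (yK b) (Lo.map ends) (Li.map ends) c := by
    intro c
    refine map_TB (evK b m) 8 _ _ ?_ _ c
    intro c
    rw [map_FV, FN_eq]
    refine FV_congr 8 _ _ _ 0 ?_ c
    intro i hi
    have hi' : 0 + i < m := by rw [List.length_map, hm] at hi; omega
    simp only [yX, dif_pos hi', evK, eval_X, kp, yK]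
  have h1' : ∀ c, (GX c).map (ev1 m) = TK y1 (Lo.map ends) (Li.map ends) c := by
    intro c
    refine map_TB (ev1 m) 8 _ _ ?_ _ c
    intro c
    rw [map_FV, FN_eq]
    refine FV_congr 8 _ _ _ 0 ?_ c
    intro i hi
    have hi' : 0 + i < m := by rw [List.length_map, hm] at hi; omega
    simp only [yX, dif_pos hi', ev1, eval_X, y1]
  have hR : ∀ c, ((GX c).map (evR y)).val (Lo.map z) = FL z (Lo ++ Li) c := by
    intro c
    rw [map_TB (evR y) 8 _ (fun c => evR y (FV 8 (yX m) 0 (Li.map ends) c)) (fun _ => rfl)]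
    refine val_TB z _ Li ?_ Lo c
    intro c
    rw [map_FV]
    have h3 := FV_FL z Li [] c
    rw [List.nil_append, List.length_nil] at h3
    rw [← h3]
    refine FV_congr 8 _ _ _ 0 ?_ c
    intro i hi
    have hi' : 0 + i < m := by rw [List.length_map, hm] at hi; omega
    simp only [yX, dif_pos hi', evR, coe_eval₂Hom, eval₂_X, hy]
  have hG : ∀ c, (GX c).All Good := fun c => TB_All Good 8 _ (fun c => FV_good _ c) _ c
  have hPP : AllL Good ((GX (ce e), GX (ce f)) :: P) := by
    intro t ht
    rcases List.mem_cons.1 ht with rfl | ht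
    · exact ⟨hG _, hG _⟩
    · exact hP t ht
  have hQQ : AllL Good ((GX (cef e f), GX (c0 8)) :: Q) := by
    intro t ht
    rcases List.mem_cons.1 ht with rfl | ht
    · exact ⟨hG _, hG _⟩
    · exact hQ t ht
  have key := sound b m y (fun i => (hz _).le) Lo.length ((GX (ce e), GX (ce f)) :: P)
    ((GX (cef e f), GX (c0 8)) :: Q) hPP hQQ
    (by
      rw [← hK, ← hK, ← hK, ← hK] at h1
      exact h1)
    (by
      rw [← h1', ← h1', ← h1', ← h1'] at h2
      exact h2) (Lo.map z) (by
      intro x hx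
      rw [List.mem_map] at hx
      obtain ⟨i, _, rfl⟩ := hx
      exact (hz i).le) (by simp)
  have hs := hsq y (Lo.map z) (fun i => (hz _).le) (by
      intro x hx
      rw [List.mem_map] at hx
      obtain ⟨i, _, rfl⟩ := hx
      exact (hz i).le)
  have e1 : SV (Lo.map z) (mapL (evR y) ((GX (ce e), GX (ce f)) :: P)) =
      FL z (Lo ++ Li) (ce e) * FL z (Lo ++ Li) (ce f) + SV (Lo.map z) (mapL (evR y) P) := by
    rw [← hR, ← hR]; rfl
  have e2 : SV (Lo.map z) (mapL (evR y) ((GX (cef e f), GX (c0 8)) :: Q)) =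
      FL z (Lo ++ Li) (cef e f) * FL z (Lo ++ Li) (c0 8) + SV (Lo.map z) (mapL (evR y) Q) := by
    rw [← hR, ← hR]; rfl
  rw [e1, e2] at key
  linarith

open K44 in
/-- The case without squares. -/
theorem fin0 (b m : ℕ) (e f : Fin 17) (Lo Li : List (Fin 17)) (hm : Li.length = m)
    (hok : okL e f (Lo ++ Li))
    (h1 : chk (testK b m) Lo.length
      [(TK (yK b) (Lo.map ends) (Li.map ends) (ce e), TK (yK b) (Lo.map ends) (Li.map ends) (ce f))]
      [(TK (yK b) (Lo.map ends) (Li.map ends) (cef e f), TK (yK b) (Lo.map ends) (Li.map ends) (c0 8))]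
      = true)
    (h2 : chk (test1 b) Lo.length
      [(TK y1 (Lo.map ends) (Li.map ends) (ce e), TK y1 (Lo.map ends) (Li.map ends) (ce f))]
      [(TK y1 (Lo.map ends) (Li.map ends) (cef e f), TK y1 (Lo.map ends) (Li.map ends) (c0 8))]
      = true) : ICor M e f :=
  fin b m e f Lo Li hm hok [] [] (by intro t ht; simp at ht) (by intro t ht; simp at ht)
    (by intro y w _ _; exact le_refl _) h1 h2

end Pool.NC.E35
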