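import Pool.Agent.NC.EngB

/-!
Squares for the engine: `y^S (q⁺ - q⁻)²` with `q⁺`, `q⁻` given by lists of masks.
-/

set_option autoImplicit false

namespace Pool.NC.E35

open MvPolynomial Pool.Agent.KR56 Pool.Agent.NC Pool.NC

section Tree

variable {R : Type}

/-- Is it the zero tree? -/
def T.isz : T R → Bool
  | .z => true
  | .l _ => false
  | .n _ _ => false

/-- A node, pruned. -/
def nn (a b : T R) : T R := bif a.isz && b.isz then .z else .n a b

/-- Deleting the variables of `S`. -/
def delS : List Bool → T R → T R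
  | [], t => t
  | true :: s, t => nn (delS s t.s0) .z
  | false :: s, t => nn (delS s t.s0) (delS s t.s1)

theorem isz_map {R' : Type} (g : R → R') (t : T R) : (t.map g).isz = t.isz := by
  cases t <;> rfl

theorem map_nn {R' : Type} (g : R → R') (a b : T R) : (nn a b).map g = nn (a.map g) (b.map g) := by
  unfold nn
  rw [isz_map, isz_map]
  cases a.isz && b.isz <;> rfl

theorem map_delS {R' : Type} (g : R → R') (s : List Bool) (t : T R) :
    (delS s t).map g = delS s (t.map g) := by
  induction s generalizing t with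
  | nil => rfl
  | cons b s ih =>
    cases b with
    | true => rw [delS, delS, map_nn, ih, map_s0]; rfl
    | false => rw [delS, delS, map_nn, ih, ih, map_s0, map_s1]

theorem map_map {R' R'' : Type} (g : R → R') (g' : R' → R'') (t : T R) :
    (t.map g).map g' = t.map (fun a => g' (g a)) := by
  induction t with
  | z => rfl
  | l a => rfl
  | n a b iha ihb => rw [T.map, T.map, T.map, iha, ihb]

theorem map_congr {R' : Type} (g g' : R → R') (h : ∀ a, g a = g' a) (t : T R) :
    t.map g = t.map g' := by
  induction t with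
  | z => rfl
  | l a => rw [T.map, T.map, h]
  | n a b iha ihb => rw [T.map, T.map, iha, ihb]

theorem All_map {R' : Type} {p : R → Prop} {p' : R' → Prop} (g : R → R') (h : ∀ a, p a → p' (g a))
    {t : T R} (ht : t.All p) : (t.map g).All p' := by
  induction t with
  | z => trivial
  | l a => exact h a ht
  | n a b iha ihb => exact ⟨iha ht.1, ihb ht.2⟩

theorem All_nn {p : R → Prop} {a b : T R} (ha : a.All p) (hb : b.All p) : (nn a b).All p := by
  unfold nn
  cases a.isz && b.isz with
  | true => trivial
  | false => exact ⟨ha, hb⟩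

theorem All_delS {p : R → Prop} (s : List Bool) {t : T R} (h : t.All p) : (delS s t).All p := by
  induction s generalizing t with
  | nil => exact h
  | cons b s ih =>
    cases b with
    | true => exact All_nn (ih h.s0) trivial
    | false => exact All_nn (ih h.s0) (ih h.s1)

end Tree

section Mul

variable {R : Type} [CommSemiring R]

/-- Multiplication by `c * w^s` of the tree without the variables of `s`. -/
def mulS (c : R) : List Bool → T R → T R
  | [], t => t.map (fun a => c * a)
  | true :: s, t => nn .z (mulS c s t.s0)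
  | false :: s, t => nn (mulS c s t.s0) (mulS c s t.s1)

theorem map_mulS {R' : Type} [CommSemiring R'] (g : R →+* R') (c : R) (s : List Bool) (t : T R) :
    (mulS c s t).map g = mulS (g c) s (t.map g) := by
  induction s generalizing t with
  | nil =>
    rw [mulS, mulS, map_map, map_map]
    exact map_congr _ _ (fun a => map_mul g c a) t
  | cons b s ih =>
    cases b with
    | true => rw [mulS, mulS, map_nn, ih, map_s0]; rfl
    | false => rw [mulS, mulS, map_nn, ih, ih, map_s0, map_s1]

theorem All_mulS {p p' : R → Prop} (c : R) (h : ∀ a, p a → p' (c * a)) (s : List Bool) {t : T R}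
    (ht : t.All p) : (mulS c s t).All p' := by
  induction s generalizing t with
  | nil => exact All_map _ h ht
  | cons b s ih =>
    cases b with
    | true => exact All_nn trivial (ih ht.s0)
    | false => exact All_nn (ih ht.s0) (ih ht.s1)

/-- The monomial of `s`. -/
def Wm : List Bool → List R → R
  | [], _ => 1
  | _ :: _, [] => 1
  | true :: s, x :: w => x * Wm s w
  | false :: s, _ :: w => Wm s w

theorem val_nn (x : R) (w : List R) (a b : T R) :
    (nn a b).val (x :: w) = a.val w + x * b.val w := by
  unfold nn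
  cases a <;> cases b <;> simp [T.isz, T.val]

theorem val_nn_nil (a b : T R) : (nn a b).val [] = 0 := by
  unfold nn
  cases a <;> cases b <;> simp [T.isz, T.val]

theorem val_map_mul (c : R) (w : List R) (t : T R) :
    (t.map (fun a => c * a)).val w = c * t.val w := by
  induction t generalizing w with
  | z => simp [T.map, T.val]
  | l a => simp [T.map, T.val]
  | n a b iha ihb =>
    cases w with
    | nil => simp [T.map, T.val]
    | cons x w =>
      rw [T.map, T.val, T.val, iha, ihb]
      ring

theorem val_mulS (c : R) (s : List Bool) (w : List R) (t : T R) :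
    (mulS c s t).val w = c * Wm s w * (delS s t).val w := by
  induction s generalizing w t with
  | nil => rw [mulS, delS, Wm, val_map_mul]; ring
  | cons b s ih =>
    cases w with
    | nil =>
      cases b with
      | true => rw [mulS, delS, val_nn_nil, val_nn_nil, mul_zero]
      | false => rw [mulS, delS, val_nn_nil, val_nn_nil, mul_zero]
    | cons x w =>
      cases b with
      | true =>
        rw [mulS, delS, Wm, val_nn, val_nn, ih]
        simp only [T.val]
        ring
      | false =>
        rw [mulS, delS, Wm, val_nn, val_nn, ih, ih]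
        ring

/-- The monomial with the mask `s`. -/
def mon (y : ℕ → R) : ℕ → ℕ → R
  | 0, _ => 1
  | n + 1, s => bif s.testBit n then y n * mon y n s else mon y n s

/-- The sum of the monomials of a list of masks. -/
def sm (y : ℕ → R) (m : ℕ) : List ℕ → R
  | [] => 0
  | s :: l => mon y m s + sm y m l

theorem mon_congr {y y' : ℕ → R} {m : ℕ} (h : ∀ j, j < m → y j = y' j) (s : ℕ) :
    mon y m s = mon y' m s := by
  induction m with
  | zero => rfl
  | succ n ih =>
    rw [mon, mon, ih fun j hj => h j (by omega), h n (by omega)]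

theorem sm_congr {y y' : ℕ → R} {m : ℕ} (h : ∀ j, j < m → y j = y' j) (l : List ℕ) :
    sm y m l = sm y' m l := by
  induction l with
  | nil => rfl
  | cons s l ih => rw [sm, sm, ih, mon_congr h]

theorem map_mon {R' : Type} [CommSemiring R'] (g : R →+* R') (y : ℕ → R) (m s : ℕ) :
    g (mon y m s) = mon (fun j => g (y j)) m s := by
  induction m with
  | zero => simp [mon]
  | succ n ih =>
    rw [mon, mon]
    cases s.testBit n with
    | true => rw [cond_true, cond_true, map_mul, ih]
    | false => rw [cond_false, cond_false, ih]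

theorem map_sm {R' : Type} [CommSemiring R'] (g : R →+* R') (y : ℕ → R) (m : ℕ) (l : List ℕ) :
    g (sm y m l) = sm (fun j => g (y j)) m l := by
  induction l with
  | nil => simp [sm]
  | cons s l ih => rw [sm, sm, map_add, ih, map_mon]

end Mul

theorem mon_deg {m : ℕ} (n s : ℕ) (i : Fin m) :
    degreeOf i (mon (yX m) n s) ≤ if (i : ℕ) < n ∧ s.testBit i = true then 1 else 0 := by
  induction n with
  | zero =>
    rw [mon]
    have : degreeOf i (1 : MvPolynomial (Fin m) ℕ) = 0 := degreeOf_one i
    rw [this]
    exact Nat.zero_le _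
  | succ n ih =>
    have h1 : degreeOf i (mon (yX m) n s) ≤ if (i : ℕ) < n + 1 ∧ s.testBit i = true then 1 else 0 := by
      refine ih.trans ?_
      by_cases h : s.testBit i = true
      · simp only [h, and_true]
        split_ifs <;> omega
      · simp only [h]
        simp
    rw [mon]
    cases hb : s.testBit n with
    | false => rw [cond_false]; exact h1
    | true =>
      rw [cond_true]
      refine (degreeOf_mul_le i _ _).trans ?_
      have h4 : degreeOf i (yX m n) ≤ if (i : ℕ) = n then 1 else 0 := by
        unfold yX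
        split_ifs with h5 h6 h6
        · have : i = ⟨n, h5⟩ := Fin.ext h6
          rw [this, degreeOf_X_self]
        · rw [degreeOf_X_of_ne]
          intro h7
          exact h6 (by rw [h7])
        · simp
        · simp
      by_cases hi : (i : ℕ) = n
      · rw [if_pos hi] at h4
        rw [if_neg (by omega)] at ih
        rw [if_pos ⟨by omega, by rw [hi]; exact hb⟩]
        omega
      · rw [if_neg hi] at h4
        by_cases h : s.testBit i = true
        · simp only [h, and_true] at ih ⊢
          split_ifs at ih ⊢ <;> omega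
        · simp only [h] at ih ⊢
          simp at ih ⊢
          omega

/-- All masks of the list are disjoint from `s`. -/
def disj (s : ℕ) : List ℕ → Bool
  | [] => true
  | a :: l => Nat.beq (Nat.land s a) 0 && disj s l

theorem sm_deg {m : ℕ} (s : ℕ) (l : List ℕ) (h : disj s l = true) (i : Fin m) :
    degreeOf i (sm (yX m) m l) ≤ if s.testBit i = true then 0 else 1 := by
  induction l with
  | nil => simp [sm]
  | cons a l ih =>
    rw [disj, Bool.and_eq_true] at h
    rw [sm]
    refine (degreeOf_add_le i _ _).trans (max_le ?_ (ih h.2))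
    refine (mon_deg m a i).trans ?_
    have h1 : (Nat.land s a) = 0 := Nat.eq_of_beq_eq_true h.1
    have h2 : (s &&& a).testBit i = false := by
      have : s &&& a = 0 := h1
      rw [this]; simp
    rw [Nat.testBit_land] at h2
    cases h3 : s.testBit i with
    | true =>
      rw [h3, Bool.true_and] at h2
      simp [h2]
    | false =>
      simp only [Bool.false_eq_true, if_false]
      split_ifs <;> omega

/-- The part below `t`. -/
def loL (t : ℕ) : List ℕ → List ℕ
  | [] => []
  | x :: l => bif Nat.ble t x then loL t l else x :: loL t l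

/-- The part from `t` on. -/
def hiL (t : ℕ) : List ℕ → List ℕ
  | [] => []
  | x :: l => bif Nat.ble t x then Nat.sub x t :: hiL t l else hiL t l

/-- The tree of a list of masks. -/
def mkT (m : ℕ) : ℕ → List ℕ → T (List ℕ)
  | _, [] => .z
  | 0, x :: l => .l (x :: l)
  | k + 1, x :: l => .n (mkT m k (loL (2 ^ (m + k)) (x :: l))) (mkT m k (hiL (2 ^ (m + k)) (x :: l)))

/-- The outer bits. -/
def ob (m : ℕ) : ℕ → ℕ → List Bool
  | 0, _ => []
  | k + 1, s => s.testBit (m + k) :: ob m k s

/-- Test of all leaves. -/
def T.allb (p : List ℕ → Bool) : T (List ℕ) → Bool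
  | .z => true
  | .l a => p a
  | .n a b => T.allb p a && T.allb p b

theorem T.All_of_allb {p : List ℕ → Bool} {t : T (List ℕ)} (h : t.allb p = true) :
    t.All fun a => p a = true := by
  induction t with
  | z => trivial
  | l a => exact h
  | n a b iha ihb =>
    rw [T.allb, Bool.and_eq_true] at h
    exact ⟨iha h.1, ihb h.2⟩

section Sq

variable {R : Type} [CommSemiring R]

/-- The mixed terms of the squares. -/
def sqP (y : ℕ → R) (m k : ℕ) : List (ℕ × List ℕ × List ℕ) → List (T R × T R)
  | [] => []
  | e :: d => (mulS (2 * mon y m (e.1 % 2 ^ m)) (ob m k e.1) ((mkT m k e.2.1).map (sm y m)),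
      delS (ob m k e.1) ((mkT m k e.2.2).map (sm y m))) :: sqP y m k d

/-- The other terms of the squares. -/
def sqQ (y : ℕ → R) (m k : ℕ) : List (ℕ × List ℕ × List ℕ) → List (T R × T R)
  | [] => []
  | e :: d => (mulS (mon y m (e.1 % 2 ^ m)) (ob m k e.1) ((mkT m k e.2.1).map (sm y m)),
      delS (ob m k e.1) ((mkT m k e.2.1).map (sm y m))) ::
      (mulS (mon y m (e.1 % 2 ^ m)) (ob m k e.1) ((mkT m k e.2.2).map (sm y m)),
      delS (ob m k e.1) ((mkT m k e.2.2).map (sm y m))) :: sqQ y m k d

theorem map_leaf {R' : Type} [CommSemiring R'] (g : R →+* R') (y : ℕ → R) (y' : ℕ → R') (m : ℕ)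
    (h : ∀ j, j < m → g (y j) = y' j) (t : T (List ℕ)) :
    (t.map (sm y m)).map g = t.map (sm y' m) := by
  rw [map_map]
  refine map_congr _ _ (fun l => ?_) t
  rw [map_sm]
  exact sm_congr h l

theorem map_mon' {R' : Type} [CommSemiring R'] (g : R →+* R') (y : ℕ → R) (y' : ℕ → R') (m : ℕ)
    (h : ∀ j, j < m → g (y j) = y' j) (s : ℕ) : g (mon y m s) = mon y' m s := by
  rw [map_mon]
  exact mon_congr h s

theorem map_sqP {R' : Type} [CommSemiring R'] (g : R →+* R') (y : ℕ → R) (y' : ℕ → R') (m k : ℕ)
    (h : ∀ j, j < m → g (y j) = y' j) (d : List (ℕ × List ℕ × List ℕ)) :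
    mapL g (sqP y m k d) = sqP y' m k d := by
  induction d with
  | nil => rfl
  | cons e d ih =>
    rw [sqP, sqP, ← ih, mapL, List.map_cons, map_mulS, map_delS, map_leaf g y y' m h,
      map_leaf g y y' m h, map_mul, map_mon' g y y' m h, map_ofNat]
    rfl

theorem map_sqQ {R' : Type} [CommSemiring R'] (g : R →+* R') (y : ℕ → R) (y' : ℕ → R') (m k : ℕ)
    (h : ∀ j, j < m → g (y j) = y' j) (d : List (ℕ × List ℕ × List ℕ)) :
    mapL g (sqQ y m k d) = sqQ y' m k d := by
  induction d with
  | nil => rfl
  | cons e d ih =>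
    rw [sqQ, sqQ, ← ih, mapL, List.map_cons, List.map_cons, map_mulS, map_delS, map_mulS, map_delS,
      map_leaf g y y' m h, map_leaf g y y' m h, map_mon' g y y' m h]
    rfl

end Sq

/-- The check of the data. -/
def okD (m k : ℕ) : List (ℕ × List ℕ × List ℕ) → Bool
  | [] => true
  | e :: d => (mkT m k e.2.1).allb (disj (e.1 % 2 ^ m)) && (mkT m k e.2.2).allb (disj (e.1 % 2 ^ m)) &&
      okD m k d

theorem good_del {m k s : ℕ} {l : List ℕ} (o : List Bool)
    (h : (mkT m k l).allb (disj (s % 2 ^ m)) = true) :
    (delS o ((mkT m k l).map (sm (yX m) m))).All Good := by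
  refine All_delS _ (All_map _ (fun a ha => ?_) (T.All_of_allb h))
  intro i
  refine (sm_deg _ a ha i).trans ?_
  split_ifs <;> omega

theorem good_mul {m k s : ℕ} {l : List ℕ} (o : List Bool) (c : MvPolynomial (Fin m) ℕ)
    (hc : ∀ i, degreeOf i c ≤ degreeOf i (mon (yX m) m (s % 2 ^ m)))
    (h : (mkT m k l).allb (disj (s % 2 ^ m)) = true) :
    (mulS c o ((mkT m k l).map (sm (yX m) m))).All Good := by
  refine All_mulS (p := fun a => ∀ i : Fin m, degreeOf i a ≤ if (s % 2 ^ m).testBit i = true then 0 else 1)
    c (fun a ha => ?_) o (All_map _ (fun a ha => sm_deg _ a ha) (T.All_of_allb h))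
  intro i
  refine (degreeOf_mul_le i _ _).trans ?_
  have h1 := (hc i).trans (mon_deg m (s % 2 ^ m) i)
  have h2 := ha i
  by_cases h3 : (s % 2 ^ m).testBit i = true
  · rw [if_pos h3] at h2
    rw [if_pos ⟨i.2, h3⟩] at h1
    omega
  · rw [if_neg h3] at h2
    rw [if_neg (fun h => h3 h.2)] at h1
    omega

theorem deg_two_mul {m : ℕ} (p : MvPolynomial (Fin m) ℕ) (i : Fin m) :
    degreeOf i (2 * p) ≤ degreeOf i p := by
  have : (2 : MvPolynomial (Fin m) ℕ) * p = p + p := by ring
  rw [this]
  exact (degreeOf_add_le i _ _).trans (max_le le_rfl le_rfl)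

theorem good_sqP {m k : ℕ} {d : List (ℕ × List ℕ × List ℕ)} (h : okD m k d = true) :
    AllL Good (sqP (yX m) m k d) := by
  induction d with
  | nil => intro t ht; simp [sqP] at ht
  | cons e d ih =>
    rw [okD, Bool.and_eq_true, Bool.and_eq_true] at h
    intro t ht
    rw [sqP] at ht
    rcases List.mem_cons.1 ht with rfl | ht
    · exact ⟨good_mul _ _ (fun i => deg_two_mul _ i) h.1.1, good_del _ h.1.2⟩
    · exact ih h.2 t ht

theorem good_sqQ {m k : ℕ} {d : List (ℕ × List ℕ × List ℕ)} (h : okD m k d = true) :
    AllL Good (sqQ (yX m) m k d) := by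
  induction d with
  | nil => intro t ht; simp [sqQ] at ht
  | cons e d ih =>
    rw [okD, Bool.and_eq_true, Bool.and_eq_true] at h
    intro t ht
    rw [sqQ] at ht
    rcases List.mem_cons.1 ht with rfl | ht
    · exact ⟨good_mul _ _ (fun i => le_rfl) h.1.1, good_del _ h.1.1⟩
    rcases List.mem_cons.1 ht with rfl | ht
    · exact ⟨good_mul _ _ (fun i => le_rfl) h.1.2, good_del _ h.1.2⟩
    · exact ih h.2 t ht

theorem Wm_nonneg (s : List Bool) (w : List ℝ) (hw : ∀ x ∈ w, 0 ≤ x) : 0 ≤ Wm s w := by
  induction s generalizing w with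
  | nil => simp [Wm]
  | cons b s ih =>
    cases w with
    | nil => simp [Wm]
    | cons x w =>
      have h1 := ih w fun x hx => hw x (by simp [hx])
      have h2 := hw x (by simp)
      cases b with
      | true => exact mul_nonneg h2 h1
      | false => exact h1

theorem mon_nonneg (y : ℕ → ℝ) (hy : ∀ i, 0 ≤ y i) (m s : ℕ) : 0 ≤ mon y m s := by
  induction m with
  | zero => simp [mon]
  | succ n ih =>
    rw [mon]
    cases s.testBit n with
    | true => exact mul_nonneg (hy n) ih
    | false => exact ih

theorem sq_le (y : ℕ → ℝ) (hy : ∀ i, 0 ≤ y i) (m k : ℕ) (d : List (ℕ × List ℕ × List ℕ))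
    (w : List ℝ) (hw : ∀ x ∈ w, 0 ≤ x) : SV w (sqP y m k d) ≤ SV w (sqQ y m k d) := by
  induction d with
  | nil => exact le_refl _
  | cons e d ih =>
    rw [sqP, sqQ, SV, SV, SV, val_mulS, val_mulS, val_mulS]
    have h1 := Wm_nonneg (ob m k e.1) w hw
    have h2 := mon_nonneg y hy m (e.1 % 2 ^ m)
    have h3 := mul_nonneg h2 h1
    have h4 := mul_nonneg h3 (sq_nonneg ((delS (ob m k e.1) ((mkT m k e.2.1).map (sm y m))).val w -
      (delS (ob m k e.1) ((mkT m k e.2.2).map (sm y m))).val w))
    nlinarith [h4, ih]

open K44 in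
/-- THE CASE WITH SQUARES: the data are a list of triples (mask `S`, masks of `q⁺`, masks of `q⁻`). -/
theorem finS (b m : ℕ) (e f : Fin 17) (Lo Li : List (Fin 17)) (d : List (ℕ × List ℕ × List ℕ))
    (hm : Li.length = m) (hok : okL e f (Lo ++ Li)) (hd : okD m Lo.length d = true)
    (h1 : chk (testK b m) Lo.length
      ((TK (yK b) (Lo.map ends) (Li.map ends) (ce e), TK (yK b) (Lo.map ends) (Li.map ends) (ce f)) ::
        sqP (yK b) m Lo.length d)
      ((TK (yK b) (Lo.map ends) (Li.map ends) (cef e f), TK (yK b) (Lo.map ends) (Li.map ends) (c0 8)) ::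
        sqQ (yK b) m Lo.length d) = true)
    (h2 : chk (test1 b) Lo.length
      ((TK y1 (Lo.map ends) (Li.map ends) (ce e), TK y1 (Lo.map ends) (Li.map ends) (ce f)) ::
        sqP y1 m Lo.length d)
      ((TK y1 (Lo.map ends) (Li.map ends) (cef e f), TK y1 (Lo.map ends) (Li.map ends) (c0 8)) ::
        sqQ y1 m Lo.length d) = true) : ICor M e f := by
  have gK : ∀ j, j < m → evK b m (yX m j) = yK b j := by
    intro j hj
    simp only [yX, dif_pos hj, evK, eval_X, kp, yK]
  have g1 : ∀ j, j < m → ev1 m (yX m j) = y1 j := by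
    intro j hj
    simp only [yX, dif_pos hj, ev1, eval_X, y1]
  refine fin b m e f Lo Li hm hok (sqP (yX m) m Lo.length d) (sqQ (yX m) m Lo.length d)
    (good_sqP hd) (good_sqQ hd) ?_ ?_ ?_
  · intro y w hy hw
    rw [map_sqP (evR y) (yX m) (fun j => evR y (yX m j)) m _ (fun _ _ => rfl),
      map_sqQ (evR y) (yX m) (fun j => evR y (yX m j)) m _ (fun _ _ => rfl)]
    refine sq_le _ (fun j => ?_) m _ d w hw
    unfold yX
    split_ifs with h
    · simp only [evR, coe_eval₂Hom, eval₂_X]
      exact hy _
    · rw [map_zero]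
  · rw [map_sqP (evK b m) (yX m) (yK b) m _ gK, map_sqQ (evK b m) (yX m) (yK b) m _ gK]
    exact h1
  · rw [map_sqP (ev1 m) (yX m) y1 m _ g1, map_sqQ (ev1 m) (yX m) y1 m _ g1]
    exact h2

end Pool.NC.E35
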