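import Pool.Agent.NC.Core
import Pool.Agent.NC.Cyc

/-!
# Independent sets of the cycle matroid: adding the edges one by one
-/

set_option autoImplicit false

namespace Pool.Agent.NC

section Forest
variable {E : Type} {d : ℕ}

/-- the graph with the edges in `S` -/
def fgr (src tgt : E → Fin (d + 1)) (S : Set E) : SimpleGraph (Fin (d + 1)) :=
  SimpleGraph.fromEdgeSet ((fun e => s(src e, tgt e)) '' S)

/-- coordinate vector of a vertex -/
def iv (v : Fin (d + 1)) (i : Fin d) : ℚ := if v = i.succ then 1 else 0

lemma inc_eq_iv (src tgt : E → Fin (d + 1)) (e : E) :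
    (fun i => (inc src tgt e i : ℚ)) = iv (src e) - iv (tgt e) := by
  funext i
  simp only [inc, iv, Pi.sub_apply]
  push_cast
  rfl

/-- the vector of `e` lies in the span of `S` iff its ends are joined by `S` -/
theorem span_iff (src tgt : E → Fin (d + 1)) (S : Set E) (e : E) :
    (fun i => (inc src tgt e i : ℚ)) ∈
      Submodule.span ℚ ((fun e i => (inc src tgt e i : ℚ)) '' S) ↔
    (fgr src tgt S).Reachable (src e) (tgt e) := by
  classical
  constructor
  · intro h
    by_contra hr
    set W : Fin (d + 1) → ℚ := fun v => if (fgr src tgt S).Reachable v (tgt e) then 0 else 1 with hW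
    set W' : Fin (d + 1) → ℚ := fun v => W v - W 0 with hW'
    set φ : (Fin d → ℚ) →ₗ[ℚ] ℚ := ∑ j : Fin d, W' j.succ • LinearMap.proj j with hφ
    have h1 : ∀ e' : E, φ (fun i => (inc src tgt e' i : ℚ)) = W (src e') - W (tgt e') := by
      intro e'
      have h2 := inc_sum src tgt e' W' (by simp [hW'])
      have h3 : φ (fun i => (inc src tgt e' i : ℚ)) =
          ∑ j : Fin d, (inc src tgt e' j : ℚ) * W' j.succ := by
        simp [hφ, LinearMap.sum_apply, mul_comm]
      rw [h3, h2]
      simp [hW']
    have h2 : Submodule.span ℚ ((fun e i => (inc src tgt e i : ℚ)) '' S) ≤ LinearMap.ker φ := by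
      rw [Submodule.span_le]
      rintro _ ⟨e', he', rfl⟩
      change φ (fun i => (inc src tgt e' i : ℚ)) = 0
      rw [h1 e']
      by_cases h3 : src e' = tgt e'
      · rw [h3, sub_self]
      · have hadj : (fgr src tgt S).Adj (src e') (tgt e') := by
          rw [fgr, SimpleGraph.fromEdgeSet_adj]
          exact ⟨⟨e', he', rfl⟩, h3⟩
        have h4 : (fgr src tgt S).Reachable (src e') (tgt e) ↔
            (fgr src tgt S).Reachable (tgt e') (tgt e) :=
          ⟨fun h => (hadj.reachable.symm).trans h, fun h => hadj.reachable.trans h⟩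
        simp only [hW, h4, sub_self]
    have h3 : φ (fun i => (inc src tgt e i : ℚ)) = 0 := h2 h
    rw [h1 e] at h3
    simp only [hW, if_neg hr, if_pos (SimpleGraph.Reachable.refl _)] at h3
    norm_num at h3
  · intro h
    have hadj : ∀ a b, (fgr src tgt S).Adj a b → iv a - iv b ∈
        Submodule.span ℚ ((fun e i => (inc src tgt e i : ℚ)) '' S) := by
      intro a b hab
      rw [fgr, SimpleGraph.fromEdgeSet_adj] at hab
      obtain ⟨⟨e', he', hs⟩, -⟩ := hab
      have h1 : iv (src e') - iv (tgt e') ∈
          Submodule.span ℚ ((fun e i => (inc src tgt e i : ℚ)) '' S) := by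
        rw [← inc_eq_iv]
        exact Submodule.subset_span ⟨e', he', rfl⟩
      rw [Sym2.eq_iff] at hs
      rcases hs with ⟨h2, h3⟩ | ⟨h2, h3⟩
      · rwa [h2, h3] at h1
      · rw [h2, h3] at h1
        rw [← neg_sub]
        exact Submodule.neg_mem _ h1
    have hreach : ∀ a b, (fgr src tgt S).Reachable a b → iv a - iv b ∈
        Submodule.span ℚ ((fun e i => (inc src tgt e i : ℚ)) '' S) := by
      intro a b hab
      obtain ⟨p⟩ := hab
      induction p with
      | nil => rw [sub_self]; exact Submodule.zero_mem _
      | @cons u v w h _ ih =>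
        have h1 := Submodule.add_mem _ (hadj _ _ h) ih
        rwa [sub_add_sub_cancel] at h1
    rw [inc_eq_iv]
    exact hreach _ _ h

variable [Fintype E]

lemma cyc_indep_empty (src tgt : E → Fin (d + 1)) : (cyc src tgt).Indep ∅ :=
  (cyc src tgt).empty_indep

theorem cyc_indep_insert (src tgt : E → Fin (d + 1)) {I : Set E} {e : E} (he : e ∉ I) :
    (cyc src tgt).Indep (insert e I) ↔
      (cyc src tgt).Indep I ∧ ¬ (fgr src tgt I).Reachable (src e) (tgt e) := by
  rw [← span_iff]
  exact linearIndepOn_insert (K := ℚ) (f := fun e i => (inc src tgt e i : ℚ)) he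

omit [Fintype E] in
lemma fgr_reachable (src tgt : E → Fin (d + 1)) [DecidableEq E] (S : Finset E)
    (a b : Fin (d + 1)) : (fgr src tgt (S : Set E)).Reachable a b ↔
      (S.sup fun i => gS s(src i, tgt i)) a b := by
  classical
  have h : fgr src tgt (S : Set E) = SimpleGraph.fromEdgeSet
      ((S.image (fun e => s(src e, tgt e)) : Finset (Sym2 (Fin (d + 1)))) :
        Set (Sym2 (Fin (d + 1)))) := by
    unfold fgr
    rw [Finset.coe_image]
  rw [h, reachable_iff, Finset.sup_image]

/-- adding the edges of the list one by one to the partition `r` never closes a cycle -/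
def acy {V : Type} (src tgt : E → V) : List E → Setoid V → Prop
  | [], _ => True
  | i :: l, r => ¬ r (src i) (tgt i) ∧ acy src tgt l (r ⊔ gS s(src i, tgt i))

theorem indep_acy_aux (src tgt : E → Fin (d + 1)) [DecidableEq E] (l : List E) :
    ∀ (S : Finset E), l.Nodup → (∀ i ∈ l, i ∉ S) → (cyc src tgt).Indep (S : Set E) →
      ((cyc src tgt).Indep ((S ∪ l.toFinset : Finset E) : Set E) ↔
        acy src tgt l (S.sup fun i => gS s(src i, tgt i))) := by
  induction l with
  | nil =>
    intro S _ _ hS
    simp [acy, hS]
  | cons i l ih =>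
    intro S hnd hdis hS
    rw [List.nodup_cons] at hnd
    have hiS : i ∉ S := hdis i (by simp)
    have hset : S ∪ (i :: l).toFinset = insert i S ∪ l.toFinset := by
      ext x
      simp only [Finset.mem_union, List.mem_toFinset, List.mem_cons, Finset.mem_insert]
      tauto
    have hins := cyc_indep_insert src tgt (I := (S : Set E)) (e := i) (by simpa using hiS)
    rw [fgr_reachable] at hins
    have hsup : (insert i S).sup (fun i => gS s(src i, tgt i)) =
        (S.sup fun i => gS s(src i, tgt i)) ⊔ gS s(src i, tgt i) := by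
      rw [Finset.sup_insert, sup_comm]
    have hdis' : ∀ j ∈ l, j ∉ insert i S := by
      intro j hj hj'
      rcases Finset.mem_insert.1 hj' with h1 | h1
      · exact hnd.1 (h1 ▸ hj)
      · exact hdis j (by simp [hj]) h1
    rw [hset, acy]
    constructor
    · intro h
      have h1 : (cyc src tgt).Indep ((insert i S : Finset E) : Set E) :=
        h.subset (by rw [Finset.coe_union]; exact Set.subset_union_left)
      rw [Finset.coe_insert] at h1
      refine ⟨(hins.1 h1).2, ?_⟩
      rw [← hsup]
      exact (ih (insert i S) hnd.2 hdis' (by rw [Finset.coe_insert]; exact h1)).1 h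
    · rintro ⟨h1, h2⟩
      have h3 := hins.2 ⟨hS, h1⟩
      rw [← hsup] at h2
      exact (ih (insert i S) hnd.2 hdis' (by rw [Finset.coe_insert]; exact h3)).2 h2

/-- independence = the edges can be added one by one without closing a cycle -/
theorem indep_iff_acy (src tgt : E → Fin (d + 1)) (A : Finset E) (l : List E) (hl : l.Nodup)
    (hA : ∀ i, i ∈ l ↔ i ∈ A) : (cyc src tgt).Indep (A : Set E) ↔ acy src tgt l ⊥ := by
  classical
  have h := indep_acy_aux src tgt l ∅ hl (by simp) (by simp)
  rw [Finset.empty_union, Finset.sup_empty] at h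
  have h2 : l.toFinset = A := by
    ext i
    rw [List.mem_toFinset, hA]
  rw [h2] at h
  exact h

end Forest

theorem indep_iff_acy_sort {n d : ℕ} (src tgt : Fin n → Fin (d + 1)) (A : Finset (Fin n)) :
    (cyc src tgt).Indep (A : Set (Fin n)) ↔ acy src tgt (A.sort (· ≤ ·)) ⊥ :=
  indep_iff_acy src tgt A _ (Finset.sort_nodup _ _) (fun _ => Finset.mem_sort _)

theorem indep_iff_acy_finRange {n d : ℕ} (src tgt : Fin n → Fin (d + 1)) (A : Finset (Fin n)) :
    (cyc src tgt).Indep (A : Set (Fin n)) ↔
      acy src tgt ((List.finRange n).filter (fun i => decide (i ∈ A))) ⊥ :=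
  indep_iff_acy src tgt A _ ((List.nodup_finRange n).filter _) (fun i => by simp)

end Pool.Agent.NC
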