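import Mathlib
import Pool.Agent.NC.Simple

/-!
SWARM 16: further literal shapes of the counterexample, from `exists_simple`.
-/

set_option autoImplicit false

namespace Pool.NC

open Finset SimpleGraph

section W

open scoped Classical

/-- In the frozen statement the summation variable is elaborated as a `Set`; the sum is the sum over
all finite subsets. -/
theorem sum_shape {n : ℕ} (G : SimpleGraph (Fin n)) (P : Set (Sym2 (Fin n)) → Prop)
    (p : Sym2 (Fin n) → ℝ) :
    (∑ E' ∈ G.edgeFinset.powerset.filter (fun E' => P (E' : Set (Sym2 (Fin n)))),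
      ∏ x ∈ E', p x) =
    ∑ F ∈ G.edgeFinset.powerset, if P (F : Set (Sym2 (Fin n))) then ∏ x ∈ F, p x else 0 := by
  simp only [Finset.bind_def, Finset.pure_def]
  rw [← Finset.sum_filter]
  symm
  refine Finset.sum_bij (fun F _ => (F : Set (Sym2 (Fin n)))) ?_ ?_ ?_ ?_
  · intro F hF
    rw [Finset.mem_filter] at hF ⊢
    refine ⟨?_, hF.2⟩
    rw [Finset.mem_sup]
    exact ⟨F, hF.1, Finset.mem_singleton_self _⟩
  · intro F _ F' _ h
    exact Finset.coe_injective h
  · intro S hS
    rw [Finset.mem_filter, Finset.mem_sup] at hS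
    obtain ⟨⟨F, hF, hFS⟩, hP⟩ := hS
    rw [Finset.mem_singleton] at hFS
    exact ⟨F, Finset.mem_filter.2 ⟨hF, hFS ▸ hP⟩, hFS.symm⟩
  · intro F _
    refine Finset.prod_congr ?_ fun _ _ => rfl
    ext x
    simp

theorem sum_one_eq_ncard {n : ℕ} (G : SimpleGraph (Fin n)) (X : Set (Sym2 (Fin n)))
    (P : Set (Sym2 (Fin n)) → Prop)
    (hP : ∀ F : Set (Sym2 (Fin n)), P F ↔ X ⊆ F ∧ (fromEdgeSet F).Connected) :
    (∑ E' ∈ G.edgeFinset.powerset.filter (fun E' => P (E' : Set (Sym2 (Fin n)))),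
      ∏ _x ∈ E', (1 : ℝ)) = ((CS G X).ncard : ℝ) := by
  have hset : CS G X = ((G.edgeFinset.powerset.filter
      (fun F : Finset (Sym2 (Fin n)) => P (F : Set (Sym2 (Fin n)))) :
      Finset (Finset (Sym2 (Fin n)))) : Set (Finset (Sym2 (Fin n)))) := by
    ext F
    unfold CS
    simp only [Set.mem_ofPred_eq, Finset.coe_filter, Finset.mem_powerset, hP]
    rw [← Finset.coe_subset, SimpleGraph.coe_edgeFinset]
  rw [sum_shape, hset, Set.ncard_coe_finset, Finset.card_filter]
  push_cast
  refine Finset.sum_congr rfl fun F _ => ?_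
  rw [Finset.prod_const_one]

/-- The literal shape of `S12248`. -/
theorem not_S12247_of_bad {V : Type} [Fintype V] [DecidableEq V] {E : Finset (Sym2 V)}
    {b : Sym2 V → ℕ} {e f : Sym2 V} (h : Bad E b e f) :
    ¬ (∀ (n : ℕ) (G : SimpleGraph (Fin n)) (p : Sym2 (Fin n) → ℝ), (∀ x, 0 ≤ p x) →
      ∀ e ∈ G.edgeFinset, ∀ f ∈ G.edgeFinset, e ≠ f →
        (∑ E' ∈ G.edgeFinset.powerset.filter
            (fun E' => e ∈ E' ∧ f ∈ E' ∧
              (SimpleGraph.fromEdgeSet (E' : Set (Sym2 (Fin n)))).Connected),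
            ∏ x ∈ E', p x) *
        (∑ E' ∈ G.edgeFinset.powerset.filter
            (fun E' => (SimpleGraph.fromEdgeSet (E' : Set (Sym2 (Fin n)))).Connected),
            ∏ x ∈ E', p x)
        ≤
        (∑ E' ∈ G.edgeFinset.powerset.filter
            (fun E' => e ∈ E' ∧
              (SimpleGraph.fromEdgeSet (E' : Set (Sym2 (Fin n)))).Connected),
            ∏ x ∈ E', p x) *
        (∑ E' ∈ G.edgeFinset.powerset.filter
            (fun E' => f ∈ E' ∧
              (SimpleGraph.fromEdgeSet (E' : Set (Sym2 (Fin n)))).Connected),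
            ∏ x ∈ E', p x)) := by
  intro hall
  obtain ⟨n, G, e, f, he, hf, hef, hlt⟩ := exists_simple h
  have h1 := hall n G (fun _ => 1) (fun _ => zero_le_one) e (mem_edgeFinset.2 he) f
    (mem_edgeFinset.2 hf) hef
  have k1 := sum_one_eq_ncard G {e, f} (fun F => e ∈ F ∧ f ∈ F ∧ (fromEdgeSet F).Connected)
    (fun F => by rw [Set.insert_subset_iff, Set.singleton_subset_iff, and_assoc])
  have k2 := sum_one_eq_ncard G ∅ (fun F => (fromEdgeSet F).Connected)
    (fun F => by simp only [Set.empty_subset, true_and])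
  have k3 := sum_one_eq_ncard G {e} (fun F => e ∈ F ∧ (fromEdgeSet F).Connected)
    (fun F => by rw [Set.singleton_subset_iff])
  have k4 := sum_one_eq_ncard G {f} (fun F => f ∈ F ∧ (fromEdgeSet F).Connected)
    (fun F => by rw [Set.singleton_subset_iff])
  have h3 : ((CS G {e, f}).ncard : ℝ) * ((CS G ∅).ncard : ℝ) ≤
      ((CS G {e}).ncard : ℝ) * ((CS G {f}).ncard : ℝ) := by
    rw [← k1, ← k2, ← k3, ← k4]
    convert h1
  have h2 : (CS G {e, f}).ncard * (CS G ∅).ncard ≤ (CS G {e}).ncard * (CS G {f}).ncard := by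
    exact_mod_cast h3
  omega

end W

end Pool.NC
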