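import Mathlib

/-!
Transport of the correlation inequality for independent sets along a symmetry of the matroid.
-/

set_option autoImplicit false
open Classical

namespace Pool.NC

/-- The sum of the weights of the independent sets with a property. -/
noncomputable def iS {n : ℕ} (M : Matroid (Fin n)) (P : Finset (Fin n) → Prop) (z : Fin n → ℝ) : ℝ :=
  ∑ A : Finset (Fin n), if M.Indep (A : Set (Fin n)) ∧ P A then ∏ a ∈ A, z a else 0

/-- The inequality for independent sets, for all positive weights (the text of the frozen statement). -/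
def ICor {n : ℕ} (M : Matroid (Fin n)) (e f : Fin n) : Prop :=
  ∀ z : Fin n → ℝ, (∀ x, 0 < z x) →
        (∑ A : Finset (Fin n),
            if M.Indep (A : Set (Fin n)) ∧ e ∈ A ∧ f ∈ A then ∏ a ∈ A, z a else 0) *
          (∑ A : Finset (Fin n),
            if M.Indep (A : Set (Fin n)) then ∏ a ∈ A, z a else 0) ≤
        (∑ A : Finset (Fin n),
            if M.Indep (A : Set (Fin n)) ∧ e ∈ A then ∏ a ∈ A, z a else 0) *
          (∑ A : Finset (Fin n),
            if M.Indep (A : Set (Fin n)) ∧ f ∈ A then ∏ a ∈ A, z a else 0)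

theorem ICor_iff {n : ℕ} (M : Matroid (Fin n)) (e f : Fin n) :
    ICor M e f ↔ ∀ z : Fin n → ℝ, (∀ x, 0 < z x) →
      iS M (fun A => e ∈ A ∧ f ∈ A) z * iS M (fun _ => True) z ≤
        iS M (fun A => e ∈ A) z * iS M (fun A => f ∈ A) z := by
  unfold ICor iS
  simp only [and_true]
  refine iff_of_eq ?_
  congr!

theorem ICor.symm {n : ℕ} {M : Matroid (Fin n)} {e f : Fin n} (h : ICor M e f) : ICor M f e := by
  rw [ICor_iff] at h ⊢
  intro z hz
  have h1 := h z hz
  have h2 : iS M (fun A => f ∈ A ∧ e ∈ A) z = iS M (fun A => e ∈ A ∧ f ∈ A) z := by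
    unfold iS
    refine Finset.sum_congr rfl fun A _ => ?_
    simp only [and_comm (a := f ∈ A)]
    congr!
  rw [h2]
  linarith [mul_comm (iS M (fun A => e ∈ A) z) (iS M (fun A => f ∈ A) z)]

theorem iS_map {n : ℕ} (M : Matroid (Fin n)) (σ : Equiv.Perm (Fin n))
    (hσ : ∀ A : Finset (Fin n), M.Indep ((A.map σ.toEmbedding : Finset (Fin n)) : Set (Fin n)) ↔
      M.Indep (A : Set (Fin n))) (P Q : Finset (Fin n) → Prop)
    (hPQ : ∀ A, Q (A.map σ.toEmbedding) ↔ P A) (z : Fin n → ℝ) :
    iS M Q z = iS M P (fun x => z (σ x)) := by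
  unfold iS
  rw [← Equiv.sum_comp (Equiv.finsetCongr σ)]
  refine Finset.sum_congr rfl fun A _ => ?_
  simp only [Equiv.finsetCongr_apply, hσ, hPQ, Finset.prod_map, Equiv.coe_toEmbedding]

/-- The inequality is transported by a symmetry of the independent sets. -/
theorem ICor.map {n : ℕ} {M : Matroid (Fin n)} {e f : Fin n} (h : ICor M e f) (σ : Equiv.Perm (Fin n))
    (hσ : ∀ A : Finset (Fin n), M.Indep ((A.map σ.toEmbedding : Finset (Fin n)) : Set (Fin n)) ↔
      M.Indep (A : Set (Fin n))) : ICor M (σ e) (σ f) := by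
  rw [ICor_iff] at h ⊢
  intro z hz
  have h1 := h (fun x => z (σ x)) (fun x => hz _)
  rwa [iS_map M σ hσ (fun A => e ∈ A ∧ f ∈ A) _ (fun A => by simp) z,
    iS_map M σ hσ (fun _ => True) _ (fun A => by simp) z,
    iS_map M σ hσ (fun A => e ∈ A) _ (fun A => by simp) z,
    iS_map M σ hσ (fun A => f ∈ A) _ (fun A => by simp) z]

end Pool.NC
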