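import Pool.Agent.NC.Cyc
import Pool.Agent.NC.Dp
import Pool.Agent.NC.Sym

/-!
Sums over the independent sets of a cycle matroid as programmes over coded partitions.
-/

set_option autoImplicit false

namespace Pool.NC

open Pool.Agent.NC SimpleGraph

section Span

variable {E : Type} {d : ℕ} (src tgt : E → Fin (d + 1))

/-- the graph with the edges in `S` -/
def grS (S : Set E) : SimpleGraph (Fin (d + 1)) :=
  fromEdgeSet ((fun e => s(src e, tgt e)) '' S)

/-- the vector of a vertex -/
def vec (v : Fin (d + 1)) : Fin d → ℚ := fun j => if v = j.succ then 1 else 0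

theorem inc_eq (e : E) :
    (fun i => (inc src tgt e i : ℚ)) = vec (src e) - vec (tgt e) := by
  funext i
  simp only [inc, vec, Pi.sub_apply]
  push_cast
  ring

theorem mem_span_of_reach (S : Set E) {a b : Fin (d + 1)} (h : (grS src tgt S).Reachable a b) :
    (vec a - vec b : Fin d → ℚ) ∈
      Submodule.span ℚ ((fun e i => (inc src tgt e i : ℚ)) '' S) := by
  obtain ⟨p⟩ := h
  induction p with
  | nil => rw [sub_self]; exact Submodule.zero_mem _
  | @cons u v w hadj _ ih =>
    rw [grS, fromEdgeSet_adj] at hadj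
    obtain ⟨⟨e, he, hs⟩, -⟩ := hadj
    have h1 : (vec u - vec v : Fin d → ℚ) ∈
        Submodule.span ℚ ((fun e i => (inc src tgt e i : ℚ)) '' S) := by
      have h2 : (vec (src e) - vec (tgt e) : Fin d → ℚ) ∈
          Submodule.span ℚ ((fun e i => (inc src tgt e i : ℚ)) '' S) := by
        rw [← inc_eq]
        exact Submodule.subset_span ⟨e, he, rfl⟩
      rcases Sym2.eq_iff.1 hs with ⟨h3, h4⟩ | ⟨h3, h4⟩
      · rw [← h3, ← h4]; exact h2
      · rw [← h3, ← h4, ← neg_sub]; exact Submodule.neg_mem _ h2
    have h5 : (vec u - vec w : Fin d → ℚ) = (vec u - vec v) + (vec v - vec w) := by ring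
    rw [h5]
    exact Submodule.add_mem _ h1 ih

theorem reach_of_mem_span (S : Set E) (i : E)
    (h : (fun j => (inc src tgt i j : ℚ)) ∈
      Submodule.span ℚ ((fun e j => (inc src tgt e j : ℚ)) '' S)) :
    (grS src tgt S).Reachable (src i) (tgt i) := by
  classical
  by_contra hcon
  set W : Fin (d + 1) → ℚ := fun v => (if (grS src tgt S).Reachable (src i) v then 1 else 0) -
    (if (grS src tgt S).Reachable (src i) 0 then 1 else 0) with hW
  have hW0 : W 0 = 0 := by simp [hW]
  have hWS : ∀ e ∈ S, W (src e) = W (tgt e) := by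
    intro e he
    have h1 : (grS src tgt S).Reachable (src e) (tgt e) := by
      by_cases hne : src e = tgt e
      · rw [hne]
      · exact Adj.reachable ((fromEdgeSet_adj _).2 ⟨⟨e, he, rfl⟩, hne⟩)
    have h2 : (grS src tgt S).Reachable (src i) (src e) ↔
        (grS src tgt S).Reachable (src i) (tgt e) :=
      ⟨fun h => h.trans h1, fun h => h.trans h1.symm⟩
    simp only [hW, h2]
  let φ : (Fin d → ℚ) →ₗ[ℚ] ℚ :=
    { toFun := fun u => ∑ j, u j * W j.succ
      map_add' := fun u v => by simp only [Pi.add_apply, add_mul, Finset.sum_add_distrib]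
      map_smul' := fun c u => by
        simp only [Pi.smul_apply, smul_eq_mul, mul_assoc, RingHom.id_apply, Finset.mul_sum] }
  have hle : Submodule.span ℚ ((fun e j => (inc src tgt e j : ℚ)) '' S) ≤ LinearMap.ker φ := by
    rw [Submodule.span_le]
    rintro _ ⟨e, he, rfl⟩
    change ∑ j, (inc src tgt e j : ℚ) * W j.succ = 0
    rw [inc_sum src tgt e W hW0, hWS e he, sub_self]
  have h3 : ∑ j, (inc src tgt i j : ℚ) * W j.succ = 0 := hle h
  rw [inc_sum src tgt i W hW0] at h3
  simp only [hW, sub_sub_sub_cancel_right] at h3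
  rw [if_pos (Reachable.refl _), if_neg hcon] at h3
  norm_num at h3

theorem indep_insert_iff [Fintype E] {S : Set E} {i : E} (hi : i ∉ S) :
    (cyc src tgt).Indep (insert i S) ↔
      (cyc src tgt).Indep S ∧ ¬ (grS src tgt S).Reachable (src i) (tgt i) := by
  unfold cyc imat
  rw [vmat_indep, vmat_indep, linearIndepOn_insert hi]
  refine and_congr_right fun _ => not_congr ?_
  constructor
  · exact reach_of_mem_span src tgt S i
  · intro h
    have := mem_span_of_reach src tgt S h
    rwa [← inc_eq] at this

/-- The partition of the vertices given by `S`. -/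
def RS (S : Set E) : Setoid (Fin (d + 1)) := (grS src tgt S).reachableSetoid

theorem RS_insert (S : Set E) (i : E) :
    RS src tgt (insert i S) = RS src tgt S ⊔ gS s(src i, tgt i) := by
  apply le_antisymm
  · have key : ∀ a b : Fin (d + 1), (grS src tgt (insert i S)).Walk a b →
        (RS src tgt S ⊔ gS s(src i, tgt i)) a b := by
      intro a b p
      induction p with
      | nil => exact (RS src tgt S ⊔ gS s(src i, tgt i)).refl' _
      | @cons u v w hadj _ ih =>
        refine (RS src tgt S ⊔ gS s(src i, tgt i)).trans' ?_ ih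
        rw [grS, fromEdgeSet_adj] at hadj
        obtain ⟨⟨e, he, hs⟩, hne⟩ := hadj
        rcases he with rfl | he
        · exact (le_sup_right : gS s(src e, tgt e) ≤ RS src tgt S ⊔ gS s(src e, tgt e))
            (gS_rel hs.symm)
        · refine (le_sup_left : RS src tgt S ≤ RS src tgt S ⊔ gS s(src i, tgt i)) ?_
          exact Adj.reachable ((fromEdgeSet_adj _).2 ⟨⟨e, he, hs⟩, hne⟩)
    intro a b hab
    obtain ⟨p⟩ := (hab : (grS src tgt (insert i S)).Reachable a b)
    exact key a b p
  · refine sup_le ?_ ?_
    · intro a b hab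
      exact (hab : (grS src tgt S).Reachable a b).mono
        (fromEdgeSet_mono (Set.image_mono (Set.subset_insert i S)))
    · rw [gS_le]
      intro a b hab
      change (grS src tgt (insert i S)).Reachable a b
      by_cases hne : a = b
      · rw [hne]
      · exact Adj.reachable ((fromEdgeSet_adj _).2 ⟨⟨i, Set.mem_insert i S, hab.symm⟩, hne⟩)

end Span

section GF

variable {E : Type} {d : ℕ} (src tgt : E → Fin (d + 1)) [Fintype E] [DecidableEq E]
  {R : Type*} [CommSemiring R]

open Classical in
/-- The sum over all `A ⊆ L` with `S ∪ A` independent. -/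
noncomputable def GF (y : E → R) (L : List E) (S : Set E) : R :=
  ∑ A ∈ L.toFinset.powerset, if (cyc src tgt).Indep (S ∪ (A : Set E)) then ∏ a ∈ A, y a else 0

/-- The programme. -/
def FF (n : ℕ) : List (ℕ × ℕ × R) → ℕ → R
  | [], _ => 1
  | e :: l, c => bif Nat.beq (lab c e.1) (lab c e.2.1) then FF n l c
      else FF n l c + e.2.2 * FF n l (join n c e.1 e.2.1)

theorem GF_nil (y : E → R) (S : Set E) (hS : (cyc src tgt).Indep S) : GF src tgt y [] S = 1 := by
  unfold GF
  simp [hS]

theorem GF_eq_zero (y : E → R) (L : List E) (S : Set E) (hS : ¬ (cyc src tgt).Indep S) :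
    GF src tgt y L S = 0 := by
  unfold GF
  refine Finset.sum_eq_zero fun A _ => if_neg fun h => hS (h.subset Set.subset_union_left)

theorem GF_cons (y : E → R) (i : E) (L : List E) (hi : i ∉ L) (S : Set E) :
    GF src tgt y (i :: L) S = GF src tgt y L S + y i * GF src tgt y L (insert i S) := by
  classical
  unfold GF
  rw [List.toFinset_cons, Finset.sum_powerset_insert (by simpa using hi), Finset.mul_sum]
  congr 1
  refine Finset.sum_congr rfl fun A hA => ?_
  rw [Finset.mem_powerset] at hA
  have hiA : i ∉ A := fun h => hi (by simpa using hA h)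
  have h1 : S ∪ ((insert i A : Finset E) : Set E) = insert i S ∪ (A : Set E) := by
    rw [Finset.coe_insert, Set.union_insert, Set.insert_union]
  rw [h1, Finset.prod_insert hiA]
  split_ifs <;> simp

theorem GF_eq_FF (y : E → R) (L : List E) (hL : L.Nodup) (S : Set E) (hS : (cyc src tgt).Indep S)
    (hdis : ∀ i ∈ L, i ∉ S) (c : ℕ) (hc : sem (d + 1) c = RS src tgt S) :
    GF src tgt y L S =
      FF (d + 1) (L.map fun i => (((src i : Fin (d + 1)) : ℕ), ((tgt i : Fin (d + 1)) : ℕ), y i)) c := by
  induction L generalizing S c with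
  | nil => rw [GF_nil src tgt y S hS]; rfl
  | cons i L ih =>
    rw [List.nodup_cons] at hL
    have hiS : i ∉ S := hdis i (by simp)
    rw [GF_cons src tgt y i L hL.1, List.map_cons, FF,
      ih hL.2 S hS (fun j hj => hdis j (by simp [hj])) c hc, beq_decide]
    have hrel : (grS src tgt S).Reachable (src i) (tgt i) ↔
        lab c (src i) = lab c (tgt i) := by
      have h1 : sem (d + 1) c (src i) (tgt i) ↔ RS src tgt S (src i) (tgt i) := by rw [hc]
      rw [sem_rel] at h1
      exact h1.symm
    by_cases hr : (grS src tgt S).Reachable (src i) (tgt i)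
    · rw [decide_eq_true (hrel.1 hr), cond_true, GF_eq_zero src tgt y L (insert i S)
        (fun h => ((indep_insert_iff src tgt hiS).1 h).2 hr), mul_zero, add_zero]
    · rw [decide_eq_false (fun h => hr (hrel.2 h)), cond_false]
      congr 2
      refine ih hL.2 (insert i S) ((indep_insert_iff src tgt hiS).2 ⟨hS, hr⟩) ?_ _ ?_
      · intro j hj
        rw [Set.mem_insert_iff, not_or]
        exact ⟨fun h => hL.1 (h ▸ hj), hdis j (by simp [hj])⟩
      · rw [sem_join, hc, RS_insert]

/-- Adding an edge between two classes to a set with a given code. -/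
theorem start_ok {S : Set E} {c : ℕ} (hS : (cyc src tgt).Indep S)
    (hc : sem (d + 1) c = RS src tgt S) {i : E} (hi : i ∉ S)
    (hne : lab c (src i) ≠ lab c (tgt i)) :
    (cyc src tgt).Indep (insert i S) ∧
      sem (d + 1) (join (d + 1) c (src i) (tgt i)) = RS src tgt (insert i S) := by
  have hrel : (grS src tgt S).Reachable (src i) (tgt i) ↔ lab c (src i) = lab c (tgt i) := by
    have h1 : sem (d + 1) c (src i) (tgt i) ↔ RS src tgt S (src i) (tgt i) := by rw [hc]
    rw [sem_rel] at h1
    exact h1.symm
  exact ⟨(indep_insert_iff src tgt hi).2 ⟨hS, fun h => hne (hrel.1 h)⟩, by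
    rw [sem_join, hc, RS_insert]⟩

/-- The code of the partition into singletons. -/
def c0 (n : ℕ) : ℕ := build id n

theorem sem_c0 (hd : d + 1 ≤ 16) : sem (d + 1) (c0 (d + 1)) = RS src tgt (∅ : Set E) := by
  ext a b
  rw [sem_rel, c0, lab_build _ a.2, lab_build _ b.2]
  have ha := a.2
  have hb := b.2
  simp only [id]
  rw [Nat.mod_eq_of_lt (by omega), Nat.mod_eq_of_lt (by omega)]
  constructor
  · intro h
    rw [Fin.ext h]
  · intro h
    obtain ⟨p⟩ := (h : (grS src tgt (∅ : Set E)).Reachable a b)
    cases p with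
    | nil => rfl
    | cons hadj _ =>
      rw [grS, fromEdgeSet_adj] at hadj
      simp at hadj

end GF

section Nat

variable {R R' : Type*} [CommSemiring R] [CommSemiring R']

/-- Naturality of the programme. -/
theorem map_FF (g : R →+* R') (n : ℕ) (l : List (ℕ × ℕ × R)) (c : ℕ) :
    g (FF n l c) = FF n (l.map fun e => (e.1, e.2.1, g e.2.2)) c := by
  induction l generalizing c with
  | nil => simp [FF]
  | cons e l ih =>
    rw [FF, List.map_cons, FF]
    cases Nat.beq (lab c e.1) (lab c e.2.1) with
    | true => rw [cond_true, cond_true, ih]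
    | false => rw [cond_false, cond_false, map_add, map_mul, ih, ih]

end Nat

section Cor

variable {n d : ℕ} (src tgt : Fin n → Fin (d + 1))

/-- The list of edges with their weights. -/
def EL {R : Type*} (y : Fin n → R) (L : List (Fin n)) : List (ℕ × ℕ × R) :=
  L.map fun i => (((src i : Fin (d + 1)) : ℕ), ((tgt i : Fin (d + 1)) : ℕ), y i)

open Classical in
theorem iS_split (M : Matroid (Fin n)) (e f : Fin n) (hef : e ≠ f) (L : List (Fin n))
    (he : e ∉ L) (hf : f ∉ L) (huniv : ∀ i, i = e ∨ i = f ∨ i ∈ L) (P : Finset (Fin n) → Prop)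
    (z : Fin n → ℝ) :
    iS M P z = ∑ A ∈ L.toFinset.powerset,
      ((if M.Indep (A : Set (Fin n)) ∧ P A then ∏ a ∈ A, z a else 0) +
        (if M.Indep ((insert f A : Finset (Fin n)) : Set (Fin n)) ∧ P (insert f A) then
          ∏ a ∈ insert f A, z a else 0) +
        ((if M.Indep ((insert e A : Finset (Fin n)) : Set (Fin n)) ∧ P (insert e A) then
          ∏ a ∈ insert e A, z a else 0) +
        (if M.Indep ((insert e (insert f A) : Finset (Fin n)) : Set (Fin n)) ∧
          P (insert e (insert f A)) then ∏ a ∈ insert e (insert f A), z a else 0))) := by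
  have hU : (Finset.univ : Finset (Finset (Fin n))) = (insert e (insert f L.toFinset)).powerset := by
    have h1 : insert e (insert f L.toFinset) = (Finset.univ : Finset (Fin n)) := by
      ext i
      simp only [Finset.mem_insert, List.mem_toFinset, Finset.mem_univ, iff_true]
      exact huniv i
    rw [h1, Finset.powerset_univ]
  unfold iS
  rw [hU, Finset.sum_powerset_insert (by simp [hef, he]), Finset.sum_powerset_insert (by simpa using hf),
    Finset.sum_powerset_insert (by simpa using hf), ← Finset.sum_add_distrib,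
    ← Finset.sum_add_distrib, ← Finset.sum_add_distrib]

/-- The inequality from the four sums over the other elements. -/
theorem ICor_of_GF (e f : Fin n) (hef : e ≠ f) (L : List (Fin n))
    (he : e ∉ L) (hf : f ∉ L) (huniv : ∀ i, i = e ∨ i = f ∨ i ∈ L)
    (h : ∀ z : Fin n → ℝ, (∀ i, 0 < z i) →
      GF src tgt z L {e, f} * GF src tgt z L ∅ ≤ GF src tgt z L {e} * GF src tgt z L {f}) :
    ICor (cyc src tgt) e f := by
  classical
  rw [ICor_iff]
  intro z hz
  have hA : ∀ A ∈ L.toFinset.powerset, e ∉ A ∧ f ∉ A := by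
    intro A hA
    rw [Finset.mem_powerset] at hA
    exact ⟨fun h => he (by simpa using hA h), fun h => hf (by simpa using hA h)⟩
  have c1 : ∀ A : Finset (Fin n), (((insert f A : Finset (Fin n)) : Set (Fin n))) = {f} ∪ (A : Set (Fin n)) := by
    intro A; rw [Finset.coe_insert, Set.singleton_union]
  have c2 : ∀ A : Finset (Fin n), (((insert e A : Finset (Fin n)) : Set (Fin n))) = {e} ∪ (A : Set (Fin n)) := by
    intro A; rw [Finset.coe_insert, Set.singleton_union]
  have c3 : ∀ A : Finset (Fin n), (((insert e (insert f A) : Finset (Fin n)) : Set (Fin n))) =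
      {e, f} ∪ (A : Set (Fin n)) := by
    intro A
    rw [Finset.coe_insert, Finset.coe_insert, Set.insert_union, Set.singleton_union]
  have s1 : iS (cyc src tgt) (fun A => e ∈ A ∧ f ∈ A) z = z e * z f * GF src tgt z L {e, f} := by
    rw [iS_split _ e f hef L he hf huniv, GF, Finset.mul_sum]
    refine Finset.sum_congr rfl fun A hA' => ?_
    obtain ⟨h1, h2⟩ := hA A hA'
    rw [if_neg (fun h => h1 h.2.1), if_neg, if_neg, c3]
    · simp only [Finset.mem_insert, true_or, or_true, and_true, zero_add]
      split_ifs with h3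
      · rw [Finset.prod_insert (by simp [hef, h1]), Finset.prod_insert h2]
        ring
      · rw [mul_zero]
    · simp [hef.symm, h2]
    · simp [hef, h1]
  have s2 : iS (cyc src tgt) (fun A => e ∈ A) z =
      z e * (GF src tgt z L {e} + z f * GF src tgt z L {e, f}) := by
    rw [iS_split _ e f hef L he hf huniv, GF, GF, Finset.mul_sum, ← Finset.sum_add_distrib,
      Finset.mul_sum]
    refine Finset.sum_congr rfl fun A hA' => ?_
    obtain ⟨h1, h2⟩ := hA A hA'
    rw [if_neg (fun h => h1 h.2), if_neg, c3, c2]
    · simp only [Finset.mem_insert, true_or, and_true, zero_add]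
      rw [mul_add]
      congr 1
      · split_ifs with h3
        · rw [Finset.prod_insert h1]
        · rw [mul_zero]
      · split_ifs with h3
        · rw [Finset.prod_insert (by simp [hef, h1]), Finset.prod_insert h2]
        · rw [mul_zero, mul_zero]
    · simp [hef, h1]
  have s3 : iS (cyc src tgt) (fun A => f ∈ A) z =
      z f * (GF src tgt z L {f} + z e * GF src tgt z L {e, f}) := by
    rw [iS_split _ e f hef L he hf huniv, GF, GF, Finset.mul_sum, ← Finset.sum_add_distrib,
      Finset.mul_sum]
    refine Finset.sum_congr rfl fun A hA' => ?_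
    obtain ⟨h1, h2⟩ := hA A hA'
    rw [if_neg (fun h => h2 h.2), if_neg (c := _ ∧ f ∈ insert e A), c3, c1]
    · simp only [Finset.mem_insert, true_or, or_true, and_true, zero_add]
      rw [mul_add]
      congr 1
      · split_ifs with h3
        · rw [Finset.prod_insert h2]
        · rw [mul_zero]
      · split_ifs with h3
        · rw [Finset.prod_insert (by simp [hef, h1]), Finset.prod_insert h2]
          ring
        · rw [mul_zero, mul_zero]
    · simp [hef.symm, h2]
  have s4 : iS (cyc src tgt) (fun _ => True) z =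
      GF src tgt z L ∅ + z f * GF src tgt z L {f} +
        (z e * GF src tgt z L {e} + z e * z f * GF src tgt z L {e, f}) := by
    rw [iS_split _ e f hef L he hf huniv, GF, GF, GF, GF, Finset.mul_sum, Finset.mul_sum,
      Finset.mul_sum, ← Finset.sum_add_distrib, ← Finset.sum_add_distrib, ← Finset.sum_add_distrib]
    refine Finset.sum_congr rfl fun A hA' => ?_
    obtain ⟨h1, h2⟩ := hA A hA'
    rw [c3, c2, c1]
    simp only [and_true, Set.empty_union]
    congr 1
    · congr 1
      · split_ifs with h3
        · rw [Finset.prod_insert h2]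
        · rw [mul_zero]
    · congr 1
      · split_ifs with h3
        · rw [Finset.prod_insert h1]
        · rw [mul_zero]
      · split_ifs with h3
        · rw [Finset.prod_insert (by simp [hef, h1]), Finset.prod_insert h2]
          ring
        · rw [mul_zero]
  rw [s1, s2, s3, s4]
  have hz1 := hz e
  have hz2 := hz f
  have key := mul_le_mul_of_nonneg_left (h z hz) (mul_pos hz1 hz2).le
  nlinarith [key]

/-- THE REDUCTION. The inequality from the four programmes. -/
theorem ICor_of_FF (hd : d + 1 ≤ 16) (e f : Fin n) (L : List (Fin n)) (hL : L.Nodup)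
    (hef : e ≠ f) (he : e ∉ L) (hf : f ∉ L) (huniv : ∀ i, i = e ∨ i = f ∨ i ∈ L) (ce cf cef : ℕ)
    (hce : ce = join (d + 1) (c0 (d + 1)) (src e) (tgt e))
    (hcf : cf = join (d + 1) (c0 (d + 1)) (src f) (tgt f))
    (hcef : cef = join (d + 1) cf (src e) (tgt e))
    (h1 : lab (c0 (d + 1)) (src e) ≠ lab (c0 (d + 1)) (tgt e))
    (h2 : lab (c0 (d + 1)) (src f) ≠ lab (c0 (d + 1)) (tgt f))
    (h3 : lab cf (src e) ≠ lab cf (tgt e))
    (h : ∀ z : Fin n → ℝ, (∀ i, 0 < z i) →
      FF (d + 1) (EL src tgt z L) cef * FF (d + 1) (EL src tgt z L) (c0 (d + 1)) ≤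
        FF (d + 1) (EL src tgt z L) ce * FF (d + 1) (EL src tgt z L) cf) :
    ICor (cyc src tgt) e f := by
  have i0 : (cyc src tgt).Indep ∅ := (cyc src tgt).empty_indep
  have k0 := sem_c0 (E := Fin n) src tgt hd
  obtain ⟨ie, ke⟩ := start_ok src tgt i0 k0 (i := e) (Set.notMem_empty e) h1
  obtain ⟨ifp, kf⟩ := start_ok src tgt i0 k0 (i := f) (Set.notMem_empty f) h2
  rw [← hce] at ke
  rw [← hcf] at kf
  obtain ⟨ief, kef⟩ := start_ok src tgt ifp kf (i := e) (by simp [hef]) h3
  rw [← hcef] at kef
  rw [insert_empty_eq] at ie ke ifp kf ief kef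
  refine ICor_of_GF src tgt e f hef L he hf huniv fun z hz => ?_
  have hdis : ∀ S : Set (Fin n), S ⊆ {e, f} → ∀ i ∈ L, i ∉ S := by
    intro S hS i hi hiS
    rcases hS hiS with h | h
    · exact he (h ▸ hi)
    · exact hf ((Set.mem_singleton_iff.1 h) ▸ hi)
  have := h z hz
  rw [GF_eq_FF src tgt z L hL _ ief (hdis _ (by rfl)) _ kef,
    GF_eq_FF src tgt z L hL _ i0 (hdis _ (by simp)) _ k0,
    GF_eq_FF src tgt z L hL _ ie (hdis _ (by simp)) _ ke,
    GF_eq_FF src tgt z L hL _ ifp (hdis _ (by simp)) _ kf]
  exact this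

end Cor

end Pool.NC
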