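import Pool.Agent.NC.Num
import Pool.Agent.NC.Cyc

/-!
# The cycle matroid of the graph with 10 vertices and 23 edges: numerical violation of the
correlation inequality for spanning sets, and for the independent sets of the dual
-/

set_option autoImplicit false
open Classical

namespace Pool.NC

/-- the ends of the edges, first coordinates -/
def src : Fin 23 → Fin (9 + 1) := fun i => (ends i).1
/-- the ends of the edges, second coordinates -/
def tgt : Fin 23 → Fin (9 + 1) := fun i => (ends i).2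

/-- the weights -/
noncomputable def wt (i : Fin 23) : ℝ := 1 / (len i : ℝ)

theorem lenR_pos (i : Fin 23) : (0 : ℝ) < (len i : ℝ) := by exact_mod_cast len_pos i

theorem wt_pos (i : Fin 23) : 0 < wt i := one_div_pos.2 (lenR_pos i)

theorem conn_iff (A : Finset (Fin 23)) :
    Pool.Agent.NC.Conn src tgt (A : Set (Fin 23)) ↔ (gr A).Connected := Iff.rfl

/-- The product of all weights of absence. -/
noncomputable def P : ℝ := ∏ i, (len i : ℝ)

theorem P_pos : 0 < P := Finset.prod_pos fun i _ => lenR_pos i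

theorem prod_wt (A : Finset (Fin 23)) : ∏ i ∈ A, wt i = (∏ i ∈ Aᶜ, (len i : ℝ)) / P := by
  have h1 : (∏ i ∈ A, (len i : ℝ)) * ∏ i ∈ Aᶜ, (len i : ℝ) = P := Finset.prod_mul_prod_compl A _
  have h2 : (∏ i ∈ A, (len i : ℝ)) ≠ 0 := (Finset.prod_pos fun i _ => lenR_pos i).ne'
  have h3 : ∏ i ∈ A, wt i = (∏ i ∈ A, (len i : ℝ))⁻¹ := by
    unfold wt
    simp [Finset.prod_inv_distrib]
  rw [h3, ← h1, eq_div_iff (mul_ne_zero h2 (Finset.prod_pos fun i _ => lenR_pos i).ne')]
  field_simp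

theorem sum_K (X : Finset (Fin 23)) :
    (∑ A : Finset (Fin 23), if X ⊆ A ∧ (gr A).Connected then ∏ a ∈ A, wt a else 0) =
      (K X : ℝ) / P := by
  unfold K
  rw [← Finset.sum_filter]
  push_cast
  rw [Finset.sum_div]
  exact Finset.sum_congr rfl fun A _ => prod_wt A

theorem sum_K_iff (X : Finset (Fin 23)) (p : Finset (Fin 23) → Prop) [DecidablePred p]
    (h : ∀ A, p A ↔ (X ⊆ A ∧ (gr A).Connected)) :
    (∑ A : Finset (Fin 23), if p A then ∏ a ∈ A, wt a else 0) = (K X : ℝ) / P := by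
  rw [← sum_K X]
  exact Finset.sum_congr rfl fun A _ => if_congr (h A) rfl rfl

/-- The graph with all the edges is connected. -/
theorem conn_univ : Pool.Agent.NC.Conn src tgt (Set.univ : Set (Fin 23)) := by
  by_contra h
  have hK : ∀ X, K X = 0 := by
    intro X
    unfold K
    rw [Finset.filter_false_of_mem, Finset.sum_empty]
    rintro A - ⟨-, hA⟩
    exact h (Pool.Agent.NC.Conn.mono ((conn_iff A).2 hA) (Set.subset_univ _))
  have := K_ineq
  rw [hK, hK, hK, hK] at this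
  omega

theorem K_ineq_real : (K {0} : ℝ) * (K {1} : ℝ) < (K {0, 1} : ℝ) * (K ∅ : ℝ) := by
  exact_mod_cast K_ineq

/-- The matroid. -/
noncomputable def M : Matroid (Fin 23) := Pool.Agent.NC.cyc src tgt

theorem M_E : M.E = Set.univ := rfl

theorem M_spanning (A : Set (Fin 23)) : M.Spanning A ↔
    (SimpleGraph.fromEdgeSet ((fun i => s((ends i).1, (ends i).2)) '' A)).Connected :=
  Pool.Agent.NC.cyc_spanning_iff src tgt conn_univ A

theorem M_spanning_gr (A : Finset (Fin 23)) : M.Spanning (A : Set (Fin 23)) ↔ (gr A).Connected :=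
  M_spanning _

/-- violation for the spanning sets -/
theorem M_spanning_lt :
    (∑ A : Finset (Fin 23), if M.Spanning (A : Set (Fin 23)) ∧ 0 ∈ A then ∏ a ∈ A, wt a else 0) *
      (∑ A : Finset (Fin 23), if M.Spanning (A : Set (Fin 23)) ∧ 1 ∈ A then ∏ a ∈ A, wt a else 0) <
    (∑ A : Finset (Fin 23),
        if M.Spanning (A : Set (Fin 23)) ∧ 0 ∈ A ∧ 1 ∈ A then ∏ a ∈ A, wt a else 0) *
      (∑ A : Finset (Fin 23), if M.Spanning (A : Set (Fin 23)) then ∏ a ∈ A, wt a else 0) := by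
  rw [sum_K_iff {0} (fun A => M.Spanning (A : Set (Fin 23)) ∧ 0 ∈ A) (fun A => by
      rw [M_spanning_gr, Finset.singleton_subset_iff, and_comm]),
    sum_K_iff {1} (fun A => M.Spanning (A : Set (Fin 23)) ∧ 1 ∈ A) (fun A => by
      rw [M_spanning_gr, Finset.singleton_subset_iff, and_comm]),
    sum_K_iff {0, 1} (fun A => M.Spanning (A : Set (Fin 23)) ∧ 0 ∈ A ∧ 1 ∈ A) (fun A => by
      rw [M_spanning_gr, Finset.insert_subset_iff, Finset.singleton_subset_iff, and_comm]),
    sum_K_iff ∅ (fun A => M.Spanning (A : Set (Fin 23))) (fun A => by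
      rw [M_spanning_gr]; simp)]
  rw [div_mul_div_comm, div_mul_div_comm]
  exact div_lt_div_of_pos_right K_ineq_real (mul_pos P_pos P_pos)

/-- weighted sum over the connected spanning edge sets with the property `q` -/
noncomputable def T (q : Finset (Fin 23) → Prop) : ℝ :=
  ∑ B : Finset (Fin 23), if q B ∧ (gr B).Connected then ∏ i ∈ Bᶜ, (len i : ℝ) else 0

theorem T_K (X : Finset (Fin 23)) (q : Finset (Fin 23) → Prop) (h : ∀ A, q A ↔ X ⊆ A) :
    T q = (K X : ℝ) := by
  unfold T K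
  rw [← Finset.sum_filter]
  push_cast
  refine Finset.sum_congr ?_ fun _ _ => rfl
  ext A
  simp only [Finset.mem_filter, h A]

theorem T_add (q r : Finset (Fin 23) → Prop) :
    T (fun B => q B ∧ r B) + T (fun B => ¬ q B ∧ r B) = T r := by
  unfold T
  rw [← Finset.sum_add_distrib]
  refine Finset.sum_congr rfl fun B _ => ?_
  by_cases h1 : q B <;> by_cases h2 : r B <;> by_cases h3 : (gr B).Connected <;> simp [h1, h2, h3]

theorem dual_indep (A : Finset (Fin 23)) :
    M✶.Indep (A : Set (Fin 23)) ↔ (gr Aᶜ).Connected := by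
  have h1 := Matroid.coindep_iff_compl_spanning (M := M) (I := (A : Set (Fin 23)))
    (Set.subset_univ _)
  rw [Matroid.Coindep] at h1
  rw [h1, M_E, ← M_spanning_gr, Finset.coe_compl, Set.compl_eq_univ_sdiff]

theorem dual_sum (p q : Finset (Fin 23) → Prop) [DecidablePred p]
    (h : ∀ A, p A ↔ (M✶.Indep (A : Set (Fin 23)) ∧ q A)) :
    (∑ A : Finset (Fin 23), if p A then ∏ a ∈ A, (len a : ℝ) else 0) = T (fun B => q Bᶜ) := by
  unfold T
  refine Fintype.sum_bijective compl compl_bijective _ _ fun A => ?_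
  rw [compl_compl]
  refine if_congr ?_ rfl rfl
  rw [h, dual_indep, and_comm]
  beta_reduce
  rw [compl_compl]

/-- violation for the independent sets of the dual -/
theorem M_dual_lt :
    (∑ A : Finset (Fin 23), if M✶.Indep (A : Set (Fin 23)) ∧ 0 ∈ A then ∏ a ∈ A, (len a : ℝ)
        else 0) *
      (∑ A : Finset (Fin 23), if M✶.Indep (A : Set (Fin 23)) ∧ 1 ∈ A then ∏ a ∈ A, (len a : ℝ)
        else 0) <
    (∑ A : Finset (Fin 23),
        if M✶.Indep (A : Set (Fin 23)) ∧ 0 ∈ A ∧ 1 ∈ A then ∏ a ∈ A, (len a : ℝ) else 0) *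
      (∑ A : Finset (Fin 23), if M✶.Indep (A : Set (Fin 23)) then ∏ a ∈ A, (len a : ℝ)
        else 0) := by
  rw [dual_sum (fun A => M✶.Indep (A : Set (Fin 23)) ∧ 0 ∈ A) (fun A => 0 ∈ A) (fun _ => Iff.rfl),
    dual_sum (fun A => M✶.Indep (A : Set (Fin 23)) ∧ 1 ∈ A) (fun A => 1 ∈ A) (fun _ => Iff.rfl),
    dual_sum (fun A => M✶.Indep (A : Set (Fin 23)) ∧ 0 ∈ A ∧ 1 ∈ A) (fun A => 0 ∈ A ∧ 1 ∈ A)
      (fun _ => Iff.rfl),
    dual_sum (fun A => M✶.Indep (A : Set (Fin 23))) (fun _ => True)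
      (fun _ => (iff_of_eq (and_true _)).symm)]
  simp only [Finset.mem_compl]
  have k0 : T (fun B => 0 ∈ B) = (K {0} : ℝ) := T_K _ _ fun A => by simp
  have k1 : T (fun B => 1 ∈ B) = (K {1} : ℝ) := T_K _ _ fun A => by simp
  have k01 : T (fun B => 0 ∈ B ∧ 1 ∈ B) = (K {0, 1} : ℝ) := T_K _ _ fun A => by
    rw [Finset.insert_subset_iff, Finset.singleton_subset_iff]
  have k : T (fun _ => True) = (K ∅ : ℝ) := T_K _ _ fun A => by simp
  have a0 := T_add (fun B => 0 ∈ B) (fun _ => True)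
  have a1 := T_add (fun B => 1 ∈ B) (fun _ => True)
  have a2 := T_add (fun B => 0 ∈ B) (fun B => 1 ∉ B)
  have a3 := T_add (fun B => 1 ∈ B) (fun B => 0 ∈ B)
  simp only [and_true] at a0 a1
  have a4 : T (fun B => 1 ∈ B ∧ 0 ∈ B) = T (fun B => 0 ∈ B ∧ 1 ∈ B) := by
    congr 1; funext B; rw [and_comm]
  have a5 : T (fun B => 1 ∉ B ∧ 0 ∈ B) = T (fun B => 0 ∈ B ∧ 1 ∉ B) := by
    congr 1; funext B; rw [and_comm]
  rw [a4, a5] at a3
  have h := K_ineq_real
  rw [k0, k] at a0
  rw [k1, k] at a1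
  rw [k01, k0] at a3
  rw [k]
  have b0 : T (fun B => 0 ∉ B) = (K ∅ : ℝ) - K {0} := by linarith
  have b1 : T (fun B => 1 ∉ B) = (K ∅ : ℝ) - K {1} := by linarith
  have b2 : T (fun B => 0 ∉ B ∧ 1 ∉ B) = (K ∅ : ℝ) - K {0} - K {1} + K {0, 1} := by linarith
  rw [b0, b1, b2]
  nlinarith [h]

end Pool.NC
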