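import Pool.Agent.NC.SymG

/-!
The graph `K_{4,4} + e`: its cycle matroid and the reduction of all pairs of edges to ten pairs.

Vertices: the terminals `0, 1, 5, 6` and the hubs `2, 3, 4, 7`. Edges: edge `0` is `{0, 1}`, edge `1 + 4 h + t`
joins the hub number `h` and the terminal number `t`.
-/

set_option autoImplicit false

namespace Pool.NC.K44

open Pool.Agent.NC Pool.NC

/-- First end. -/
def src : Fin 17 → Fin 8 := ![0, 2, 2, 2, 2, 3, 3, 3, 3, 4, 4, 4, 4, 7, 7, 7, 7]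

/-- Second end. -/
def tgt : Fin 17 → Fin 8 := ![1, 0, 1, 5, 6, 0, 1, 5, 6, 0, 1, 5, 6, 0, 1, 5, 6]

/-- The cycle matroid of `K_{4,4} + e`. -/
noncomputable def M : Matroid (Fin 17) := cyc src tgt

theorem M_E : M.E = Set.univ := rfl

theorem adj_of {S : Set (Fin 17)} {e : Fin 17} (he : e ∈ S) (hne : src e ≠ tgt e) :
    (SimpleGraph.fromEdgeSet ((fun e => s(src e, tgt e)) '' S)).Adj (src e) (tgt e) := by
  rw [SimpleGraph.fromEdgeSet_adj]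
  exact ⟨⟨e, he, rfl⟩, hne⟩

/-- The graph is connected. -/
theorem conn : Conn src tgt Set.univ := by
  unfold Conn
  rw [SimpleGraph.connected_iff]
  refine ⟨?_, inferInstance⟩
  have h : ∀ e : Fin 17, (SimpleGraph.fromEdgeSet ((fun e => s(src e, tgt e)) '' Set.univ)).Reachable
      (src e) (tgt e) := fun e =>
    (adj_of (Set.mem_univ e) (by revert e; decide)).reachable
  have h0 : ∀ v : Fin 8, (SimpleGraph.fromEdgeSet ((fun e => s(src e, tgt e)) '' Set.univ)).Reachable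
      v 0 := by
    intro v
    have h20 := h 1
    have h21 := h 2
    have h25 := h 3
    have h26 := h 4
    have h30 := h 5
    have h40 := h 9
    have h70 := h 13
    fin_cases v
    · exact SimpleGraph.Reachable.refl _
    · exact (h21.symm).trans h20
    · exact h20
    · exact h30
    · exact h40
    · exact (h25.symm).trans h20
    · exact (h26.symm).trans h20
    · exact h70
  exact fun a b => (h0 a).trans (h0 b).symm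

/-- Five transpositions of vertices, as maps of the edges. -/
def genE : Fin 5 → Fin 17 → Fin 17 :=
  ![![0, 2, 1, 3, 4, 6, 5, 7, 8, 10, 9, 11, 12, 14, 13, 15, 16],
    ![0, 1, 2, 4, 3, 5, 6, 8, 7, 9, 10, 12, 11, 13, 14, 16, 15],
    ![0, 5, 6, 7, 8, 1, 2, 3, 4, 9, 10, 11, 12, 13, 14, 15, 16],
    ![0, 1, 2, 3, 4, 9, 10, 11, 12, 5, 6, 7, 8, 13, 14, 15, 16],
    ![0, 1, 2, 3, 4, 5, 6, 7, 8, 13, 14, 15, 16, 9, 10, 11, 12]]

/-- Five transpositions of vertices. -/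
def genV : Fin 5 → Fin 8 → Fin 8 :=
  ![![1, 0, 2, 3, 4, 5, 6, 7],
    ![0, 1, 2, 3, 4, 6, 5, 7],
    ![0, 1, 3, 2, 4, 5, 6, 7],
    ![0, 1, 2, 4, 3, 5, 6, 7],
    ![0, 1, 2, 3, 7, 5, 6, 4]]

theorem genE_inv (g : Fin 5) : Function.Involutive (genE g) := by
  intro e; revert g e; decide

theorem genV_inv (g : Fin 5) : Function.Involutive (genV g) := by
  intro e; revert g e; decide

theorem gen_ok (g : Fin 5) (e : Fin 17) :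
    s(src (genE g e), tgt (genE g e)) = s(genV g (src e), genV g (tgt e)) := by
  revert g e; decide

/-- The inequality for the pair `p`. -/
def P (p : Fin 17 × Fin 17) : Prop := ICor M p.1 p.2

/-- The transpositions act on pairs of edges; the other numbers exchange the two edges. -/
def step (k : ℕ) (p : Fin 17 × Fin 17) : Fin 17 × Fin 17 :=
  if h : k < 5 then (genE ⟨k, h⟩ p.1, genE ⟨k, h⟩ p.2) else (p.2, p.1)

theorem P_step {p : Fin 17 × Fin 17} (k : ℕ) (hp : P p) : P (step k p) := by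
  unfold step
  split_ifs with h
  · exact ICor.auto src tgt conn hp (genE_inv ⟨k, h⟩).toPerm (genV_inv ⟨k, h⟩).toPerm
      (gen_ok ⟨k, h⟩)
  · exact ICor.symm hp

theorem P_run (w : List ℕ) {p : Fin 17 × Fin 17} (hp : P p) :
    P (w.foldl (fun q k => step k q) p) := by
  induction w generalizing p with
  | nil => exact hp
  | cons k w ih => exact ih (P_step k hp)

/-- The ten representatives. -/
def rep : Fin 10 → Fin 17 × Fin 17 :=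
  ![(0, 13), (13, 14), (13, 1), (13, 15), (15, 16), (15, 3), (0, 15), (13, 2), (13, 3), (15, 4)]

/-- For every pair its representative and a word. -/
def tab : List (List (Fin 10 × List ℕ)) := [
  [(0, []), (0, [4, 3, 2]), (0, [0, 4, 3, 2]), (6, [4, 3, 2]), (6, [1, 4, 3, 2]), (0, [4, 3]), (0, [0, 4, 3]), (6, [4, 3]), (6, [1, 4, 3]), (0, [4]), (0, [0, 4]), (6, [4]), (6, [1, 4]), (0, []), (0, [0]), (6, []), (6, [1])],
  [(0, [4, 3, 2, 5]), (0, []), (1, [4, 3, 2]), (3, [4, 3, 2]), (3, [1, 4, 3, 2]), (2, [4, 3, 2]), (7, [4, 3, 2]), (8, [4, 3, 2]), (8, [1, 4, 3, 2]), (2, [4, 5]), (7, [0, 4, 5]), (8, [2, 4, 3, 2]), (8, [1, 2, 4, 3, 2]), (2, [5]), (7, [0, 5]), (8, [2, 3, 4, 3, 2]), (8, [1, 2, 3, 4, 3, 2])],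
  [(0, [0, 4, 3, 2, 5]), (1, [0, 4, 3, 2]), (0, []), (3, [0, 4, 3, 2]), (3, [0, 1, 4, 3, 2]), (7, [4, 3, 5]), (2, [0, 4, 3, 2]), (8, [0, 4, 3, 2]), (8, [0, 1, 4, 3, 2]), (7, [4, 5]), (2, [0, 4, 5]), (8, [0, 2, 4, 3, 2]), (8, [0, 1, 2, 4, 3, 2]), (7, [5]), (2, [0, 5]), (8, [0, 2, 3, 4, 3, 2]), (8, [0, 1, 2, 3, 4, 3, 2])],
  [(6, [4, 3, 2, 5]), (3, [4, 3, 2, 5]), (3, [0, 4, 3, 2, 5]), (0, []), (4, [4, 3, 2]), (8, [4, 3, 5]), (8, [0, 4, 3, 5]), (5, [4, 3, 2]), (9, [4, 3, 2]), (8, [4, 5]), (8, [0, 4, 5]), (5, [4, 5]), (9, [1, 4, 5]), (8, [5]), (8, [0, 5]), (5, [5]), (9, [1, 5])],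
  [(6, [1, 4, 3, 2, 5]), (3, [1, 4, 3, 2, 5]), (3, [0, 1, 4, 3, 2, 5]), (4, [1, 4, 3, 2]), (0, []), (8, [1, 4, 3, 5]), (8, [0, 1, 4, 3, 5]), (9, [4, 3, 5]), (5, [1, 4, 3, 2]), (8, [1, 4, 5]), (8, [0, 1, 4, 5]), (9, [4, 5]), (5, [1, 4, 5]), (8, [1, 5]), (8, [0, 1, 5]), (9, [5]), (5, [1, 5])],
  [(0, [4, 3, 5]), (2, [4, 3]), (7, [4, 3]), (8, [4, 3]), (8, [1, 4, 3]), (0, []), (1, [4, 3]), (3, [4, 3]), (3, [1, 4, 3]), (2, [2, 4, 3]), (7, [2, 4, 3]), (8, [2, 4, 3]), (8, [1, 2, 4, 3]), (2, [2, 5]), (7, [0, 2, 5]), (8, [2, 3, 4, 3]), (8, [1, 2, 3, 4, 3])],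
  [(0, [0, 4, 3, 5]), (7, [0, 4, 3]), (2, [0, 4, 3]), (8, [0, 4, 3]), (8, [0, 1, 4, 3]), (1, [0, 4, 3]), (0, []), (3, [0, 4, 3]), (3, [0, 1, 4, 3]), (7, [2, 4, 5]), (2, [0, 2, 4, 3]), (8, [0, 2, 4, 3]), (8, [0, 1, 2, 4, 3]), (7, [2, 5]), (2, [0, 2, 5]), (8, [0, 2, 3, 4, 3]), (8, [0, 1, 2, 3, 4, 3])],
  [(6, [4, 3, 5]), (8, [4, 3, 2, 5]), (8, [0, 4, 3, 2, 5]), (5, [4, 3]), (9, [4, 3]), (3, [4, 3, 5]), (3, [0, 4, 3, 5]), (0, []), (4, [4, 3]), (8, [2, 4, 5]), (8, [0, 2, 4, 5]), (5, [2, 4, 3]), (9, [2, 4, 3]), (8, [2, 5]), (8, [0, 2, 5]), (5, [2, 5]), (9, [1, 2, 5])],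
  [(6, [1, 4, 3, 5]), (8, [1, 4, 3, 2, 5]), (8, [0, 1, 4, 3, 2, 5]), (9, [1, 4, 3]), (5, [1, 4, 3]), (3, [1, 4, 3, 5]), (3, [0, 1, 4, 3, 5]), (4, [1, 4, 3]), (0, []), (8, [1, 2, 4, 5]), (8, [0, 1, 2, 4, 5]), (9, [2, 4, 5]), (5, [1, 2, 4, 3]), (8, [1, 2, 5]), (8, [0, 1, 2, 5]), (9, [2, 5]), (5, [1, 2, 5])],
  [(0, [4, 5]), (2, [4]), (7, [4]), (8, [4]), (8, [1, 4]), (2, [2, 4]), (7, [2, 4]), (8, [2, 4]), (8, [1, 2, 4]), (0, []), (1, [4]), (3, [4]), (3, [1, 4]), (2, [2, 3, 4]), (7, [2, 3, 4]), (8, [2, 3, 4]), (8, [1, 2, 3, 4])],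
  [(0, [0, 4, 5]), (7, [0, 4]), (2, [0, 4]), (8, [0, 4]), (8, [0, 1, 4]), (7, [0, 2, 4]), (2, [0, 2, 4]), (8, [0, 2, 4]), (8, [0, 1, 2, 4]), (1, [0, 4]), (0, []), (3, [0, 4]), (3, [0, 1, 4]), (7, [2, 3, 5]), (2, [0, 2, 3, 4]), (8, [0, 2, 3, 4]), (8, [0, 1, 2, 3, 4])],
  [(6, [4, 5]), (8, [2, 4, 3, 2, 5]), (8, [0, 2, 4, 3, 2, 5]), (5, [4]), (9, [4]), (8, [2, 4, 3, 5]), (8, [0, 2, 4, 3, 5]), (5, [2, 4]), (9, [2, 4]), (3, [4, 5]), (3, [0, 4, 5]), (0, []), (4, [4]), (8, [2, 3, 5]), (8, [0, 2, 3, 5]), (5, [2, 3, 4]), (9, [2, 3, 4])],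
  [(6, [1, 4, 5]), (8, [1, 2, 4, 3, 2, 5]), (8, [0, 1, 2, 4, 3, 2, 5]), (9, [1, 4]), (5, [1, 4]), (8, [1, 2, 4, 3, 5]), (8, [0, 1, 2, 4, 3, 5]), (9, [1, 2, 4]), (5, [1, 2, 4]), (3, [1, 4, 5]), (3, [0, 1, 4, 5]), (4, [1, 4]), (0, []), (8, [1, 2, 3, 5]), (8, [0, 1, 2, 3, 5]), (9, [2, 3, 5]), (5, [1, 2, 3, 4])],
  [(0, [5]), (2, []), (7, []), (8, []), (8, [1]), (2, [2]), (7, [2]), (8, [2]), (8, [1, 2]), (2, [2, 3]), (7, [2, 3]), (8, [2, 3]), (8, [1, 2, 3]), (0, []), (1, []), (3, []), (3, [1])],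
  [(0, [0, 5]), (7, [0]), (2, [0]), (8, [0]), (8, [0, 1]), (7, [0, 2]), (2, [0, 2]), (8, [0, 2]), (8, [0, 1, 2]), (7, [0, 2, 3]), (2, [0, 2, 3]), (8, [0, 2, 3]), (8, [0, 1, 2, 3]), (1, [0]), (0, []), (3, [0]), (3, [0, 1])],
  [(6, [5]), (8, [2, 3, 4, 3, 2, 5]), (8, [0, 2, 3, 4, 3, 2, 5]), (5, []), (9, []), (8, [2, 3, 4, 3, 5]), (8, [0, 2, 3, 4, 3, 5]), (5, [2]), (9, [2]), (8, [2, 3, 4, 5]), (8, [0, 2, 3, 4, 5]), (5, [2, 3]), (9, [2, 3]), (3, [5]), (3, [0, 5]), (0, []), (4, [])],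
  [(6, [1, 5]), (8, [1, 2, 3, 4, 3, 2, 5]), (8, [0, 1, 2, 3, 4, 3, 2, 5]), (9, [1]), (5, [1]), (8, [1, 2, 3, 4, 3, 5]), (8, [0, 1, 2, 3, 4, 3, 5]), (9, [1, 2]), (5, [1, 2]), (8, [1, 2, 3, 4, 5]), (8, [0, 1, 2, 3, 4, 5]), (9, [1, 2, 3]), (5, [1, 2, 3]), (3, [1, 5]), (3, [0, 1, 5]), (4, [1]), (0, [])]]

/-- The entry of the table. -/
def ent (e f : Fin 17) : Fin 10 × List ℕ := (tab.getD e.1 []).getD f.1 (0, [])

theorem tab_ok : ∀ e f : Fin 17, e ≠ f →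
    (ent e f).2.foldl (fun q k => step k q) (rep (ent e f).1) = (e, f) := by
  decide +kernel

/-- The inequality for the ten representatives gives it for all pairs. -/
theorem all_pairs (h : ∀ k : Fin 10, ICor M (rep k).1 (rep k).2) (e f : Fin 17) (hef : e ≠ f) :
    ICor M e f := by
  have h1 := P_run (ent e f).2 (p := rep (ent e f).1) (h _)
  rw [tab_ok e f hef] at h1
  exact h1

end Pool.NC.K44
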