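import Pool.Agent.NC.GF
import Pool.Agent.NC.K44

/-!
The correlation inequality for independent sets of the cycle matroid of `K_{4,4} + e`: reduction to an inequality
between four programmes.
-/

set_option autoImplicit false

namespace Pool.NC.K44

open Pool.Agent.NC Pool.NC

/-- The code of the partition of the vertices given by the edge `e`. -/
def ce (e : Fin 17) : ℕ := join 8 (c0 8) (src e) (tgt e)

/-- The code of the partition of the vertices given by the edges `e` and `f`. -/
def cef (e f : Fin 17) : ℕ := join 8 (ce f) (src e) (tgt e)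

/-- The programme for the edges `L` with the weights `y`. -/
def FL {R : Type*} [CommSemiring R] (y : Fin 17 → R) (L : List (Fin 17)) (c : ℕ) : R :=
  FF 8 (L.map fun i => (((src i : Fin 8) : ℕ), ((tgt i : Fin 8) : ℕ), y i)) c

/-- The conditions on the pair and the list of the other edges. -/
def okL (e f : Fin 17) (L : List (Fin 17)) : Prop :=
  L.Nodup ∧ e ≠ f ∧ e ∉ L ∧ f ∉ L ∧ (∀ i, i = e ∨ i = f ∨ i ∈ L) ∧
    lab (c0 8) (src e) ≠ lab (c0 8) (tgt e) ∧ lab (c0 8) (src f) ≠ lab (c0 8) (tgt f) ∧
    lab (ce f) (src e) ≠ lab (ce f) (tgt e)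

instance (e f : Fin 17) (L : List (Fin 17)) : Decidable (okL e f L) := by
  unfold okL; infer_instance

/-- The reduction: the inequality from the four programmes. -/
theorem red (e f : Fin 17) (L : List (Fin 17)) (hok : okL e f L)
    (h : ∀ z : Fin 17 → ℝ, (∀ i, 0 < z i) →
      FL z L (cef e f) * FL z L (c0 8) ≤ FL z L (ce e) * FL z L (ce f)) : ICor M e f := by
  obtain ⟨h1, h2, h3, h4, h5, h6, h7, h8⟩ := hok
  exact ICor_of_FF (d := 7) src tgt (by norm_num) e f L h1 h2 h3 h4 h5 (ce e) (ce f) (cef e f)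
    rfl rfl rfl h6 h7 h8 h

theorem map_FL {R R' : Type*} [CommSemiring R] [CommSemiring R'] (g : R →+* R') (y : Fin 17 → R)
    (L : List (Fin 17)) (c : ℕ) : g (FL y L c) = FL (fun i => g (y i)) L c := by
  rw [FL, FL, map_FF, List.map_map]
  rfl

example : okL 0 13 [1, 2, 3, 4, 5, 6, 7, 8, 9, 10, 11, 12, 14, 15, 16] := by decide +kernel

end Pool.NC.K44
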