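import Pool.Agent.NC.Prog
import Pool.Agent.NC.K44I

/-!
The correlation inequality for the pair of edges 13, 1 of `K_{4,4} + e`.
-/

set_option autoImplicit false

namespace Pool.NC.K44.O2

open Pool.Agent.NC Pool.NC Pool.NC.Eng

def L : List (Fin 17) := [15, 14, 6, 5, 3, 2, 0, 16, 12, 11, 10, 9, 8, 7, 4]

def lo : List (ℕ × ℕ) := [(7, 5), (7, 1), (3, 1), (3, 0), (2, 5), (2, 1), (0, 1)]
def li : List (ℕ × ℕ) := [(7, 6), (4, 6), (4, 5), (4, 1), (4, 0), (3, 6), (3, 5), (2, 6)]


def sq : List Sq := []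

/-- The number with the top bits of all digits. -/
def G : ℕ := 2 ^ (32 - 1) * S 32 li.length

def PP : List (TT ℕ × TT ℕ) :=
  (FT (FN 32 li) lo 106181136, FT (FN 32 li) lo 1985228816) :: sqp (BL 32 li.length) li.length lo.length sq

def NN : List (TT ℕ × TT ℕ) :=
  (FT (FN 32 li) lo 1985229328, FT (FN 32 li) lo 106180624) :: sqn (BL 32 li.length) li.length lo.length sq

theorem h_test : test 32 lo li 106181136 1985228816 1985229328 106180624 sq = true := by decide +kernel

theorem h_ce : ce 13 = 106181136 := by decide +kernel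
theorem h_cf : ce 1 = 1985228816 := by decide +kernel
theorem h_c0 : c0 8 = 1985229328 := by decide +kernel
theorem h_cef : cef 13 1 = 106180624 := by decide +kernel

theorem h_dj : dj li.length lo.length sq = true := by decide +kernel
theorem h_bp : 2 ^ (lo ++ li).length * 2 ^ (lo ++ li).length + bp lo.length sq < 2 ^ (32 - 1) := by
  decide +kernel
theorem h_bn : 2 ^ (lo ++ li).length * 2 ^ (lo ++ li).length + bn lo.length sq ≤ 2 ^ (32 - 1) := by
  decide +kernel
theorem h_L : L.map (fun i => (((src i : Fin 8) : ℕ), ((tgt i : Fin 8) : ℕ))) = lo ++ li := by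
  decide +kernel

theorem cor : ICor M 13 1 := by
  refine red 13 1 L (by decide +kernel) fun z hz => ?_
  rw [h_ce, h_cf, h_c0, h_cef]
  refine final 32 (L.map fun i => (((src i : Fin 8) : ℕ), ((tgt i : Fin 8) : ℕ), z i)) ?_ lo li ?_
    _ _ _ _ sq (by norm_num) h_dj h_bp h_bn h_test
  · intro p hp
    rw [List.mem_map] at hp
    obtain ⟨i, _, rfl⟩ := hp
    exact (hz i).le
  · rw [← h_L, List.map_map]
    rfl

end Pool.NC.K44.O2
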