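import Pool.Agent.NC.Prog
import Pool.Agent.NC.K44I

/-!
The correlation inequality for the pair of edges 0, 15 of `K_{4,4} + e`.
-/

set_option autoImplicit false

namespace Pool.NC.K44.O6

open Pool.Agent.NC Pool.NC Pool.NC.Eng

def L : List (Fin 17) := [14, 13, 6, 5, 3, 2, 1, 16, 12, 11, 10, 9, 8, 7, 4]

def lo : List (ℕ × ℕ) := [(7, 1), (7, 0), (3, 1), (3, 0), (2, 5), (2, 1), (2, 0)]
def li : List (ℕ × ℕ) := [(7, 6), (4, 6), (4, 5), (4, 1), (4, 0), (3, 6), (3, 5), (2, 6)]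

def s0 : Sq := (0,
  (.nd (.nd (.nd (.nd (.nd (.nd .z (.nd (.lf [169,171,173]) .z)) (.nd (.nd .z (.lf [208,210,212])) .z)) (.nd (.nd (.nd (.lf [210,211]) (.lf [210])) (.nd (.lf [131,139,147,163,169,195,210]) .z)) (.nd (.nd (.lf [210]) (.lf [208])) .z))) (.nd (.nd (.nd (.nd (.lf [172,173]) (.lf [172])) (.nd (.lf [169,172]) .z)) (.nd (.nd (.lf [172]) (.lf [132,140,148,164,196,208])) .z)) .z)) .z) (.nd (.nd (.nd (.nd (.nd (.nd (.lf [40,41,42,43,44,45,46,47,78,79,104,105,106,107,108,109,168,169,170,171,172,173]) (.lf [7,15,23,39,40,41,42,43,44,45,46,71,78,97,99,101,104,106,108,168,170,172])) (.nd (.lf [40,41,42,43,44,45,46,78,104,106,108,168,170,172]) .z)) (.nd (.nd (.lf [40,41,42,43,44,45,46,73,75,77,78,104,106,108,168,170,172]) (.lf [0,1,2,3,4,5,6,8,9,10,11,12,13,14,16,17,18,19,20,21,22,32,33,34,35,36,37,38,64,65,66,67,68,69,70,72,74,76,80,82,84,96,98,100,128,130,132,136,138,140,144,146,148,160,162,164,192,194,196]))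 .z)) (.nd (.nd (.nd (.lf [2,3,6,7,10,11,14,15,18,19,22,23,34,35,38,39,40,41,44,45,66,67,70,71,74,75,82,83,98,99,100,101,104,105,130,131,138,139,146,147,162,163,168,169,194,195]) (.lf [2,3,6,10,11,14,18,19,22,34,35,38,40,41,44,66,67,70,74,82,97,98,100,104,130,138,146,162,168,194])) (.nd (.lf [2,3,6,10,11,14,18,19,22,34,35,38,40,41,44,66,67,70,74,82,98,100,104,130,138,146,162,168,194]) .z)) (.nd (.nd (.lf [2,3,5,6,10,11,13,14,18,19,21,22,34,35,37,38,40,41,44,66,67,69,70,73,74,82,98,100,104,130,138,146,162,168,194]) (.lf [0,1,4,8,9,12,16,17,20,32,33,36,64,65,68,72,80,96,128,136,144,160,192])) .z))) (.nd (.nd (.nd (.nd (.lf [40,41,44,45,104,105,168,169]) (.lf [40,41,44,97,104,168])) (.nd (.lf [40,41,44,104,168]) .z)) (.nd (.nd (.lf [40,41,44,73,104,168]) (.lf [0,1,4,8,9,12,16,17,20,32,33,36,64,65,68,72,80,96,128,136,144,160,192]))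 .z)) .z)) .z)),
  (.nd (.nd (.nd (.nd (.nd (.nd (.nd .z (.lf [177,179,181])) .z) (.nd .z (.nd (.lf [200,202,204]) .z))) (.nd (.nd (.nd (.lf [180,181]) (.lf [177,180])) (.nd (.lf [180]) .z)) (.nd (.nd (.lf [180]) .z) (.nd (.lf [132,140,148,164,196,200]) .z)))) (.nd (.nd (.nd (.nd (.lf [202,203]) (.lf [131,139,147,163,177,195,202])) (.nd (.lf [202]) .z)) (.nd (.nd (.lf [202]) .z) (.nd (.lf [200]) .z))) .z)) (.nd (.nd (.nd (.nd (.nd (.lf [48,49,50,51,52,53,54,55,86,87,112,113,114,115,116,117,176,177,178,179,180,181]) (.lf [48,49,50,51,52,53,54,86,112,114,116,176,178,180])) (.nd (.lf [7,15,23,39,48,49,50,51,52,53,54,71,86,97,99,101,112,114,116,176,178,180]) .z)) (.nd (.nd (.lf [48,49,50,51,52,53,54,81,83,85,86,112,114,116,176,178,180]) .z) (.nd (.lf [0,1,2,3,4,5,6,8,9,10,11,12,13,14,16,17,18,19,20,21,22,32,33,34,35,36,37,38,64,65,66,67,68,69,70,72,74,76,80,82,84,96,98,100,128,130,132,136,138,140,144,146,148,160,162,164,192,194,196])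 .z))) (.nd (.nd (.nd (.lf [48,49,52,53,112,113,176,177]) (.lf [48,49,52,112,176])) (.nd (.lf [48,49,52,97,112,176]) .z)) (.nd (.nd (.lf [48,49,52,81,112,176]) .z) (.nd (.lf [0,1,4,8,9,12,16,17,20,32,33,36,64,65,68,72,80,96,128,136,144,160,192]) .z)))) (.nd (.nd (.nd (.nd (.lf [2,3,6,7,10,11,14,15,18,19,22,23,34,35,38,39,48,49,52,53,66,67,70,71,74,75,82,83,98,99,100,101,112,113,130,131,138,139,146,147,162,163,176,177,194,195]) (.lf [2,3,6,10,11,14,18,19,22,34,35,38,48,49,52,66,67,70,74,82,98,100,112,130,138,146,162,176,194])) (.nd (.lf [2,3,6,10,11,14,18,19,22,34,35,38,48,49,52,66,67,70,74,82,97,98,100,112,130,138,146,162,176,194]) .z)) (.nd (.nd (.lf [2,3,5,6,10,11,13,14,18,19,21,22,34,35,37,38,48,49,52,66,67,69,70,74,81,82,98,100,112,130,138,146,162,176,194]) .z) (.nd (.lf [0,1,4,8,9,12,16,17,20,32,33,36,64,65,68,72,80,96,128,136,144,160,192])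 .z))) .z))) .z))
def s1 : Sq := (256,
  (.nd (.nd (.nd (.nd (.nd .z (.nd (.nd (.lf [208,210,212]) .z) .z)) (.nd .z (.nd (.nd (.lf [208]) .z) .z))) (.nd (.nd .z (.nd (.nd (.lf [132,140,148,164,196,208]) .z) .z)) .z)) .z) (.nd (.nd (.nd (.nd (.nd (.nd (.lf [7,15,23,39,71,97,99,101]) .z) .z) (.nd (.nd (.lf [0,1,2,3,4,5,6,8,9,10,11,12,13,14,16,17,18,19,20,21,22,32,33,34,35,36,37,38,64,65,66,67,68,69,70,72,74,76,80,82,84,96,98,100,128,130,132,136,138,140,144,146,148,160,162,164,192,194,196]) .z) .z)) (.nd (.nd (.nd (.lf [97]) .z) .z) (.nd (.nd (.lf [0,1,4,8,9,12,16,17,20,32,33,36,64,65,68,72,80,96,128,136,144,160,192]) .z) .z))) (.nd (.nd (.nd (.nd (.lf [97]) .z) .z) (.nd (.nd (.lf [0,1,4,8,9,12,16,17,20,32,33,36,64,65,68,72,80,96,128,136,144,160,192]) .z) .z)) .z)) .z)),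
  (.nd (.nd (.nd (.nd (.nd (.nd (.nd (.lf [177,179,181]) .z) .z) .z) (.nd (.nd (.nd (.lf [177]) .z) .z) .z)) (.nd (.nd (.nd (.nd (.lf [131,139,147,163,177,195]) .z) .z) .z) .z)) .z) .z))
def s2 : Sq := (512,
  (.nd (.nd (.nd (.nd (.nd .z (.nd (.nd (.lf [200,202,204]) .z) .z)) (.nd .z (.nd (.nd (.lf [132,140,148,164,196,200]) .z) .z))) (.nd (.nd .z (.nd (.nd (.lf [200]) .z) .z)) .z)) (.nd (.nd (.nd (.nd (.nd (.lf [7,15,23,39,71,97,99,101]) .z) .z) (.nd (.nd (.lf [0,1,2,3,4,5,6,8,9,10,11,12,13,14,16,17,18,19,20,21,22,32,33,34,35,36,37,38,64,65,66,67,68,69,70,72,74,76,80,82,84,96,98,100,128,130,132,136,138,140,144,146,148,160,162,164,192,194,196]) .z) .z)) (.nd (.nd (.nd (.lf [97]) .z) .z) (.nd (.nd (.lf [0,1,4,8,9,12,16,17,20,32,33,36,64,65,68,72,80,96,128,136,144,160,192]) .z) .z))) (.nd (.nd (.nd (.nd (.lf [97]) .z) .z) (.nd (.nd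 (.lf [0,1,4,8,9,12,16,17,20,32,33,36,64,65,68,72,80,96,128,136,144,160,192]) .z) .z)) .z))) .z),
  (.nd (.nd (.nd (.nd (.nd (.nd (.nd (.lf [169,171,173]) .z) .z) .z) (.nd (.nd (.nd (.lf [131,139,147,163,169,195]) .z) .z) .z)) (.nd (.nd (.nd (.nd (.lf [169]) .z) .z) .z) .z)) .z) .z))
def s3 : Sq := (1024,
  (.nd (.nd (.nd (.nd (.nd (.nd (.nd .z (.lf [208,210,212])) .z) .z) (.nd (.nd (.nd .z (.lf [208])) .z) .z)) (.nd (.nd (.nd (.nd .z (.lf [132,140,148,164,196,208])) .z) .z) .z)) .z) (.nd (.nd (.nd (.nd (.nd (.nd (.lf [73,75,77]) (.lf [0,1,2,3,4,5,6,8,9,10,11,12,13,14,16,17,18,19,20,21,22,32,33,34,35,36,37,38,64,65,66,67,68,69,70,72,74,76,80,82,84,96,98,100,128,130,132,136,138,140,144,146,148,160,162,164,192,194,196])) .z) .z) (.nd (.nd (.nd (.lf [5,13,21,37,69,73]) (.lf [0,1,4,8,9,12,16,17,20,32,33,36,64,65,68,72,80,96,128,136,144,160,192]))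 .z) .z)) (.nd (.nd (.nd (.nd (.lf [73]) (.lf [0,1,4,8,9,12,16,17,20,32,33,36,64,65,68,72,80,96,128,136,144,160,192])) .z) .z) .z)) .z)),
  (.nd (.nd (.nd (.nd (.nd (.nd .z (.nd (.lf [200,202,204]) .z)) .z) (.nd (.nd .z (.nd (.lf [132,140,148,164,196,200]) .z)) .z)) (.nd (.nd (.nd .z (.nd (.lf [200]) .z)) .z) .z)) (.nd (.nd (.nd (.nd (.nd (.lf [81,83,85]) .z) (.nd (.lf [0,1,2,3,4,5,6,8,9,10,11,12,13,14,16,17,18,19,20,21,22,32,33,34,35,36,37,38,64,65,66,67,68,69,70,72,74,76,80,82,84,96,98,100,128,130,132,136,138,140,144,146,148,160,162,164,192,194,196]) .z)) .z) (.nd (.nd (.nd (.lf [81]) .z) (.nd (.lf [0,1,4,8,9,12,16,17,20,32,33,36,64,65,68,72,80,96,128,136,144,160,192]) .z)) .z)) (.nd (.nd (.nd (.nd (.lf [5,13,21,37,69,81]) .z) (.nd (.lf [0,1,4,8,9,12,16,17,20,32,33,36,64,65,68,72,80,96,128,136,144,160,192]) .z)) .z) .z))) .z))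
def s4 : Sq := (1,
  (.nd (.nd (.nd (.nd (.nd (.nd (.nd .z (.lf [176,178,180])) .z) .z) (.nd (.nd (.nd .z (.lf [176])) .z) .z)) (.nd (.nd (.nd (.nd .z (.lf [130,138,146,162,176,194])) .z) .z) .z)) (.nd (.nd (.nd (.nd .z (.nd (.lf [6,14,22,38,70,96,98,100]) .z)) .z) (.nd (.nd .z (.nd (.lf [96]) .z)) .z)) (.nd (.nd (.nd .z (.nd (.lf [96]) .z)) .z) .z))) (.nd (.nd (.nd (.nd .z (.nd (.nd (.lf [72,74,76]) .z) .z)) (.nd .z (.nd (.nd (.lf [4,12,20,36,68,72]) .z) .z))) (.nd (.nd .z (.nd (.nd (.lf [72]) .z) .z)) .z)) .z)),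
  (.nd (.nd (.nd (.nd (.nd (.nd .z (.nd (.lf [168,170,172]) .z)) .z) (.nd (.nd .z (.nd (.lf [130,138,146,162,168,194]) .z)) .z)) (.nd (.nd (.nd .z (.nd (.lf [168]) .z)) .z) .z)) (.nd (.nd (.nd .z (.nd (.nd (.lf [80,82,84]) .z) .z)) (.nd .z (.nd (.nd (.lf [80]) .z) .z))) (.nd (.nd .z (.nd (.nd (.lf [4,12,20,36,68,80]) .z) .z)) .z))) (.nd (.nd (.nd (.nd (.nd (.nd .z (.lf [6,14,22,38,70,96,98,100])) .z) .z) (.nd (.nd (.nd .z (.lf [96])) .z) .z)) (.nd (.nd (.nd (.nd .z (.lf [96])) .z) .z) .z)) .z)))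
def s5 : Sq := (257,
  (.nd (.nd (.nd (.nd (.nd (.nd (.nd (.lf [176,178,180]) .z) .z) .z) (.nd (.nd (.nd (.lf [176]) .z) .z) .z)) (.nd (.nd (.nd (.nd (.lf [130,138,146,162,176,194]) .z) .z) .z) .z)) .z) .z),
  (.nd .z (.nd (.nd (.nd (.nd (.nd (.nd (.lf [6,14,22,38,70,96,98,100]) .z) .z) .z) (.nd (.nd (.nd (.lf [96]) .z) .z) .z)) (.nd (.nd (.nd (.nd (.lf [96]) .z) .z) .z) .z)) .z)))
def s6 : Sq := (513,
  (.nd (.nd (.nd (.nd (.nd (.nd (.nd (.lf [168,170,172]) .z) .z) .z) (.nd (.nd (.nd (.lf [130,138,146,162,168,194]) .z) .z) .z)) (.nd (.nd (.nd (.nd (.lf [168]) .z) .z) .z) .z)) .z) .z),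
  (.nd (.nd .z (.nd (.nd (.nd (.nd (.nd (.lf [6,14,22,38,70,96,98,100]) .z) .z) .z) (.nd (.nd (.nd (.lf [96]) .z) .z) .z)) (.nd (.nd (.nd (.nd (.lf [96]) .z) .z) .z) .z))) .z))
def s7 : Sq := (1025,
  (.nd .z (.nd (.nd (.nd (.nd (.nd (.nd (.lf [72,74,76]) .z) .z) .z) (.nd (.nd (.nd (.lf [4,12,20,36,68,72]) .z) .z) .z)) (.nd (.nd (.nd (.nd (.lf [72]) .z) .z) .z) .z)) .z)),
  (.nd (.nd .z (.nd (.nd (.nd (.nd (.nd (.lf [80,82,84]) .z) .z) .z) (.nd (.nd (.nd (.lf [80]) .z) .z) .z)) (.nd (.nd (.nd (.nd (.lf [4,12,20,36,68,80]) .z) .z) .z) .z))) .z))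
def s8 : Sq := (2048,
  (.nd (.nd (.nd (.nd (.nd (.nd (.nd (.lf [210,211]) (.lf [210])) (.nd (.lf [131,139,147,163,195,210]) .z)) (.nd (.nd (.lf [210]) .z) .z)) .z) .z) .z) (.nd (.nd (.nd (.nd (.nd (.nd (.lf [2,3,6,7,10,11,14,15,18,19,22,23,34,35,38,39,66,67,70,71,74,75,82,83,98,99,100,101,130,131,138,139,146,147,162,163,194,195]) (.lf [2,3,6,10,11,14,18,19,22,34,35,38,66,67,70,74,82,98,100,130,138,146,162,194])) (.nd (.lf [2,3,6,10,11,14,18,19,22,34,35,38,66,67,70,74,82,98,100,130,138,146,162,194]) .z)) (.nd (.nd (.lf [2,3,5,6,10,11,13,14,18,19,21,22,34,35,37,38,66,67,69,70,74,82,98,100,130,138,146,162,194]) .z) .z)) .z) .z) .z)),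
  (.nd (.nd (.nd (.nd (.nd (.nd (.nd (.lf [180,181]) (.lf [180])) (.nd (.lf [180]) .z)) (.nd (.nd (.lf [180]) .z) (.nd (.lf [132,140,148,164,196]) .z))) .z) .z) .z) .z))
def s9 : Sq := (2560,
  (.nd (.nd (.nd (.nd (.nd .z (.nd (.nd (.lf [132,140,148,164,196]) .z) .z)) .z) .z) .z) .z),
  (.nd (.nd (.nd (.nd (.nd (.nd (.nd (.lf [131,139,147,163,195]) .z) .z) .z) .z) .z) .z) .z))
def s10 : Sq := (3072,
  (.nd (.nd (.nd (.nd (.nd (.nd .z (.nd (.lf [132,140,148,164,196]) .z)) .z) .z) .z) .z) .z),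
  (.nd .z (.nd (.nd (.nd (.nd (.nd (.nd (.lf [5,13,21,37,69]) .z) .z) .z) .z) .z) .z)))
def s11 : Sq := (4096,
  (.nd (.nd (.nd (.nd (.nd (.nd (.nd (.lf [202,203]) (.lf [131,139,147,163,195,202])) (.nd (.lf [202]) .z)) (.nd (.nd (.lf [202]) .z) .z)) .z) .z) (.nd (.nd (.nd (.nd (.nd (.lf [2,3,6,7,10,11,14,15,18,19,22,23,34,35,38,39,66,67,70,71,74,75,82,83,98,99,100,101,130,131,138,139,146,147,162,163,194,195]) (.lf [2,3,6,10,11,14,18,19,22,34,35,38,66,67,70,74,82,98,100,130,138,146,162,194])) (.nd (.lf [2,3,6,10,11,14,18,19,22,34,35,38,66,67,70,74,82,98,100,130,138,146,162,194]) .z)) (.nd (.nd (.lf [2,3,5,6,10,11,13,14,18,19,21,22,34,35,37,38,66,67,69,70,74,82,98,100,130,138,146,162,194]) .z) .z)) .z) .z)) .z),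
  (.nd (.nd (.nd (.nd (.nd (.nd (.nd (.lf [172,173]) (.lf [172])) (.nd (.lf [172]) .z)) (.nd (.nd (.lf [172]) (.lf [132,140,148,164,196])) .z)) .z) .z) .z) .z))
def s12 : Sq := (4352,
  (.nd (.nd (.nd (.nd (.nd .z (.nd (.nd (.lf [132,140,148,164,196]) .z) .z)) .z) .z) .z) .z),
  (.nd (.nd (.nd (.nd (.nd (.nd (.nd (.lf [131,139,147,163,195]) .z) .z) .z) .z) .z) .z) .z))
def s13 : Sq := (5120,
  (.nd (.nd (.nd (.nd (.nd (.nd (.nd .z (.lf [132,140,148,164,196])) .z) .z) .z) .z) .z) .z),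
  (.nd (.nd .z (.nd (.nd (.nd (.nd (.nd (.lf [5,13,21,37,69]) .z) .z) .z) .z) .z)) .z))
def s14 : Sq := (2,
  (.nd (.nd (.nd (.nd .z (.nd (.nd (.nd (.lf [208,209]) (.lf [208])) (.nd (.lf [129,137,145,161,193,208]) .z)) (.nd (.nd (.lf [208]) .z) .z))) .z) .z) (.nd (.nd (.nd (.nd (.nd (.nd (.lf [76,77]) (.lf [5,13,21,37,69,76])) (.nd (.lf [76]) .z)) (.nd (.nd (.lf [76]) .z) .z)) (.nd (.nd (.nd (.lf [0,1,4,5,8,9,12,13,16,17,20,21,32,33,36,37,64,65,68,69,72,73,80,81,96,97,128,129,136,137,144,145,160,161,192,193]) (.lf [0,1,4,8,9,12,16,17,20,32,33,36,64,65,68,72,80,96,128,136,144,160,192])) (.nd (.lf [0,1,4,8,9,12,16,17,20,32,33,36,64,65,68,72,80,96,128,136,144,160,192]) .z)) (.nd (.nd (.lf [0,1,4,8,9,12,16,17,20,32,33,36,64,65,68,72,80,96,128,136,144,160,192]) .z) .z))) .z) .z)),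
  (.nd (.nd (.nd .z (.nd (.nd (.nd (.nd (.lf [200,201]) (.lf [129,137,145,161,193,200])) (.nd (.lf [200]) .z)) (.nd (.nd (.lf [200]) .z) .z)) .z)) (.nd (.nd (.nd (.nd (.nd (.lf [84,85]) (.lf [84])) (.nd (.lf [5,13,21,37,69,84]) .z)) (.nd (.nd (.lf [84]) .z) .z)) .z) (.nd (.nd (.nd (.nd (.lf [0,1,4,5,8,9,12,13,16,17,20,21,32,33,36,37,64,65,68,69,72,73,80,81,96,97,128,129,136,137,144,145,160,161,192,193]) (.lf [0,1,4,8,9,12,16,17,20,32,33,36,64,65,68,72,80,96,128,136,144,160,192])) (.nd (.lf [0,1,4,8,9,12,16,17,20,32,33,36,64,65,68,72,80,96,128,136,144,160,192]) .z)) (.nd (.nd (.lf [0,1,4,8,9,12,16,17,20,32,33,36,64,65,68,72,80,96,128,136,144,160,192]) .z) .z)) .z))) .z))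
def s15 : Sq := (258,
  (.nd (.nd (.nd .z (.nd (.nd (.nd (.nd (.lf [129,137,145,161,193]) .z) .z) .z) .z)) .z) .z),
  (.nd .z (.nd (.nd (.nd (.nd (.nd (.nd (.lf [5,13,21,37,69]) .z) .z) .z) .z) .z) .z)))
def s16 : Sq := (514,
  (.nd (.nd (.nd (.nd .z (.nd (.nd (.nd (.lf [129,137,145,161,193]) .z) .z) .z)) .z) .z) .z),
  (.nd (.nd .z (.nd (.nd (.nd (.nd (.nd (.lf [5,13,21,37,69]) .z) .z) .z) .z) .z)) .z))
def s17 : Sq := (3,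
  (.nd (.nd (.nd .z (.nd (.nd (.nd (.nd .z (.lf [128,136,144,160,192])) .z) .z) .z)) (.nd (.nd (.nd (.nd .z (.nd (.lf [4,12,20,36,68]) .z)) .z) .z) .z)) .z),
  (.nd (.nd (.nd (.nd .z (.nd (.nd .z (.nd (.lf [128,136,144,160,192]) .z)) .z)) .z) .z) (.nd (.nd (.nd (.nd (.nd (.nd .z (.lf [4,12,20,36,68])) .z) .z) .z) .z) .z)))
def s18 : Sq := (259,
  (.nd (.nd (.nd .z (.nd (.nd (.nd (.nd (.lf [128,136,144,160,192]) .z) .z) .z) .z)) .z) .z),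
  (.nd .z (.nd (.nd (.nd (.nd (.nd (.nd (.lf [4,12,20,36,68]) .z) .z) .z) .z) .z) .z)))
def s19 : Sq := (515,
  (.nd (.nd (.nd (.nd .z (.nd (.nd (.nd (.lf [128,136,144,160,192]) .z) .z) .z)) .z) .z) .z),
  (.nd (.nd .z (.nd (.nd (.nd (.nd (.nd (.lf [4,12,20,36,68]) .z) .z) .z) .z) .z)) .z))
def s20 : Sq := (4,
  (.nd (.nd (.nd (.nd .z (.nd (.nd (.nd (.lf [176,177]) (.lf [176])) (.nd (.lf [176]) .z)) (.nd (.nd (.lf [176]) .z) (.nd (.lf [128,136,144,160,192]) .z)))) .z) (.nd .z (.nd (.nd (.nd (.nd (.lf [96,97]) (.lf [96])) (.nd (.lf [96]) .z)) (.nd (.nd (.lf [1,9,17,33,65,96]) .z) .z)) .z))) (.nd (.nd (.nd (.nd (.nd (.nd (.lf [74,75]) (.lf [3,11,19,35,67,74])) (.nd (.lf [74]) .z)) (.nd (.nd (.lf [74]) .z) .z)) .z) .z) .z)),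
  (.nd (.nd (.nd .z (.nd (.nd (.nd (.nd (.lf [168,169]) (.lf [168])) (.nd (.lf [168]) .z)) (.nd (.nd (.lf [168]) (.lf [128,136,144,160,192])) .z)) .z)) (.nd (.nd (.nd (.nd (.nd (.lf [82,83]) (.lf [82])) (.nd (.lf [3,11,19,35,67,82]) .z)) (.nd (.nd (.lf [82]) .z) .z)) .z) .z)) (.nd (.nd (.nd .z (.nd (.nd (.nd (.lf [96,97]) (.lf [96])) (.nd (.lf [96]) .z)) (.nd (.nd (.lf [1,9,17,33,65,96]) .z) .z))) .z) .z)))
def s21 : Sq := (1028,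
  (.nd (.nd (.nd .z (.nd (.nd (.nd (.nd .z (.lf [128,136,144,160,192])) .z) .z) .z)) .z) (.nd (.nd (.nd .z (.nd (.nd (.nd (.lf [1,9,17,33,65]) .z) .z) .z)) .z) .z)),
  (.nd (.nd (.nd (.nd .z (.nd (.nd .z (.nd (.lf [128,136,144,160,192]) .z)) .z)) .z) (.nd .z (.nd (.nd (.nd (.nd (.lf [1,9,17,33,65]) .z) .z) .z) .z))) .z))
def s22 : Sq := (5,
  (.nd (.nd .z (.nd .z (.nd (.nd .z (.nd (.nd (.lf [0,8,16,32,64]) .z) .z)) .z))) (.nd (.nd (.nd (.nd (.nd (.nd .z (.lf [2,10,18,34,66])) .z) .z) .z) .z) .z)),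
  (.nd (.nd .z (.nd (.nd (.nd (.nd .z (.nd (.lf [2,10,18,34,66]) .z)) .z) .z) .z)) (.nd (.nd (.nd .z (.nd .z (.nd (.nd (.lf [0,8,16,32,64]) .z) .z))) .z) .z)))
def s23 : Sq := (1029,
  (.nd .z (.nd (.nd (.nd .z (.nd (.nd (.nd (.lf [0,8,16,32,64]) .z) .z) .z)) .z) .z)),
  (.nd (.nd .z (.nd .z (.nd (.nd (.nd (.nd (.lf [0,8,16,32,64]) .z) .z) .z) .z))) .z))
def s24 : Sq := (2052,
  (.nd (.nd (.nd (.nd (.nd (.nd (.nd (.lf [176,177]) (.lf [176])) (.nd (.lf [176]) .z)) (.nd (.nd (.lf [176]) .z) (.nd (.lf [128,136,144,160,192]) .z))) .z) .z) .z) .z),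
  (.nd .z (.nd (.nd (.nd (.nd (.nd (.nd (.lf [96,97]) (.lf [96])) (.nd (.lf [96]) .z)) (.nd (.nd (.lf [1,9,17,33,65,96]) .z) .z)) .z) .z) .z)))
def s25 : Sq := (3076,
  (.nd (.nd (.nd (.nd (.nd (.nd .z (.nd (.lf [128,136,144,160,192]) .z)) .z) .z) .z) .z) .z),
  (.nd .z (.nd (.nd (.nd (.nd (.nd (.nd (.lf [1,9,17,33,65]) .z) .z) .z) .z) .z) .z)))
def s26 : Sq := (4100,
  (.nd (.nd (.nd (.nd (.nd (.nd (.nd (.lf [168,169]) (.lf [168])) (.nd (.lf [168]) .z)) (.nd (.nd (.lf [168]) (.lf [128,136,144,160,192])) .z)) .z) .z) .z) .z),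
  (.nd (.nd .z (.nd (.nd (.nd (.nd (.nd (.lf [96,97]) (.lf [96])) (.nd (.lf [96]) .z)) (.nd (.nd (.lf [1,9,17,33,65,96]) .z) .z)) .z) .z)) .z))
def s27 : Sq := (5124,
  (.nd (.nd (.nd (.nd (.nd (.nd (.nd .z (.lf [128,136,144,160,192])) .z) .z) .z) .z) .z) .z),
  (.nd (.nd .z (.nd (.nd (.nd (.nd (.nd (.lf [1,9,17,33,65]) .z) .z) .z) .z) .z)) .z))
def s28 : Sq := (6,
  (.nd .z (.nd (.nd (.nd (.nd (.nd (.nd (.lf [72,73]) (.lf [1,9,17,33,65,72])) (.nd (.lf [72]) .z)) (.nd (.nd (.lf [72]) .z) .z)) .z) .z) .z)),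
  (.nd (.nd .z (.nd (.nd (.nd (.nd (.nd (.lf [80,81]) (.lf [80])) (.nd (.lf [1,9,17,33,65,80]) .z)) (.nd (.nd (.lf [80]) .z) .z)) .z) .z)) .z))
def s29 : Sq := (7,
  (.nd .z (.nd (.nd (.nd (.nd (.nd (.nd .z (.lf [0,8,16,32,64])) .z) .z) .z) .z) .z)),
  (.nd (.nd .z (.nd (.nd (.nd (.nd .z (.nd (.lf [0,8,16,32,64]) .z)) .z) .z) .z)) .z))
def s30 : Sq := (8,
  (.nd (.nd (.nd (.nd (.nd .z (.nd .z (.nd (.lf [192,194,196]) .z))) (.nd .z (.nd .z (.nd (.lf [192]) .z)))) (.nd (.nd (.nd (.nd (.lf [194,195]) (.lf [194])) (.nd (.lf [194]) .z)) (.nd (.nd (.lf [194]) .z) (.nd (.lf [192]) .z))) .z)) .z) .z),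
  (.nd (.nd (.nd (.nd (.nd (.nd .z (.nd (.lf [161,163,165]) .z)) .z) (.nd (.nd .z (.nd (.lf [161]) .z)) .z)) (.nd (.nd (.nd (.nd (.lf [164,165]) (.lf [164])) (.nd (.lf [161,164]) .z)) (.nd (.nd (.lf [164]) .z) .z)) .z)) .z) (.nd (.nd (.nd (.nd (.nd (.nd (.lf [32,33,34,35,36,37,38,39,70,71,96,97,98,99,100,101,160,161,162,163,164,165]) (.lf [32,33,34,35,36,37,38,70,96,98,100,160,162,164])) (.nd (.lf [32,33,34,35,36,37,38,70,96,98,100,160,162,164]) .z)) (.nd (.nd (.lf [32,33,34,35,36,37,38,65,67,69,70,96,98,100,160,162,164]) .z) .z)) (.nd (.nd (.nd (.lf [32,33,36,37,96,97,160,161]) (.lf [32,33,36,96,160])) (.nd (.lf [32,33,36,96,160]) .z)) (.nd (.nd (.lf [32,33,36,65,96,160]) .z) .z))) (.nd (.nd (.nd (.nd (.lf [32,33,36,37,96,97,160,161]) (.lf [32,33,36,96,160])) (.nd (.lf [32,33,36,96,160]) .z)) (.nd (.nd (.lf [32,33,36,65,96,160])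 .z) .z)) .z)) .z)))
def s31 : Sq := (520,
  (.nd (.nd (.nd (.nd (.nd .z (.nd (.nd (.lf [192,194,196]) .z) .z)) (.nd .z (.nd (.nd (.lf [192]) .z) .z))) (.nd (.nd .z (.nd (.nd (.lf [192]) .z) .z)) .z)) .z) .z),
  (.nd (.nd (.nd (.nd (.nd (.nd (.nd (.lf [161,163,165]) .z) .z) .z) (.nd (.nd (.nd (.lf [161]) .z) .z) .z)) (.nd (.nd (.nd (.nd (.lf [161]) .z) .z) .z) .z)) .z) .z))
def s32 : Sq := (1032,
  (.nd (.nd (.nd (.nd (.nd (.nd .z (.nd (.lf [192,194,196]) .z)) .z) (.nd (.nd .z (.nd (.lf [192]) .z)) .z)) (.nd (.nd (.nd .z (.nd (.lf [192]) .z)) .z) .z)) .z) .z),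
  (.nd .z (.nd (.nd (.nd (.nd (.nd (.nd (.lf [65,67,69]) .z) .z) .z) (.nd (.nd (.nd (.lf [65]) .z) .z) .z)) (.nd (.nd (.nd (.nd (.lf [65]) .z) .z) .z) .z)) .z)))
def s33 : Sq := (4104,
  (.nd (.nd (.nd (.nd (.nd (.nd (.nd (.lf [194,195]) (.lf [194])) (.nd (.lf [194]) .z)) (.nd (.nd (.lf [194]) .z) .z)) .z) .z) .z) .z),
  (.nd (.nd (.nd (.nd (.nd (.nd (.nd (.lf [164,165]) (.lf [164])) (.nd (.lf [164]) .z)) (.nd (.nd (.lf [164]) .z) .z)) .z) .z) .z) .z))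
def s34 : Sq := (10,
  (.nd (.nd (.nd .z (.nd (.nd (.nd (.nd (.lf [192,193]) (.lf [192])) (.nd (.lf [192]) .z)) (.nd (.nd (.lf [192]) .z) .z)) .z)) .z) .z),
  (.nd .z (.nd (.nd (.nd (.nd (.nd (.nd (.lf [68,69]) (.lf [68])) (.nd (.lf [68]) .z)) (.nd (.nd (.lf [68]) .z) .z)) .z) .z) .z)))
def s35 : Sq := (16,
  (.nd (.nd (.nd (.nd (.nd .z (.nd (.nd .z (.lf [192,194,196])) .z)) (.nd (.nd (.nd (.lf [194,195]) (.lf [194])) (.nd (.lf [194]) .z)) (.nd (.nd (.lf [194]) (.lf [192])) .z))) (.nd (.nd .z (.nd (.nd .z (.lf [192])) .z)) .z)) .z) .z),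
  (.nd (.nd (.nd (.nd (.nd (.nd (.nd .z (.lf [161,163,165])) .z) .z) (.nd (.nd (.nd (.lf [164,165]) (.lf [161,164])) (.nd (.lf [164]) .z)) (.nd (.nd (.lf [164]) .z) .z))) (.nd (.nd (.nd (.nd .z (.lf [161])) .z) .z) .z)) (.nd (.nd (.nd (.nd (.nd (.lf [32,33,34,35,36,37,38,39,70,71,96,97,98,99,100,101,160,161,162,163,164,165]) (.lf [32,33,34,35,36,37,38,70,96,98,100,160,162,164])) (.nd (.lf [32,33,34,35,36,37,38,70,96,98,100,160,162,164]) .z)) (.nd (.nd (.lf [32,33,34,35,36,37,38,65,67,69,70,96,98,100,160,162,164]) .z) .z)) (.nd (.nd (.nd (.lf [32,33,36,37,96,97,160,161]) (.lf [32,33,36,96,160])) (.nd (.lf [32,33,36,96,160]) .z)) (.nd (.nd (.lf [32,33,36,65,96,160]) .z) .z))) (.nd (.nd (.nd (.nd (.lf [32,33,36,37,96,97,160,161]) (.lf [32,33,36,96,160])) (.nd (.lf [32,33,36,96,160]) .z)) (.nd (.nd (.lf [32,33,36,65,96,160]) .z) .z))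 .z))) .z))
def s36 : Sq := (272,
  (.nd (.nd (.nd (.nd (.nd .z (.nd (.nd (.lf [192,194,196]) .z) .z)) (.nd .z (.nd (.nd (.lf [192]) .z) .z))) (.nd (.nd .z (.nd (.nd (.lf [192]) .z) .z)) .z)) .z) .z),
  (.nd (.nd (.nd (.nd (.nd (.nd (.nd (.lf [161,163,165]) .z) .z) .z) (.nd (.nd (.nd (.lf [161]) .z) .z) .z)) (.nd (.nd (.nd (.nd (.lf [161]) .z) .z) .z) .z)) .z) .z))
def s37 : Sq := (1040,
  (.nd (.nd (.nd (.nd (.nd (.nd (.nd .z (.lf [192,194,196])) .z) .z) (.nd (.nd (.nd .z (.lf [192])) .z) .z)) (.nd (.nd (.nd (.nd .z (.lf [192])) .z) .z) .z)) .z) .z),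
  (.nd (.nd .z (.nd (.nd (.nd (.nd (.nd (.lf [65,67,69]) .z) .z) .z) (.nd (.nd (.nd (.lf [65]) .z) .z) .z)) (.nd (.nd (.nd (.nd (.lf [65]) .z) .z) .z) .z))) .z))
def s38 : Sq := (2064,
  (.nd (.nd (.nd (.nd (.nd (.nd (.nd (.lf [194,195]) (.lf [194])) (.nd (.lf [194]) .z)) (.nd (.nd (.lf [194]) .z) .z)) .z) .z) .z) .z),
  (.nd (.nd (.nd (.nd (.nd (.nd (.nd (.lf [164,165]) (.lf [164])) (.nd (.lf [164]) .z)) (.nd (.nd (.lf [164]) .z) .z)) .z) .z) .z) .z))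
def s39 : Sq := (18,
  (.nd (.nd (.nd (.nd .z (.nd (.nd (.nd (.lf [192,193]) (.lf [192])) (.nd (.lf [192]) .z)) (.nd (.nd (.lf [192]) .z) .z))) .z) .z) .z),
  (.nd (.nd .z (.nd (.nd (.nd (.nd (.nd (.lf [68,69]) (.lf [68])) (.nd (.lf [68]) .z)) (.nd (.nd (.lf [68]) .z) .z)) .z) .z)) .z))
def s40 : Sq := (32,
  (.nd (.nd (.nd (.nd (.nd (.nd (.nd .z (.lf [145,147,149])) .z) .z) (.nd (.nd (.nd (.lf [148,149]) (.lf [145,148])) (.nd (.lf [148]) .z)) (.nd (.nd (.lf [148]) .z) .z))) (.nd (.nd (.nd (.nd .z (.lf [145])) .z) .z) .z)) (.nd (.nd (.nd (.nd (.nd (.lf [16,17,18,19,20,21,22,23,80,81,82,83,84,85,144,145,146,147,148,149]) (.lf [16,17,18,19,20,21,22,80,82,84,144,146,148])) (.nd (.lf [16,17,18,19,20,21,22,65,67,69,80,82,84,144,146,148]) .z)) (.nd (.nd (.lf [16,17,18,19,20,21,22,80,82,84,144,146,148]) .z) .z)) (.nd (.nd (.nd (.lf [16,17,20,21,80,81,144,145])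 (.lf [16,17,20,80,144])) (.nd (.lf [16,17,20,65,80,144]) .z)) (.nd (.nd (.lf [16,17,20,80,144]) .z) .z))) (.nd (.nd (.nd (.nd (.lf [16,17,20,21,68,69,80,81,144,145]) (.lf [16,17,20,68,80,144])) (.nd (.lf [16,17,20,65,68,80,144]) .z)) (.nd (.nd (.lf [16,17,20,68,80,144]) .z) .z)) .z))) .z),
  (.nd (.nd (.nd (.nd (.nd (.nd .z (.nd (.lf [137,139,141]) .z)) .z) (.nd (.nd .z (.nd (.lf [137]) .z)) .z)) (.nd (.nd (.nd (.nd (.lf [140,141]) (.lf [140])) (.nd (.lf [137,140]) .z)) (.nd (.nd (.lf [140]) .z) .z)) .z)) .z) (.nd (.nd (.nd (.nd (.nd (.nd (.lf [8,9,10,11,12,13,14,15,72,73,74,75,76,77,136,137,138,139,140,141]) (.lf [8,9,10,11,12,13,14,65,67,69,72,74,76,136,138,140])) (.nd (.lf [8,9,10,11,12,13,14,72,74,76,136,138,140]) .z)) (.nd (.nd (.lf [8,9,10,11,12,13,14,72,74,76,136,138,140]) .z) .z)) (.nd (.nd (.nd (.lf [8,9,12,13,68,69,72,73,136,137])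 (.lf [8,9,12,65,68,72,136])) (.nd (.lf [8,9,12,68,72,136]) .z)) (.nd (.nd (.lf [8,9,12,68,72,136]) .z) .z))) (.nd (.nd (.nd (.nd (.lf [8,9,12,13,72,73,136,137]) (.lf [8,9,12,65,72,136])) (.nd (.lf [8,9,12,72,136]) .z)) (.nd (.nd (.lf [8,9,12,72,136]) .z) .z)) .z)) .z)))
def s41 : Sq := (288,
  (.nd (.nd (.nd (.nd (.nd (.nd (.nd (.lf [145,147,149]) .z) .z) .z) (.nd (.nd (.nd (.lf [145]) .z) .z) .z)) (.nd (.nd (.nd (.nd (.lf [145]) .z) .z) .z) .z)) .z) .z),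
  (.nd .z (.nd (.nd (.nd (.nd (.nd (.nd (.lf [65,67,69]) .z) .z) .z) (.nd (.nd (.nd (.lf [65]) .z) .z) .z)) (.nd (.nd (.nd (.nd (.lf [65]) .z) .z) .z) .z)) .z)))
def s42 : Sq := (544,
  (.nd (.nd (.nd (.nd (.nd (.nd (.nd (.lf [137,139,141]) .z) .z) .z) (.nd (.nd (.nd (.lf [137]) .z) .z) .z)) (.nd (.nd (.nd (.nd (.lf [137]) .z) .z) .z) .z)) .z) .z),
  (.nd (.nd .z (.nd (.nd (.nd (.nd (.nd (.lf [65,67,69]) .z) .z) .z) (.nd (.nd (.nd (.lf [65]) .z) .z) .z)) (.nd (.nd (.nd (.nd (.lf [65]) .z) .z) .z) .z))) .z))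
def s43 : Sq := (33,
  (.nd (.nd (.nd (.nd (.nd (.nd (.nd .z (.lf [144,146,148])) .z) .z) (.nd (.nd (.nd .z (.lf [144])) .z) .z)) (.nd (.nd (.nd (.nd .z (.lf [144])) .z) .z) .z)) (.nd (.nd (.nd (.nd .z (.nd (.lf [64,66,68]) .z)) .z) (.nd (.nd .z (.nd (.lf [64]) .z)) .z)) (.nd (.nd (.nd .z (.nd (.lf [64]) .z)) .z) .z))) .z),
  (.nd (.nd (.nd (.nd (.nd (.nd .z (.nd (.lf [136,138,140]) .z)) .z) (.nd (.nd .z (.nd (.lf [136]) .z)) .z)) (.nd (.nd (.nd .z (.nd (.lf [136]) .z)) .z) .z)) .z) (.nd (.nd (.nd (.nd (.nd (.nd .z (.lf [64,66,68])) .z) .z) (.nd (.nd (.nd .z (.lf [64])) .z) .z)) (.nd (.nd (.nd (.nd .z (.lf [64])) .z) .z) .z)) .z)))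
def s44 : Sq := (289,
  (.nd (.nd (.nd (.nd (.nd (.nd (.nd (.lf [144,146,148]) .z) .z) .z) (.nd (.nd (.nd (.lf [144]) .z) .z) .z)) (.nd (.nd (.nd (.nd (.lf [144]) .z) .z) .z) .z)) .z) .z),
  (.nd .z (.nd (.nd (.nd (.nd (.nd (.nd (.lf [64,66,68]) .z) .z) .z) (.nd (.nd (.nd (.lf [64]) .z) .z) .z)) (.nd (.nd (.nd (.nd (.lf [64]) .z) .z) .z) .z)) .z)))
def s45 : Sq := (545,
  (.nd (.nd (.nd (.nd (.nd (.nd (.nd (.lf [136,138,140]) .z) .z) .z) (.nd (.nd (.nd (.lf [136]) .z) .z) .z)) (.nd (.nd (.nd (.nd (.lf [136]) .z) .z) .z) .z)) .z) .z),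
  (.nd (.nd .z (.nd (.nd (.nd (.nd (.nd (.lf [64,66,68]) .z) .z) .z) (.nd (.nd (.nd (.lf [64]) .z) .z) .z)) (.nd (.nd (.nd (.nd (.lf [64]) .z) .z) .z) .z))) .z))
def s46 : Sq := (2080,
  (.nd (.nd (.nd (.nd (.nd (.nd (.nd (.lf [148,149]) (.lf [148])) (.nd (.lf [148]) .z)) (.nd (.nd (.lf [148]) .z) .z)) .z) .z) .z) .z),
  (.nd .z (.nd (.nd (.nd (.nd (.nd (.nd (.lf [68,69]) (.lf [68])) (.nd (.lf [68]) .z)) (.nd (.nd (.lf [68]) .z) .z)) .z) .z) .z)))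
def s47 : Sq := (4128,
  (.nd (.nd (.nd (.nd (.nd (.nd (.nd (.lf [140,141]) (.lf [140])) (.nd (.lf [140]) .z)) (.nd (.nd (.lf [140]) .z) .z)) .z) .z) .z) .z),
  (.nd (.nd .z (.nd (.nd (.nd (.nd (.nd (.lf [68,69]) (.lf [68])) (.nd (.lf [68]) .z)) (.nd (.nd (.lf [68]) .z) .z)) .z) .z)) .z))
def s48 : Sq := (36,
  (.nd (.nd (.nd (.nd .z (.nd (.nd (.nd (.lf [144,145]) (.lf [144])) (.nd (.lf [144]) .z)) (.nd (.nd (.lf [144]) .z) .z))) .z) (.nd .z (.nd (.nd (.nd (.nd (.lf [64,65]) (.lf [64])) (.nd (.lf [64]) .z)) (.nd (.nd (.lf [64]) .z) .z)) .z))) .z),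
  (.nd (.nd (.nd .z (.nd (.nd (.nd (.nd (.lf [136,137]) (.lf [136])) (.nd (.lf [136]) .z)) (.nd (.nd (.lf [136]) .z) .z)) .z)) .z) (.nd (.nd (.nd .z (.nd (.nd (.nd (.lf [64,65]) (.lf [64])) (.nd (.lf [64]) .z)) (.nd (.nd (.lf [64]) .z) .z))) .z) .z)))
def s49 : Sq := (2084,
  (.nd (.nd (.nd (.nd (.nd (.nd (.nd (.lf [144,145]) (.lf [144])) (.nd (.lf [144]) .z)) (.nd (.nd (.lf [144]) .z) .z)) .z) .z) .z) .z),
  (.nd .z (.nd (.nd (.nd (.nd (.nd (.nd (.lf [64,65]) (.lf [64])) (.nd (.lf [64]) .z)) (.nd (.nd (.lf [64]) .z) .z)) .z) .z) .z)))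
def s50 : Sq := (4132,
  (.nd (.nd (.nd (.nd (.nd (.nd (.nd (.lf [136,137]) (.lf [136])) (.nd (.lf [136]) .z)) (.nd (.nd (.lf [136]) .z) .z)) .z) .z) .z) .z),
  (.nd (.nd .z (.nd (.nd (.nd (.nd (.nd (.lf [64,65]) (.lf [64])) (.nd (.lf [64]) .z)) (.nd (.nd (.lf [64]) .z) .z)) .z) .z)) .z))
def s51 : Sq := (64,
  (.nd (.nd (.nd (.nd (.nd .z (.nd .z (.nd (.lf [136,138,140]) .z))) (.nd .z (.nd .z (.nd (.lf [136]) .z)))) (.nd (.nd (.nd (.nd (.lf [138,139]) (.lf [138])) (.nd (.lf [138]) .z)) (.nd (.nd (.lf [138]) .z) (.nd (.lf [136]) .z))) .z)) (.nd (.nd (.nd (.nd (.nd (.lf [22,23]) (.lf [22])) (.nd (.lf [22]) .z)) (.nd (.nd (.lf [17,19,21,22]) .z) .z)) (.nd .z (.nd (.nd (.lf [17]) .z) .z))) (.nd (.nd .z (.nd (.nd (.lf [17]) .z) .z)) .z))) (.nd (.nd (.nd (.nd (.nd (.nd .z (.lf [33,35,37])) .z) .z) (.nd (.nd (.nd (.lf [36,37]) (.lf [33,36]))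 (.nd (.lf [36]) .z)) (.nd (.nd (.lf [36]) .z) .z))) (.nd (.nd (.nd (.nd .z (.lf [33])) .z) .z) .z)) .z)),
  (.nd (.nd (.nd (.nd (.nd .z (.nd (.nd .z (.lf [144,146,148])) .z)) (.nd (.nd (.nd (.lf [146,147]) (.lf [146])) (.nd (.lf [146]) .z)) (.nd (.nd (.lf [146]) (.lf [144])) .z))) (.nd (.nd .z (.nd (.nd .z (.lf [144])) .z)) .z)) (.nd (.nd (.nd (.nd .z (.nd (.lf [33,35,37]) .z)) .z) (.nd (.nd .z (.nd (.lf [33]) .z)) .z)) (.nd (.nd (.nd (.nd (.lf [36,37]) (.lf [36])) (.nd (.lf [33,36]) .z)) (.nd (.nd (.lf [36]) .z) .z)) .z))) (.nd (.nd (.nd (.nd (.nd (.nd (.lf [14,15]) (.lf [14])) (.nd (.lf [14]) .z)) (.nd (.nd (.lf [9,11,13,14]) .z) .z)) (.nd .z (.nd (.nd (.lf [9]) .z) .z))) (.nd (.nd .z (.nd (.nd (.lf [9]) .z) .z)) .z)) .z)))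
def s52 : Sq := (1088,
  (.nd (.nd (.nd (.nd (.nd (.nd (.nd .z (.lf [144,146,148])) .z) .z) (.nd (.nd (.nd .z (.lf [144])) .z) .z)) (.nd (.nd (.nd (.nd .z (.lf [144])) .z) .z) .z)) .z) (.nd (.nd (.nd (.nd (.nd (.nd (.lf [9,11,13]) .z) .z) .z) (.nd (.nd (.nd (.lf [9]) .z) .z) .z)) (.nd (.nd (.nd (.nd (.lf [9]) .z) .z) .z) .z)) .z)),
  (.nd (.nd (.nd (.nd (.nd (.nd .z (.nd (.lf [136,138,140]) .z)) .z) (.nd (.nd .z (.nd (.lf [136]) .z)) .z)) (.nd (.nd (.nd .z (.nd (.lf [136]) .z)) .z) .z)) (.nd (.nd (.nd (.nd (.nd (.lf [17,19,21]) .z) .z) .z) (.nd (.nd (.nd (.lf [17]) .z) .z) .z)) (.nd (.nd (.nd (.nd (.lf [17]) .z) .z) .z) .z))) .z))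
def s53 : Sq := (65,
  (.nd (.nd .z (.nd (.nd (.nd .z (.nd (.nd (.lf [16,18,20]) .z) .z)) (.nd .z (.nd (.nd (.lf [16]) .z) .z))) (.nd (.nd .z (.nd (.nd (.lf [16]) .z) .z)) .z))) (.nd (.nd (.nd (.nd (.nd (.nd .z (.lf [32,34,36])) .z) .z) (.nd (.nd (.nd .z (.lf [32])) .z) .z)) (.nd (.nd (.nd (.nd .z (.lf [32])) .z) .z) .z)) .z)),
  (.nd (.nd .z (.nd (.nd (.nd (.nd .z (.nd (.lf [32,34,36]) .z)) .z) (.nd (.nd .z (.nd (.lf [32]) .z)) .z)) (.nd (.nd (.nd .z (.nd (.lf [32]) .z)) .z) .z))) (.nd (.nd (.nd (.nd .z (.nd (.nd (.lf [8,10,12]) .z) .z)) (.nd .z (.nd (.nd (.lf [8]) .z) .z))) (.nd (.nd .z (.nd (.nd (.lf [8]) .z) .z)) .z)) .z)))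
def s54 : Sq := (1089,
  (.nd .z (.nd (.nd (.nd (.nd (.nd (.nd (.lf [8,10,12]) .z) .z) .z) (.nd (.nd (.nd (.lf [8]) .z) .z) .z)) (.nd (.nd (.nd (.nd (.lf [8]) .z) .z) .z) .z)) .z)),
  (.nd (.nd .z (.nd (.nd (.nd (.nd (.nd (.lf [16,18,20]) .z) .z) .z) (.nd (.nd (.nd (.lf [16]) .z) .z) .z)) (.nd (.nd (.nd (.nd (.lf [16]) .z) .z) .z) .z))) .z))
def s55 : Sq := (66,
  (.nd (.nd (.nd (.nd .z (.nd (.nd (.nd (.lf [144,145]) (.lf [144])) (.nd (.lf [144]) .z)) (.nd (.nd (.lf [144]) .z) .z))) .z) .z) (.nd (.nd (.nd (.nd (.nd (.nd (.lf [12,13]) (.lf [12])) (.nd (.lf [12]) .z)) (.nd (.nd (.lf [12]) .z) .z)) .z) .z) .z)),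
  (.nd (.nd (.nd .z (.nd (.nd (.nd (.nd (.lf [136,137]) (.lf [136])) (.nd (.lf [136]) .z)) (.nd (.nd (.lf [136]) .z) .z)) .z)) (.nd (.nd (.nd (.nd (.nd (.lf [20,21]) (.lf [20])) (.nd (.lf [20]) .z)) (.nd (.nd (.lf [20]) .z) .z)) .z) .z)) .z))
def s56 : Sq := (68,
  (.nd (.nd .z (.nd (.nd (.nd (.nd (.nd (.lf [18,19]) (.lf [18])) (.nd (.lf [18]) .z)) (.nd (.nd (.lf [18]) .z) .z)) .z) .z)) (.nd (.nd (.nd .z (.nd (.nd (.nd (.lf [32,33]) (.lf [32])) (.nd (.lf [32]) .z)) (.nd (.nd (.lf [32]) .z) .z))) .z) .z)),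
  (.nd (.nd .z (.nd .z (.nd (.nd (.nd (.nd (.lf [32,33]) (.lf [32])) (.nd (.lf [32]) .z)) (.nd (.nd (.lf [32]) .z) .z)) .z))) (.nd (.nd (.nd (.nd (.nd (.nd (.lf [10,11]) (.lf [10])) (.nd (.lf [10]) .z)) (.nd (.nd (.lf [10]) .z) .z)) .z) .z) .z)))
def s57 : Sq := (70,
  (.nd .z (.nd (.nd (.nd (.nd (.nd (.nd (.lf [8,9]) (.lf [8])) (.nd (.lf [8]) .z)) (.nd (.nd (.lf [8]) .z) .z)) .z) .z) .z)),
  (.nd (.nd .z (.nd (.nd (.nd (.nd (.nd (.lf [16,17]) (.lf [16])) (.nd (.lf [16]) .z)) (.nd (.nd (.lf [16]) .z) .z)) .z) .z)) .z))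
def s58 : Sq := (72,
  (.nd (.nd (.nd (.nd (.nd .z (.nd .z (.nd (.lf [128,130,132]) .z))) (.nd .z (.nd .z (.nd (.lf [128]) .z)))) (.nd (.nd (.nd (.nd (.lf [130,131]) (.lf [130])) (.nd (.lf [130]) .z)) (.nd (.nd (.lf [130]) .z) (.nd (.lf [128]) .z))) .z)) .z) .z),
  (.nd .z (.nd (.nd (.nd (.nd (.nd (.nd (.lf [6,7]) (.lf [6])) (.nd (.lf [6]) .z)) (.nd (.nd (.lf [1,3,5,6]) .z) .z)) (.nd .z (.nd (.nd (.lf [1]) .z) .z))) (.nd (.nd .z (.nd (.nd (.lf [1]) .z) .z)) .z)) .z)))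
def s59 : Sq := (1096,
  (.nd (.nd (.nd (.nd (.nd (.nd .z (.nd (.lf [128,130,132]) .z)) .z) (.nd (.nd .z (.nd (.lf [128]) .z)) .z)) (.nd (.nd (.nd .z (.nd (.lf [128]) .z)) .z) .z)) .z) .z),
  (.nd .z (.nd (.nd (.nd (.nd (.nd (.nd (.lf [1,3,5]) .z) .z) .z) (.nd (.nd (.nd (.lf [1]) .z) .z) .z)) (.nd (.nd (.nd (.nd (.lf [1]) .z) .z) .z) .z)) .z)))
def s60 : Sq := (74,
  (.nd (.nd (.nd .z (.nd (.nd (.nd (.nd (.lf [128,129]) (.lf [128])) (.nd (.lf [128]) .z)) (.nd (.nd (.lf [128]) .z) .z)) .z)) .z) .z),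
  (.nd .z (.nd (.nd (.nd (.nd (.nd (.nd (.lf [4,5]) (.lf [4])) (.nd (.lf [4]) .z)) (.nd (.nd (.lf [4]) .z) .z)) .z) .z) .z)))
def s61 : Sq := (80,
  (.nd (.nd (.nd (.nd (.nd .z (.nd (.nd .z (.lf [128,130,132])) .z)) (.nd (.nd (.nd (.lf [130,131]) (.lf [130])) (.nd (.lf [130]) .z)) (.nd (.nd (.lf [130]) (.lf [128])) .z))) (.nd (.nd .z (.nd (.nd .z (.lf [128])) .z)) .z)) .z) .z),
  (.nd (.nd .z (.nd (.nd (.nd (.nd (.nd (.lf [6,7]) (.lf [6])) (.nd (.lf [6]) .z)) (.nd (.nd (.lf [1,3,5,6]) .z) .z)) (.nd .z (.nd (.nd (.lf [1]) .z) .z))) (.nd (.nd .z (.nd (.nd (.lf [1]) .z) .z)) .z))) .z))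
def s62 : Sq := (1104,
  (.nd (.nd (.nd (.nd (.nd (.nd (.nd .z (.lf [128,130,132])) .z) .z) (.nd (.nd (.nd .z (.lf [128])) .z) .z)) (.nd (.nd (.nd (.nd .z (.lf [128])) .z) .z) .z)) .z) .z),
  (.nd (.nd .z (.nd (.nd (.nd (.nd (.nd (.lf [1,3,5]) .z) .z) .z) (.nd (.nd (.nd (.lf [1]) .z) .z) .z)) (.nd (.nd (.nd (.nd (.lf [1]) .z) .z) .z) .z))) .z))
def s63 : Sq := (82,
  (.nd (.nd (.nd (.nd .z (.nd (.nd (.nd (.lf [128,129]) (.lf [128])) (.nd (.lf [128]) .z)) (.nd (.nd (.lf [128]) .z) .z))) .z) .z) .z),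
  (.nd (.nd .z (.nd (.nd (.nd (.nd (.nd (.lf [4,5]) (.lf [4])) (.nd (.lf [4]) .z)) (.nd (.nd (.lf [4]) .z) .z)) .z) .z)) .z))
def s64 : Sq := (96,
  (.nd .z (.nd (.nd (.nd (.nd (.nd (.nd .z (.lf [1,3,5])) .z) .z) (.nd (.nd (.nd (.lf [4,5]) (.lf [1,4])) (.nd (.lf [4]) .z)) (.nd (.nd (.lf [4]) .z) .z))) (.nd (.nd (.nd (.nd .z (.lf [1])) .z) .z) .z)) .z)),
  (.nd (.nd .z (.nd (.nd (.nd (.nd .z (.nd (.lf [1,3,5]) .z)) .z) (.nd (.nd .z (.nd (.lf [1]) .z)) .z)) (.nd (.nd (.nd (.nd (.lf [4,5]) (.lf [4])) (.nd (.lf [1,4]) .z)) (.nd (.nd (.lf [4]) .z) .z)) .z))) .z))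
def s65 : Sq := (97,
  (.nd .z (.nd (.nd (.nd (.nd (.nd (.nd .z (.lf [0,2,4])) .z) .z) (.nd (.nd (.nd .z (.lf [0])) .z) .z)) (.nd (.nd (.nd (.nd .z (.lf [0])) .z) .z) .z)) .z)),
  (.nd (.nd .z (.nd (.nd (.nd (.nd .z (.nd (.lf [0,2,4]) .z)) .z) (.nd (.nd .z (.nd (.lf [0]) .z)) .z)) (.nd (.nd (.nd .z (.nd (.lf [0]) .z)) .z) .z))) .z))
def s66 : Sq := (100,
  (.nd .z (.nd (.nd (.nd .z (.nd (.nd (.nd (.lf [0,1]) (.lf [0])) (.nd (.lf [0]) .z)) (.nd (.nd (.lf [0]) .z) .z))) .z) .z)),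
  (.nd (.nd .z (.nd .z (.nd (.nd (.nd (.nd (.lf [0,1]) (.lf [0])) (.nd (.lf [0]) .z)) (.nd (.nd (.lf [0]) .z) .z)) .z))) .z))
def s67 : Sq := (128,
  (.nd (.nd (.nd (.nd (.nd (.nd .z (.nd (.lf [41,43,45]) .z)) (.nd (.nd .z (.lf [80,82,84])) .z)) (.nd (.nd (.nd (.lf [82,83]) (.lf [82])) (.nd (.lf [3,11,19,35,41,67,82]) .z)) (.nd (.nd (.lf [82]) (.lf [80])) .z))) (.nd (.nd (.nd (.nd (.lf [44,45]) (.lf [44])) (.nd (.lf [41,44]) .z)) (.nd (.nd (.lf [44]) (.lf [4,12,20,36,68,80])) .z)) .z)) .z) .z),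
  (.nd (.nd (.nd (.nd (.nd (.nd (.nd .z (.lf [49,51,53])) .z) (.nd .z (.nd (.lf [72,74,76]) .z))) (.nd (.nd (.nd (.lf [52,53]) (.lf [49,52])) (.nd (.lf [52]) .z)) (.nd (.nd (.lf [52]) .z) (.nd (.lf [4,12,20,36,68,72]) .z)))) (.nd (.nd (.nd (.nd (.lf [74,75]) (.lf [3,11,19,35,49,67,74])) (.nd (.lf [74]) .z)) (.nd (.nd (.lf [74]) .z) (.nd (.lf [72]) .z))) .z)) .z) .z))
def s68 : Sq := (384,
  (.nd (.nd (.nd (.nd (.nd .z (.nd (.nd (.lf [80,82,84]) .z) .z)) (.nd .z (.nd (.nd (.lf [80]) .z) .z))) (.nd (.nd .z (.nd (.nd (.lf [4,12,20,36,68,80]) .z) .z)) .z)) .z) .z),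
  (.nd (.nd (.nd (.nd (.nd (.nd (.nd (.lf [49,51,53]) .z) .z) .z) (.nd (.nd (.nd (.lf [49]) .z) .z) .z)) (.nd (.nd (.nd (.nd (.lf [3,11,19,35,49,67]) .z) .z) .z) .z)) .z) .z))
def s69 : Sq := (640,
  (.nd (.nd (.nd (.nd (.nd .z (.nd (.nd (.lf [72,74,76]) .z) .z)) (.nd .z (.nd (.nd (.lf [4,12,20,36,68,72]) .z) .z))) (.nd (.nd .z (.nd (.nd (.lf [72]) .z) .z)) .z)) .z) .z),
  (.nd (.nd (.nd (.nd (.nd (.nd (.nd (.lf [41,43,45]) .z) .z) .z) (.nd (.nd (.nd (.lf [3,11,19,35,41,67]) .z) .z) .z)) (.nd (.nd (.nd (.nd (.lf [41]) .z) .z) .z) .z)) .z) .z))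
def s70 : Sq := (1152,
  (.nd (.nd (.nd (.nd (.nd (.nd (.nd .z (.lf [80,82,84])) .z) .z) (.nd (.nd (.nd .z (.lf [80])) .z) .z)) (.nd (.nd (.nd (.nd .z (.lf [4,12,20,36,68,80])) .z) .z) .z)) .z) .z),
  (.nd (.nd (.nd (.nd (.nd (.nd .z (.nd (.lf [72,74,76]) .z)) .z) (.nd (.nd .z (.nd (.lf [4,12,20,36,68,72]) .z)) .z)) (.nd (.nd (.nd .z (.nd (.lf [72]) .z)) .z) .z)) .z) .z))
def s71 : Sq := (129,
  (.nd (.nd (.nd (.nd (.nd (.nd (.nd .z (.lf [48,50,52])) .z) .z) (.nd (.nd (.nd .z (.lf [48])) .z) .z)) (.nd (.nd (.nd (.nd .z (.lf [2,10,18,34,48,66])) .z) .z) .z)) .z) .z),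
  (.nd (.nd (.nd (.nd (.nd (.nd .z (.nd (.lf [40,42,44]) .z)) .z) (.nd (.nd .z (.nd (.lf [2,10,18,34,40,66]) .z)) .z)) (.nd (.nd (.nd .z (.nd (.lf [40]) .z)) .z) .z)) .z) .z))
def s72 : Sq := (2176,
  (.nd (.nd (.nd (.nd (.nd (.nd (.nd (.lf [82,83]) (.lf [82])) (.nd (.lf [3,11,19,35,67,82]) .z)) (.nd (.nd (.lf [82]) .z) .z)) .z) .z) .z) .z),
  (.nd (.nd (.nd (.nd (.nd (.nd (.nd (.lf [52,53]) (.lf [52])) (.nd (.lf [52]) .z)) (.nd (.nd (.lf [52]) .z) (.nd (.lf [4,12,20,36,68]) .z))) .z) .z) .z) .z))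
def s73 : Sq := (2688,
  (.nd (.nd (.nd (.nd (.nd .z (.nd (.nd (.lf [4,12,20,36,68]) .z) .z)) .z) .z) .z) .z),
  (.nd (.nd (.nd (.nd (.nd (.nd (.nd (.lf [3,11,19,35,67]) .z) .z) .z) .z) .z) .z) .z))
def s74 : Sq := (4224,
  (.nd (.nd (.nd (.nd (.nd (.nd (.nd (.lf [74,75]) (.lf [3,11,19,35,67,74])) (.nd (.lf [74]) .z)) (.nd (.nd (.lf [74]) .z) .z)) .z) .z) .z) .z),
  (.nd (.nd (.nd (.nd (.nd (.nd (.nd (.lf [44,45]) (.lf [44])) (.nd (.lf [44]) .z)) (.nd (.nd (.lf [44]) (.lf [4,12,20,36,68])) .z)) .z) .z) .z) .z))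
def s75 : Sq := (4480,
  (.nd (.nd (.nd (.nd (.nd .z (.nd (.nd (.lf [4,12,20,36,68]) .z) .z)) .z) .z) .z) .z),
  (.nd (.nd (.nd (.nd (.nd (.nd (.nd (.lf [3,11,19,35,67]) .z) .z) .z) .z) .z) .z) .z))
def s76 : Sq := (130,
  (.nd (.nd (.nd (.nd .z (.nd (.nd (.nd (.lf [80,81]) (.lf [80])) (.nd (.lf [1,9,17,33,65,80]) .z)) (.nd (.nd (.lf [80]) .z) .z))) .z) .z) .z),
  (.nd (.nd (.nd .z (.nd (.nd (.nd (.nd (.lf [72,73]) (.lf [1,9,17,33,65,72])) (.nd (.lf [72]) .z)) (.nd (.nd (.lf [72]) .z) .z)) .z)) .z) .z))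
def s77 : Sq := (131,
  (.nd (.nd (.nd .z (.nd (.nd (.nd (.nd .z (.lf [0,8,16,32,64])) .z) .z) .z)) .z) .z),
  (.nd (.nd (.nd (.nd .z (.nd (.nd .z (.nd (.lf [0,8,16,32,64]) .z)) .z)) .z) .z) .z))
def s78 : Sq := (132,
  (.nd (.nd (.nd (.nd .z (.nd (.nd (.nd (.lf [48,49]) (.lf [48])) (.nd (.lf [48]) .z)) (.nd (.nd (.lf [48]) .z) (.nd (.lf [0,8,16,32,64]) .z)))) .z) .z) .z),
  (.nd (.nd (.nd .z (.nd (.nd (.nd (.nd (.lf [40,41]) (.lf [40])) (.nd (.lf [40]) .z)) (.nd (.nd (.lf [40]) (.lf [0,8,16,32,64])) .z)) .z)) .z) .z))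
def s79 : Sq := (1156,
  (.nd (.nd (.nd .z (.nd (.nd (.nd (.nd .z (.lf [0,8,16,32,64])) .z) .z) .z)) .z) .z),
  (.nd (.nd (.nd (.nd .z (.nd (.nd .z (.nd (.lf [0,8,16,32,64]) .z)) .z)) .z) .z) .z))
def s80 : Sq := (136,
  (.nd (.nd (.nd (.nd (.nd .z (.nd .z (.nd (.lf [64,66,68]) .z))) (.nd .z (.nd .z (.nd (.lf [64]) .z)))) (.nd (.nd (.nd (.nd (.lf [66,67]) (.lf [66])) (.nd (.lf [66]) .z)) (.nd (.nd (.lf [66]) .z) (.nd (.lf [64]) .z))) .z)) .z) .z),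
  (.nd (.nd (.nd (.nd (.nd (.nd .z (.nd (.lf [33,35,37]) .z)) .z) (.nd (.nd .z (.nd (.lf [33]) .z)) .z)) (.nd (.nd (.nd (.nd (.lf [36,37]) (.lf [36])) (.nd (.lf [33,36]) .z)) (.nd (.nd (.lf [36]) .z) .z)) .z)) .z) .z))
def s81 : Sq := (648,
  (.nd (.nd (.nd (.nd (.nd .z (.nd (.nd (.lf [64,66,68]) .z) .z)) (.nd .z (.nd (.nd (.lf [64]) .z) .z))) (.nd (.nd .z (.nd (.nd (.lf [64]) .z) .z)) .z)) .z) .z),
  (.nd (.nd (.nd (.nd (.nd (.nd (.nd (.lf [33,35,37]) .z) .z) .z) (.nd (.nd (.nd (.lf [33]) .z) .z) .z)) (.nd (.nd (.nd (.nd (.lf [33]) .z) .z) .z) .z)) .z) .z))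
def s82 : Sq := (4232,
  (.nd (.nd (.nd (.nd (.nd (.nd (.nd (.lf [66,67]) (.lf [66])) (.nd (.lf [66]) .z)) (.nd (.nd (.lf [66]) .z) .z)) .z) .z) .z) .z),
  (.nd (.nd (.nd (.nd (.nd (.nd (.nd (.lf [36,37]) (.lf [36])) (.nd (.lf [36]) .z)) (.nd (.nd (.lf [36]) .z) .z)) .z) .z) .z) .z))
def s83 : Sq := (144,
  (.nd (.nd (.nd (.nd (.nd .z (.nd (.nd .z (.lf [64,66,68])) .z)) (.nd (.nd (.nd (.lf [66,67]) (.lf [66])) (.nd (.lf [66]) .z)) (.nd (.nd (.lf [66]) (.lf [64])) .z))) (.nd (.nd .z (.nd (.nd .z (.lf [64])) .z)) .z)) .z) .z),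
  (.nd (.nd (.nd (.nd (.nd (.nd (.nd .z (.lf [33,35,37])) .z) .z) (.nd (.nd (.nd (.lf [36,37]) (.lf [33,36])) (.nd (.lf [36]) .z)) (.nd (.nd (.lf [36]) .z) .z))) (.nd (.nd (.nd (.nd .z (.lf [33])) .z) .z) .z)) .z) .z))
def s84 : Sq := (400,
  (.nd (.nd (.nd (.nd (.nd .z (.nd (.nd (.lf [64,66,68]) .z) .z)) (.nd .z (.nd (.nd (.lf [64]) .z) .z))) (.nd (.nd .z (.nd (.nd (.lf [64]) .z) .z)) .z)) .z) .z),
  (.nd (.nd (.nd (.nd (.nd (.nd (.nd (.lf [33,35,37]) .z) .z) .z) (.nd (.nd (.nd (.lf [33]) .z) .z) .z)) (.nd (.nd (.nd (.nd (.lf [33]) .z) .z) .z) .z)) .z) .z))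
def s85 : Sq := (2192,
  (.nd (.nd (.nd (.nd (.nd (.nd (.nd (.lf [66,67]) (.lf [66])) (.nd (.lf [66]) .z)) (.nd (.nd (.lf [66]) .z) .z)) .z) .z) .z) .z),
  (.nd (.nd (.nd (.nd (.nd (.nd (.nd (.lf [36,37]) (.lf [36])) (.nd (.lf [36]) .z)) (.nd (.nd (.lf [36]) .z) .z)) .z) .z) .z) .z))
def s86 : Sq := (160,
  (.nd (.nd (.nd (.nd (.nd (.nd (.nd .z (.lf [17,19,21])) .z) .z) (.nd (.nd (.nd (.lf [20,21]) (.lf [17,20])) (.nd (.lf [20]) .z)) (.nd (.nd (.lf [20]) .z) .z))) (.nd (.nd (.nd (.nd .z (.lf [17])) .z) .z) .z)) .z) .z),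
  (.nd (.nd (.nd (.nd (.nd (.nd .z (.nd (.lf [9,11,13]) .z)) .z) (.nd (.nd .z (.nd (.lf [9]) .z)) .z)) (.nd (.nd (.nd (.nd (.lf [12,13]) (.lf [12])) (.nd (.lf [9,12]) .z)) (.nd (.nd (.lf [12]) .z) .z)) .z)) .z) .z))
def s87 : Sq := (161,
  (.nd (.nd (.nd (.nd (.nd (.nd (.nd .z (.lf [16,18,20])) .z) .z) (.nd (.nd (.nd .z (.lf [16])) .z) .z)) (.nd (.nd (.nd (.nd .z (.lf [16])) .z) .z) .z)) .z) .z),
  (.nd (.nd (.nd (.nd (.nd (.nd .z (.nd (.lf [8,10,12]) .z)) .z) (.nd (.nd .z (.nd (.lf [8]) .z)) .z)) (.nd (.nd (.nd .z (.nd (.lf [8]) .z)) .z) .z)) .z) .z))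
def s88 : Sq := (164,
  (.nd (.nd (.nd (.nd .z (.nd (.nd (.nd (.lf [16,17]) (.lf [16])) (.nd (.lf [16]) .z)) (.nd (.nd (.lf [16]) .z) .z))) .z) .z) .z),
  (.nd (.nd (.nd .z (.nd (.nd (.nd (.nd (.lf [8,9]) (.lf [8])) (.nd (.lf [8]) .z)) (.nd (.nd (.lf [8]) .z) .z)) .z)) .z) .z))
def s89 : Sq := (192,
  (.nd (.nd (.nd (.nd (.nd .z (.nd (.nd .z (.lf [16,18,20])) .z)) (.nd (.nd (.nd (.lf [18,19]) (.lf [18])) (.nd (.lf [18]) .z)) (.nd (.nd (.lf [18]) (.lf [16])) .z))) (.nd (.nd .z (.nd (.nd .z (.lf [16])) .z)) .z)) .z) .z),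
  (.nd (.nd (.nd (.nd (.nd .z (.nd .z (.nd (.lf [8,10,12]) .z))) (.nd .z (.nd .z (.nd (.lf [8]) .z)))) (.nd (.nd (.nd (.nd (.lf [10,11]) (.lf [10])) (.nd (.lf [10]) .z)) (.nd (.nd (.lf [10]) .z) (.nd (.lf [8]) .z))) .z)) .z) .z))
def s90 : Sq := (1216,
  (.nd (.nd (.nd (.nd (.nd (.nd (.nd .z (.lf [16,18,20])) .z) .z) (.nd (.nd (.nd .z (.lf [16])) .z) .z)) (.nd (.nd (.nd (.nd .z (.lf [16])) .z) .z) .z)) .z) .z),
  (.nd (.nd (.nd (.nd (.nd (.nd .z (.nd (.lf [8,10,12]) .z)) .z) (.nd (.nd .z (.nd (.lf [8]) .z)) .z)) (.nd (.nd (.nd .z (.nd (.lf [8]) .z)) .z) .z)) .z) .z))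
def s91 : Sq := (194,
  (.nd (.nd (.nd (.nd .z (.nd (.nd (.nd (.lf [16,17]) (.lf [16])) (.nd (.lf [16]) .z)) (.nd (.nd (.lf [16]) .z) .z))) .z) .z) .z),
  (.nd (.nd (.nd .z (.nd (.nd (.nd (.nd (.lf [8,9]) (.lf [8])) (.nd (.lf [8]) .z)) (.nd (.nd (.lf [8]) .z) .z)) .z)) .z) .z))

def sq : List Sq := [s0, s1, s2, s3, s4, s5, s6, s7, s8, s9, s10, s11, s12, s13, s14, s15, s16, s17, s18, s19, s20, s21, s22, s23, s24, s25, s26, s27, s28, s29, s30, s31, s32, s33, s34, s35, s36, s37, s38, s39, s40, s41, s42, s43, s44, s45, s46, s47, s48, s49, s50, s51, s52, s53, s54, s55, s56, s57, s58, s59, s60, s61, s62, s63, s64, s65, s66, s67, s68, s69, s70, s71, s72, s73, s74, s75, s76, s77, s78, s79, s80, s81, s82, s83, s84, s85, s86, s87, s88, s89, s90, s91]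

/-- The number with the top bits of all digits. -/
def G : ℕ := 2 ^ (32 - 1) * S 32 li.length

def PP : List (TT ℕ × TT ℕ) :=
  (FT (FN 32 li) lo 1985229312, FT (FN 32 li) lo 1448358416) :: sqp (BL 32 li.length) li.length lo.length sq

def NN : List (TT ℕ × TT ℕ) :=
  (FT (FN 32 li) lo 1985229328, FT (FN 32 li) lo 1448358400) :: sqn (BL 32 li.length) li.length lo.length sq

theorem h_test : test 32 lo li 1985229312 1448358416 1985229328 1448358400 sq = true := by decide +kernel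

theorem h_ce : ce 0 = 1985229312 := by decide +kernel
theorem h_cf : ce 15 = 1448358416 := by decide +kernel
theorem h_c0 : c0 8 = 1985229328 := by decide +kernel
theorem h_cef : cef 0 15 = 1448358400 := by decide +kernel

theorem h_dj : dj li.length lo.length sq = true := by decide +kernel
theorem h_bp : 2 ^ (lo ++ li).length * 2 ^ (lo ++ li).length + bp lo.length sq < 2 ^ (32 - 1) := by
  decide +kernel
theorem h_bn : 2 ^ (lo ++ li).length * 2 ^ (lo ++ li).length + bn lo.length sq ≤ 2 ^ (32 - 1) := by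
  decide +kernel
theorem h_L : L.map (fun i => (((src i : Fin 8) : ℕ), ((tgt i : Fin 8) : ℕ))) = lo ++ li := by
  decide +kernel

theorem cor : ICor M 0 15 := by
  refine red 0 15 L (by decide +kernel) fun z hz => ?_
  rw [h_ce, h_cf, h_c0, h_cef]
  refine final 32 (L.map fun i => (((src i : Fin 8) : ℕ), ((tgt i : Fin 8) : ℕ), z i)) ?_ lo li ?_
    _ _ _ _ sq (by norm_num) h_dj h_bp h_bn h_test
  · intro p hp
    rw [List.mem_map] at hp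
    obtain ⟨i, _, rfl⟩ := hp
    exact (hz i).le
  · rw [← h_L, List.map_map]
    rfl

end Pool.NC.K44.O6
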