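import Pool.Agent.NC.Prog
import Pool.Agent.NC.K44I

/-!
The correlation inequality for the pair of edges 13, 3 of `K_{4,4} + e`.
-/

set_option autoImplicit false

namespace Pool.NC.K44.O8

open Pool.Agent.NC Pool.NC Pool.NC.Eng

def L : List (Fin 17) := [0, 16, 15, 14, 4, 2, 1, 12, 11, 10, 9, 8, 7, 6, 5]

def lo : List (ℕ × ℕ) := [(0, 1), (7, 6), (7, 5), (7, 1), (2, 6), (2, 1), (2, 0)]
def li : List (ℕ × ℕ) := [(4, 6), (4, 5), (4, 1), (4, 0), (3, 6), (3, 5), (3, 1), (3, 0)]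

def s0 : Sq := (0,
  (.nd (.nd (.nd (.nd .z (.nd (.nd (.nd .z (.lf [6,14,22,30,38,46,70,78,96,97,98,100,104,105,106,108,134,142,150,166,172,198,202,224,225,226,228,232])) .z) (.nd (.nd (.lf [105,150]) (.lf [6,22,38,70,96,97,98,100,104,134])) .z))) (.nd (.nd (.nd (.nd .z (.lf [0,1,2,3,4,6,8,9,10,11,12,14,16,17,18,19,20,22,24,25,26,27,28,30,32,33,34,35,36,38,40,41,42,43,44,46,48,49,50,52,56,57,58,60,64,65,66,67,68,70,72,73,74,75,76,78,96,97,98,100,104,105,106,108,128,129,130,131,132,134,136,137,138,139,140,142,144,145,146,147,148,150,152,154,160,161,162,163,164,166,168,169,172,176,177,178,180,184,192,193,194,195,196,198,200,202,224,225,226,228,232])) (.nd (.lf [3,11,19,27,35,43,48,49,50,52,56,57,58,60,67,75,131,139,147,154,163,169,176,177,178,180,184,195]) (.lf [0,1,2,4,8,9,10,12,16,17,18,20,24,25,26,28,32,33,34,36,40,41,42,44,64,65,66,68,72,73,74,76,128,129,130,132,136,137,138,140,144,145,146,148,152,160,161,162,164,168,192,193,194,196,200])))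 (.nd (.nd (.lf [9,11,25,27,41,43,57,58,73,75,105,137,139,144,145,146,147,148,150,152,154,163,169,176,177,178,180,184]) (.lf [0,1,2,3,4,6,8,10,16,17,18,19,20,22,24,26,32,33,34,35,36,38,40,42,48,49,50,52,56,64,65,66,67,68,70,72,74,96,97,98,100,104,128,129,130,131,132,134,136,138,160,161,162,164,168])) (.nd (.lf [3,9,19,25,35,41,48,49,50,52,56,67,73,131,137,144,145,146,148,152]) (.lf [0,1,2,4,8,16,17,18,20,24,32,33,34,36,40,64,65,66,68,72,128,129,130,132,136])))) (.nd (.nd (.nd .z (.lf [0,1,2,4,8,9,10,12,16,17,18,20,24,25,26,28,32,33,34,36,40,41,42,44,64,65,66,68,72,73,74,76,128,129,130,132,136,137,138,140,144,145,146,148,152,160,161,162,164,168,192,193,194,196,200])) .z) (.nd (.nd (.lf [9,25,41,73,137,144,145,146,148,152]) (.lf [0,1,2,4,8,16,17,18,20,24,32,33,34,36,40,64,65,66,68,72,128,129,130,132,136])) .z)))) (.nd (.nd (.nd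 (.nd (.nd .z (.lf [12,14,28,30,44,46,60,76,78,106,108,140,142,166,172,192,193,194,195,196,198,200,202,224,225,226,228,232])) (.nd (.lf [60,195]) (.lf [12,28,44,76,140,192,193,194,196,200]))) .z) (.nd (.nd (.nd .z (.lf [6,12,22,28,38,44,70,76,96,97,98,100,104,134,140,192,193,194,196,200])) .z) .z)) (.nd (.nd (.nd (.nd .z (.lf [0,1,2,3,4,6,8,10,16,17,18,19,20,22,24,26,32,33,34,35,36,38,40,42,48,49,50,52,56,64,65,66,67,68,70,72,74,96,97,98,100,104,128,129,130,131,132,134,136,138,160,161,162,164,168])) (.nd (.lf [3,19,35,48,49,50,52,56,67,131]) (.lf [0,1,2,4,8,16,17,18,20,24,32,33,34,36,40,64,65,66,68,72,128,129,130,132,136]))) .z) (.nd (.nd (.nd .z (.lf [0,1,2,4,8,16,17,18,20,24,32,33,34,36,40,64,65,66,68,72,128,129,130,132,136])) .z) .z)))) (.nd (.nd .z (.nd (.nd (.nd (.nd .z (.lf [0,1,2,4,8,9,10,12,16,17,18,20,24,25,26,28,32,33,34,36,40,41,42,44,64,65,66,68,72,73,74,76,128,129,130,132,136,137,138,140,144,145,146,148,152,160,161,162,164,168,192,193,194,196,200]))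 (.nd (.lf [0,1,2,4,8,9,10,12,16,17,18,20,24,25,26,28,32,33,34,36,40,41,42,44,64,65,66,68,72,73,74,76,128,129,130,132,136,137,138,140,144,145,146,148,152,160,161,162,164,168,192,193,194,196,200]) .z)) (.nd (.nd (.lf [9,10,25,26,41,42,73,74,137,138,144,145,146,148,152,160,161,162,164,168]) (.lf [0,1,2,4,8,16,17,18,20,24,32,33,34,36,40,64,65,66,68,72,128,129,130,132,136])) (.nd (.lf [0,1,2,4,8,16,17,18,20,24,32,33,34,36,40,64,65,66,68,72,128,129,130,132,136]) .z))) .z)) (.nd (.nd (.nd (.nd (.nd .z (.lf [12,28,44,76,140,192,193,194,196,200])) (.nd (.lf [12,28,44,76,140,192,193,194,196,200]) .z)) .z) .z) (.nd (.nd (.nd (.nd .z (.lf [0,1,2,4,8,16,17,18,20,24,32,33,34,36,40,64,65,66,68,72,128,129,130,132,136])) (.nd (.lf [0,1,2,4,8,16,17,18,20,24,32,33,34,36,40,64,65,66,68,72,128,129,130,132,136]) .z)) .z) .z)))),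
  (.nd (.nd (.nd (.nd .z (.nd (.nd .z (.nd (.lf [5,13,21,29,37,45,69,77,80,81,82,84,88,89,90,92,133,141,149,156,165,197,201,208,209,210,212,216]) .z)) (.nd (.nd (.lf [90,165]) .z) (.nd (.lf [5,21,37,69,80,81,82,84,88,133]) .z)))) .z) (.nd (.nd (.nd (.nd .z (.nd (.lf [90,165]) .z)) (.nd (.nd (.lf [5,7,21,23,37,39,53,54,69,71,80,81,82,83,84,86,88,90,99,101,112,113,114,116,120,133,135,165]) .z) (.nd (.lf [5,21,37,69,80,81,82,84,88,133]) .z))) (.nd (.nd .z (.nd (.lf [5,21,37,69,80,81,82,84,88,133]) .z)) (.nd (.nd (.lf [5,21,37,69,80,81,82,84,88,133]) .z) .z))) .z)) (.nd .z (.nd (.nd (.nd .z (.nd (.nd (.lf [5,6,21,22,37,38,69,70,80,81,82,84,88,96,97,98,100,104,133,134]) .z) .z)) .z) .z))))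
def s1 : Sq := (512,
  (.nd (.nd (.nd .z (.nd (.nd (.nd (.nd (.lf [3,11,19,27,35,43,48,49,50,52,56,57,58,60,67,75,131,139,147,154,163,169,176,177,178,180,184,195]) .z) .z) (.nd (.nd (.lf [3,19,35,48,49,50,52,56,67,131]) .z) .z)) .z)) (.nd (.nd (.nd (.nd (.nd (.lf [60,195]) .z) .z) .z) .z) (.nd (.nd (.nd (.nd (.lf [3,19,35,48,49,50,52,56,67,131]) .z) .z) .z) .z))) (.nd (.nd .z (.nd (.nd (.nd (.nd (.lf [0,1,2,4,8,9,10,12,16,17,18,20,24,25,26,28,32,33,34,36,40,41,42,44,64,65,66,68,72,73,74,76,128,129,130,132,136,137,138,140,144,145,146,148,152,160,161,162,164,168,192,193,194,196,200]) .z) .z) (.nd (.nd (.lf [0,1,2,4,8,16,17,18,20,24,32,33,34,36,40,64,65,66,68,72,128,129,130,132,136]) .z) .z)) .z)) (.nd (.nd (.nd (.nd (.nd (.lf [12,28,44,76,140,192,193,194,196,200]) .z) .z) .z) .z) (.nd (.nd (.nd (.nd (.lf [0,1,2,4,8,16,17,18,20,24,32,33,34,36,40,64,65,66,68,72,128,129,130,132,136])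 .z) .z) .z) .z)))),
  (.nd (.nd (.nd (.nd .z (.nd (.nd (.nd (.lf [5,13,21,29,37,45,69,77,80,81,82,84,88,89,90,92,133,141,149,156,165,197,201,208,209,210,212,216]) .z) .z) (.nd (.nd (.lf [5,21,37,69,80,81,82,84,88,133]) .z) .z))) .z) (.nd (.nd (.nd (.nd (.nd (.lf [90,165]) .z) .z) .z) (.nd (.nd (.nd (.lf [5,21,37,69,80,81,82,84,88,133]) .z) .z) .z)) .z)) .z))
def s2 : Sq := (1024,
  (.nd (.nd (.nd (.nd .z (.nd (.nd (.nd (.lf [90,165]) .z) .z) .z)) .z) (.nd (.nd (.nd (.nd (.nd (.lf [5,7,21,23,37,39,53,54,69,71,80,81,82,83,84,86,88,90,99,101,112,113,114,116,120,133,135,165]) .z) (.nd (.lf [5,21,37,69,80,81,82,84,88,133]) .z)) .z) (.nd (.nd (.nd (.lf [5,21,37,69,80,81,82,84,88,133]) .z) .z) .z)) .z)) (.nd .z (.nd (.nd (.nd (.nd (.nd (.lf [5,6,21,22,37,38,69,70,80,81,82,84,88,96,97,98,100,104,133,134]) .z) .z) .z) .z) .z))),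
  (.nd (.nd (.nd (.nd .z (.nd (.nd (.nd (.lf [105,150]) .z) .z) .z)) (.nd (.nd (.nd (.nd (.lf [9,11,25,27,41,43,57,58,73,75,105,137,139,144,145,146,147,148,150,152,154,163,169,176,177,178,180,184]) .z) (.nd (.lf [9,25,41,73,137,144,145,146,148,152]) .z)) .z) (.nd (.nd (.nd (.lf [9,25,41,73,137,144,145,146,148,152]) .z) .z) .z))) .z) (.nd (.nd .z (.nd (.nd (.nd (.nd (.lf [9,10,25,26,41,42,73,74,137,138,144,145,146,148,152,160,161,162,164,168]) .z) .z) .z) .z)) .z)))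
def s3 : Sq := (1,
  (.nd (.nd (.nd (.nd .z (.nd .z (.nd (.nd (.lf [104]) .z) .z))) (.nd (.nd (.nd .z (.nd (.lf [2,10,18,26,34,42,66,74,130,138,146,162,168,194]) .z)) (.nd (.nd (.lf [8,10,24,26,40,42,56,72,74,104,136,138,162,168]) .z) (.nd (.lf [2,8,18,24,34,40,66,72,130,136]) .z))) (.nd .z (.nd (.nd (.lf [8,24,40,72,136]) .z) .z)))) (.nd (.nd (.nd (.nd .z (.nd (.lf [194]) .z)) .z) .z) (.nd (.nd (.nd .z (.nd (.lf [2,18,34,66,130]) .z)) .z) .z))) (.nd (.nd .z (.nd (.nd .z (.nd (.nd (.lf [8,24,40,72,136]) .z) .z)) .z)) .z)),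
  (.nd (.nd (.nd (.nd .z (.nd (.nd .z (.nd (.lf [4,12,20,28,36,44,68,76,132,140,148,164,196,200]) .z)) (.nd (.nd (.lf [164]) .z) (.nd (.lf [4,20,36,68,132]) .z)))) .z) (.nd (.nd (.nd (.nd .z (.nd (.lf [164]) .z)) (.nd (.nd (.lf [4,6,20,22,36,38,52,68,70,98,100,132,134,164]) .z) (.nd (.lf [4,20,36,68,132]) .z))) (.nd (.nd .z (.nd (.lf [4,20,36,68,132]) .z)) (.nd (.nd (.lf [4,20,36,68,132]) .z) .z))) .z)) (.nd .z (.nd (.nd (.nd .z (.nd (.nd (.lf [4,20,36,68,132]) .z) .z)) .z) .z))))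
def s4 : Sq := (513,
  (.nd (.nd (.nd .z (.nd (.nd (.nd (.nd (.lf [2,10,18,26,34,42,66,74,130,138,146,162,168,194]) .z) .z) (.nd (.nd (.lf [2,18,34,66,130]) .z) .z)) .z)) (.nd (.nd (.nd (.nd (.nd (.lf [194]) .z) .z) .z) .z) (.nd (.nd (.nd (.nd (.lf [2,18,34,66,130]) .z) .z) .z) .z))) .z),
  (.nd (.nd (.nd (.nd .z (.nd (.nd (.nd (.lf [4,12,20,28,36,44,68,76,132,140,148,164,196,200]) .z) .z) (.nd (.nd (.lf [4,20,36,68,132]) .z) .z))) .z) (.nd (.nd (.nd (.nd (.nd (.lf [164]) .z) .z) .z) (.nd (.nd (.nd (.lf [4,20,36,68,132]) .z) .z) .z)) .z)) .z))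
def s5 : Sq := (1025,
  (.nd (.nd (.nd (.nd .z (.nd (.nd (.nd (.lf [164]) .z) .z) .z)) .z) (.nd (.nd (.nd (.nd (.nd (.lf [4,6,20,22,36,38,52,68,70,98,100,132,134,164]) .z) (.nd (.lf [4,20,36,68,132]) .z)) .z) (.nd (.nd (.nd (.lf [4,20,36,68,132]) .z) .z) .z)) .z)) (.nd .z (.nd (.nd (.nd (.nd (.nd (.lf [4,20,36,68,132]) .z) .z) .z) .z) .z))),
  (.nd (.nd (.nd (.nd .z (.nd (.nd (.nd (.lf [104]) .z) .z) .z)) (.nd (.nd (.nd (.nd (.lf [8,10,24,26,40,42,56,72,74,104,136,138,162,168]) .z) (.nd (.lf [8,24,40,72,136]) .z)) .z) (.nd (.nd (.nd (.lf [8,24,40,72,136]) .z) .z) .z))) .z) (.nd (.nd .z (.nd (.nd (.nd (.nd (.lf [8,24,40,72,136]) .z) .z) .z) .z)) .z)))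
def s6 : Sq := (2,
  (.nd (.nd (.nd (.nd .z (.nd .z (.nd (.nd (.lf [88]) .z) .z))) (.nd (.nd (.nd .z (.nd (.lf [1,9,17,25,33,41,65,73,129,137,145,152,161,193]) .z)) (.nd (.nd (.lf [161]) .z) (.nd (.lf [1,17,33,65,129]) .z))) .z)) (.nd (.nd (.nd (.nd (.nd .z (.lf [104])) (.nd (.lf [193]) .z)) (.nd (.nd (.lf [52]) .z) .z)) .z) (.nd (.nd (.nd .z (.nd (.lf [1,17,33,65,129]) .z)) .z) .z))) (.nd .z (.nd (.nd (.nd .z (.nd (.nd (.lf [4,20,36,68,132]) .z) .z)) .z) .z))),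
  (.nd (.nd (.nd (.nd .z (.nd (.nd (.nd .z (.lf [4,12,20,28,36,44,68,76,132,140,148,164,196,200])) .z) (.nd (.nd (.lf [148]) (.lf [4,20,36,68,132])) .z))) (.nd (.nd .z (.nd (.nd (.lf [56]) .z) .z)) .z)) (.nd (.nd (.nd (.nd (.nd .z (.lf [164])) (.nd (.lf [88]) .z)) (.nd (.nd (.lf [97]) .z) .z)) (.nd (.nd (.nd .z (.lf [4,20,36,68,132])) .z) .z)) .z)) (.nd (.nd .z (.nd (.nd .z (.nd (.nd (.lf [8,24,40,72,136]) .z) .z)) .z)) .z)))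
def s7 : Sq := (514,
  (.nd (.nd (.nd .z (.nd (.nd (.nd (.nd (.lf [1,9,17,25,33,41,65,73,129,137,145,152,161,193]) .z) .z) (.nd (.nd (.lf [1,17,33,65,129]) .z) .z)) .z)) (.nd (.nd (.nd (.nd (.nd (.lf [193]) .z) .z) .z) .z) (.nd (.nd (.nd (.nd (.lf [1,17,33,65,129]) .z) .z) .z) .z))) .z),
  (.nd (.nd .z (.nd (.nd (.nd (.nd (.nd (.lf [88]) .z) .z) .z) .z) .z)) .z))
def s8 : Sq := (1026,
  (.nd (.nd (.nd (.nd .z (.nd (.nd (.nd (.lf [148]) .z) .z) .z)) (.nd (.nd (.nd (.nd (.lf [56]) .z) .z) .z) .z)) (.nd (.nd (.nd (.nd (.nd (.lf [97]) .z) .z) .z) .z) .z)) (.nd (.nd .z (.nd (.nd (.nd (.nd (.lf [8,24,40,72,136]) .z) .z) .z) .z)) .z)),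
  (.nd (.nd (.nd (.nd .z (.nd (.nd (.nd (.lf [88]) .z) .z) .z)) (.nd (.nd (.nd (.nd (.lf [161]) .z) .z) .z) .z)) (.nd (.nd (.nd (.nd (.nd (.lf [52]) .z) .z) .z) .z) .z)) (.nd .z (.nd (.nd (.nd (.nd (.nd (.lf [4,20,36,68,132]) .z) .z) .z) .z) .z))))
def s9 : Sq := (3,
  (.nd (.nd (.nd .z (.nd (.nd (.nd .z (.nd (.lf [0,8,16,24,32,40,64,72,128,136,144,160,192]) .z)) (.nd (.nd (.lf [160]) .z) (.nd (.lf [0,16,32,64,128]) .z))) .z)) (.nd (.nd (.nd (.nd .z (.nd (.lf [192]) .z)) .z) .z) (.nd (.nd (.nd .z (.nd (.lf [0,16,32,64,128]) .z)) .z) .z))) .z),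
  (.nd (.nd .z (.nd (.nd (.nd .z (.nd (.nd (.lf [96]) .z) .z)) .z) .z)) .z))
def s10 : Sq := (1027,
  (.nd (.nd .z (.nd (.nd (.nd (.nd (.nd (.lf [96]) .z) .z) .z) .z) .z)) .z),
  (.nd (.nd (.nd .z (.nd (.nd (.nd (.nd (.lf [160]) .z) .z) .z) .z)) .z) .z))
def s11 : Sq := (4,
  (.nd (.nd (.nd (.nd .z (.nd (.nd (.nd .z (.lf [2,10,18,26,34,42,66,74,130,138,146,162,168,194])) .z) (.nd (.nd (.lf [146]) (.lf [2,18,34,66,130])) .z))) .z) (.nd (.nd (.nd (.nd (.nd .z (.lf [8,10,24,26,40,42,56,72,74,104,136,138,162,168])) (.nd (.lf [56]) (.lf [8,24,40,72,136]))) .z) (.nd (.nd (.nd .z (.lf [2,8,18,24,34,40,66,72,130,136])) .z) .z)) .z)) (.nd .z (.nd (.nd (.nd (.nd (.nd .z (.lf [8,24,40,72,136])) (.nd (.lf [8,24,40,72,136]) .z)) .z) .z) .z))),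
  (.nd (.nd (.nd (.nd .z (.nd (.nd .z (.nd (.lf [1,9,17,25,33,41,65,73,129,137,145,152,161,193]) .z)) (.nd (.nd (.lf [161]) .z) (.nd (.lf [1,17,33,65,129]) .z)))) .z) (.nd (.nd (.nd (.nd .z (.nd (.lf [161]) .z)) (.nd (.nd (.lf [1,3,17,19,33,35,49,50,65,67,97,129,131,161]) .z) (.nd (.lf [1,17,33,65,129]) .z))) (.nd (.nd .z (.nd (.lf [1,17,33,65,129]) .z)) (.nd (.nd (.lf [1,17,33,65,129]) .z) .z))) .z)) (.nd .z (.nd (.nd (.nd .z (.nd (.nd (.lf [1,2,17,18,33,34,65,66,129,130]) .z) .z)) .z) .z))))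
def s12 : Sq := (516,
  (.nd (.nd .z (.nd (.nd (.nd (.nd (.nd (.lf [56]) .z) .z) .z) .z) .z)) (.nd .z (.nd (.nd (.nd (.nd (.nd (.lf [8,24,40,72,136]) .z) .z) .z) .z) .z))),
  (.nd (.nd (.nd (.nd .z (.nd (.nd (.nd (.lf [1,9,17,25,33,41,65,73,129,137,145,152,161,193]) .z) .z) (.nd (.nd (.lf [1,17,33,65,129]) .z) .z))) .z) (.nd (.nd (.nd (.nd (.nd (.lf [161]) .z) .z) .z) (.nd (.nd (.nd (.lf [1,17,33,65,129]) .z) .z) .z)) .z)) .z))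
def s13 : Sq := (1028,
  (.nd (.nd (.nd (.nd .z (.nd (.nd (.nd (.lf [161]) .z) .z) .z)) .z) (.nd (.nd (.nd (.nd (.nd (.lf [1,3,17,19,33,35,49,50,65,67,97,129,131,161]) .z) (.nd (.lf [1,17,33,65,129]) .z)) .z) (.nd (.nd (.nd (.lf [1,17,33,65,129]) .z) .z) .z)) .z)) (.nd .z (.nd (.nd (.nd (.nd (.nd (.lf [1,2,17,18,33,34,65,66,129,130]) .z) .z) .z) .z) .z))),
  (.nd (.nd (.nd (.nd .z (.nd (.nd (.nd (.lf [146]) .z) .z) .z)) .z) .z) .z))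
def s14 : Sq := (6,
  (.nd (.nd .z (.nd (.nd (.nd .z (.nd (.nd (.lf [48]) .z) .z)) .z) .z)) (.nd .z (.nd (.nd (.nd .z (.nd (.nd (.lf [0,16,32,64,128]) .z) .z)) .z) .z))),
  (.nd (.nd (.nd (.nd .z (.nd (.nd (.nd .z (.lf [0,8,16,24,32,40,64,72,128,136,144,160,192])) .z) (.nd (.nd (.lf [144]) (.lf [0,16,32,64,128])) .z))) .z) (.nd (.nd (.nd (.nd (.nd .z (.lf [160])) .z) .z) (.nd (.nd (.nd .z (.lf [0,16,32,64,128])) .z) .z)) .z)) .z))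
def s15 : Sq := (1030,
  (.nd (.nd .z (.nd (.nd (.nd (.nd (.nd (.lf [48]) .z) .z) .z) .z) .z)) (.nd .z (.nd (.nd (.nd (.nd (.nd (.lf [0,16,32,64,128]) .z) .z) .z) .z) .z))),
  (.nd (.nd (.nd (.nd .z (.nd (.nd (.nd (.lf [144]) .z) .z) .z)) .z) .z) .z))
def s16 : Sq := (8,
  (.nd (.nd (.nd (.nd .z (.nd (.nd (.nd .z (.lf [194])) (.nd (.lf [148]) .z)) (.nd (.nd (.lf [97]) .z) .z))) (.nd (.nd (.nd .z (.nd (.lf [161]) .z)) (.nd (.nd (.lf [1,3,17,19,33,35,49,50,65,67,97,129,131,161]) .z) (.nd (.lf [1,17,33,65,129]) .z))) (.nd .z (.nd (.nd (.lf [1,17,33,65,129]) .z) .z)))) (.nd (.nd (.nd (.nd .z (.nd (.lf [82]) .z)) .z) .z) .z)) (.nd (.nd .z (.nd (.nd .z (.nd (.nd (.lf [1,2,17,18,33,34,65,66,129,130]) .z) .z)) .z)) .z)),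
  (.nd (.nd (.nd (.nd .z (.nd (.nd (.nd .z (.lf [164])) (.nd (.lf [193]) .z)) (.nd (.nd (.lf [82]) .z) .z))) (.nd (.nd (.nd .z (.nd (.lf [146]) .z)) .z) .z)) (.nd (.nd (.nd (.nd (.nd .z (.lf [4,6,20,22,36,38,52,68,70,98,100,132,134,164])) (.nd (.lf [52]) (.lf [4,20,36,68,132]))) .z) (.nd (.nd (.nd .z (.lf [4,20,36,68,132])) .z) .z)) .z)) (.nd .z (.nd (.nd (.nd (.nd (.nd .z (.lf [4,20,36,68,132])) (.nd (.lf [4,20,36,68,132]) .z)) .z) .z) .z))))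
def s17 : Sq := (520,
  (.nd (.nd (.nd (.nd .z (.nd (.nd (.nd (.lf [148]) .z) .z) .z)) (.nd (.nd (.nd (.nd (.lf [161]) .z) .z) .z) .z)) (.nd (.nd (.nd (.nd (.nd (.lf [82]) .z) .z) .z) .z) .z)) .z),
  (.nd (.nd (.nd (.nd .z (.nd (.nd (.nd (.lf [193]) .z) .z) .z)) (.nd (.nd (.nd (.nd (.lf [146]) .z) .z) .z) .z)) (.nd (.nd (.nd (.nd (.nd (.lf [52]) .z) .z) .z) .z) .z)) (.nd .z (.nd (.nd (.nd (.nd (.nd (.lf [4,20,36,68,132]) .z) .z) .z) .z) .z))))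
def s18 : Sq := (1032,
  (.nd (.nd (.nd (.nd .z (.nd (.nd (.nd (.lf [97]) .z) .z) .z)) (.nd (.nd (.nd (.nd (.lf [1,3,17,19,33,35,49,50,65,67,97,129,131,161]) .z) (.nd (.lf [1,17,33,65,129]) .z)) .z) (.nd (.nd (.nd (.lf [1,17,33,65,129]) .z) .z) .z))) .z) (.nd (.nd .z (.nd (.nd (.nd (.nd (.lf [1,2,17,18,33,34,65,66,129,130]) .z) .z) .z) .z)) .z)),
  (.nd (.nd (.nd (.nd .z (.nd (.nd (.nd (.lf [82]) .z) .z) .z)) .z) .z) .z))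
def s19 : Sq := (9,
  (.nd (.nd (.nd (.nd .z (.nd .z (.nd (.nd (.lf [96]) .z) .z))) (.nd (.nd (.nd .z (.nd (.lf [160]) .z)) (.nd (.nd (.lf [0,2,16,18,32,34,48,64,66,96,128,130,160]) .z) (.nd (.lf [0,16,32,64,128]) .z))) (.nd .z (.nd (.nd (.lf [0,16,32,64,128]) .z) .z)))) .z) (.nd (.nd .z (.nd (.nd .z (.nd (.nd (.lf [0,16,32,64,128]) .z) .z)) .z)) .z)),
  (.nd (.nd (.nd (.nd .z (.nd (.nd .z (.nd (.lf [192]) .z)) .z)) .z) .z) .z))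
def s20 : Sq := (521,
  (.nd (.nd (.nd .z (.nd (.nd (.nd (.nd (.lf [160]) .z) .z) .z) .z)) .z) .z),
  (.nd (.nd (.nd (.nd .z (.nd (.nd (.nd (.lf [192]) .z) .z) .z)) .z) .z) .z))
def s21 : Sq := (10,
  (.nd (.nd (.nd (.nd .z (.nd (.nd (.nd .z (.lf [192])) .z) .z)) (.nd (.nd .z (.nd (.nd (.lf [48]) .z) .z)) .z)) (.nd (.nd (.nd (.nd .z (.nd (.lf [80]) .z)) .z) .z) .z)) (.nd (.nd .z (.nd (.nd .z (.nd (.nd (.lf [0,16,32,64,128]) .z) .z)) .z)) .z)),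
  (.nd (.nd (.nd (.nd .z (.nd .z (.nd (.nd (.lf [80]) .z) .z))) (.nd (.nd (.nd .z (.nd (.lf [144]) .z)) .z) .z)) (.nd (.nd (.nd (.nd (.nd .z (.lf [96])) .z) .z) .z) .z)) .z))
def s22 : Sq := (522,
  (.nd (.nd .z (.nd (.nd (.nd (.nd (.nd (.lf [80]) .z) .z) .z) .z) .z)) .z),
  (.nd (.nd (.nd .z (.nd (.nd (.nd (.nd (.lf [144]) .z) .z) .z) .z)) .z) .z))
def s23 : Sq := (1034,
  (.nd (.nd (.nd .z (.nd (.nd (.nd (.nd (.lf [48]) .z) .z) .z) .z)) .z) (.nd (.nd .z (.nd (.nd (.nd (.nd (.lf [0,16,32,64,128]) .z) .z) .z) .z)) .z)),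
  (.nd (.nd (.nd (.nd .z (.nd (.nd (.nd (.lf [80]) .z) .z) .z)) .z) .z) .z))
def s24 : Sq := (12,
  (.nd (.nd (.nd (.nd .z (.nd (.nd (.nd .z (.lf [160])) .z) .z)) .z) (.nd (.nd (.nd (.nd (.nd .z (.lf [0,2,16,18,32,34,48,64,66,96,128,130,160])) (.nd (.lf [48]) (.lf [0,16,32,64,128]))) .z) (.nd (.nd (.nd .z (.lf [0,16,32,64,128])) .z) .z)) .z)) (.nd .z (.nd (.nd (.nd (.nd (.nd .z (.lf [0,16,32,64,128])) (.nd (.lf [0,16,32,64,128]) .z)) .z) .z) .z))),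
  (.nd (.nd (.nd (.nd .z (.nd (.nd .z (.nd (.lf [144]) .z)) .z)) .z) .z) .z))
def s25 : Sq := (524,
  (.nd (.nd .z (.nd (.nd (.nd (.nd (.nd (.lf [48]) .z) .z) .z) .z) .z)) (.nd .z (.nd (.nd (.nd (.nd (.nd (.lf [0,16,32,64,128]) .z) .z) .z) .z) .z))),
  (.nd (.nd (.nd (.nd .z (.nd (.nd (.nd (.lf [144]) .z) .z) .z)) .z) .z) .z))
def s26 : Sq := (16,
  (.nd (.nd (.nd (.nd .z (.nd (.nd .z (.nd (.lf [64,65,66,68,72,73,74,76,140,192,193,194,196,200]) .z)) (.nd (.nd (.lf [74]) .z) (.nd (.lf [64,65,66,68,72]) .z)))) .z) (.nd (.nd (.nd (.nd .z (.nd (.lf [74]) .z)) (.nd (.nd (.lf [38,64,65,66,67,68,70,72,74,96,97,98,100,104]) .z) (.nd (.lf [64,65,66,68,72]) .z))) (.nd (.nd .z (.nd (.lf [64,65,66,68,72]) .z)) (.nd (.nd (.lf [64,65,66,68,72]) .z) .z))) .z)) (.nd .z (.nd (.nd (.nd .z (.nd (.nd (.lf [64,65,66,68,72]) .z) .z)) .z) .z))),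
  (.nd (.nd (.nd (.nd .z (.nd .z (.nd (.nd (.lf [134]) .z) .z))) (.nd (.nd (.nd .z (.nd (.lf [32,33,34,36,40,41,42,44,138,160,161,162,164,168]) .z)) (.nd (.nd (.lf [42,128,129,130,131,132,134,136,138,160,161,162,164,168]) .z) (.nd (.lf [32,33,34,36,40,128,129,130,132,136]) .z))) (.nd .z (.nd (.nd (.lf [128,129,130,132,136]) .z) .z)))) (.nd (.nd (.nd (.nd .z (.nd (.lf [44]) .z)) .z) .z) (.nd (.nd (.nd .z (.nd (.lf [32,33,34,36,40]) .z)) .z) .z))) (.nd (.nd .z (.nd (.nd .z (.nd (.nd (.lf [128,129,130,132,136]) .z) .z)) .z)) .z)))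
def s27 : Sq := (528,
  (.nd (.nd (.nd (.nd .z (.nd (.nd (.nd (.lf [64,65,66,68,72,73,74,76,140,192,193,194,196,200]) .z) .z) (.nd (.nd (.lf [64,65,66,68,72]) .z) .z))) .z) (.nd (.nd (.nd (.nd (.nd (.lf [74]) .z) .z) .z) (.nd (.nd (.nd (.lf [64,65,66,68,72]) .z) .z) .z)) .z)) .z),
  (.nd (.nd (.nd .z (.nd (.nd (.nd (.nd (.lf [32,33,34,36,40,41,42,44,138,160,161,162,164,168]) .z) .z) (.nd (.nd (.lf [32,33,34,36,40]) .z) .z)) .z)) (.nd (.nd (.nd (.nd (.nd (.lf [44]) .z) .z) .z) .z) (.nd (.nd (.nd (.nd (.lf [32,33,34,36,40]) .z) .z) .z) .z))) .z))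
def s28 : Sq := (1040,
  (.nd (.nd (.nd (.nd .z (.nd (.nd (.nd (.lf [74]) .z) .z) .z)) .z) (.nd (.nd (.nd (.nd (.nd (.lf [38,64,65,66,67,68,70,72,74,96,97,98,100,104]) .z) (.nd (.lf [64,65,66,68,72]) .z)) .z) (.nd (.nd (.nd (.lf [64,65,66,68,72]) .z) .z) .z)) .z)) (.nd .z (.nd (.nd (.nd (.nd (.nd (.lf [64,65,66,68,72]) .z) .z) .z) .z) .z))),
  (.nd (.nd (.nd (.nd .z (.nd (.nd (.nd (.lf [134]) .z) .z) .z)) (.nd (.nd (.nd (.nd (.lf [42,128,129,130,131,132,134,136,138,160,161,162,164,168]) .z) (.nd (.lf [128,129,130,132,136]) .z)) .z) (.nd (.nd (.nd (.lf [128,129,130,132,136]) .z) .z) .z))) .z) (.nd (.nd .z (.nd (.nd (.nd (.nd (.lf [128,129,130,132,136]) .z) .z) .z) .z)) .z)))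
def s29 : Sq := (18,
  (.nd (.nd (.nd (.nd .z (.nd .z (.nd (.nd (.lf [132]) .z) .z))) (.nd (.nd .z (.nd (.nd (.lf [40]) .z) .z)) .z)) (.nd (.nd (.nd (.nd .z (.nd (.lf [72]) .z)) .z) .z) .z)) .z),
  (.nd (.nd (.nd (.nd .z (.nd .z (.nd (.nd (.lf [72]) .z) .z))) (.nd (.nd (.nd .z (.nd (.lf [136]) .z)) .z) .z)) (.nd (.nd (.nd .z (.nd (.nd (.lf [36]) .z) .z)) .z) .z)) .z))
def s30 : Sq := (530,
  (.nd (.nd .z (.nd (.nd (.nd (.nd (.nd (.lf [72]) .z) .z) .z) .z) .z)) .z),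
  (.nd (.nd (.nd .z (.nd (.nd (.nd (.nd (.lf [136]) .z) .z) .z) .z)) .z) .z))
def s31 : Sq := (1042,
  (.nd (.nd (.nd (.nd .z (.nd (.nd (.nd (.lf [72]) .z) .z) .z)) .z) (.nd (.nd (.nd (.nd (.nd (.lf [36]) .z) .z) .z) .z) .z)) .z),
  (.nd (.nd (.nd (.nd .z (.nd (.nd (.nd (.lf [132]) .z) .z) .z)) (.nd (.nd (.nd (.nd (.lf [40]) .z) .z) .z) .z)) .z) .z))
def s32 : Sq := (20,
  (.nd (.nd (.nd (.nd .z (.nd .z (.nd (.nd (.lf [130]) .z) .z))) .z) (.nd (.nd (.nd (.nd .z (.nd (.lf [40]) .z)) .z) .z) .z)) .z),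
  (.nd (.nd (.nd (.nd .z (.nd (.nd .z (.nd (.lf [136]) .z)) .z)) .z) (.nd (.nd (.nd .z (.nd (.nd (.lf [34]) .z) .z)) .z) .z)) .z))
def s33 : Sq := (532,
  (.nd (.nd .z (.nd (.nd (.nd (.nd (.nd (.lf [40]) .z) .z) .z) .z) .z)) .z),
  (.nd (.nd (.nd (.nd .z (.nd (.nd (.nd (.lf [136]) .z) .z) .z)) .z) .z) .z))
def s34 : Sq := (1044,
  (.nd (.nd .z (.nd (.nd (.nd (.nd (.nd (.lf [34]) .z) .z) .z) .z) .z)) .z),
  (.nd (.nd (.nd (.nd .z (.nd (.nd (.nd (.lf [130]) .z) .z) .z)) .z) .z) .z))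
def s35 : Sq := (22,
  (.nd (.nd .z (.nd (.nd (.nd .z (.nd (.nd (.lf [32]) .z) .z)) .z) .z)) .z),
  (.nd (.nd (.nd (.nd .z (.nd .z (.nd (.nd (.lf [128]) .z) .z))) .z) .z) .z))
def s36 : Sq := (1046,
  (.nd (.nd .z (.nd (.nd (.nd (.nd (.nd (.lf [32]) .z) .z) .z) .z) .z)) .z),
  (.nd (.nd (.nd (.nd .z (.nd (.nd (.nd (.lf [128]) .z) .z) .z)) .z) .z) .z))
def s37 : Sq := (24,
  (.nd (.nd (.nd (.nd .z (.nd (.nd .z (.nd (.lf [132]) .z)) .z)) (.nd (.nd .z (.nd (.nd (.lf [34]) .z) .z)) .z)) (.nd (.nd (.nd (.nd .z (.nd (.lf [66]) .z)) .z) .z) .z)) .z),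
  (.nd (.nd (.nd (.nd .z (.nd .z (.nd (.nd (.lf [66]) .z) .z))) (.nd (.nd (.nd .z (.nd (.lf [130]) .z)) .z) .z)) (.nd (.nd (.nd (.nd .z (.nd (.lf [36]) .z)) .z) .z) .z)) .z))
def s38 : Sq := (536,
  (.nd (.nd (.nd (.nd .z (.nd (.nd (.nd (.lf [132]) .z) .z) .z)) .z) (.nd (.nd (.nd (.nd (.nd (.lf [66]) .z) .z) .z) .z) .z)) .z),
  (.nd (.nd (.nd .z (.nd (.nd (.nd (.nd (.lf [130]) .z) .z) .z) .z)) (.nd (.nd (.nd (.nd (.nd (.lf [36]) .z) .z) .z) .z) .z)) .z))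
def s39 : Sq := (1048,
  (.nd (.nd (.nd .z (.nd (.nd (.nd (.nd (.lf [34]) .z) .z) .z) .z)) .z) .z),
  (.nd (.nd (.nd (.nd .z (.nd (.nd (.nd (.lf [66]) .z) .z) .z)) .z) .z) .z))
def s40 : Sq := (26,
  (.nd (.nd (.nd .z (.nd (.nd .z (.nd (.nd (.lf [32]) .z) .z)) .z)) (.nd (.nd (.nd (.nd .z (.nd (.lf [64]) .z)) .z) .z) .z)) .z),
  (.nd (.nd (.nd (.nd .z (.nd .z (.nd (.nd (.lf [64]) .z) .z))) (.nd (.nd (.nd .z (.nd (.lf [128]) .z)) .z) .z)) .z) .z))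
def s41 : Sq := (538,
  (.nd (.nd .z (.nd (.nd (.nd (.nd (.nd (.lf [64]) .z) .z) .z) .z) .z)) .z),
  (.nd (.nd (.nd .z (.nd (.nd (.nd (.nd (.lf [128]) .z) .z) .z) .z)) .z) .z))
def s42 : Sq := (1050,
  (.nd (.nd (.nd .z (.nd (.nd (.nd (.nd (.lf [32]) .z) .z) .z) .z)) .z) .z),
  (.nd (.nd (.nd (.nd .z (.nd (.nd (.nd (.lf [64]) .z) .z) .z)) .z) .z) .z))
def s43 : Sq := (28,
  (.nd (.nd .z (.nd (.nd (.nd (.nd .z (.nd (.lf [32]) .z)) .z) .z) .z)) .z),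
  (.nd (.nd (.nd (.nd .z (.nd (.nd .z (.nd (.lf [128]) .z)) .z)) .z) .z) .z))
def s44 : Sq := (540,
  (.nd (.nd .z (.nd (.nd (.nd (.nd (.nd (.lf [32]) .z) .z) .z) .z) .z)) .z),
  (.nd (.nd (.nd (.nd .z (.nd (.nd (.nd (.lf [128]) .z) .z) .z)) .z) .z) .z))
def s45 : Sq := (32,
  (.nd (.nd (.nd (.nd .z (.nd .z (.nd (.nd (.lf [133]) .z) .z))) (.nd (.nd (.nd .z (.nd (.lf [16,17,18,20,24,25,26,28,137,144,145,146,148,152]) .z)) (.nd (.nd (.lf [26]) .z) (.nd (.lf [16,17,18,20,24]) .z))) .z)) (.nd (.nd (.nd (.nd (.nd .z (.lf [134])) (.nd (.lf [28]) .z)) (.nd (.nd (.lf [67]) .z) .z)) .z) (.nd (.nd (.nd .z (.nd (.lf [16,17,18,20,24]) .z)) .z) .z))) (.nd .z (.nd (.nd (.nd .z (.nd (.nd (.lf [64,65,66,68,72]) .z) .z)) .z) .z))),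
  (.nd (.nd (.nd (.nd .z (.nd (.nd (.nd .z (.lf [64,65,66,68,72,73,74,76,140,192,193,194,196,200])) .z) (.nd (.nd (.lf [73]) (.lf [64,65,66,68,72])) .z))) (.nd (.nd .z (.nd (.nd (.lf [131]) .z) .z)) .z)) (.nd (.nd (.nd (.nd (.nd .z (.lf [74])) (.nd (.lf [133]) .z)) (.nd (.nd (.lf [22]) .z) .z)) (.nd (.nd (.nd .z (.lf [64,65,66,68,72])) .z) .z)) .z)) (.nd (.nd .z (.nd (.nd .z (.nd (.nd (.lf [128,129,130,132,136]) .z) .z)) .z)) .z)))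
def s46 : Sq := (544,
  (.nd (.nd .z (.nd (.nd (.nd (.nd (.nd (.lf [133]) .z) .z) .z) .z) .z)) .z),
  (.nd (.nd (.nd .z (.nd (.nd (.nd (.nd (.lf [16,17,18,20,24,25,26,28,137,144,145,146,148,152]) .z) .z) (.nd (.nd (.lf [16,17,18,20,24]) .z) .z)) .z)) (.nd (.nd (.nd (.nd (.nd (.lf [28]) .z) .z) .z) .z) (.nd (.nd (.nd (.nd (.lf [16,17,18,20,24]) .z) .z) .z) .z))) .z))
def s47 : Sq := (1056,
  (.nd (.nd (.nd (.nd .z (.nd (.nd (.nd (.lf [133]) .z) .z) .z)) (.nd (.nd (.nd (.nd (.lf [26]) .z) .z) .z) .z)) (.nd (.nd (.nd (.nd (.nd (.lf [67]) .z) .z) .z) .z) .z)) (.nd .z (.nd (.nd (.nd (.nd (.nd (.lf [64,65,66,68,72]) .z) .z) .z) .z) .z))),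
  (.nd (.nd (.nd (.nd .z (.nd (.nd (.nd (.lf [73]) .z) .z) .z)) (.nd (.nd (.nd (.nd (.lf [131]) .z) .z) .z) .z)) (.nd (.nd (.nd (.nd (.nd (.lf [22]) .z) .z) .z) .z) .z)) (.nd (.nd .z (.nd (.nd (.nd (.nd (.lf [128,129,130,132,136]) .z) .z) .z) .z)) .z)))
def s48 : Sq := (33,
  (.nd (.nd (.nd (.nd .z (.nd .z (.nd (.nd (.lf [72]) .z) .z))) (.nd (.nd .z (.nd (.nd (.lf [130]) .z) .z)) .z)) (.nd (.nd (.nd (.nd .z (.nd (.lf [132]) .z)) .z) .z) .z)) .z),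
  (.nd (.nd (.nd (.nd .z (.nd .z (.nd (.nd (.lf [132]) .z) .z))) (.nd (.nd (.nd .z (.nd (.lf [136]) .z)) .z) .z)) (.nd (.nd (.nd .z (.nd (.nd (.lf [66]) .z) .z)) .z) .z)) .z))
def s49 : Sq := (545,
  (.nd (.nd .z (.nd (.nd (.nd (.nd (.nd (.lf [132]) .z) .z) .z) .z) .z)) .z),
  (.nd (.nd (.nd .z (.nd (.nd (.nd (.nd (.lf [136]) .z) .z) .z) .z)) .z) .z))
def s50 : Sq := (1057,
  (.nd (.nd (.nd (.nd .z (.nd (.nd (.nd (.lf [132]) .z) .z) .z)) .z) (.nd (.nd (.nd (.nd (.nd (.lf [66]) .z) .z) .z) .z) .z)) .z),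
  (.nd (.nd (.nd (.nd .z (.nd (.nd (.nd (.lf [72]) .z) .z) .z)) (.nd (.nd (.nd (.nd (.lf [130]) .z) .z) .z) .z)) .z) .z))
def s51 : Sq := (34,
  (.nd (.nd (.nd .z (.nd (.nd .z (.nd (.nd (.lf [24]) .z) .z)) .z)) (.nd (.nd (.nd (.nd (.nd .z (.lf [132])) .z) (.nd (.nd (.lf [65]) .z) .z)) .z) .z)) .z),
  (.nd (.nd (.nd .z (.nd (.nd .z (.nd (.nd (.lf [129]) .z) .z)) .z)) (.nd (.nd (.nd (.nd (.nd .z (.lf [72])) .z) (.nd (.nd (.lf [20]) .z) .z)) .z) .z)) .z))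
def s52 : Sq := (1058,
  (.nd (.nd (.nd .z (.nd (.nd (.nd (.nd (.lf [24]) .z) .z) .z) .z)) (.nd (.nd (.nd (.nd (.nd (.lf [65]) .z) .z) .z) .z) .z)) .z),
  (.nd (.nd (.nd .z (.nd (.nd (.nd (.nd (.lf [129]) .z) .z) .z) .z)) (.nd (.nd (.nd (.nd (.nd (.lf [20]) .z) .z) .z) .z) .z)) .z))
def s53 : Sq := (35,
  (.nd (.nd .z (.nd (.nd (.nd .z (.nd (.nd (.lf [64]) .z) .z)) .z) .z)) .z),
  (.nd (.nd (.nd .z (.nd (.nd .z (.nd (.nd (.lf [128]) .z) .z)) .z)) .z) .z))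
def s54 : Sq := (1059,
  (.nd (.nd .z (.nd (.nd (.nd (.nd (.nd (.lf [64]) .z) .z) .z) .z) .z)) .z),
  (.nd (.nd (.nd .z (.nd (.nd (.nd (.nd (.lf [128]) .z) .z) .z) .z)) .z) .z))
def s55 : Sq := (36,
  (.nd (.nd (.nd (.nd .z (.nd .z (.nd (.nd (.lf [129]) .z) .z))) .z) (.nd (.nd (.nd (.nd (.nd .z (.lf [130])) (.nd (.lf [24]) .z)) .z) .z) .z)) .z),
  (.nd (.nd (.nd (.nd .z (.nd (.nd (.nd .z (.lf [136])) .z) .z)) .z) (.nd (.nd (.nd (.nd .z (.nd (.lf [129]) .z)) (.nd (.nd (.lf [18]) .z) .z)) .z) .z)) .z))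
def s56 : Sq := (548,
  (.nd (.nd .z (.nd (.nd (.nd (.nd (.nd (.lf [129]) .z) .z) .z) .z) .z)) .z),
  (.nd (.nd .z (.nd (.nd (.nd (.nd (.nd (.lf [24]) .z) .z) .z) .z) .z)) .z))
def s57 : Sq := (38,
  (.nd (.nd .z (.nd (.nd (.nd (.nd (.nd .z (.lf [128])) .z) .z) .z) .z)) .z),
  (.nd (.nd .z (.nd (.nd (.nd .z (.nd (.nd (.lf [16]) .z) .z)) .z) .z)) .z))
def s58 : Sq := (40,
  (.nd (.nd (.nd .z (.nd (.nd (.nd .z (.nd (.lf [129]) .z)) .z) .z)) .z) .z),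
  (.nd (.nd (.nd .z (.nd (.nd .z (.nd (.nd (.lf [18]) .z) .z)) .z)) .z) .z))
def s59 : Sq := (40,
  (.nd (.nd .z (.nd (.nd (.nd (.nd (.nd .z (.lf [66])) .z) .z) .z) .z)) .z),
  (.nd (.nd (.nd (.nd .z (.nd (.nd (.nd .z (.lf [132])) .z) .z)) .z) .z) .z))
def s60 : Sq := (48,
  (.nd (.nd (.nd .z (.nd (.nd (.nd .z (.nd (.lf [0,1,2,4,8,9,10,12,128,129,130,132,136]) .z)) (.nd (.nd (.lf [10]) .z) (.nd (.lf [0,1,2,4,8]) .z))) .z)) (.nd (.nd (.nd (.nd .z (.nd (.lf [12]) .z)) .z) .z) (.nd (.nd (.nd .z (.nd (.lf [0,1,2,4,8]) .z)) .z) .z))) .z),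
  (.nd (.nd .z (.nd (.nd (.nd .z (.nd (.nd (.lf [6]) .z) .z)) .z) .z)) .z))
def s61 : Sq := (1072,
  (.nd (.nd .z (.nd (.nd (.nd (.nd (.nd (.lf [6]) .z) .z) .z) .z) .z)) .z),
  (.nd (.nd (.nd .z (.nd (.nd (.nd (.nd (.lf [10]) .z) .z) .z) .z)) .z) .z))
def s62 : Sq := (50,
  (.nd (.nd .z (.nd (.nd (.nd .z (.nd (.nd (.lf [4]) .z) .z)) .z) .z)) .z),
  (.nd (.nd (.nd .z (.nd (.nd .z (.nd (.nd (.lf [8]) .z) .z)) .z)) .z) .z))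
def s63 : Sq := (1074,
  (.nd (.nd .z (.nd (.nd (.nd (.nd (.nd (.lf [4]) .z) .z) .z) .z) .z)) .z),
  (.nd (.nd (.nd .z (.nd (.nd (.nd (.nd (.lf [8]) .z) .z) .z) .z)) .z) .z))
def s64 : Sq := (52,
  (.nd (.nd .z (.nd (.nd (.nd (.nd .z (.nd (.lf [8]) .z)) .z) .z) .z)) .z),
  (.nd (.nd .z (.nd (.nd (.nd .z (.nd (.nd (.lf [2]) .z) .z)) .z) .z)) .z))
def s65 : Sq := (64,
  (.nd (.nd (.nd (.nd .z (.nd (.nd (.nd .z (.lf [32,33,34,36,40,41,42,44,138,160,161,162,164,168])) .z) (.nd (.nd (.lf [41]) (.lf [32,33,34,36,40])) .z))) .z) (.nd (.nd (.nd (.nd (.nd .z (.lf [42,128,129,130,131,132,134,136,138,160,161,162,164,168])) (.nd (.lf [131]) (.lf [128,129,130,132,136]))) .z) (.nd (.nd (.nd .z (.lf [32,33,34,36,40,128,129,130,132,136])) .z) .z)) .z)) (.nd .z (.nd (.nd (.nd (.nd (.nd .z (.lf [128,129,130,132,136])) (.nd (.lf [128,129,130,132,136])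 .z)) .z) .z) .z))),
  (.nd (.nd (.nd (.nd .z (.nd (.nd .z (.nd (.lf [16,17,18,20,24,25,26,28,137,144,145,146,148,152]) .z)) (.nd (.nd (.lf [26]) .z) (.nd (.lf [16,17,18,20,24]) .z)))) .z) (.nd (.nd (.nd (.nd .z (.nd (.lf [26]) .z)) (.nd (.nd (.lf [16,17,18,19,20,22,24,26,35,48,49,50,52,56]) .z) (.nd (.lf [16,17,18,20,24]) .z))) (.nd (.nd .z (.nd (.lf [16,17,18,20,24]) .z)) (.nd (.nd (.lf [16,17,18,20,24]) .z) .z))) .z)) (.nd .z (.nd (.nd (.nd .z (.nd (.nd (.lf [16,17,18,20,24,32,33,34,36,40]) .z) .z)) .z) .z))))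
def s66 : Sq := (576,
  (.nd (.nd .z (.nd (.nd (.nd (.nd (.nd (.lf [131]) .z) .z) .z) .z) .z)) (.nd .z (.nd (.nd (.nd (.nd (.nd (.lf [128,129,130,132,136]) .z) .z) .z) .z) .z))),
  (.nd (.nd (.nd (.nd .z (.nd (.nd (.nd (.lf [16,17,18,20,24,25,26,28,137,144,145,146,148,152]) .z) .z) (.nd (.nd (.lf [16,17,18,20,24]) .z) .z))) .z) (.nd (.nd (.nd (.nd (.nd (.lf [26]) .z) .z) .z) (.nd (.nd (.nd (.lf [16,17,18,20,24]) .z) .z) .z)) .z)) .z))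
def s67 : Sq := (1088,
  (.nd (.nd (.nd (.nd .z (.nd (.nd (.nd (.lf [26]) .z) .z) .z)) .z) (.nd (.nd (.nd (.nd (.nd (.lf [16,17,18,19,20,22,24,26,35,48,49,50,52,56]) .z) (.nd (.lf [16,17,18,20,24]) .z)) .z) (.nd (.nd (.nd (.lf [16,17,18,20,24]) .z) .z) .z)) .z)) (.nd .z (.nd (.nd (.nd (.nd (.nd (.lf [16,17,18,20,24,32,33,34,36,40]) .z) .z) .z) .z) .z))),
  (.nd (.nd (.nd (.nd .z (.nd (.nd (.nd (.lf [41]) .z) .z) .z)) .z) .z) .z))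
def s68 : Sq := (65,
  (.nd (.nd (.nd (.nd .z (.nd .z (.nd (.nd (.lf [40]) .z) .z))) .z) (.nd (.nd (.nd (.nd .z (.nd (.lf [130]) .z)) .z) .z) .z)) .z),
  (.nd (.nd (.nd (.nd .z (.nd (.nd .z (.nd (.lf [136]) .z)) .z)) .z) (.nd (.nd (.nd .z (.nd (.nd (.lf [34]) .z) .z)) .z) .z)) .z))
def s69 : Sq := (577,
  (.nd (.nd .z (.nd (.nd (.nd (.nd (.nd (.lf [130]) .z) .z) .z) .z) .z)) .z),
  (.nd (.nd (.nd (.nd .z (.nd (.nd (.nd (.lf [136]) .z) .z) .z)) .z) .z) .z))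
def s70 : Sq := (1089,
  (.nd (.nd .z (.nd (.nd (.nd (.nd (.nd (.lf [34]) .z) .z) .z) .z) .z)) .z),
  (.nd (.nd (.nd (.nd .z (.nd (.nd (.nd (.lf [40]) .z) .z) .z)) .z) .z) .z))
def s71 : Sq := (66,
  (.nd (.nd (.nd (.nd .z (.nd .z (.nd (.nd (.lf [24]) .z) .z))) .z) (.nd (.nd (.nd (.nd (.nd .z (.lf [40])) (.nd (.lf [129]) .z)) .z) .z) .z)) .z),
  (.nd (.nd (.nd (.nd .z (.nd (.nd (.nd .z (.lf [136])) .z) .z)) .z) (.nd (.nd (.nd (.nd .z (.nd (.lf [24]) .z)) (.nd (.nd (.lf [33]) .z) .z)) .z) .z)) .z))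
def s72 : Sq := (578,
  (.nd (.nd .z (.nd (.nd (.nd (.nd (.nd (.lf [129]) .z) .z) .z) .z) .z)) .z),
  (.nd (.nd .z (.nd (.nd (.nd (.nd (.nd (.lf [24]) .z) .z) .z) .z) .z)) .z))
def s73 : Sq := (67,
  (.nd (.nd .z (.nd (.nd (.nd (.nd .z (.nd (.lf [128]) .z)) .z) .z) .z)) .z),
  (.nd (.nd .z (.nd (.nd (.nd .z (.nd (.nd (.lf [32]) .z) .z)) .z) .z)) .z))
def s74 : Sq := (72,
  (.nd (.nd (.nd (.nd .z (.nd (.nd .z (.nd (.lf [129]) .z)) (.nd (.nd (.lf [18]) .z) .z))) .z) (.nd (.nd (.nd (.nd (.nd .z (.lf [34])) .z) .z) .z) .z)) .z),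
  (.nd (.nd (.nd (.nd .z (.nd (.nd (.nd .z (.lf [130])) .z) (.nd (.nd (.lf [33]) .z) .z))) .z) (.nd (.nd (.nd (.nd .z (.nd (.lf [18]) .z)) .z) .z) .z)) .z))
def s75 : Sq := (1096,
  (.nd (.nd (.nd (.nd .z (.nd (.nd (.nd (.lf [33]) .z) .z) .z)) .z) .z) .z),
  (.nd (.nd (.nd (.nd .z (.nd (.nd (.nd (.lf [18]) .z) .z) .z)) .z) .z) .z))
def s76 : Sq := (73,
  (.nd (.nd (.nd (.nd .z (.nd (.nd .z (.nd (.lf [128]) .z)) .z)) .z) .z) .z),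
  (.nd (.nd (.nd (.nd .z (.nd .z (.nd (.nd (.lf [32]) .z) .z))) .z) .z) .z))
def s77 : Sq := (74,
  (.nd (.nd (.nd (.nd .z (.nd .z (.nd (.nd (.lf [16]) .z) .z))) .z) (.nd (.nd (.nd (.nd (.nd .z (.lf [32])) .z) .z) .z) .z)) .z),
  (.nd (.nd (.nd (.nd .z (.nd (.nd (.nd .z (.lf [128])) .z) .z)) .z) (.nd (.nd (.nd (.nd .z (.nd (.lf [16]) .z)) .z) .z) .z)) .z))
def s78 : Sq := (96,
  (.nd (.nd .z (.nd (.nd (.nd .z (.nd (.nd (.lf [3]) .z) .z)) .z) .z)) (.nd .z (.nd (.nd (.nd .z (.nd (.nd (.lf [0,1,2,4,8]) .z) .z)) .z) .z))),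
  (.nd (.nd (.nd (.nd .z (.nd (.nd (.nd .z (.lf [0,1,2,4,8,9,10,12,128,129,130,132,136])) .z) (.nd (.nd (.lf [9]) (.lf [0,1,2,4,8])) .z))) .z) (.nd (.nd (.nd (.nd (.nd .z (.lf [10])) .z) .z) (.nd (.nd (.nd .z (.lf [0,1,2,4,8])) .z) .z)) .z)) .z))
def s79 : Sq := (1120,
  (.nd (.nd .z (.nd (.nd (.nd (.nd (.nd (.lf [3]) .z) .z) .z) .z) .z)) (.nd .z (.nd (.nd (.nd (.nd (.nd (.lf [0,1,2,4,8]) .z) .z) .z) .z) .z))),
  (.nd (.nd (.nd (.nd .z (.nd (.nd (.nd (.lf [9]) .z) .z) .z)) .z) .z) .z))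
def s80 : Sq := (97,
  (.nd (.nd .z (.nd (.nd (.nd .z (.nd (.nd (.lf [2]) .z) .z)) .z) .z)) .z),
  (.nd (.nd (.nd (.nd .z (.nd .z (.nd (.nd (.lf [8]) .z) .z))) .z) .z) .z))
def s81 : Sq := (1121,
  (.nd (.nd .z (.nd (.nd (.nd (.nd (.nd (.lf [2]) .z) .z) .z) .z) .z)) .z),
  (.nd (.nd (.nd (.nd .z (.nd (.nd (.nd (.lf [8]) .z) .z) .z)) .z) .z) .z))
def s82 : Sq := (98,
  (.nd (.nd .z (.nd (.nd (.nd (.nd (.nd .z (.lf [8])) .z) .z) .z) .z)) .z),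
  (.nd (.nd .z (.nd (.nd (.nd .z (.nd (.nd (.lf [1]) .z) .z)) .z) .z)) .z))
def s83 : Sq := (128,
  (.nd (.nd (.nd (.nd .z (.nd (.nd (.nd .z (.lf [44])) (.nd (.lf [73]) .z)) (.nd (.nd (.lf [22]) .z) .z))) (.nd (.nd (.nd .z (.nd (.lf [26]) .z)) (.nd (.nd (.lf [16,17,18,19,20,22,24,26,35,48,49,50,52,56]) .z) (.nd (.lf [16,17,18,20,24]) .z))) (.nd .z (.nd (.nd (.lf [16,17,18,20,24]) .z) .z)))) (.nd (.nd (.nd (.nd .z (.nd (.lf [37]) .z)) .z) .z) .z)) (.nd (.nd .z (.nd (.nd .z (.nd (.nd (.lf [16,17,18,20,24,32,33,34,36,40]) .z) .z)) .z)) .z)),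
  (.nd (.nd (.nd (.nd .z (.nd (.nd (.nd .z (.lf [74])) (.nd (.lf [28]) .z)) (.nd (.nd (.lf [37]) .z) .z))) (.nd (.nd (.nd .z (.nd (.lf [41]) .z)) .z) .z)) (.nd (.nd (.nd (.nd (.nd .z (.lf [38,64,65,66,67,68,70,72,74,96,97,98,100,104])) (.nd (.lf [67]) (.lf [64,65,66,68,72]))) .z) (.nd (.nd (.nd .z (.lf [64,65,66,68,72])) .z) .z)) .z)) (.nd .z (.nd (.nd (.nd (.nd (.nd .z (.lf [64,65,66,68,72])) (.nd (.lf [64,65,66,68,72]) .z)) .z) .z) .z))))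
def s84 : Sq := (640,
  (.nd (.nd (.nd (.nd .z (.nd (.nd (.nd (.lf [28]) .z) .z) .z)) (.nd (.nd (.nd (.nd (.lf [41]) .z) .z) .z) .z)) (.nd (.nd (.nd (.nd (.nd (.lf [67]) .z) .z) .z) .z) .z)) (.nd .z (.nd (.nd (.nd (.nd (.nd (.lf [64,65,66,68,72]) .z) .z) .z) .z) .z))),
  (.nd (.nd (.nd (.nd .z (.nd (.nd (.nd (.lf [73]) .z) .z) .z)) (.nd (.nd (.nd (.nd (.lf [26]) .z) .z) .z) .z)) (.nd (.nd (.nd (.nd (.nd (.lf [37]) .z) .z) .z) .z) .z)) .z))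
def s85 : Sq := (1152,
  (.nd (.nd (.nd (.nd .z (.nd (.nd (.nd (.lf [22]) .z) .z) .z)) (.nd (.nd (.nd (.nd (.lf [16,17,18,19,20,22,24,26,35,48,49,50,52,56]) .z) (.nd (.lf [16,17,18,20,24]) .z)) .z) (.nd (.nd (.nd (.lf [16,17,18,20,24]) .z) .z) .z))) .z) (.nd (.nd .z (.nd (.nd (.nd (.nd (.lf [16,17,18,20,24,32,33,34,36,40]) .z) .z) .z) .z)) .z)),
  (.nd (.nd (.nd (.nd .z (.nd (.nd (.nd (.lf [37]) .z) .z) .z)) .z) .z) .z))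
def s86 : Sq := (129,
  (.nd (.nd (.nd (.nd .z (.nd .z (.nd (.nd (.lf [36]) .z) .z))) (.nd (.nd (.nd .z (.nd (.lf [40]) .z)) .z) .z)) (.nd (.nd (.nd (.nd .z (.nd (.lf [66]) .z)) .z) .z) .z)) .z),
  (.nd (.nd (.nd (.nd .z (.nd (.nd .z (.nd (.lf [72]) .z)) .z)) (.nd (.nd .z (.nd (.nd (.lf [34]) .z) .z)) .z)) (.nd (.nd (.nd (.nd .z (.nd (.lf [36]) .z)) .z) .z) .z)) .z))
def s87 : Sq := (641,
  (.nd (.nd (.nd .z (.nd (.nd (.nd (.nd (.lf [40]) .z) .z) .z) .z)) (.nd (.nd (.nd (.nd (.nd (.lf [66]) .z) .z) .z) .z) .z)) .z),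
  (.nd (.nd (.nd (.nd .z (.nd (.nd (.nd (.lf [72]) .z) .z) .z)) .z) (.nd (.nd (.nd (.nd (.nd (.lf [36]) .z) .z) .z) .z) .z)) .z))
def s88 : Sq := (1153,
  (.nd (.nd (.nd .z (.nd (.nd (.nd (.nd (.lf [34]) .z) .z) .z) .z)) .z) .z),
  (.nd (.nd (.nd (.nd .z (.nd (.nd (.nd (.lf [36]) .z) .z) .z)) .z) .z) .z))
def s89 : Sq := (130,
  (.nd (.nd (.nd .z (.nd (.nd .z (.nd (.nd (.lf [33]) .z) .z)) .z)) .z) .z),
  (.nd (.nd (.nd .z (.nd (.nd (.nd .z (.nd (.lf [24]) .z)) .z) .z)) .z) .z))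
def s90 : Sq := (130,
  (.nd (.nd .z (.nd (.nd (.nd (.nd (.nd .z (.lf [36])) .z) .z) .z) .z)) .z),
  (.nd (.nd (.nd (.nd .z (.nd (.nd (.nd .z (.lf [72])) .z) .z)) .z) .z) .z))
def s91 : Sq := (132,
  (.nd (.nd (.nd (.nd .z (.nd (.nd .z (.nd (.lf [24]) .z)) (.nd (.nd (.lf [33]) .z) .z))) .z) (.nd (.nd (.nd (.nd (.nd .z (.lf [34])) .z) .z) .z) .z)) .z),
  (.nd (.nd (.nd (.nd .z (.nd (.nd (.nd .z (.lf [40])) .z) (.nd (.nd (.lf [18]) .z) .z))) .z) (.nd (.nd (.nd (.nd .z (.nd (.lf [33]) .z)) .z) .z) .z)) .z))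
def s92 : Sq := (1156,
  (.nd (.nd (.nd (.nd .z (.nd (.nd (.nd (.lf [33]) .z) .z) .z)) .z) .z) .z),
  (.nd (.nd (.nd (.nd .z (.nd (.nd (.nd (.lf [18]) .z) .z) .z)) .z) .z) .z))
def s93 : Sq := (136,
  (.nd (.nd (.nd (.nd .z (.nd (.nd (.nd .z (.lf [66])) (.nd (.lf [20]) .z)) .z)) (.nd (.nd (.nd .z (.nd (.lf [33]) .z)) .z) .z)) .z) .z),
  (.nd (.nd (.nd (.nd .z (.nd (.nd (.nd .z (.lf [36])) (.nd (.lf [65]) .z)) .z)) (.nd (.nd (.nd .z (.nd (.lf [18]) .z)) .z) .z)) .z) .z))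
def s94 : Sq := (648,
  (.nd (.nd (.nd (.nd .z (.nd (.nd (.nd (.lf [20]) .z) .z) .z)) (.nd (.nd (.nd (.nd (.lf [33]) .z) .z) .z) .z)) .z) .z),
  (.nd (.nd (.nd (.nd .z (.nd (.nd (.nd (.lf [65]) .z) .z) .z)) (.nd (.nd (.nd (.nd (.lf [18]) .z) .z) .z) .z)) .z) .z))
def s95 : Sq := (137,
  (.nd (.nd (.nd .z (.nd (.nd (.nd .z (.nd (.lf [32]) .z)) .z) .z)) .z) .z),
  (.nd (.nd (.nd (.nd .z (.nd (.nd .z (.nd (.lf [64]) .z)) .z)) .z) .z) .z))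
def s96 : Sq := (649,
  (.nd (.nd (.nd .z (.nd (.nd (.nd (.nd (.lf [32]) .z) .z) .z) .z)) .z) .z),
  (.nd (.nd (.nd (.nd .z (.nd (.nd (.nd (.lf [64]) .z) .z) .z)) .z) .z) .z))
def s97 : Sq := (140,
  (.nd (.nd (.nd (.nd .z (.nd (.nd (.nd .z (.lf [32])) .z) .z)) .z) .z) .z),
  (.nd (.nd (.nd (.nd .z (.nd (.nd .z (.nd (.lf [16]) .z)) .z)) .z) .z) .z))
def s98 : Sq := (144,
  (.nd (.nd (.nd (.nd .z (.nd .z (.nd (.nd (.lf [6]) .z) .z))) (.nd (.nd (.nd .z (.nd (.lf [10]) .z)) (.nd (.nd (.lf [0,1,2,3,4,6,8,10,32,33,34,36,40]) .z) (.nd (.lf [0,1,2,4,8]) .z))) (.nd .z (.nd (.nd (.lf [0,1,2,4,8]) .z) .z)))) .z) (.nd (.nd .z (.nd (.nd .z (.nd (.nd (.lf [0,1,2,4,8]) .z) .z)) .z)) .z)),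
  (.nd (.nd (.nd (.nd .z (.nd (.nd .z (.nd (.lf [12]) .z)) .z)) .z) .z) .z))
def s99 : Sq := (656,
  (.nd (.nd (.nd .z (.nd (.nd (.nd (.nd (.lf [10]) .z) .z) .z) .z)) .z) .z),
  (.nd (.nd (.nd (.nd .z (.nd (.nd (.nd (.lf [12]) .z) .z) .z)) .z) .z) .z))
def s100 : Sq := (148,
  (.nd (.nd (.nd (.nd .z (.nd (.nd .z (.nd (.lf [8]) .z)) .z)) .z) .z) .z),
  (.nd (.nd (.nd (.nd .z (.nd .z (.nd (.nd (.lf [2]) .z) .z))) .z) .z) .z))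
def s101 : Sq := (152,
  (.nd (.nd (.nd .z (.nd (.nd (.nd .z (.nd (.lf [2]) .z)) .z) .z)) .z) .z),
  (.nd (.nd (.nd (.nd .z (.nd (.nd .z (.nd (.lf [4]) .z)) .z)) .z) .z) .z))
def s102 : Sq := (664,
  (.nd (.nd (.nd .z (.nd (.nd (.nd (.nd (.lf [2]) .z) .z) .z) .z)) .z) .z),
  (.nd (.nd (.nd (.nd .z (.nd (.nd (.nd (.lf [4]) .z) .z) .z)) .z) .z) .z))
def s103 : Sq := (160,
  (.nd (.nd (.nd (.nd .z (.nd (.nd (.nd .z (.lf [12])) .z) .z)) (.nd (.nd .z (.nd (.nd (.lf [3]) .z) .z)) .z)) (.nd (.nd (.nd (.nd .z (.nd (.lf [5]) .z)) .z) .z) .z)) (.nd (.nd .z (.nd (.nd .z (.nd (.nd (.lf [0,1,2,4,8]) .z) .z)) .z)) .z)),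
  (.nd (.nd (.nd (.nd .z (.nd .z (.nd (.nd (.lf [5]) .z) .z))) (.nd (.nd (.nd .z (.nd (.lf [9]) .z)) .z) .z)) (.nd (.nd (.nd (.nd (.nd .z (.lf [6])) .z) .z) .z) .z)) .z))
def s104 : Sq := (672,
  (.nd (.nd .z (.nd (.nd (.nd (.nd (.nd (.lf [5]) .z) .z) .z) .z) .z)) .z),
  (.nd (.nd (.nd .z (.nd (.nd (.nd (.nd (.lf [9]) .z) .z) .z) .z)) .z) .z))
def s105 : Sq := (1184,
  (.nd (.nd (.nd .z (.nd (.nd (.nd (.nd (.lf [3]) .z) .z) .z) .z)) .z) (.nd (.nd .z (.nd (.nd (.nd (.nd (.lf [0,1,2,4,8]) .z) .z) .z) .z)) .z)),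
  (.nd (.nd (.nd (.nd .z (.nd (.nd (.nd (.lf [5]) .z) .z) .z)) .z) .z) .z))
def s106 : Sq := (161,
  (.nd (.nd (.nd .z (.nd (.nd .z (.nd (.nd (.lf [2]) .z) .z)) .z)) (.nd (.nd (.nd (.nd .z (.nd (.lf [4]) .z)) .z) .z) .z)) .z),
  (.nd (.nd (.nd (.nd .z (.nd .z (.nd (.nd (.lf [4]) .z) .z))) (.nd (.nd (.nd .z (.nd (.lf [8]) .z)) .z) .z)) .z) .z))
def s107 : Sq := (673,
  (.nd (.nd .z (.nd (.nd (.nd (.nd (.nd (.lf [4]) .z) .z) .z) .z) .z)) .z),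
  (.nd (.nd (.nd .z (.nd (.nd (.nd (.nd (.lf [8]) .z) .z) .z) .z)) .z) .z))
def s108 : Sq := (1185,
  (.nd (.nd (.nd .z (.nd (.nd (.nd (.nd (.lf [2]) .z) .z) .z) .z)) .z) .z),
  (.nd (.nd (.nd (.nd .z (.nd (.nd (.nd (.lf [4]) .z) .z) .z)) .z) .z) .z))
def s109 : Sq := (164,
  (.nd (.nd (.nd (.nd .z (.nd .z (.nd (.nd (.lf [1]) .z) .z))) .z) (.nd (.nd (.nd (.nd (.nd .z (.lf [2])) .z) .z) .z) .z)) .z),
  (.nd (.nd (.nd (.nd .z (.nd (.nd (.nd .z (.lf [8])) .z) .z)) .z) (.nd (.nd (.nd (.nd .z (.nd (.lf [1]) .z)) .z) .z) .z)) .z))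
def s110 : Sq := (192,
  (.nd (.nd (.nd (.nd .z (.nd (.nd (.nd .z (.lf [10])) .z) .z)) .z) (.nd (.nd (.nd (.nd (.nd .z (.lf [0,1,2,3,4,6,8,10,32,33,34,36,40])) (.nd (.lf [3]) (.lf [0,1,2,4,8]))) .z) (.nd (.nd (.nd .z (.lf [0,1,2,4,8])) .z) .z)) .z)) (.nd .z (.nd (.nd (.nd (.nd (.nd .z (.lf [0,1,2,4,8])) (.nd (.lf [0,1,2,4,8]) .z)) .z) .z) .z))),
  (.nd (.nd (.nd (.nd .z (.nd (.nd .z (.nd (.lf [9]) .z)) .z)) .z) .z) .z))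
def s111 : Sq := (704,
  (.nd (.nd .z (.nd (.nd (.nd (.nd (.nd (.lf [3]) .z) .z) .z) .z) .z)) (.nd .z (.nd (.nd (.nd (.nd (.nd (.lf [0,1,2,4,8]) .z) .z) .z) .z) .z))),
  (.nd (.nd (.nd (.nd .z (.nd (.nd (.nd (.lf [9]) .z) .z) .z)) .z) .z) .z))
def s112 : Sq := (193,
  (.nd (.nd .z (.nd (.nd (.nd (.nd .z (.nd (.lf [2]) .z)) .z) .z) .z)) .z),
  (.nd (.nd (.nd (.nd .z (.nd (.nd .z (.nd (.lf [8]) .z)) .z)) .z) .z) .z))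
def s113 : Sq := (705,
  (.nd (.nd .z (.nd (.nd (.nd (.nd (.nd (.lf [2]) .z) .z) .z) .z) .z)) .z),
  (.nd (.nd (.nd (.nd .z (.nd (.nd (.nd (.lf [8]) .z) .z) .z)) .z) .z) .z))
def s114 : Sq := (200,
  (.nd (.nd (.nd (.nd .z (.nd (.nd (.nd .z (.lf [2])) .z) .z)) .z) .z) .z),
  (.nd (.nd (.nd (.nd .z (.nd (.nd .z (.nd (.lf [1]) .z)) .z)) .z) .z) .z))
def s115 : Sq := (2048,
  (.nd (.nd (.nd (.nd (.nd (.nd (.nd .z (.lf [6,14,22,30,38,46,70,78,96,97,98,100,104,105,106,108,134,142,150,166,172,198,202,224,225,226,228,232])) .z) (.nd (.nd (.lf [105,150]) (.lf [6,22,38,70,96,97,98,100,104,134])) .z)) .z) .z) (.nd (.nd (.nd (.nd (.nd .z (.lf [6,22,38,70,96,97,98,100,104,134])) .z) .z) .z) .z)) .z),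
  (.nd (.nd (.nd (.nd (.nd (.nd .z (.nd (.lf [5,13,21,29,37,45,69,77,80,81,82,84,88,89,90,92,133,141,149,156,165,197,201,208,209,210,212,216]) .z)) (.nd (.nd (.lf [90,165]) .z) (.nd (.lf [5,21,37,69,80,81,82,84,88,133]) .z))) .z) .z) (.nd (.nd (.nd (.nd .z (.nd (.lf [5,21,37,69,80,81,82,84,88,133]) .z)) .z) .z) .z)) .z))
def s116 : Sq := (3072,
  (.nd (.nd (.nd (.nd (.nd (.nd (.nd (.lf [90,165]) .z) .z) .z) .z) .z) .z) .z),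
  (.nd (.nd (.nd (.nd (.nd (.nd (.nd (.lf [105,150]) .z) .z) .z) .z) .z) .z) .z))
def s117 : Sq := (2049,
  (.nd (.nd (.nd (.nd (.nd (.nd .z (.nd (.lf [4,12,20,28,36,44,68,76,132,140,148,164,196,200]) .z)) (.nd (.nd (.lf [164]) .z) (.nd (.lf [4,20,36,68,132]) .z))) .z) .z) (.nd (.nd (.nd (.nd .z (.nd (.lf [4,20,36,68,132]) .z)) .z) .z) .z)) .z),
  (.nd (.nd (.nd (.nd (.nd .z (.nd (.nd (.lf [104]) .z) .z)) .z) .z) .z) .z))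
def s118 : Sq := (3073,
  (.nd (.nd (.nd (.nd (.nd (.nd (.nd (.lf [164]) .z) .z) .z) .z) .z) .z) .z),
  (.nd (.nd (.nd (.nd (.nd (.nd (.nd (.lf [104]) .z) .z) .z) .z) .z) .z) .z))
def s119 : Sq := (2050,
  (.nd (.nd (.nd (.nd (.nd (.nd (.nd .z (.lf [4,12,20,28,36,44,68,76,132,140,148,164,196,200])) .z) (.nd (.nd (.lf [148]) (.lf [4,20,36,68,132])) .z)) .z) .z) (.nd (.nd (.nd (.nd (.nd .z (.lf [4,20,36,68,132])) .z) .z) .z) .z)) .z),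
  (.nd (.nd (.nd (.nd (.nd .z (.nd (.nd (.lf [88]) .z) .z)) .z) .z) .z) .z))
def s120 : Sq := (3074,
  (.nd (.nd (.nd (.nd (.nd (.nd (.nd (.lf [148]) .z) .z) .z) .z) .z) .z) .z),
  (.nd (.nd (.nd (.nd (.nd (.nd (.nd (.lf [88]) .z) .z) .z) .z) .z) .z) .z))
def s121 : Sq := (2052,
  (.nd (.nd (.nd (.nd (.nd (.nd (.nd .z (.lf [2,10,18,26,34,42,66,74,130,138,146,162,168,194])) .z) (.nd (.nd (.lf [146]) (.lf [2,18,34,66,130])) .z)) .z) .z) (.nd (.nd (.nd (.nd (.nd .z (.lf [2,18,34,66,130])) .z) .z) .z) .z)) .z),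
  (.nd (.nd (.nd (.nd (.nd (.nd .z (.nd (.lf [1,9,17,25,33,41,65,73,129,137,145,152,161,193]) .z)) (.nd (.nd (.lf [161]) .z) (.nd (.lf [1,17,33,65,129]) .z))) .z) .z) (.nd (.nd (.nd (.nd .z (.nd (.lf [1,17,33,65,129]) .z)) .z) .z) .z)) .z))
def s122 : Sq := (3076,
  (.nd (.nd (.nd (.nd (.nd (.nd (.nd (.lf [161]) .z) .z) .z) .z) .z) .z) .z),
  (.nd (.nd (.nd (.nd (.nd (.nd (.nd (.lf [146]) .z) .z) .z) .z) .z) .z) .z))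
def s123 : Sq := (2056,
  (.nd (.nd (.nd (.nd (.nd (.nd (.nd .z (.lf [194])) (.nd (.lf [148]) .z)) (.nd (.nd (.lf [97]) .z) .z)) .z) .z) .z) .z),
  (.nd (.nd (.nd (.nd (.nd (.nd (.nd .z (.lf [164])) (.nd (.lf [193]) .z)) (.nd (.nd (.lf [82]) .z) .z)) .z) .z) .z) .z))
def s124 : Sq := (3080,
  (.nd (.nd (.nd (.nd (.nd (.nd (.nd (.lf [97]) .z) .z) .z) .z) .z) .z) .z),
  (.nd (.nd (.nd (.nd (.nd (.nd (.nd (.lf [82]) .z) .z) .z) .z) .z) .z) .z))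
def s125 : Sq := (2057,
  (.nd (.nd (.nd (.nd (.nd (.nd .z (.nd (.lf [192]) .z)) .z) .z) .z) .z) .z),
  (.nd (.nd (.nd (.nd (.nd .z (.nd (.nd (.lf [96]) .z) .z)) .z) .z) .z) .z))
def s126 : Sq := (2058,
  (.nd (.nd (.nd (.nd (.nd (.nd (.nd .z (.lf [192])) .z) .z) .z) .z) .z) .z),
  (.nd (.nd (.nd (.nd (.nd .z (.nd (.nd (.lf [80]) .z) .z)) .z) .z) .z) .z))
def s127 : Sq := (2060,
  (.nd (.nd (.nd (.nd (.nd (.nd (.nd .z (.lf [160])) .z) .z) .z) .z) .z) .z),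
  (.nd (.nd (.nd (.nd (.nd (.nd .z (.nd (.lf [144]) .z)) .z) .z) .z) .z) .z))
def s128 : Sq := (2064,
  (.nd (.nd (.nd (.nd (.nd (.nd .z (.nd (.lf [64,65,66,68,72,73,74,76,140,192,193,194,196,200]) .z)) (.nd (.nd (.lf [74]) .z) (.nd (.lf [64,65,66,68,72]) .z))) .z) .z) (.nd (.nd (.nd (.nd .z (.nd (.lf [64,65,66,68,72]) .z)) .z) .z) .z)) .z),
  (.nd (.nd (.nd (.nd (.nd .z (.nd (.nd (.lf [134]) .z) .z)) .z) .z) .z) .z))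
def s129 : Sq := (3088,
  (.nd (.nd (.nd (.nd (.nd (.nd (.nd (.lf [134]) .z) .z) .z) .z) .z) .z) .z),
  (.nd (.nd (.nd (.nd (.nd (.nd (.nd (.lf [74]) .z) .z) .z) .z) .z) .z) .z))
def s130 : Sq := (2066,
  (.nd (.nd (.nd (.nd (.nd .z (.nd (.nd (.lf [132]) .z) .z)) .z) .z) .z) .z),
  (.nd (.nd (.nd (.nd (.nd .z (.nd (.nd (.lf [72]) .z) .z)) .z) .z) .z) .z))
def s131 : Sq := (3090,
  (.nd (.nd (.nd (.nd (.nd (.nd (.nd (.lf [132]) .z) .z) .z) .z) .z) .z) .z),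
  (.nd (.nd (.nd (.nd (.nd (.nd (.nd (.lf [72]) .z) .z) .z) .z) .z) .z) .z))
def s132 : Sq := (2068,
  (.nd (.nd (.nd (.nd (.nd (.nd .z (.nd (.lf [136]) .z)) .z) .z) .z) .z) .z),
  (.nd (.nd (.nd (.nd (.nd .z (.nd (.nd (.lf [130]) .z) .z)) .z) .z) .z) .z))
def s133 : Sq := (2080,
  (.nd (.nd (.nd (.nd (.nd (.nd (.nd .z (.lf [64,65,66,68,72,73,74,76,140,192,193,194,196,200])) .z) (.nd (.nd (.lf [73]) (.lf [64,65,66,68,72])) .z)) .z) .z) (.nd (.nd (.nd (.nd (.nd .z (.lf [64,65,66,68,72])) .z) .z) .z) .z)) .z),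
  (.nd (.nd (.nd (.nd (.nd .z (.nd (.nd (.lf [133]) .z) .z)) .z) .z) .z) .z))
def s134 : Sq := (3104,
  (.nd (.nd (.nd (.nd (.nd (.nd (.nd (.lf [133]) .z) .z) .z) .z) .z) .z) .z),
  (.nd (.nd (.nd (.nd (.nd (.nd (.nd (.lf [73]) .z) .z) .z) .z) .z) .z) .z))
def s135 : Sq := (2081,
  (.nd (.nd (.nd (.nd (.nd .z (.nd (.nd (.lf [132]) .z) .z)) .z) .z) .z) .z),
  (.nd (.nd (.nd (.nd (.nd .z (.nd (.nd (.lf [72]) .z) .z)) .z) .z) .z) .z))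
def s136 : Sq := (3105,
  (.nd (.nd (.nd (.nd (.nd (.nd (.nd (.lf [132]) .z) .z) .z) .z) .z) .z) .z),
  (.nd (.nd (.nd (.nd (.nd (.nd (.nd (.lf [72]) .z) .z) .z) .z) .z) .z) .z))
def s137 : Sq := (2084,
  (.nd (.nd (.nd (.nd (.nd (.nd (.nd .z (.lf [136])) .z) .z) .z) .z) .z) .z),
  (.nd (.nd (.nd (.nd (.nd .z (.nd (.nd (.lf [129]) .z) .z)) .z) .z) .z) .z))
def s138 : Sq := (2112,
  (.nd (.nd (.nd (.nd (.nd (.nd (.nd .z (.lf [32,33,34,36,40,41,42,44,138,160,161,162,164,168])) .z) (.nd (.nd (.lf [41]) (.lf [32,33,34,36,40])) .z)) .z) .z) (.nd (.nd (.nd (.nd (.nd .z (.lf [32,33,34,36,40])) .z) .z) .z) .z)) .z),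
  (.nd (.nd (.nd (.nd (.nd (.nd .z (.nd (.lf [16,17,18,20,24,25,26,28,137,144,145,146,148,152]) .z)) (.nd (.nd (.lf [26]) .z) (.nd (.lf [16,17,18,20,24]) .z))) .z) .z) (.nd (.nd (.nd (.nd .z (.nd (.lf [16,17,18,20,24]) .z)) .z) .z) .z)) .z))
def s139 : Sq := (3136,
  (.nd (.nd (.nd (.nd (.nd (.nd (.nd (.lf [41]) .z) .z) .z) .z) .z) .z) .z),
  (.nd (.nd (.nd (.nd (.nd (.nd (.nd (.lf [26]) .z) .z) .z) .z) .z) .z) .z))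
def s140 : Sq := (2113,
  (.nd (.nd (.nd (.nd (.nd (.nd .z (.nd (.lf [136]) .z)) .z) .z) .z) .z) .z),
  (.nd (.nd (.nd (.nd (.nd .z (.nd (.nd (.lf [40]) .z) .z)) .z) .z) .z) .z))
def s141 : Sq := (2114,
  (.nd (.nd (.nd (.nd (.nd (.nd (.nd .z (.lf [136])) .z) .z) .z) .z) .z) .z),
  (.nd (.nd (.nd (.nd (.nd .z (.nd (.nd (.lf [24]) .z) .z)) .z) .z) .z) .z))
def s142 : Sq := (2120,
  (.nd (.nd (.nd (.nd (.nd (.nd (.nd .z (.lf [130])) .z) (.nd (.nd (.lf [33]) .z) .z)) .z) .z) .z) .z),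
  (.nd (.nd (.nd (.nd (.nd (.nd .z (.nd (.lf [129]) .z)) (.nd (.nd (.lf [18]) .z) .z)) .z) .z) .z) .z))
def s143 : Sq := (3144,
  (.nd (.nd (.nd (.nd (.nd (.nd (.nd (.lf [33]) .z) .z) .z) .z) .z) .z) .z),
  (.nd (.nd (.nd (.nd (.nd (.nd (.nd (.lf [18]) .z) .z) .z) .z) .z) .z) .z))
def s144 : Sq := (2121,
  (.nd (.nd (.nd (.nd (.nd (.nd .z (.nd (.lf [128]) .z)) .z) .z) .z) .z) .z),
  (.nd (.nd (.nd (.nd (.nd .z (.nd (.nd (.lf [32]) .z) .z)) .z) .z) .z) .z))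
def s145 : Sq := (2122,
  (.nd (.nd (.nd (.nd (.nd (.nd (.nd .z (.lf [128])) .z) .z) .z) .z) .z) .z),
  (.nd (.nd (.nd (.nd (.nd .z (.nd (.nd (.lf [16]) .z) .z)) .z) .z) .z) .z))
def s146 : Sq := (2176,
  (.nd (.nd (.nd (.nd (.nd (.nd (.nd .z (.lf [74])) (.nd (.lf [28]) .z)) (.nd (.nd (.lf [37]) .z) .z)) .z) .z) .z) .z),
  (.nd (.nd (.nd (.nd (.nd (.nd (.nd .z (.lf [44])) (.nd (.lf [73]) .z)) (.nd (.nd (.lf [22]) .z) .z)) .z) .z) .z) .z))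
def s147 : Sq := (3200,
  (.nd (.nd (.nd (.nd (.nd (.nd (.nd (.lf [37]) .z) .z) .z) .z) .z) .z) .z),
  (.nd (.nd (.nd (.nd (.nd (.nd (.nd (.lf [22]) .z) .z) .z) .z) .z) .z) .z))
def s148 : Sq := (2180,
  (.nd (.nd (.nd (.nd (.nd (.nd (.nd .z (.lf [40])) .z) (.nd (.nd (.lf [18]) .z) .z)) .z) .z) .z) .z),
  (.nd (.nd (.nd (.nd (.nd (.nd .z (.nd (.lf [24]) .z)) (.nd (.nd (.lf [33]) .z) .z)) .z) .z) .z) .z))
def s149 : Sq := (3204,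
  (.nd (.nd (.nd (.nd (.nd (.nd (.nd (.lf [33]) .z) .z) .z) .z) .z) .z) .z),
  (.nd (.nd (.nd (.nd (.nd (.nd (.nd (.lf [18]) .z) .z) .z) .z) .z) .z) .z))
def s150 : Sq := (2184,
  (.nd (.nd (.nd (.nd (.nd (.nd (.nd .z (.lf [66])) (.nd (.lf [20]) .z)) .z) .z) .z) .z) .z),
  (.nd (.nd (.nd (.nd (.nd (.nd (.nd .z (.lf [36])) (.nd (.lf [65]) .z)) .z) .z) .z) .z) .z))
def s151 : Sq := (2188,
  (.nd (.nd (.nd (.nd (.nd (.nd (.nd .z (.lf [32])) .z) .z) .z) .z) .z) .z),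
  (.nd (.nd (.nd (.nd (.nd (.nd .z (.nd (.lf [16]) .z)) .z) .z) .z) .z) .z))
def s152 : Sq := (2192,
  (.nd (.nd (.nd (.nd (.nd (.nd .z (.nd (.lf [12]) .z)) .z) .z) .z) .z) .z),
  (.nd (.nd (.nd (.nd (.nd .z (.nd (.nd (.lf [6]) .z) .z)) .z) .z) .z) .z))
def s153 : Sq := (2196,
  (.nd (.nd (.nd (.nd (.nd (.nd .z (.nd (.lf [8]) .z)) .z) .z) .z) .z) .z),
  (.nd (.nd (.nd (.nd (.nd .z (.nd (.nd (.lf [2]) .z) .z)) .z) .z) .z) .z))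
def s154 : Sq := (2208,
  (.nd (.nd (.nd (.nd (.nd (.nd (.nd .z (.lf [12])) .z) .z) .z) .z) .z) .z),
  (.nd (.nd (.nd (.nd (.nd .z (.nd (.nd (.lf [5]) .z) .z)) .z) .z) .z) .z))
def s155 : Sq := (2212,
  (.nd (.nd (.nd (.nd (.nd (.nd (.nd .z (.lf [8])) .z) .z) .z) .z) .z) .z),
  (.nd (.nd (.nd (.nd (.nd .z (.nd (.nd (.lf [1]) .z) .z)) .z) .z) .z) .z))
def s156 : Sq := (2240,
  (.nd (.nd (.nd (.nd (.nd (.nd (.nd .z (.lf [10])) .z) .z) .z) .z) .z) .z),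
  (.nd (.nd (.nd (.nd (.nd (.nd .z (.nd (.lf [9]) .z)) .z) .z) .z) .z) .z))
def s157 : Sq := (2248,
  (.nd (.nd (.nd (.nd (.nd (.nd (.nd .z (.lf [2])) .z) .z) .z) .z) .z) .z),
  (.nd (.nd (.nd (.nd (.nd (.nd .z (.nd (.lf [1]) .z)) .z) .z) .z) .z) .z))
def s158 : Sq := (8192,
  (.nd (.nd (.nd (.nd (.nd (.nd (.nd .z (.lf [12,14,28,30,44,46,60,76,78,106,108,140,142,166,172,192,193,194,195,196,198,200,202,224,225,226,228,232])) (.nd (.lf [60,195]) (.lf [12,28,44,76,140,192,193,194,196,200]))) .z) (.nd (.nd (.nd .z (.lf [12,28,44,76,140,192,193,194,196,200])) .z) .z)) .z) .z) (.nd (.nd (.nd (.nd (.nd (.nd .z (.lf [12,28,44,76,140,192,193,194,196,200])) (.nd (.lf [12,28,44,76,140,192,193,194,196,200]) .z)) .z) .z) .z) .z)),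
  (.nd (.nd (.nd (.nd (.nd (.nd .z (.nd (.lf [90,165]) .z)) (.nd (.nd (.lf [5,7,21,23,37,39,53,54,69,71,80,81,82,83,84,86,88,90,99,101,112,113,114,116,120,133,135,165]) .z) (.nd (.lf [5,21,37,69,80,81,82,84,88,133]) .z))) (.nd .z (.nd (.nd (.lf [5,21,37,69,80,81,82,84,88,133]) .z) .z))) .z) .z) (.nd (.nd (.nd (.nd .z (.nd (.nd (.lf [5,6,21,22,37,38,69,70,80,81,82,84,88,96,97,98,100,104,133,134]) .z) .z)) .z) .z) .z)))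
def s159 : Sq := (8704,
  (.nd (.nd (.nd (.nd (.nd (.nd (.nd (.lf [60,195]) .z) .z) .z) .z) .z) .z) (.nd (.nd (.nd (.nd (.nd (.nd (.lf [12,28,44,76,140,192,193,194,196,200]) .z) .z) .z) .z) .z) .z)),
  (.nd (.nd (.nd (.nd (.nd (.nd (.nd (.lf [90,165]) .z) .z) .z) .z) .z) .z) .z))
def s160 : Sq := (8193,
  (.nd (.nd (.nd (.nd (.nd (.nd .z (.nd (.lf [194]) .z)) .z) .z) .z) .z) .z),
  (.nd (.nd (.nd (.nd (.nd (.nd .z (.nd (.lf [164]) .z)) (.nd (.nd (.lf [4,6,20,22,36,38,52,68,70,98,100,132,134,164]) .z) (.nd (.lf [4,20,36,68,132]) .z))) (.nd .z (.nd (.nd (.lf [4,20,36,68,132]) .z) .z))) .z) .z) (.nd (.nd (.nd (.nd .z (.nd (.nd (.lf [4,20,36,68,132]) .z) .z)) .z) .z) .z)))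
def s161 : Sq := (8705,
  (.nd (.nd (.nd (.nd (.nd (.nd (.nd (.lf [194]) .z) .z) .z) .z) .z) .z) .z),
  (.nd (.nd (.nd (.nd (.nd (.nd (.nd (.lf [164]) .z) .z) .z) .z) .z) .z) .z))
def s162 : Sq := (8194,
  (.nd (.nd (.nd (.nd (.nd (.nd (.nd .z (.lf [104])) (.nd (.lf [193]) .z)) (.nd (.nd (.lf [52]) .z) .z)) .z) .z) .z) (.nd (.nd (.nd (.nd .z (.nd (.nd (.lf [4,20,36,68,132]) .z) .z)) .z) .z) .z)),
  (.nd (.nd (.nd (.nd (.nd (.nd (.nd .z (.lf [164])) (.nd (.lf [88]) .z)) (.nd (.nd (.lf [97]) .z) .z)) .z) .z) .z) .z))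
def s163 : Sq := (8706,
  (.nd (.nd (.nd (.nd (.nd (.nd (.nd (.lf [193]) .z) .z) .z) .z) .z) .z) .z),
  (.nd (.nd (.nd (.nd (.nd (.nd (.nd (.lf [88]) .z) .z) .z) .z) .z) .z) .z))
def s164 : Sq := (8195,
  (.nd (.nd (.nd (.nd (.nd (.nd .z (.nd (.lf [192]) .z)) .z) .z) .z) .z) .z),
  (.nd (.nd (.nd (.nd (.nd .z (.nd (.nd (.lf [96]) .z) .z)) .z) .z) .z) .z))
def s165 : Sq := (8196,
  (.nd (.nd (.nd (.nd (.nd (.nd (.nd .z (.lf [8,10,24,26,40,42,56,72,74,104,136,138,162,168])) (.nd (.lf [56]) (.lf [8,24,40,72,136]))) .z) (.nd (.nd (.nd .z (.lf [8,24,40,72,136])) .z) .z)) .z) .z) (.nd (.nd (.nd (.nd (.nd (.nd .z (.lf [8,24,40,72,136])) (.nd (.lf [8,24,40,72,136]) .z)) .z) .z) .z) .z)),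
  (.nd (.nd (.nd (.nd (.nd (.nd .z (.nd (.lf [161]) .z)) (.nd (.nd (.lf [1,3,17,19,33,35,49,50,65,67,97,129,131,161]) .z) (.nd (.lf [1,17,33,65,129]) .z))) (.nd .z (.nd (.nd (.lf [1,17,33,65,129]) .z) .z))) .z) .z) (.nd (.nd (.nd (.nd .z (.nd (.nd (.lf [1,2,17,18,33,34,65,66,129,130]) .z) .z)) .z) .z) .z)))
def s166 : Sq := (8708,
  (.nd (.nd (.nd (.nd (.nd (.nd (.nd (.lf [56]) .z) .z) .z) .z) .z) .z) (.nd (.nd (.nd (.nd (.nd (.nd (.lf [8,24,40,72,136]) .z) .z) .z) .z) .z) .z)),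
  (.nd (.nd (.nd (.nd (.nd (.nd (.nd (.lf [161]) .z) .z) .z) .z) .z) .z) .z))
def s167 : Sq := (8198,
  (.nd (.nd (.nd (.nd (.nd .z (.nd (.nd (.lf [48]) .z) .z)) .z) .z) .z) (.nd (.nd (.nd (.nd .z (.nd (.nd (.lf [0,16,32,64,128]) .z) .z)) .z) .z) .z)),
  (.nd (.nd (.nd (.nd (.nd (.nd (.nd .z (.lf [160])) .z) .z) .z) .z) .z) .z))
def s168 : Sq := (8200,
  (.nd (.nd (.nd (.nd (.nd (.nd (.nd .z (.lf [4,6,20,22,36,38,52,68,70,98,100,132,134,164])) (.nd (.lf [52]) (.lf [4,20,36,68,132]))) .z) (.nd (.nd (.nd .z (.lf [4,20,36,68,132])) .z) .z)) .z) .z) (.nd (.nd (.nd (.nd (.nd (.nd .z (.lf [4,20,36,68,132])) (.nd (.lf [4,20,36,68,132]) .z)) .z) .z) .z) .z)),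
  (.nd (.nd (.nd (.nd (.nd (.nd .z (.nd (.lf [82]) .z)) .z) .z) .z) .z) .z))
def s169 : Sq := (8712,
  (.nd (.nd (.nd (.nd (.nd (.nd (.nd (.lf [52]) .z) .z) .z) .z) .z) .z) (.nd (.nd (.nd (.nd (.nd (.nd (.lf [4,20,36,68,132]) .z) .z) .z) .z) .z) .z)),
  (.nd (.nd (.nd (.nd (.nd (.nd (.nd (.lf [82]) .z) .z) .z) .z) .z) .z) .z))
def s170 : Sq := (8202,
  (.nd (.nd (.nd (.nd (.nd (.nd (.nd .z (.lf [96])) .z) .z) .z) .z) .z) .z),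
  (.nd (.nd (.nd (.nd (.nd (.nd .z (.nd (.lf [80]) .z)) .z) .z) .z) .z) .z))
def s171 : Sq := (8208,
  (.nd (.nd (.nd (.nd (.nd (.nd .z (.nd (.lf [74]) .z)) (.nd (.nd (.lf [38,64,65,66,67,68,70,72,74,96,97,98,100,104]) .z) (.nd (.lf [64,65,66,68,72]) .z))) (.nd .z (.nd (.nd (.lf [64,65,66,68,72]) .z) .z))) .z) .z) (.nd (.nd (.nd (.nd .z (.nd (.nd (.lf [64,65,66,68,72]) .z) .z)) .z) .z) .z)),
  (.nd (.nd (.nd (.nd (.nd (.nd .z (.nd (.lf [44]) .z)) .z) .z) .z) .z) .z))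
def s172 : Sq := (8720,
  (.nd (.nd (.nd (.nd (.nd (.nd (.nd (.lf [74]) .z) .z) .z) .z) .z) .z) .z),
  (.nd (.nd (.nd (.nd (.nd (.nd (.nd (.lf [44]) .z) .z) .z) .z) .z) .z) .z))
def s173 : Sq := (8212,
  (.nd (.nd (.nd (.nd (.nd (.nd .z (.nd (.lf [40]) .z)) .z) .z) .z) .z) .z),
  (.nd (.nd (.nd (.nd (.nd .z (.nd (.nd (.lf [34]) .z) .z)) .z) .z) .z) .z))
def s174 : Sq := (8216,
  (.nd (.nd (.nd (.nd (.nd (.nd .z (.nd (.lf [66]) .z)) .z) .z) .z) .z) .z),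
  (.nd (.nd (.nd (.nd (.nd (.nd .z (.nd (.lf [36]) .z)) .z) .z) .z) .z) .z))
def s175 : Sq := (8728,
  (.nd (.nd (.nd (.nd (.nd (.nd (.nd (.lf [66]) .z) .z) .z) .z) .z) .z) .z),
  (.nd (.nd (.nd (.nd (.nd (.nd (.nd (.lf [36]) .z) .z) .z) .z) .z) .z) .z))
def s176 : Sq := (8224,
  (.nd (.nd (.nd (.nd (.nd (.nd (.nd .z (.lf [134])) (.nd (.lf [28]) .z)) (.nd (.nd (.lf [67]) .z) .z)) .z) .z) .z) (.nd (.nd (.nd (.nd .z (.nd (.nd (.lf [64,65,66,68,72]) .z) .z)) .z) .z) .z)),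
  (.nd (.nd (.nd (.nd (.nd (.nd (.nd .z (.lf [74])) (.nd (.lf [133]) .z)) (.nd (.nd (.lf [22]) .z) .z)) .z) .z) .z) .z))
def s177 : Sq := (8736,
  (.nd (.nd (.nd (.nd (.nd (.nd (.nd (.lf [133]) .z) .z) .z) .z) .z) .z) .z),
  (.nd (.nd (.nd (.nd (.nd (.nd (.nd (.lf [28]) .z) .z) .z) .z) .z) .z) .z))
def s178 : Sq := (8226,
  (.nd (.nd (.nd (.nd (.nd (.nd (.nd .z (.lf [132])) .z) (.nd (.nd (.lf [65]) .z) .z)) .z) .z) .z) .z),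
  (.nd (.nd (.nd (.nd (.nd (.nd (.nd .z (.lf [72])) .z) (.nd (.nd (.lf [20]) .z) .z)) .z) .z) .z) .z))
def s179 : Sq := (8228,
  (.nd (.nd (.nd (.nd (.nd (.nd (.nd .z (.lf [130])) (.nd (.lf [24]) .z)) .z) .z) .z) .z) .z),
  (.nd (.nd (.nd (.nd (.nd (.nd .z (.nd (.lf [129]) .z)) (.nd (.nd (.lf [18]) .z) .z)) .z) .z) .z) .z))
def s180 : Sq := (8740,
  (.nd (.nd (.nd (.nd (.nd (.nd (.nd (.lf [129]) .z) .z) .z) .z) .z) .z) .z),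
  (.nd (.nd (.nd (.nd (.nd (.nd (.nd (.lf [24]) .z) .z) .z) .z) .z) .z) .z))
def s181 : Sq := (8230,
  (.nd (.nd (.nd (.nd (.nd (.nd (.nd .z (.lf [128])) .z) .z) .z) .z) .z) .z),
  (.nd (.nd (.nd (.nd (.nd .z (.nd (.nd (.lf [16]) .z) .z)) .z) .z) .z) .z))
def s182 : Sq := (8240,
  (.nd (.nd (.nd (.nd (.nd (.nd .z (.nd (.lf [12]) .z)) .z) .z) .z) .z) .z),
  (.nd (.nd (.nd (.nd (.nd .z (.nd (.nd (.lf [6]) .z) .z)) .z) .z) .z) .z))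
def s183 : Sq := (8244,
  (.nd (.nd (.nd (.nd (.nd (.nd .z (.nd (.lf [8]) .z)) .z) .z) .z) .z) .z),
  (.nd (.nd (.nd (.nd (.nd .z (.nd (.nd (.lf [2]) .z) .z)) .z) .z) .z) .z))
def s184 : Sq := (8256,
  (.nd (.nd (.nd (.nd (.nd (.nd (.nd .z (.lf [42,128,129,130,131,132,134,136,138,160,161,162,164,168])) (.nd (.lf [131]) (.lf [128,129,130,132,136]))) .z) (.nd (.nd (.nd .z (.lf [128,129,130,132,136])) .z) .z)) .z) .z) (.nd (.nd (.nd (.nd (.nd (.nd .z (.lf [128,129,130,132,136])) (.nd (.lf [128,129,130,132,136]) .z)) .z) .z) .z) .z)),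
  (.nd (.nd (.nd (.nd (.nd (.nd .z (.nd (.lf [26]) .z)) (.nd (.nd (.lf [16,17,18,19,20,22,24,26,35,48,49,50,52,56]) .z) (.nd (.lf [16,17,18,20,24]) .z))) (.nd .z (.nd (.nd (.lf [16,17,18,20,24]) .z) .z))) .z) .z) (.nd (.nd (.nd (.nd .z (.nd (.nd (.lf [16,17,18,20,24,32,33,34,36,40]) .z) .z)) .z) .z) .z)))
def s185 : Sq := (8768,
  (.nd (.nd (.nd (.nd (.nd (.nd (.nd (.lf [131]) .z) .z) .z) .z) .z) .z) (.nd (.nd (.nd (.nd (.nd (.nd (.lf [128,129,130,132,136]) .z) .z) .z) .z) .z) .z)),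
  (.nd (.nd (.nd (.nd (.nd (.nd (.nd (.lf [26]) .z) .z) .z) .z) .z) .z) .z))
def s186 : Sq := (8257,
  (.nd (.nd (.nd (.nd (.nd (.nd .z (.nd (.lf [130]) .z)) .z) .z) .z) .z) .z),
  (.nd (.nd (.nd (.nd (.nd .z (.nd (.nd (.lf [34]) .z) .z)) .z) .z) .z) .z))
def s187 : Sq := (8258,
  (.nd (.nd (.nd (.nd (.nd (.nd (.nd .z (.lf [40])) (.nd (.lf [129]) .z)) .z) .z) .z) .z) .z),
  (.nd (.nd (.nd (.nd (.nd (.nd .z (.nd (.lf [24]) .z)) (.nd (.nd (.lf [33]) .z) .z)) .z) .z) .z) .z))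
def s188 : Sq := (8770,
  (.nd (.nd (.nd (.nd (.nd (.nd (.nd (.lf [129]) .z) .z) .z) .z) .z) .z) .z),
  (.nd (.nd (.nd (.nd (.nd (.nd (.nd (.lf [24]) .z) .z) .z) .z) .z) .z) .z))
def s189 : Sq := (8259,
  (.nd (.nd (.nd (.nd (.nd (.nd .z (.nd (.lf [128]) .z)) .z) .z) .z) .z) .z),
  (.nd (.nd (.nd (.nd (.nd .z (.nd (.nd (.lf [32]) .z) .z)) .z) .z) .z) .z))
def s190 : Sq := (8264,
  (.nd (.nd (.nd (.nd (.nd (.nd (.nd .z (.lf [34])) .z) .z) .z) .z) .z) .z),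
  (.nd (.nd (.nd (.nd (.nd (.nd .z (.nd (.lf [18]) .z)) .z) .z) .z) .z) .z))
def s191 : Sq := (8266,
  (.nd (.nd (.nd (.nd (.nd (.nd (.nd .z (.lf [32])) .z) .z) .z) .z) .z) .z),
  (.nd (.nd (.nd (.nd (.nd (.nd .z (.nd (.lf [16]) .z)) .z) .z) .z) .z) .z))
def s192 : Sq := (8288,
  (.nd (.nd (.nd (.nd (.nd .z (.nd (.nd (.lf [3]) .z) .z)) .z) .z) .z) (.nd (.nd (.nd (.nd .z (.nd (.nd (.lf [0,1,2,4,8]) .z) .z)) .z) .z) .z)),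
  (.nd (.nd (.nd (.nd (.nd (.nd (.nd .z (.lf [10])) .z) .z) .z) .z) .z) .z))
def s193 : Sq := (8290,
  (.nd (.nd (.nd (.nd (.nd (.nd (.nd .z (.lf [8])) .z) .z) .z) .z) .z) .z),
  (.nd (.nd (.nd (.nd (.nd .z (.nd (.nd (.lf [1]) .z) .z)) .z) .z) .z) .z))
def s194 : Sq := (8320,
  (.nd (.nd (.nd (.nd (.nd (.nd (.nd .z (.lf [38,64,65,66,67,68,70,72,74,96,97,98,100,104])) (.nd (.lf [67]) (.lf [64,65,66,68,72]))) .z) (.nd (.nd (.nd .z (.lf [64,65,66,68,72])) .z) .z)) .z) .z) (.nd (.nd (.nd (.nd (.nd (.nd .z (.lf [64,65,66,68,72])) (.nd (.lf [64,65,66,68,72]) .z)) .z) .z) .z) .z)),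
  (.nd (.nd (.nd (.nd (.nd (.nd .z (.nd (.lf [37]) .z)) .z) .z) .z) .z) .z))
def s195 : Sq := (8832,
  (.nd (.nd (.nd (.nd (.nd (.nd (.nd (.lf [67]) .z) .z) .z) .z) .z) .z) (.nd (.nd (.nd (.nd (.nd (.nd (.lf [64,65,66,68,72]) .z) .z) .z) .z) .z) .z)),
  (.nd (.nd (.nd (.nd (.nd (.nd (.nd (.lf [37]) .z) .z) .z) .z) .z) .z) .z))
def s196 : Sq := (8321,
  (.nd (.nd (.nd (.nd (.nd (.nd .z (.nd (.lf [66]) .z)) .z) .z) .z) .z) .z),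
  (.nd (.nd (.nd (.nd (.nd (.nd .z (.nd (.lf [36]) .z)) .z) .z) .z) .z) .z))
def s197 : Sq := (8833,
  (.nd (.nd (.nd (.nd (.nd (.nd (.nd (.lf [66]) .z) .z) .z) .z) .z) .z) .z),
  (.nd (.nd (.nd (.nd (.nd (.nd (.nd (.lf [36]) .z) .z) .z) .z) .z) .z) .z))
def s198 : Sq := (8324,
  (.nd (.nd (.nd (.nd (.nd (.nd (.nd .z (.lf [34])) .z) .z) .z) .z) .z) .z),
  (.nd (.nd (.nd (.nd (.nd (.nd .z (.nd (.lf [33]) .z)) .z) .z) .z) .z) .z))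
def s199 : Sq := (8352,
  (.nd (.nd (.nd (.nd (.nd (.nd (.nd .z (.lf [6])) .z) .z) .z) .z) .z) .z),
  (.nd (.nd (.nd (.nd (.nd (.nd .z (.nd (.lf [5]) .z)) .z) .z) .z) .z) .z))
def s200 : Sq := (8356,
  (.nd (.nd (.nd (.nd (.nd (.nd (.nd .z (.lf [2])) .z) .z) .z) .z) .z) .z),
  (.nd (.nd (.nd (.nd (.nd (.nd .z (.nd (.lf [1]) .z)) .z) .z) .z) .z) .z))
def s201 : Sq := (16384,
  (.nd (.nd (.nd .z (.nd (.nd (.nd .z (.nd (.lf [0,1,2,4,8,9,10,12,16,17,18,20,24,25,26,28,32,33,34,36,40,41,42,44,64,65,66,68,72,73,74,76,128,129,130,132,136,137,138,140,144,145,146,148,152,160,161,162,164,168,192,193,194,196,200]) .z)) (.nd (.nd (.lf [10,26,42,74,138,160,161,162,164,168]) .z) (.nd (.lf [0,1,2,4,8,16,17,18,20,24,32,33,34,36,40,64,65,66,68,72,128,129,130,132,136]) .z))) .z)) (.nd (.nd (.nd (.nd .z (.nd (.lf [12,28,44,76,140,192,193,194,196,200])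 .z)) .z) .z) (.nd (.nd (.nd .z (.nd (.lf [0,1,2,4,8,16,17,18,20,24,32,33,34,36,40,64,65,66,68,72,128,129,130,132,136]) .z)) .z) .z))) .z),
  (.nd (.nd .z (.nd (.nd (.nd .z (.nd (.nd (.lf [6,22,38,70,96,97,98,100,104,134]) .z) .z)) .z) .z)) .z))
def s202 : Sq := (17408,
  (.nd (.nd .z (.nd (.nd (.nd (.nd (.nd (.lf [6,22,38,70,96,97,98,100,104,134]) .z) .z) .z) .z) .z)) .z),
  (.nd (.nd (.nd .z (.nd (.nd (.nd (.nd (.lf [10,26,42,74,138,160,161,162,164,168]) .z) .z) .z) .z)) .z) .z))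
def s203 : Sq := (16386,
  (.nd (.nd .z (.nd (.nd (.nd .z (.nd (.nd (.lf [4,20,36,68,132]) .z) .z)) .z) .z)) .z),
  (.nd (.nd (.nd .z (.nd (.nd .z (.nd (.nd (.lf [8,24,40,72,136]) .z) .z)) .z)) .z) .z))
def s204 : Sq := (17410,
  (.nd (.nd .z (.nd (.nd (.nd (.nd (.nd (.lf [4,20,36,68,132]) .z) .z) .z) .z) .z)) .z),
  (.nd (.nd (.nd .z (.nd (.nd (.nd (.nd (.lf [8,24,40,72,136]) .z) .z) .z) .z)) .z) .z))
def s205 : Sq := (16388,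
  (.nd (.nd .z (.nd (.nd (.nd (.nd .z (.nd (.lf [8,24,40,72,136]) .z)) .z) .z) .z)) .z),
  (.nd (.nd .z (.nd (.nd (.nd .z (.nd (.nd (.lf [2,18,34,66,130]) .z) .z)) .z) .z)) .z))
def s206 : Sq := (16416,
  (.nd (.nd .z (.nd (.nd (.nd .z (.nd (.nd (.lf [64,65,66,68,72]) .z) .z)) .z) .z)) .z),
  (.nd (.nd (.nd .z (.nd (.nd .z (.nd (.nd (.lf [128,129,130,132,136]) .z) .z)) .z)) .z) .z))
def s207 : Sq := (17440,
  (.nd (.nd .z (.nd (.nd (.nd (.nd (.nd (.lf [64,65,66,68,72]) .z) .z) .z) .z) .z)) .z),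
  (.nd (.nd (.nd .z (.nd (.nd (.nd (.nd (.lf [128,129,130,132,136]) .z) .z) .z) .z)) .z) .z))
def s208 : Sq := (16448,
  (.nd (.nd .z (.nd (.nd (.nd (.nd .z (.nd (.lf [128,129,130,132,136]) .z)) .z) .z) .z)) .z),
  (.nd (.nd .z (.nd (.nd (.nd .z (.nd (.nd (.lf [32,33,34,36,40]) .z) .z)) .z) .z)) .z))
def s209 : Sq := (24576,
  (.nd (.nd (.nd (.nd (.nd (.nd .z (.nd (.lf [12,28,44,76,140,192,193,194,196,200]) .z)) .z) .z) .z) .z) .z),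
  (.nd (.nd (.nd (.nd (.nd .z (.nd (.nd (.lf [6,22,38,70,96,97,98,100,104,134]) .z) .z)) .z) .z) .z) .z))
def s210 : Sq := (24580,
  (.nd (.nd (.nd (.nd (.nd (.nd .z (.nd (.lf [8,24,40,72,136]) .z)) .z) .z) .z) .z) .z),
  (.nd (.nd (.nd (.nd (.nd .z (.nd (.nd (.lf [2,18,34,66,130]) .z) .z)) .z) .z) .z) .z))
def s211 : Sq := (24640,
  (.nd (.nd (.nd (.nd (.nd (.nd .z (.nd (.lf [128,129,130,132,136]) .z)) .z) .z) .z) .z) .z),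
  (.nd (.nd (.nd (.nd (.nd .z (.nd (.nd (.lf [32,33,34,36,40]) .z) .z)) .z) .z) .z) .z))

def sq : List Sq := [s0, s1, s2, s3, s4, s5, s6, s7, s8, s9, s10, s11, s12, s13, s14, s15, s16, s17, s18, s19, s20, s21, s22, s23, s24, s25, s26, s27, s28, s29, s30, s31, s32, s33, s34, s35, s36, s37, s38, s39, s40, s41, s42, s43, s44, s45, s46, s47, s48, s49, s50, s51, s52, s53, s54, s55, s56, s57, s58, s59, s60, s61, s62, s63, s64, s65, s66, s67, s68, s69, s70, s71, s72, s73, s74, s75, s76, s77, s78, s79, s80, s81, s82, s83, s84, s85, s86, s87, s88, s89, s90, s91, s92, s93, s94, s95, s96, s97, s98, s99, s100, s101, s102, s103, s104, s105, s106, s107, s108, s109, s110, s111, s112, s113, s114, s115, s116, s117, s118, s119, s120, s121, s122, s123, s124, s125, s126, s127, s128, s129, s130, s131, s132, s133, s134, s135, s136, s137, s138,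 s139, s140, s141, s142, s143, s144, s145, s146, s147, s148, s149, s150, s151, s152, s153, s154, s155, s156, s157, s158, s159, s160, s161, s162, s163, s164, s165, s166, s167, s168, s169, s170, s171, s172, s173, s174, s175, s176, s177, s178, s179, s180, s181, s182, s183, s184, s185, s186, s187, s188, s189, s190, s191, s192, s193, s194, s195, s196, s197, s198, s199, s200, s201, s202, s203, s204, s205, s206, s207, s208, s209, s210, s211]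

/-- The number with the top bits of all digits. -/
def G : ℕ := 2 ^ (32 - 1) * S 32 li.length

def PP : List (TT ℕ × TT ℕ) :=
  (FT (FN 32 li) lo 106181136, FT (FN 32 li) lo 1982083600) :: sqp (BL 32 li.length) li.length lo.length sq

def NN : List (TT ℕ × TT ℕ) :=
  (FT (FN 32 li) lo 1985229328, FT (FN 32 li) lo 103035408) :: sqn (BL 32 li.length) li.length lo.length sq

theorem h_test : test 32 lo li 106181136 1982083600 1985229328 103035408 sq = true := by decide +kernel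

theorem h_ce : ce 13 = 106181136 := by decide +kernel
theorem h_cf : ce 3 = 1982083600 := by decide +kernel
theorem h_c0 : c0 8 = 1985229328 := by decide +kernel
theorem h_cef : cef 13 3 = 103035408 := by decide +kernel

theorem h_dj : dj li.length lo.length sq = true := by decide +kernel
theorem h_bp : 2 ^ (lo ++ li).length * 2 ^ (lo ++ li).length + bp lo.length sq < 2 ^ (32 - 1) := by
  decide +kernel
theorem h_bn : 2 ^ (lo ++ li).length * 2 ^ (lo ++ li).length + bn lo.length sq ≤ 2 ^ (32 - 1) := by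
  decide +kernel
theorem h_L : L.map (fun i => (((src i : Fin 8) : ℕ), ((tgt i : Fin 8) : ℕ))) = lo ++ li := by
  decide +kernel

theorem cor : ICor M 13 3 := by
  refine red 13 3 L (by decide +kernel) fun z hz => ?_
  rw [h_ce, h_cf, h_c0, h_cef]
  refine final 32 (L.map fun i => (((src i : Fin 8) : ℕ), ((tgt i : Fin 8) : ℕ), z i)) ?_ lo li ?_
    _ _ _ _ sq (by norm_num) h_dj h_bp h_bn h_test
  · intro p hp
    rw [List.mem_map] at hp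
    obtain ⟨i, _, rfl⟩ := hp
    exact (hz i).le
  · rw [← h_L, List.map_map]
    rfl

end Pool.NC.K44.O8
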