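import Pool.Agent.NC.O0
import Pool.Agent.NC.O1
import Pool.Agent.NC.O2
import Pool.Agent.NC.O3
import Pool.Agent.NC.O4
import Pool.Agent.NC.O5
import Pool.Agent.NC.O6
import Pool.Agent.NC.O7
import Pool.Agent.NC.O8
import Pool.Agent.NC.O9

/-!
The cycle matroid of `K_{4,4} + e` is independence-correlated.
-/

set_option autoImplicit false

namespace Pool.NC.K44

open Pool.NC

/-- The inequality for the ten representatives. -/
theorem cor_rep : ∀ k : Fin 10, ICor M (rep k).1 (rep k).2
  | 0 => O0.cor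
  | 1 => O1.cor
  | 2 => O2.cor
  | 3 => O3.cor
  | 4 => O4.cor
  | 5 => O5.cor
  | 6 => O6.cor
  | 7 => O7.cor
  | 8 => O8.cor
  | 9 => O9.cor

/-- The inequality for all pairs. -/
theorem cor_all (e f : Fin 17) (hef : e ≠ f) : ICor M e f := all_pairs cor_rep e f hef

end Pool.NC.K44
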