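import Pool.Agent.NC.Dp
import Pool.Agent.NC.K44

/-!
The cycle matroid of `K_{4,4} + e` is not spanning-correlated: edge `0 = 01` and edge `16 = 76`.
-/

set_option autoImplicit false

namespace Pool.NC.K44

open Finset Pool.Agent.NC Pool.NC

/-- The weights of absence. -/
def sl : Fin 17 → ℕ :=
  ![1, 100, 100, 50, 1000, 100, 100, 50, 1000, 100, 100, 50, 1000, 10000, 10000, 500, 1]

theorem sl_pos (i : Fin 17) : 0 < sl i := by revert i; decide

/-- The programme of the graph. -/
def sops : List (Op 8) :=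
  [.edge 2 0 1 100, .edge 2 1 1 100, .edge 2 5 1 50, .edge 2 6 1 1000, .forget 2,
   .edge 3 0 1 100, .edge 3 1 1 100, .edge 3 5 1 50, .edge 3 6 1 1000, .forget 3,
   .edge 4 0 1 100, .edge 4 1 1 100, .edge 4 5 1 50, .edge 4 6 1 1000, .forget 4,
   .edge 7 0 1 10000, .edge 7 1 1 10000, .edge 7 5 1 500]

theorem sops_ok : Op.ok sops = true := by decide +kernel

/-- Codes of the discrete partition, and of the partitions with the classes `01`, `76`. -/
def s00 : ℕ := 0x76543210
def s10 : ℕ := 0x76543200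
def s01 : ℕ := 0x66543210
def s11 : ℕ := 0x66543200

/-- The four numbers. -/
def S00 : ℕ := 1276101682244675005771751
def S10 : ℕ := 85458886543183695005771751
def S01 : ℕ := 1023728308578349976005771751
def S11 : ℕ := 68557832991277278996005771751

theorem w00 : ZL (phi ℕ) (Op.edges sops) (sem 8 s00) = S00 :=
  Op.value (by norm_num) sops sops_ok _ _ (by decide +kernel)

theorem w10 : ZL (phi ℕ) (Op.edges sops) (sem 8 s10) = S10 :=
  Op.value (by norm_num) sops sops_ok _ _ (by decide +kernel)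

theorem w01 : ZL (phi ℕ) (Op.edges sops) (sem 8 s01) = S01 :=
  Op.value (by norm_num) sops sops_ok _ _ (by decide +kernel)

theorem w11 : ZL (phi ℕ) (Op.edges sops) (sem 8 s11) = S11 :=
  Op.value (by norm_num) sops sops_ok _ _ (by decide +kernel)

/-- The partition generated by the edge `i`. -/
def sg (i : Fin 17) : Setoid (Fin 8) := gS s(src i, tgt i)

theorem conn_iff_sup (A : Finset (Fin 17)) :
    Conn (d := 7) src tgt (A : Set (Fin 17)) ↔ A.sup sg = ⊤ := by
  classical
  have h : (SimpleGraph.fromEdgeSet ((fun e => s(src e, tgt e)) '' (A : Set (Fin 17)))) =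
      SimpleGraph.fromEdgeSet ((A.image (fun e => s(src e, tgt e)) : Finset (Sym2 (Fin 8))) :
        Set (Sym2 (Fin 8))) := by
    rw [Finset.coe_image]
  unfold Conn
  rw [h, connected_iff, Finset.sup_image]
  rfl

/-- The weights of absence, with `0` on `X`. -/
def slX (X : Finset (Fin 17)) (i : Fin 17) : ℕ := if i ∈ X then 0 else sl i

open Classical in
/-- The weighted number of connected spanning edge sets `A` which contain `X`. -/
noncomputable def SK (X : Finset (Fin 17)) : ℕ :=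
  ∑ A : Finset (Fin 17), if Conn (d := 7) src tgt (A : Set (Fin 17)) ∧ X ⊆ A then ∏ i ∈ Aᶜ, sl i else 0

theorem SK_eq_Z (X : Finset (Fin 17)) :
    SK X = Z sg (fun _ => 1) (slX X) (phi ℕ) (Finset.univ : Finset (Fin 17)) ⊥ := by
  classical
  unfold SK Z
  rw [Finset.powerset_univ]
  refine Finset.sum_congr rfl fun A _ => ?_
  rw [Finset.prod_const_one, one_mul, bot_sup_eq, phi]
  have hc := conn_iff_sup A
  by_cases hX : X ⊆ A
  · have hprod : ∏ i ∈ Finset.univ \ A, slX X i = ∏ i ∈ Aᶜ, sl i := by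
      rw [← Finset.compl_eq_univ_sdiff]
      refine Finset.prod_congr rfl fun i hi => ?_
      rw [slX, if_neg fun h => (Finset.mem_compl.1 hi) (hX h)]
    rw [hprod]
    by_cases h : Conn (d := 7) src tgt (A : Set (Fin 17))
    · rw [if_pos ⟨h, hX⟩, if_pos (hc.1 h), mul_one]
    · rw [if_neg fun h' => h h'.1, if_neg fun h' => h (hc.2 h'), mul_zero]
  · rw [if_neg fun h' => hX h'.2]
    obtain ⟨i, hi, hiA⟩ := Finset.not_subset.1 hX
    rw [Finset.prod_eq_zero (i := i) (by simp [hiA]) (by rw [slX, if_pos hi]), zero_mul]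

/-- The fifteen weighted edges. -/
def sE : List (Fin 17) := [1, 2, 3, 4, 5, 6, 7, 8, 9, 10, 11, 12, 13, 14, 15]

theorem suniv : (Finset.univ : Finset (Fin 17)) = insert 0 (insert 16 sE.toFinset) := by decide

theorem Z_congr' {ι L R : Type*} [DecidableEq ι] [SemilatticeSup L] [OrderBot L] [CommSemiring R]
    (g : ι → L) (a b b' : ι → R) (φ : L → R) (E : Finset ι) (r : L) (h : ∀ i ∈ E, b i = b' i) :
    Z g a b φ E r = Z g a b' φ E r := by
  unfold Z
  refine Finset.sum_congr rfl fun F _ => ?_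
  rw [Finset.prod_congr (f := b) (g := b') rfl fun i hi => h i (Finset.mem_sdiff.1 hi).1]

theorem Z_sE (X : Finset (Fin 17)) (hX : ∀ i ∈ sE.toFinset, i ∉ X) (r : Setoid (Fin 8)) :
    Z sg (fun _ => 1) (slX X) (phi ℕ) sE.toFinset r = ZL (phi ℕ) (Op.edges sops) r := by
  rw [Z_congr' sg _ (slX X) sl (phi ℕ) _ r fun i hi => by rw [slX, if_neg (hX i hi)],
    Z_eq_ZL sg _ _ _ sE (by decide) r]
  rfl

theorem ssem00 : sem 8 s00 = ⊥ := by
  rw [eq_bot_iff]
  have h : ∀ a b : Fin 8, lab s00 a = lab s00 b → a = b := by decide +kernel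
  intro a b hab
  exact h a b hab

theorem ssem10 : sem 8 s10 = ⊥ ⊔ sg 0 := by
  have h : s10 = join 8 s00 (0 : Fin 8) (1 : Fin 8) := by decide +kernel
  rw [h, sem_join, ssem00]
  rfl

theorem ssem01 : sem 8 s01 = ⊥ ⊔ sg 16 := by
  have h : s01 = join 8 s00 (7 : Fin 8) (6 : Fin 8) := by decide +kernel
  rw [h, sem_join, ssem00]
  rfl

theorem ssem11 : sem 8 s11 = ⊥ ⊔ sg 0 ⊔ sg 16 := by
  have h : s11 = join 8 s10 (7 : Fin 8) (6 : Fin 8) := by decide +kernel
  rw [h, sem_join, ssem10]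
  rfl

theorem SK_expand (X : Finset (Fin 17)) (hX : ∀ i ∈ sE.toFinset, i ∉ X) :
    SK X = slX X 0 * (slX X 16 * S00 + S01) + (slX X 16 * S10 + S11) := by
  have h0 : (0 : Fin 17) ∉ insert (16 : Fin 17) sE.toFinset := by decide
  have h1 : (16 : Fin 17) ∉ sE.toFinset := by decide
  rw [SK_eq_Z, suniv, Z_insert _ _ _ _ h0, Z_insert _ _ _ _ h1, Z_insert _ _ _ _ h1,
    Z_sE X hX, Z_sE X hX, Z_sE X hX, Z_sE X hX, ← ssem11, ← ssem10, ← ssem01, ← ssem00,
    w00, w10, w01, w11]
  simp only [one_mul]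

theorem SK_ineq : SK {0} * SK {16} < SK {0, 16} * SK ∅ := by
  have a0 : SK ∅ = S00 + S01 + S10 + S11 := by
    rw [SK_expand ∅ (by simp)]
    have h0 : slX ∅ 0 = 1 := by decide
    have h1 : slX ∅ 16 = 1 := by decide
    rw [h0, h1]; ring
  have a1 : SK {0} = S10 + S11 := by
    rw [SK_expand {0} (by decide)]
    have h0 : slX {0} 0 = 0 := by decide
    have h1 : slX {0} 16 = 1 := by decide
    rw [h0, h1]; ring
  have a2 : SK {16} = S01 + S11 := by
    rw [SK_expand {16} (by decide)]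
    have h0 : slX {16} 0 = 1 := by decide
    have h1 : slX {16} 16 = 0 := by decide
    rw [h0, h1]; ring
  have a3 : SK {0, 16} = S11 := by
    rw [SK_expand {0, 16} (by decide)]
    have h0 : slX {0, 16} 0 = 0 := by decide
    have h1 : slX {0, 16} 16 = 0 := by decide
    rw [h0, h1]; ring
  rw [a0, a1, a2, a3]
  unfold S00 S01 S10 S11
  norm_num

/-- The real weights. -/
noncomputable def swt (i : Fin 17) : ℝ := ((sl i : ℕ) : ℝ)⁻¹

theorem swt_pos (i : Fin 17) : 0 < swt i := by
  have := sl_pos i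
  unfold swt
  positivity

/-- The product of all weights of absence. -/
noncomputable def stot : ℝ := ∏ i : Fin 17, ((sl i : ℕ) : ℝ)

theorem stot_pos : 0 < stot := by
  unfold stot
  refine Finset.prod_pos fun i _ => ?_
  exact_mod_cast sl_pos i

theorem prod_swt (A : Finset (Fin 17)) :
    ∏ a ∈ A, swt a = (((∏ i ∈ Aᶜ, sl i : ℕ) : ℝ)) / stot := by
  rw [eq_div_iff stot_pos.ne', stot, ← Finset.prod_mul_prod_compl A, ← mul_assoc,
    ← Finset.prod_mul_distrib, Nat.cast_prod]
  have h1 : ∏ i ∈ A, swt i * ((sl i : ℕ) : ℝ) = 1 := by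
    refine Finset.prod_eq_one fun i _ => ?_
    have : ((sl i : ℕ) : ℝ) ≠ 0 := by exact_mod_cast (sl_pos i).ne'
    unfold swt
    exact inv_mul_cancel₀ this
  rw [h1, one_mul]

open Classical in
theorem sum_SK (X : Finset (Fin 17)) :
    (∑ A : Finset (Fin 17), if M.Spanning (A : Set (Fin 17)) ∧ X ⊆ A then ∏ a ∈ A, swt a else 0) =
      (SK X : ℝ) / stot := by
  unfold SK
  rw [Nat.cast_sum, Finset.sum_div]
  refine Finset.sum_congr rfl fun A _ => ?_
  have h0 : M.Spanning (A : Set (Fin 17)) ↔ Conn (d := 7) src tgt (A : Set (Fin 17)) :=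
    cyc_spanning_iff (d := 7) src tgt conn _
  by_cases h : Conn (d := 7) src tgt (A : Set (Fin 17)) ∧ X ⊆ A
  · rw [if_pos ⟨h0.2 h.1, h.2⟩, if_pos h, prod_swt]
  · rw [if_neg fun h' => h ⟨h0.1 h'.1, h'.2⟩, if_neg h, Nat.cast_zero, zero_div]

open Classical in
/-- `K_{4,4} + e` is not spanning-correlated; in the words of S11323 -/
theorem not_spanning_correlated :
    ¬ (∀ e f : Fin 17, e ≠ f → ∀ z : Fin 17 → ℝ, (∀ x, 0 < z x) →
        (∑ A : Finset (Fin 17),
            if M.Spanning (A : Set (Fin 17)) ∧ e ∈ A ∧ f ∈ A then ∏ a ∈ A, z a else 0) *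
          (∑ A : Finset (Fin 17),
            if M.Spanning (A : Set (Fin 17)) then ∏ a ∈ A, z a else 0) ≤
        (∑ A : Finset (Fin 17),
            if M.Spanning (A : Set (Fin 17)) ∧ e ∈ A then ∏ a ∈ A, z a else 0) *
          (∑ A : Finset (Fin 17),
            if M.Spanning (A : Set (Fin 17)) ∧ f ∈ A then ∏ a ∈ A, z a else 0)) := by
  intro h
  have h1 := h 0 16 (by decide) swt swt_pos
  have h0 := sum_SK {0}
  have h16 := sum_SK {16}
  have h016 := sum_SK {0, 16}
  have he := sum_SK ∅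
  simp only [Finset.singleton_subset_iff, Finset.insert_subset_iff, Finset.empty_subset,
    and_true] at h0 h16 h016 he
  rw [h0, h16, h016, he, div_mul_div_comm, div_mul_div_comm] at h1
  refine absurd h1 (not_le.2 ?_)
  refine div_lt_div_of_pos_right ?_ (mul_pos stot_pos stot_pos)
  exact_mod_cast SK_ineq

end Pool.NC.K44
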