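import Mathlib

/-!
# The limit `q → 0` of random-cluster sums

Sums of `q ^ k w` with `1 ≤ k w` over finite sets, divided by `q`, tend to the number of the `w`
with `k w = 1` for `q → 0`.
-/

set_option autoImplicit false

namespace Pool.NC

open Finset

theorem sum_pow_eq {Ω : Type*} (k : Ω → ℕ) (hk : ∀ w, 1 ≤ k w) (U : Finset Ω) (q : ℝ) :
    ∑ w ∈ U, q ^ k w = q * ∑ w ∈ U, q ^ (k w - 1) := by
  rw [mul_sum]
  refine sum_congr rfl fun w _ => ?_
  rw [← pow_succ', Nat.sub_add_cancel (hk w)]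

theorem tendsto_sum {Ω : Type*} (k : Ω → ℕ) (hk : ∀ w, 1 ≤ k w) (U : Finset Ω) :
    Filter.Tendsto (fun q : ℝ => ∑ w ∈ U, q ^ (k w - 1)) (nhdsWithin 0 (Set.Ioi 0))
      (nhds ((U.filter (fun w => k w = 1)).card : ℝ)) := by
  have hc : Continuous (fun q : ℝ => ∑ w ∈ U, q ^ (k w - 1)) := by fun_prop
  have h0 : (∑ w ∈ U, (0 : ℝ) ^ (k w - 1)) = ((U.filter (fun w => k w = 1)).card : ℝ) := by
    rw [card_filter, Nat.cast_sum]
    refine sum_congr rfl fun w _ => ?_
    have := hk w
    by_cases h : k w = 1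
    · simp [h]
    · have h1 : k w - 1 ≠ 0 := by omega
      simp [h, h1]
  have := hc.tendsto 0
  rw [h0] at this
  exact this.mono_left nhdsWithin_le_nhds

/-- If the random-cluster sums satisfy the correlation inequality for all `q` in `(0, 1)`, then so
do the numbers of the configurations with one component. -/
theorem lim_le {Ω : Type*} (k : Ω → ℕ) (hk : ∀ w, 1 ≤ k w) (U A B D : Finset Ω)
    (h : ∀ q : ℝ, 0 < q → q < 1 →
      (∑ w ∈ D, q ^ k w) * (∑ w ∈ U, q ^ k w) ≤ (∑ w ∈ A, q ^ k w) * (∑ w ∈ B, q ^ k w)) :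
    (D.filter (fun w => k w = 1)).card * (U.filter (fun w => k w = 1)).card ≤
      (A.filter (fun w => k w = 1)).card * (B.filter (fun w => k w = 1)).card := by
  have h1 : ((D.filter (fun w => k w = 1)).card : ℝ) * (U.filter (fun w => k w = 1)).card ≤
      (A.filter (fun w => k w = 1)).card * (B.filter (fun w => k w = 1)).card := by
    refine le_of_tendsto_of_tendsto ((tendsto_sum k hk D).mul (tendsto_sum k hk U))
      ((tendsto_sum k hk A).mul (tendsto_sum k hk B)) ?_
    have hmem : Set.Ioo (0 : ℝ) 1 ∈ nhdsWithin (0 : ℝ) (Set.Ioi 0) :=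
      Ioo_mem_nhdsGT one_pos
    filter_upwards [hmem] with q hq
    have h2 := h q hq.1 hq.2
    rw [sum_pow_eq k hk D, sum_pow_eq k hk U, sum_pow_eq k hk A, sum_pow_eq k hk B] at h2
    have hq2 : 0 < q * q := mul_pos hq.1 hq.1
    refine le_of_mul_le_mul_left ?_ hq2
    calc q * q * ((∑ w ∈ D, q ^ (k w - 1)) * ∑ w ∈ U, q ^ (k w - 1))
        = (q * ∑ w ∈ D, q ^ (k w - 1)) * (q * ∑ w ∈ U, q ^ (k w - 1)) := by ring
      _ ≤ (q * ∑ w ∈ A, q ^ (k w - 1)) * (q * ∑ w ∈ B, q ^ (k w - 1)) := h2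
      _ = _ := by ring
  exact_mod_cast h1

/-- The version with quotients by the total sum `Z > 0`. -/
theorem mul_le_of_div_le {d z a b : ℝ} (hz : 0 < z) (h : d / z ≤ (a / z) * (b / z)) :
    d * z ≤ a * b := by
  rw [div_mul_div_comm, div_le_div_iff₀ hz (mul_pos hz hz)] at h
  exact le_of_mul_le_mul_right (by linarith) hz

section Graph

variable {V : Type*} (G : SimpleGraph V)

theorem natCard_cc_eq_one [Finite V] :
    Nat.card G.ConnectedComponent = 1 ↔ G.Connected := by
  have : Finite G.ConnectedComponent := Quot.finite _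
  rw [Nat.card_eq_one_iff_unique]
  constructor
  · rintro ⟨hs, ⟨c⟩⟩
    have hn : Nonempty V := ⟨c.out⟩
    refine ⟨fun u v => ?_⟩
    exact SimpleGraph.ConnectedComponent.exact (hs.elim _ _)
  · intro h
    refine ⟨⟨fun a b => ?_⟩, ?_⟩
    · induction a using SimpleGraph.ConnectedComponent.ind with | _ u =>
      induction b using SimpleGraph.ConnectedComponent.ind with | _ v =>
      exact SimpleGraph.ConnectedComponent.sound (h.preconnected u v)
    · obtain ⟨v⟩ := h.nonempty
      exact ⟨G.connectedComponentMk v⟩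

theorem one_le_natCard_cc [Finite V] [Nonempty V] : 1 ≤ Nat.card G.ConnectedComponent := by
  have : Finite G.ConnectedComponent := Quot.finite _
  have : Nonempty G.ConnectedComponent := ⟨G.connectedComponentMk (Classical.arbitrary V)⟩
  exact Nat.card_pos

end Graph

end Pool.NC
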