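import Pool.Agent.NC.Base
import Pool.Agent.NC.Defs

/-!
The numerical inequality `K {0} * K {1} < K {0, 1} * K ∅`.
-/

set_option autoImplicit false

namespace Pool.NC

open Finset Pool.Agent.NC

theorem edge_eq (i : Fin 23) : edge i = s((ends i).1, (ends i).2) := rfl

theorem gr_connected_iff (A : Finset (Fin 23)) :
    (gr A).Connected ↔ (A.sup fun i => gS (edge i)) = ⊤ := by
  classical
  have h : gr A = SimpleGraph.fromEdgeSet ((A.image edge : Finset (Sym2 (Fin 10))) : Set (Sym2 (Fin 10))) := by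
    unfold gr
    rw [Finset.coe_image]
    rfl
  rw [h, connected_iff, Finset.sup_image]
  rfl

theorem Z_congr {ι L R : Type*} [DecidableEq ι] [SemilatticeSup L] [OrderBot L] [CommSemiring R]
    (g : ι → L) (a b b' : ι → R) (φ : L → R) (E : Finset ι) (r : L) (h : ∀ i ∈ E, b i = b' i) :
    Z g a b φ E r = Z g a b' φ E r := by
  unfold Z
  refine Finset.sum_congr rfl fun F _ => ?_
  rw [Finset.prod_congr (f := b) (g := b') rfl fun i hi => h i (Finset.mem_sdiff.1 hi).1]

/-- The weights of absence, with `0` on `X`. -/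
def lenX (X : Finset (Fin 23)) (i : Fin 23) : ℕ := if i ∈ X then 0 else len i

/-- The twenty one weighted edges. -/
def E0 : List (Fin 23) := [2, 3, 4, 5, 6, 7, 8, 9, 10, 11, 12, 13, 14, 15, 16, 17, 18, 19, 20, 21, 22]

/-- The partition generated by the edge `i`. -/
def g (i : Fin 23) : Setoid (Fin 10) := gS (edge i)

theorem K_eq_Z (X : Finset (Fin 23)) :
    K X = Z g (fun _ => 1) (lenX X) (phi ℕ) (Finset.univ : Finset (Fin 23)) ⊥ := by
  classical
  unfold K Z
  rw [Finset.powerset_univ, Finset.sum_filter]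
  refine Finset.sum_congr rfl fun A _ => ?_
  rw [Finset.prod_const_one, one_mul, bot_sup_eq, phi]
  have hc : (gr A).Connected ↔ A.sup g = ⊤ := gr_connected_iff A
  by_cases hX : X ⊆ A
  · have hprod : ∏ i ∈ Finset.univ \ A, lenX X i = ∏ i ∈ Aᶜ, len i := by
      rw [← Finset.compl_eq_univ_sdiff]
      refine Finset.prod_congr rfl fun i hi => ?_
      rw [lenX, if_neg fun h => (Finset.mem_compl.1 hi) (hX h)]
    rw [hprod]
    by_cases h : (gr A).Connected
    · rw [if_pos ⟨hX, h⟩, if_pos (hc.1 h), mul_one]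
    · rw [if_neg fun h' => h h'.2, if_neg fun h' => h (hc.2 h'), mul_zero]
  · rw [if_neg fun h' => hX h'.1]
    obtain ⟨i, hi, hiA⟩ := Finset.not_subset.1 hX
    rw [Finset.prod_eq_zero (i := i) (by simp [hiA]) (by rw [lenX, if_pos hi]), zero_mul]

theorem univ_eq : (Finset.univ : Finset (Fin 23)) = insert 0 (insert 1 E0.toFinset) := by decide

theorem Z_E0 (X : Finset (Fin 23)) (hX : ∀ i ∈ E0.toFinset, i ∉ X) (r : Setoid (Fin 10)) :
    Z g (fun _ => 1) (lenX X) (phi ℕ) E0.toFinset r = ZL (phi ℕ) (Op.edges ops) r := by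
  rw [Z_congr g _ (lenX X) len (phi ℕ) _ r fun i hi => by rw [lenX, if_neg (hX i hi)],
    Z_eq_ZL g _ _ _ E0 (by decide) r]
  rfl

theorem sem00 : sem 10 c00 = ⊥ := by
  rw [eq_bot_iff]
  have h : ∀ a b : Fin 10, lab c00 a = lab c00 b → a = b := by decide +kernel
  intro a b hab
  exact h a b hab

theorem sem10 : sem 10 c10 = ⊥ ⊔ g 0 := by
  have h : c10 = join 10 c00 (6 : Fin 10) (7 : Fin 10) := by decide +kernel
  rw [h, sem_join, sem00]
  rfl

theorem sem01 : sem 10 c01 = ⊥ ⊔ g 1 := by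
  have h : c01 = join 10 c00 (8 : Fin 10) (9 : Fin 10) := by decide +kernel
  rw [h, sem_join, sem00]
  rfl

theorem sem11 : sem 10 c11 = ⊥ ⊔ g 0 ⊔ g 1 := by
  have h : c11 = join 10 c10 (8 : Fin 10) (9 : Fin 10) := by decide +kernel
  rw [h, sem_join, sem10]
  rfl

/-- The four numbers. -/
def N00 : ℕ := 11794649530619386701236069418381
def N10 : ℕ := 2196582734364233965774274549418381
def N01 : ℕ := 5958374266902266501513293414668381
def N11 : ℕ := 1109661009002684468787002811894668381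

theorem K_expand (X : Finset (Fin 23)) (hX : ∀ i ∈ E0.toFinset, i ∉ X) :
    K X = lenX X 0 * (lenX X 1 * N00 + N01) + (lenX X 1 * N10 + N11) := by
  have h0 : (0 : Fin 23) ∉ insert (1 : Fin 23) E0.toFinset := by decide
  have h1 : (1 : Fin 23) ∉ E0.toFinset := by decide
  rw [K_eq_Z, univ_eq, Z_insert _ _ _ _ h0, Z_insert _ _ _ _ h1, Z_insert _ _ _ _ h1,
    Z_E0 X hX, Z_E0 X hX, Z_E0 X hX, Z_E0 X hX, ← sem11, ← sem10, ← sem01, ← sem00, v00, v10, v01, v11]
  simp only [one_mul]
  rfl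

theorem K_empty : K ∅ = N00 + N01 + N10 + N11 := by
  rw [K_expand ∅ (by simp)]
  have h0 : lenX ∅ 0 = 1 := by decide
  have h1 : lenX ∅ 1 = 1 := by decide
  rw [h0, h1]; ring

theorem K_zero : K {0} = N10 + N11 := by
  rw [K_expand {0} (by decide)]
  have h0 : lenX {0} 0 = 0 := by decide
  have h1 : lenX {0} 1 = 1 := by decide
  rw [h0, h1]; ring

theorem K_one : K {1} = N01 + N11 := by
  rw [K_expand {1} (by decide)]
  have h0 : lenX {1} 0 = 1 := by decide
  have h1 : lenX {1} 1 = 0 := by decide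
  rw [h0, h1]; ring

theorem K_both : K {0, 1} = N11 := by
  rw [K_expand {0, 1} (by decide)]
  have h0 : lenX {0, 1} 0 = 0 := by decide
  have h1 : lenX {0, 1} 1 = 0 := by decide
  rw [h0, h1]; ring

theorem K_ineq : K {0} * K {1} < K {0, 1} * K ∅ := by
  rw [K_zero, K_one, K_both, K_empty]
  unfold N00 N01 N10 N11
  norm_num

end Pool.NC
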