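import Mathlib
import Pool.Agent.NC.Lim

/-!
# Random-cluster measures from the uniform connected subgraph

`PosCor`: some finite simple graph has two edges which are positively correlated in the uniform
connected spanning subgraph. Then the same two edges are positively correlated for the
random-cluster measure with `p = 1 / 2` and small `q`.
-/

set_option autoImplicit false

namespace Pool.NC

open Finset

/-- Some finite simple graph has distinct edges `e`, `f` with `K(e) K(f) < K(e, f) K`, where `K(S)`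
is the number of connected spanning edge sets which contain `S`. -/
def PosCor : Prop :=
  ∃ (n : ℕ) (G : SimpleGraph (Fin n)) (e f : Sym2 (Fin n)),
    e ∈ G.edgeSet ∧ f ∈ G.edgeSet ∧ e ≠ f ∧
    {F : Finset (Sym2 (Fin n)) | (↑F : Set (Sym2 (Fin n))) ⊆ G.edgeSet ∧ e ∈ F ∧
        (SimpleGraph.fromEdgeSet (↑F : Set (Sym2 (Fin n)))).Connected}.ncard *
      {F : Finset (Sym2 (Fin n)) | (↑F : Set (Sym2 (Fin n))) ⊆ G.edgeSet ∧ f ∈ F ∧
        (SimpleGraph.fromEdgeSet (↑F : Set (Sym2 (Fin n)))).Connected}.ncard <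
    {F : Finset (Sym2 (Fin n)) | (↑F : Set (Sym2 (Fin n))) ⊆ G.edgeSet ∧ e ∈ F ∧ f ∈ F ∧
        (SimpleGraph.fromEdgeSet (↑F : Set (Sym2 (Fin n)))).Connected}.ncard *
      {F : Finset (Sym2 (Fin n)) | (↑F : Set (Sym2 (Fin n))) ⊆ G.edgeSet ∧
        (SimpleGraph.fromEdgeSet (↑F : Set (Sym2 (Fin n)))).Connected}.ncard

section

variable {n : ℕ} (G : SimpleGraph (Fin n))

/-- The embedding of the edges in the pairs. -/
abbrev emb : {x : Sym2 (Fin n) // x ∈ G.edgeSet} ↪ Sym2 (Fin n) := Function.Embedding.subtype _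

theorem ncard_eq [Fintype {x : Sym2 (Fin n) // x ∈ G.edgeSet}] (P : Finset (Sym2 (Fin n)) → Prop)
    [DecidablePred fun w : Finset {x : Sym2 (Fin n) // x ∈ G.edgeSet} => P (w.map (emb G))] :
    {F : Finset (Sym2 (Fin n)) | (↑F : Set (Sym2 (Fin n))) ⊆ G.edgeSet ∧ P F}.ncard =
      (univ.filter fun w : Finset {x : Sym2 (Fin n) // x ∈ G.edgeSet} => P (w.map (emb G))).card := by
  rw [← Set.ncard_coe_finset, ← Set.ncard_image_of_injective _ (map_injective (emb G))]
  congr 1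
  ext F
  simp only [Set.mem_ofPred_eq, coe_filter, mem_univ, true_and, Set.mem_image]
  constructor
  · rintro ⟨h1, h2⟩
    have h3 : (F.attach.map ⟨fun x => (⟨x.1, h1 x.2⟩ : {x : Sym2 (Fin n) // x ∈ G.edgeSet}),
        fun a b hab => Subtype.ext (by simpa using hab)⟩).map (emb G) = F := by
      ext x
      simp only [mem_map, mem_attach, Function.Embedding.coeFn_mk, true_and, Subtype.exists,
        Function.Embedding.coe_subtype, exists_and_right, exists_eq_right]
      constructor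
      · rintro ⟨_, y, hy, h⟩
        have : y = x := by simpa using congrArg Subtype.val h
        exact this ▸ hy
      · intro hx
        exact ⟨h1 hx, x, hx, rfl⟩
    exact ⟨_, by rw [h3]; exact h2, h3⟩
  · rintro ⟨w, h1, rfl⟩
    refine ⟨?_, h1⟩
    intro x hx
    simp only [coe_map, Set.mem_image] at hx
    obtain ⟨y, -, rfl⟩ := hx
    exact y.2

theorem mem_map_emb {e : Sym2 (Fin n)} (he : e ∈ G.edgeSet)
    (w : Finset {x : Sym2 (Fin n) // x ∈ G.edgeSet}) : e ∈ w.map (emb G) ↔ ⟨e, he⟩ ∈ w := by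
  simp [he]

theorem card_filter_filter {Ω : Type*} [DecidableEq Ω] (U : Finset Ω) (p r : Ω → Prop)
    [DecidablePred p] [DecidablePred r] :
    ((U.filter p).filter r) = U.filter fun w => p w ∧ r w := by
  rw [filter_filter]

/-- The main inequality: under the correlation inequality for the sums of `q ^ k`, where `k = 1`
means connected, the numbers of connected sets satisfy it. -/
theorem key [Fintype {x : Sym2 (Fin n) // x ∈ G.edgeSet}]
    [DecidableEq {x : Sym2 (Fin n) // x ∈ G.edgeSet}]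
    {e f : Sym2 (Fin n)} (he : e ∈ G.edgeSet) (hf : f ∈ G.edgeSet)
    (k : Finset {x : Sym2 (Fin n) // x ∈ G.edgeSet} → ℕ) (hk : ∀ w, 1 ≤ k w)
    (hk1 : ∀ w, k w = 1 ↔
      (SimpleGraph.fromEdgeSet (↑(w.map (emb G)) : Set (Sym2 (Fin n)))).Connected)
    (h : ∀ q : ℝ, 0 < q → q < 1 →
      (∑ w ∈ univ.filter (fun w : Finset {x : Sym2 (Fin n) // x ∈ G.edgeSet} =>
          ⟨e, he⟩ ∈ w ∧ ⟨f, hf⟩ ∈ w), q ^ k w) * (∑ w, q ^ k w) ≤
        (∑ w ∈ univ.filter (fun w : Finset {x : Sym2 (Fin n) // x ∈ G.edgeSet} =>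
          ⟨e, he⟩ ∈ w), q ^ k w) *
        (∑ w ∈ univ.filter (fun w : Finset {x : Sym2 (Fin n) // x ∈ G.edgeSet} =>
          ⟨f, hf⟩ ∈ w), q ^ k w)) :
    {F : Finset (Sym2 (Fin n)) | (↑F : Set (Sym2 (Fin n))) ⊆ G.edgeSet ∧ e ∈ F ∧ f ∈ F ∧
        (SimpleGraph.fromEdgeSet (↑F : Set (Sym2 (Fin n)))).Connected}.ncard *
      {F : Finset (Sym2 (Fin n)) | (↑F : Set (Sym2 (Fin n))) ⊆ G.edgeSet ∧
        (SimpleGraph.fromEdgeSet (↑F : Set (Sym2 (Fin n)))).Connected}.ncard ≤
    {F : Finset (Sym2 (Fin n)) | (↑F : Set (Sym2 (Fin n))) ⊆ G.edgeSet ∧ e ∈ F ∧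
        (SimpleGraph.fromEdgeSet (↑F : Set (Sym2 (Fin n)))).Connected}.ncard *
      {F : Finset (Sym2 (Fin n)) | (↑F : Set (Sym2 (Fin n))) ⊆ G.edgeSet ∧ f ∈ F ∧
        (SimpleGraph.fromEdgeSet (↑F : Set (Sym2 (Fin n)))).Connected}.ncard := by
  classical
  have h1 := lim_le k hk univ _ _ _ h
  rw [ncard_eq G (fun F => e ∈ F ∧ f ∈ F ∧
      (SimpleGraph.fromEdgeSet (↑F : Set (Sym2 (Fin n)))).Connected),
    ncard_eq G (fun F => (SimpleGraph.fromEdgeSet (↑F : Set (Sym2 (Fin n)))).Connected),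
    ncard_eq G (fun F => e ∈ F ∧ (SimpleGraph.fromEdgeSet (↑F : Set (Sym2 (Fin n)))).Connected),
    ncard_eq G (fun F => f ∈ F ∧ (SimpleGraph.fromEdgeSet (↑F : Set (Sym2 (Fin n)))).Connected)]
  simp only [filter_filter] at h1
  have e1 : (univ.filter fun w : Finset {x : Sym2 (Fin n) // x ∈ G.edgeSet} =>
      e ∈ w.map (emb G) ∧ f ∈ w.map (emb G) ∧
        (SimpleGraph.fromEdgeSet (↑(w.map (emb G)) : Set (Sym2 (Fin n)))).Connected) =
      univ.filter fun w => (⟨e, he⟩ ∈ w ∧ ⟨f, hf⟩ ∈ w) ∧ k w = 1 := by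
    refine filter_congr fun w _ => ?_
    rw [mem_map_emb G he, mem_map_emb G hf, hk1, and_assoc]
  have e2 : (univ.filter fun w : Finset {x : Sym2 (Fin n) // x ∈ G.edgeSet} =>
        (SimpleGraph.fromEdgeSet (↑(w.map (emb G)) : Set (Sym2 (Fin n)))).Connected) =
      univ.filter fun w => k w = 1 := by
    refine filter_congr fun w _ => ?_
    rw [hk1]
  have e3 : (univ.filter fun w : Finset {x : Sym2 (Fin n) // x ∈ G.edgeSet} =>
      e ∈ w.map (emb G) ∧
        (SimpleGraph.fromEdgeSet (↑(w.map (emb G)) : Set (Sym2 (Fin n)))).Connected) =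
      univ.filter fun w => ⟨e, he⟩ ∈ w ∧ k w = 1 := by
    refine filter_congr fun w _ => ?_
    rw [mem_map_emb G he, hk1]
  have e4 : (univ.filter fun w : Finset {x : Sym2 (Fin n) // x ∈ G.edgeSet} =>
      f ∈ w.map (emb G) ∧
        (SimpleGraph.fromEdgeSet (↑(w.map (emb G)) : Set (Sym2 (Fin n)))).Connected) =
      univ.filter fun w => ⟨f, hf⟩ ∈ w ∧ k w = 1 := by
    refine filter_congr fun w _ => ?_
    rw [mem_map_emb G hf, hk1]
  rw [e1, e2, e3, e4]
  convert h1 using 2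

end

theorem pow_half {E : Type*} [Fintype E] (w : Finset E) (x : ℝ) :
    (1 / 2 : ℝ) ^ w.card * (1 - 1 / 2) ^ (Fintype.card E - w.card) * x =
      (1 / 2 : ℝ) ^ Fintype.card E * x := by
  have h : w.card ≤ Fintype.card E := card_le_univ w
  rw [show (1 - 1 / 2 : ℝ) = 1 / 2 by norm_num, ← pow_add, Nat.add_sub_cancel' h]

theorem cancel_sq {c d z a b : ℝ} (hc : 0 < c) (h : (c * d) * (c * z) ≤ (c * a) * (c * b)) :
    d * z ≤ a * b := by
  refine le_of_mul_le_mul_left ?_ (mul_pos hc hc)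
  linarith [mul_mul_mul_comm c d c z, mul_mul_mul_comm c a c b]

/-- The negation of S19511 from a graph with positively correlated edges. -/
theorem rc_edge (h : PosCor) :
    ¬ (∀ (V E : Type) [Fintype V] [Fintype E] [DecidableEq E] (ends : E → Sym2 V)
      (p q : ℝ), 0 < p → p < 1 → 0 < q → q < 1 → ∀ e f : E, e ≠ f →
      (∑ ω ∈ Finset.univ.filter (fun ω : Finset E => e ∈ ω ∧ f ∈ ω),
          p ^ ω.card * (1 - p) ^ (Fintype.card E - ω.card) *
            q ^ Nat.card (SimpleGraph.fromEdgeSet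
              {s : Sym2 V | ∃ x ∈ ω, ends x = s}).ConnectedComponent) /
        (∑ ω : Finset E,
          p ^ ω.card * (1 - p) ^ (Fintype.card E - ω.card) *
            q ^ Nat.card (SimpleGraph.fromEdgeSet
              {s : Sym2 V | ∃ x ∈ ω, ends x = s}).ConnectedComponent)
      ≤
      ((∑ ω ∈ Finset.univ.filter (fun ω : Finset E => e ∈ ω),
          p ^ ω.card * (1 - p) ^ (Fintype.card E - ω.card) *
            q ^ Nat.card (SimpleGraph.fromEdgeSet
              {s : Sym2 V | ∃ x ∈ ω, ends x = s}).ConnectedComponent) /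
        (∑ ω : Finset E,
          p ^ ω.card * (1 - p) ^ (Fintype.card E - ω.card) *
            q ^ Nat.card (SimpleGraph.fromEdgeSet
              {s : Sym2 V | ∃ x ∈ ω, ends x = s}).ConnectedComponent)) *
      ((∑ ω ∈ Finset.univ.filter (fun ω : Finset E => f ∈ ω),
          p ^ ω.card * (1 - p) ^ (Fintype.card E - ω.card) *
            q ^ Nat.card (SimpleGraph.fromEdgeSet
              {s : Sym2 V | ∃ x ∈ ω, ends x = s}).ConnectedComponent) /
        (∑ ω : Finset E,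
          p ^ ω.card * (1 - p) ^ (Fintype.card E - ω.card) *
            q ^ Nat.card (SimpleGraph.fromEdgeSet
              {s : Sym2 V | ∃ x ∈ ω, ends x = s}).ConnectedComponent))) := by
  classical
  intro H
  obtain ⟨n, G, e, f, he, hf, hne, hlt⟩ := h
  let _ : Fintype {x : Sym2 (Fin n) // x ∈ G.edgeSet} := Fintype.ofFinite _
  have hn : Nonempty (Fin n) := ⟨(Quot.out e).1⟩
  have hset : ∀ w : Finset {x : Sym2 (Fin n) // x ∈ G.edgeSet},
      {s : Sym2 (Fin n) | ∃ x ∈ w, (x : Sym2 (Fin n)) = s} = (↑(w.map (emb G)) : Set _) := by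
    intro w
    ext s
    simp
  refine absurd (key G he hf (fun w => Nat.card (SimpleGraph.fromEdgeSet
    {s : Sym2 (Fin n) | ∃ x ∈ w, (x : Sym2 (Fin n)) = s}).ConnectedComponent) ?_ ?_ ?_)
    (not_le.mpr hlt)
  · intro w
    exact one_le_natCard_cc _
  · intro w
    rw [natCard_cc_eq_one, hset w]
  · intro q hq0 hq1
    have h1 := H (Fin n) {x : Sym2 (Fin n) // x ∈ G.edgeSet} (fun x => x.1) (1 / 2) q (by norm_num)
      (by norm_num) hq0 hq1 ⟨e, he⟩ ⟨f, hf⟩ (by simpa using hne)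
    simp only [pow_half, ← mul_sum] at h1
    have hz : 0 < ∑ w : Finset {x : Sym2 (Fin n) // x ∈ G.edgeSet},
        q ^ Nat.card (SimpleGraph.fromEdgeSet
          {s : Sym2 (Fin n) | ∃ x ∈ w, (x : Sym2 (Fin n)) = s}).ConnectedComponent :=
      sum_pos (fun w _ => pow_pos hq0 _) ⟨∅, mem_univ _⟩
    have hc : (0 : ℝ) < (1 / 2 : ℝ) ^ Fintype.card {x : Sym2 (Fin n) // x ∈ G.edgeSet} := by
      positivity
    rw [mul_div_mul_left _ _ hc.ne', mul_div_mul_left _ _ hc.ne',
      mul_div_mul_left _ _ hc.ne'] at h1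
    exact mul_le_of_div_le hz h1

/-- The negation of S19179 from a graph with positively correlated edges. -/
theorem rc_disjoint (h : PosCor) :
    ¬ (∀ (V E : Type) [Fintype V] [Fintype E] [DecidableEq E] (ends : E → V × V) (p q : ℝ),
      0 < p → p < 1 → 0 < q → q < 1 →
      ∀ (w : Finset E → ℝ),
        (∀ ω : Finset E, w ω = p ^ (ω.card : ℕ) * (1 - p) ^ ((Finset.univ \ ω : Finset E).card : ℕ) *
          q ^ (Nat.card (SimpleGraph.ConnectedComponent
            (SimpleGraph.fromRel (fun u v : V => ∃ e : E, e ∈ ω ∧ ends e = (u, v)))) : ℕ)) →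
      ∀ (A B D : Finset (Finset E)),
        (∀ ω ω' : Finset E, ω ⊆ ω' → ω ∈ A → ω' ∈ A) →
        (∀ ω ω' : Finset E, ω ⊆ ω' → ω ∈ B → ω' ∈ B) →
        (∀ ω : Finset E, ω ∈ D ↔
          ∃ K L : Finset E, K ⊆ ω ∧ L ⊆ ω ∧ Disjoint K L ∧ K ∈ A ∧ L ∈ B) →
        (∑ ω ∈ D, w ω) * (∑ ω : Finset E, w ω)
          ≤ (∑ ω ∈ A, w ω) * (∑ ω ∈ B, w ω)) := by
  classical
  intro H
  obtain ⟨n, G, e, f, he, hf, hne, hlt⟩ := h
  let _ : Fintype {x : Sym2 (Fin n) // x ∈ G.edgeSet} := Fintype.ofFinite _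
  have hn : Nonempty (Fin n) := ⟨(Quot.out e).1⟩
  have hgr : ∀ w : Finset {x : Sym2 (Fin n) // x ∈ G.edgeSet},
      SimpleGraph.fromRel (fun u v : Fin n => ∃ x : {x : Sym2 (Fin n) // x ∈ G.edgeSet},
        x ∈ w ∧ Quot.out x.1 = (u, v)) =
      SimpleGraph.fromEdgeSet (↑(w.map (emb G)) : Set (Sym2 (Fin n))) := by
    intro w
    have hout : ∀ x : Sym2 (Fin n), s((Quot.out x).1, (Quot.out x).2) = x :=
      fun x => Quot.out_eq x
    ext u v
    rw [SimpleGraph.fromRel_adj, SimpleGraph.fromEdgeSet_adj]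
    simp only [coe_map, Set.mem_image, mem_coe, Function.Embedding.coe_subtype]
    constructor
    · rintro ⟨h1, ⟨x, hx, hxe⟩ | ⟨x, hx, hxe⟩⟩
      · refine ⟨⟨x, hx, ?_⟩, h1⟩
        rw [← hout x.1, hxe]
      · refine ⟨⟨x, hx, ?_⟩, h1⟩
        rw [← hout x.1, hxe]
        exact Sym2.eq_swap
    · rintro ⟨⟨x, hx, hxe⟩, h1⟩
      refine ⟨h1, ?_⟩
      have h2 : s((Quot.out x.1).1, (Quot.out x.1).2) = s(u, v) := by rw [hout, hxe]
      rcases hab : Quot.out x.1 with ⟨a, b⟩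
      rw [hab] at h2
      rcases Sym2.eq_iff.mp h2 with ⟨rfl, rfl⟩ | ⟨rfl, rfl⟩
      · exact Or.inl ⟨x, hx, hab⟩
      · exact Or.inr ⟨x, hx, hab⟩
  refine absurd (key G he hf (fun w => Nat.card (SimpleGraph.ConnectedComponent
    (SimpleGraph.fromRel (fun u v : Fin n => ∃ x : {x : Sym2 (Fin n) // x ∈ G.edgeSet},
        x ∈ w ∧ Quot.out x.1 = (u, v))))) ?_ ?_ ?_)
    (not_le.mpr hlt)
  · intro w
    exact one_le_natCard_cc _
  · intro w
    rw [natCard_cc_eq_one, hgr w]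
  · intro q hq0 hq1
    have h1 := H (Fin n) {x : Sym2 (Fin n) // x ∈ G.edgeSet} (fun x => Quot.out x.1) (1 / 2) q
      (by norm_num) (by norm_num) hq0 hq1 _ (fun _ => rfl)
      (univ.filter fun w => ⟨e, he⟩ ∈ w) (univ.filter fun w => ⟨f, hf⟩ ∈ w)
      (univ.filter fun w => ⟨e, he⟩ ∈ w ∧ ⟨f, hf⟩ ∈ w) ?_ ?_ ?_
    · have hcard : ∀ w : Finset {x : Sym2 (Fin n) // x ∈ G.edgeSet},
          (univ \ w).card = Fintype.card {x : Sym2 (Fin n) // x ∈ G.edgeSet} - w.card := by
        intro w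
        rw [card_sdiff_of_subset (subset_univ w), card_univ]
      simp only [hcard, pow_half, ← mul_sum] at h1
      have hc : (0 : ℝ) < (1 / 2 : ℝ) ^ Fintype.card {x : Sym2 (Fin n) // x ∈ G.edgeSet} := by
        positivity
      exact cancel_sq hc h1
    · intro w w' hw h2
      simp only [mem_filter, mem_univ, true_and] at h2 ⊢
      exact hw h2
    · intro w w' hw h2
      simp only [mem_filter, mem_univ, true_and] at h2 ⊢
      exact hw h2
    · intro w
      simp only [mem_filter, mem_univ, true_and]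
      constructor
      · rintro ⟨h2, h3⟩
        refine ⟨{⟨e, he⟩}, {⟨f, hf⟩}, by simpa using h2, by simpa using h3, ?_, by simp, by simp⟩
        simpa using hne
      · rintro ⟨K, L, h2, h3, -, h4, h5⟩
        exact ⟨h2 h4, h3 h5⟩

end Pool.NC
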