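import Mathlib
import Pool.Agent.NC.Bridge
import Pool.Agent.NC.Num
import Pool.Agent.NC.Rc

/-!
SWARM 16: the counterexample, final form: two edges of a finite simple graph are positively
correlated in the uniform connected spanning subgraph.
-/

set_option autoImplicit false

namespace Pool.NC

open SimpleGraph

theorem bad10 : Bad E10 b10 (edge 0) (edge 1) := bad_of_K_ineq K_ineq

/-- **Positive correlation.** -/
theorem posCor : PosCor := by
  obtain ⟨n, G, e, f, he, hf, hef, hlt⟩ := exists_simple bad10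
  refine ⟨n, G, e, f, he, hf, hef, ?_⟩
  have e1 : {F : Finset (Sym2 (Fin n)) | (↑F : Set (Sym2 (Fin n))) ⊆ G.edgeSet ∧ e ∈ F ∧ f ∈ F ∧
      (SimpleGraph.fromEdgeSet (↑F : Set (Sym2 (Fin n)))).Connected} = CS G {e, f} := by
    ext F
    simp only [CS, Set.mem_ofPred_eq, Set.insert_subset_iff, Set.singleton_subset_iff,
      Finset.mem_coe, and_assoc]
  have e2 : {F : Finset (Sym2 (Fin n)) | (↑F : Set (Sym2 (Fin n))) ⊆ G.edgeSet ∧
      (SimpleGraph.fromEdgeSet (↑F : Set (Sym2 (Fin n)))).Connected} = CS G ∅ := by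
    ext F
    simp only [CS, Set.mem_ofPred_eq, Set.empty_subset, true_and]
  have e3 : ∀ x : Sym2 (Fin n), {F : Finset (Sym2 (Fin n)) |
      (↑F : Set (Sym2 (Fin n))) ⊆ G.edgeSet ∧ x ∈ F ∧
      (SimpleGraph.fromEdgeSet (↑F : Set (Sym2 (Fin n)))).Connected} = CS G {x} := by
    intro x
    ext F
    simp only [CS, Set.mem_ofPred_eq, Set.singleton_subset_iff, Finset.mem_coe]
  rw [e1, e2, e3, e3]
  exact hlt

end Pool.NC
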