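import Pool.Agent.NC.Eng
import Pool.Agent.NC.GF

/-!
The kernel test applied to the programmes for the sums over independent sets, with a list of squares.
-/

set_option autoImplicit false

namespace Pool.NC.Eng

open Pool.Agent.NC Pool.NC

/-! ### Forest sums -/

/-- The programme; the weight of an edge is `z` of the number of the remaining edges. -/
def FZ {R : Type} [CommSemiring R] (z : ℕ → R) : List (ℕ × ℕ) → ℕ → R
  | [], _ => 1
  | e :: l, c => bif Nat.beq (lab c e.1) (lab c e.2) then FZ z l c
      else FZ z l c + z l.length * FZ z l (join 8 c e.1 e.2)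

def zr : (k : ℕ) → IP k
  | 0 => (0 : ℕ)
  | k + 1 => (zr k, zr k)

def FI : (l : List (ℕ × ℕ)) → ℕ → IP l.length
  | [], _ => (1 : ℕ)
  | e :: l, c => (FI l c, bif Nat.beq (lab c e.1) (lab c e.2) then zr l.length
      else FI l (join 8 c e.1 e.2))

/-- The packed number. -/
def FN (w : ℕ) : List (ℕ × ℕ) → ℕ → ℕ
  | [], _ => 1
  | e :: l, c => bif Nat.beq (lab c e.1) (lab c e.2) then FN w l c
      else Nat.add (FN w l c) (Nat.shiftLeft (fc (FN w l) (join 8 c e.1 e.2)) (w * 3 ^ l.length))

def FT {α : Type} (leaf : ℕ → α) : List (ℕ × ℕ) → ℕ → TT α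
  | [], c => .lf (leaf c)
  | e :: l, c => .nd (FT leaf l c) (bif Nat.beq (lab c e.1) (lab c e.2) then .z
      else fc (FT leaf l) (join 8 c e.1 e.2))

theorem ev_zr {R : Type} [CommSemiring R] (z : ℕ → R) : ∀ k : ℕ, ev z k (zr k) = 0
  | 0 => by simp [ev, zr]
  | k + 1 => by
    change ev z k (zr k) + z k * ev z k (zr k) = 0
    rw [ev_zr z k, mul_zero, add_zero]

theorem ev_FI {R : Type} [CommSemiring R] (z : ℕ → R) (l : List (ℕ × ℕ)) (c : ℕ) :
    ev z l.length (FI l c) = FZ z l c := by
  induction l generalizing c with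
  | nil => simp [ev, FI, FZ]
  | cons e l ih =>
    change ev z l.length (FI l c) + z l.length * ev z l.length (bif Nat.beq (lab c e.1) (lab c e.2)
      then zr l.length else FI l (join 8 c e.1 e.2)) = _
    rw [FZ]
    cases Nat.beq (lab c e.1) (lab c e.2) with
    | true => rw [cond_true, cond_true, ev_zr, ih, mul_zero, add_zero]
    | false => rw [cond_false, cond_false, ih, ih]

theorem FN_eq (w : ℕ) (l : List (ℕ × ℕ)) (c : ℕ) : FN w l c = FZ (X w) l c := by
  induction l generalizing c with
  | nil => rfl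
  | cons e l ih =>
    rw [FN, FZ]
    cases Nat.beq (lab c e.1) (lab c e.2) with
    | true => rw [cond_true, cond_true, ih]
    | false =>
      rw [cond_false, cond_false, fc_eq, ih, ih]
      have : Nat.shiftLeft (FZ (X w) l (join 8 c e.1 e.2)) (w * 3 ^ l.length) =
          FZ (X w) l (join 8 c e.1 e.2) * 2 ^ (w * 3 ^ l.length) := Nat.shiftLeft_eq _ _
      rw [this, mul_comm (FZ (X w) l (join 8 c e.1 e.2))]
      rfl

theorem FT_map {α β : Type} (g : α → β) (leaf : ℕ → α) (l : List (ℕ × ℕ)) (c : ℕ) :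
    (FT leaf l c).map g = FT (fun c => g (leaf c)) l c := by
  induction l generalizing c with
  | nil => rfl
  | cons e l ih =>
    rw [FT, FT, TT.map, ih]
    cases Nat.beq (lab c e.1) (lab c e.2) with
    | true => rfl
    | false => rw [cond_false, cond_false, fc_eq, fc_eq, ih]

theorem tv_FT {α R : Type} [CommSemiring R] (z : ℕ → R) (li : List (ℕ × ℕ)) (v : α → R)
    (leaf : ℕ → α) (hv : ∀ c, v (leaf c) = FZ z li c) (lo : List (ℕ × ℕ)) (c : ℕ) :
    tv z li.length v lo.length (FT leaf lo c) = FZ z (lo ++ li) c := by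
  induction lo generalizing c with
  | nil => rw [List.nil_append, ← hv]; rfl
  | cons e l ih =>
    rw [List.length_cons, tv, FT, List.cons_append, FZ, List.length_append, Nat.add_comm l.length]
    change tv z li.length v l.length (FT leaf l c) + _ * tv z li.length v l.length (bif Nat.beq
      (lab c e.1) (lab c e.2) then .z else fc (FT leaf l) (join 8 c e.1 e.2)) = _
    rw [ih, fc_eq]
    cases Nat.beq (lab c e.1) (lab c e.2) with
    | true => rw [cond_true, cond_true, tv_z, mul_zero, add_zero]
    | false => rw [cond_false, cond_false, ih]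

theorem FZ_one_le (l : List (ℕ × ℕ)) (c : ℕ) : FZ (fun _ => (1 : ℕ)) l c ≤ 2 ^ l.length := by
  induction l generalizing c with
  | nil => simp [FZ]
  | cons e l ih =>
    rw [FZ, List.length_cons, pow_succ]
    have h1 := ih c
    have h2 := ih (join 8 c e.1 e.2)
    cases Nat.beq (lab c e.1) (lab c e.2) with
    | true => rw [cond_true]; omega
    | false => rw [cond_false]; omega

/-! ### Sums of monomials given by lists of masks -/

def tb (a k : ℕ) : Bool := Nat.beq (Nat.land (Nat.shiftRight a k) 1) 1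

theorem tb_eq (a k : ℕ) : tb a k = a.testBit k := by
  have h1 : Nat.land (Nat.shiftRight a k) 1 = a / 2 ^ k % 2 := by
    change (a >>> k) &&& 1 = _
    rw [Nat.and_one_is_mod, Nat.shiftRight_eq_div_pow]
  rw [tb, h1, Nat.testBit_eq_decide_div_mod_eq, beq_decide]

def mon {R : Type} [CommSemiring R] (z : ℕ → R) : ℕ → ℕ → R
  | 0, _ => 1
  | k + 1, a => (bif tb a k then z k else 1) * mon z k a

def msum {R : Type} [CommSemiring R] (z : ℕ → R) (k : ℕ) (l : List ℕ) : R := (l.map (mon z k)).sum

def g0 (k : ℕ) : List ℕ → List ℕ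
  | [] => []
  | a :: l => bif tb a k then g0 k l else a :: g0 k l

def g1 (k : ℕ) : List ℕ → List ℕ
  | [] => []
  | a :: l => bif tb a k then a :: g1 k l else g1 k l

def BI : (k : ℕ) → List ℕ → IP k
  | 0, l => (l.length : ℕ)
  | k + 1, l => (BI k (g0 k l), BI k (g1 k l))

/-- The exponent of the packed monomial with the mask `a`. -/
def tt : ℕ → ℕ → ℕ
  | 0, _ => 0
  | k + 1, a => bif tb a k then Nat.add (3 ^ k) (tt k a) else tt k a

/-- The packed sum of the monomials of a list of masks. -/
def BL (w k : ℕ) : List ℕ → ℕ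
  | [] => 0
  | a :: l => Nat.add (fc (fun a => Nat.shiftLeft 1 (w * tt k a)) a) (BL w k l)

theorem msum_cons {R : Type} [CommSemiring R] (z : ℕ → R) (k a : ℕ) (l : List ℕ) :
    msum z k (a :: l) = mon z k a + msum z k l := by simp [msum]

theorem msum_append {R : Type} [CommSemiring R] (z : ℕ → R) (k : ℕ) (l l' : List ℕ) :
    msum z k (l ++ l') = msum z k l + msum z k l' := by simp [msum]

theorem msum_split {R : Type} [CommSemiring R] (z : ℕ → R) (k : ℕ) (l : List ℕ) :
    msum z (k + 1) l = msum z k (g0 k l) + z k * msum z k (g1 k l) := by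
  induction l with
  | nil => simp [msum, g0, g1]
  | cons a l ih =>
    rw [msum_cons, ih, g0, g1, mon]
    cases tb a k with
    | true => rw [cond_true, cond_true, cond_true, msum_cons]; ring
    | false => rw [cond_false, cond_false, cond_false, msum_cons]; ring

theorem ev_BI {R : Type} [CommSemiring R] (z : ℕ → R) : ∀ (k : ℕ) (l : List ℕ),
    ev z k (BI k l) = msum z k l
  | 0, l => by
    induction l with
    | nil => simp [ev, BI, msum]
    | cons a l ih =>
      rw [msum_cons, ← ih]
      simp [ev, BI, mon, add_comm]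
  | k + 1, l => by
    change ev z k (BI k (g0 k l)) + z k * ev z k (BI k (g1 k l)) = _
    rw [ev_BI z k, ev_BI z k, msum_split]

theorem mon_X (w k a : ℕ) : mon (X w) k a = 2 ^ (w * tt k a) := by
  induction k with
  | zero => simp [mon, tt]
  | succ k ih =>
    rw [mon, tt, ih]
    cases tb a k with
    | true =>
      rw [cond_true, cond_true]
      change X w k * _ = 2 ^ (w * (3 ^ k + tt k a))
      rw [mul_add, pow_add]
      rfl
    | false => rw [cond_false, cond_false, one_mul]

theorem BL_eq (w k : ℕ) (l : List ℕ) : BL w k l = msum (X w) k l := by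
  induction l with
  | nil => rfl
  | cons a l ih =>
    rw [BL, fc_eq, ih, msum_cons, mon_X]
    have : Nat.shiftLeft 1 (w * tt k a) = 1 * 2 ^ (w * tt k a) := Nat.shiftLeft_eq _ _
    rw [this, one_mul]
    rfl

theorem mon_or {R : Type} [CommSemiring R] (z : ℕ → R) {s a : ℕ} (h : Nat.land s a = 0) (k : ℕ) :
    mon z k (Nat.lor s a) = mon z k s * mon z k a := by
  induction k with
  | zero => simp [mon]
  | succ k ih =>
    rw [mon, mon, mon, ih, tb_eq, tb_eq, tb_eq]
    have h1 : (Nat.lor s a).testBit k = (s.testBit k || a.testBit k) := Nat.testBit_or s a k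
    have h2 : (s.testBit k && a.testBit k) = false := by
      rw [← Nat.testBit_and]
      have h3 : s &&& a = 0 := h
      rw [h3, Nat.zero_testBit]
    rw [h1]
    cases hs : s.testBit k <;> cases ha : a.testBit k
    · simp
    · simp; ring
    · simp; ring
    · rw [hs, ha] at h2; simp at h2

theorem mon_one (k a : ℕ) : mon (fun _ => (1 : ℕ)) k a = 1 := by
  induction k with
  | zero => rfl
  | succ k ih => rw [mon, ih]; cases tb a k <;> rfl

theorem msum_one (k : ℕ) (l : List ℕ) : msum (fun _ => (1 : ℕ)) k l = l.length := by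
  induction l with
  | nil => rfl
  | cons a l ih => rw [msum_cons, ih, mon_one, List.length_cons, add_comm]

/-! ### Squares -/

def orS (s : ℕ) : List ℕ → List ℕ
  | [] => []
  | a :: l => Nat.lor s a :: orS s l

def zs (s : ℕ) : List ℕ → Bool
  | [] => true
  | a :: l => bif Nat.beq (Nat.land s a) 0 then zs s l else false

theorem msum_orS {R : Type} [CommSemiring R] (z : ℕ → R) (k s : ℕ) (l : List ℕ)
    (h : zs s l = true) : msum z k (orS s l) = mon z k s * msum z k l := by
  induction l with
  | nil => simp [msum, orS]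
  | cons a l ih =>
    rw [zs] at h
    cases hb : Nat.beq (Nat.land s a) 0 with
    | true =>
      rw [hb, cond_true] at h
      rw [orS, msum_cons, msum_cons, ih h, mon_or z (Nat.eq_of_beq_eq_true hb)]
      ring
    | false => rw [hb, cond_false] at h; exact absurd h (by simp)

/-- Multiplication by the monomial with the mask `s`; `g` is applied to the leaves. -/
def mS {α : Type} (k s : ℕ) (g : List ℕ → α) : ℕ → TT (List ℕ) → TT α
  | 0, .lf l => .lf (g l)
  | 0, _ => .z
  | m + 1, .nd a b => bif tb s (k + m) then .nd .z (mS k s g m a)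
      else .nd (mS k s g m a) (mS k s g m b)
  | _ + 1, _ => .z

def isz {α : Type} : TT α → Bool
  | .z => true
  | .lf _ => false
  | .nd _ _ => false

/-- The polynomial does not contain the variables of the mask `s`. -/
def okS (k s : ℕ) : ℕ → TT (List ℕ) → Bool
  | 0, .lf l => zs s l
  | 0, _ => true
  | m + 1, .nd a b => bif okS k s m a then
      bif tb s (k + m) then isz b else okS k s m b else false
  | _ + 1, _ => true

/-- The number of monomials. -/
def ct : ℕ → TT (List ℕ) → ℕ
  | 0, .lf l => l.length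
  | 0, _ => 0
  | m + 1, .nd a b => ct m a + ct m b
  | _ + 1, _ => 0

theorem tv_mS {α R : Type} [CommSemiring R] (z : ℕ → R) (k s : ℕ) (g : List ℕ → α) (v : α → R)
    (c : R) (hv : ∀ l, zs s l = true → v (g l) = c * (mon z k s * msum z k l)) :
    ∀ (m : ℕ) (t : TT (List ℕ)), okS k s m t = true →
      tv z k v m (mS k s g m t) = c * (mon z (k + m) s * tv z k (msum z k) m t)
  | 0, .lf l, h => hv l h
  | 0, .z, _ => by simp [tv, mS]
  | 0, .nd _ _, _ => by simp [tv, mS]
  | m + 1, .z, _ => by simp [mS, tv_z]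
  | m + 1, .lf a, _ => by
    change tv z k v (m + 1) .z = c * (_ * (tv z k (msum z k) m .z + _ * tv z k (msum z k) m .z))
    rw [tv_z, tv_z]; ring
  | m + 1, .nd a b, h => by
    have h' : (bif okS k s m a then
      bif tb s (k + m) then isz b else okS k s m b
      else false) = true := h
    have e : mS k s g (m + 1) (.nd a b) = bif tb s (k + m) then .nd .z (mS k s g m a)
      else .nd (mS k s g m a) (mS k s g m b) := rfl
    cases ha : okS k s m a with
    | false => rw [ha, cond_false] at h'; exact absurd h' (by simp)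
    | true =>
      rw [ha, cond_true] at h'
      have iha := tv_mS z k s g v c hv m a ha
      rw [e, ← Nat.add_assoc, mon]
      change _ = c * (_ * (tv z k (msum z k) m a + z (k + m) * tv z k (msum z k) m b))
      cases hb : tb s (k + m) with
      | true =>
        rw [hb, cond_true] at h'
        rw [cond_true, cond_true, tv]
        change tv z k v m .z + z (k + m) * tv z k v m (mS k s g m a) = _
        cases b with
        | z => rw [tv_z, tv_z, iha]; ring
        | lf x => simp [isz] at h'
        | nd x y => simp [isz] at h'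
      | false =>
        rw [hb, cond_false] at h'
        have ihb := tv_mS z k s g v c hv m b h'
        rw [cond_false, cond_false, tv]
        change tv z k v m (mS k s g m a) + z (k + m) * tv z k v m (mS k s g m b) = _
        rw [iha, ihb]; ring

theorem mS_map {α β : Type} (f : α → β) (k s : ℕ) (g : List ℕ → α) : ∀ (m : ℕ) (t : TT (List ℕ)),
    (mS k s g m t).map f = mS k s (fun l => f (g l)) m t
  | 0, .lf _ => rfl
  | 0, .z => rfl
  | 0, .nd _ _ => rfl
  | _ + 1, .z => rfl
  | _ + 1, .lf _ => rfl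
  | m + 1, .nd a b => by
    rw [mS, mS]
    cases tb s (k + m) with
    | true => rw [cond_true, cond_true, TT.map, mS_map f k s g m a]; rfl
    | false => rw [cond_false, cond_false, TT.map, mS_map f k s g m a, mS_map f k s g m b]

theorem map_map {α β γ : Type} (f : α → β) (g : β → γ) (t : TT α) :
    (t.map f).map g = t.map fun a => g (f a) := by
  induction t with
  | z => rfl
  | lf a => rfl
  | nd a b iha ihb => rw [TT.map, TT.map, TT.map, iha, ihb]

theorem tv_map {α β R : Type} [CommSemiring R] (z : ℕ → R) (k : ℕ) (f : α → β) (v : β → R) :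
    ∀ (m : ℕ) (t : TT α), tv z k v m (t.map f) = tv z k (fun a => v (f a)) m t
  | 0, .lf _ => rfl
  | 0, .z => rfl
  | 0, .nd _ _ => rfl
  | m + 1, t => by rw [tv, tv, c0_map, c1_map, tv_map z k f v m, tv_map z k f v m]

theorem tv_ct (k : ℕ) : ∀ (m : ℕ) (t : TT (List ℕ)),
    tv (fun _ => (1 : ℕ)) k (msum (fun _ => (1 : ℕ)) k) m t = ct m t
  | 0, .lf l => msum_one k l
  | 0, .z => rfl
  | 0, .nd _ _ => rfl
  | m + 1, .z => by simp [ct, tv_z]
  | m + 1, .lf a => by
    rw [tv]
    change tv _ k _ m .z + _ * tv _ k _ m .z = 0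
    rw [tv_z]; rfl
  | m + 1, .nd a b => by
    rw [tv, ct]
    change tv _ k _ m a + 1 * tv _ k _ m b = _
    rw [tv_ct k m, tv_ct k m, one_mul]

/-- A square: the mask of its set, the positive and the negative part. -/
abbrev Sq := ℕ × TT (List ℕ) × TT (List ℕ)

/-- The pairs of trees of the cross terms of the squares. -/
def sqp {α : Type} (g : List ℕ → α) (k m : ℕ) : List Sq → List (TT α × TT α)
  | [] => []
  | (s, p, q) :: l => (mS k s (fun l => g (orS s (l ++ l))) m p, q.map g) :: sqp g k m l

/-- The pairs of trees of the squares of the positive and the negative part. -/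
def sqn {α : Type} (g : List ℕ → α) (k m : ℕ) : List Sq → List (TT α × TT α)
  | [] => []
  | (s, p, q) :: l => (mS k s (fun l => g (orS s l)) m p, p.map g) ::
      (mS k s (fun l => g (orS s l)) m q, q.map g) :: sqn g k m l

/-- The masks are disjoint from the sets of the squares. -/
def dj (k m : ℕ) : List Sq → Bool
  | [] => true
  | (s, p, q) :: l => bif okS k s m p then bif okS k s m q then dj k m l else false else false

def bp (m : ℕ) : List Sq → ℕ
  | [] => 0
  | (_, p, q) :: l => 2 * ct m p * ct m q + bp m l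

def bn (m : ℕ) : List Sq → ℕ
  | [] => 0
  | (_, p, q) :: l => ct m p * ct m p + ct m q * ct m q + bn m l

theorem sqp_map {α β : Type} (f : α → β) (g : List ℕ → α) (k m : ℕ) (l : List Sq) :
    (sqp g k m l).map (pm f) = sqp (fun l => f (g l)) k m l := by
  induction l with
  | nil => rfl
  | cons q l ih =>
    obtain ⟨s, p, q⟩ := q
    rw [sqp, sqp, List.map_cons, ih, pm, mS_map, map_map]

theorem sqn_map {α β : Type} (f : α → β) (g : List ℕ → α) (k m : ℕ) (l : List Sq) :
    (sqn g k m l).map (pm f) = sqn (fun l => f (g l)) k m l := by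
  induction l with
  | nil => rfl
  | cons q l ih =>
    obtain ⟨s, p, q⟩ := q
    rw [sqn, sqn, List.map_cons, List.map_cons, ih, pm, pm, mS_map, map_map, mS_map, map_map]

theorem zs_append {s : ℕ} {l l' : List ℕ} (h : zs s l = true) (h' : zs s l' = true) :
    zs s (l ++ l') = true := by
  induction l with
  | nil => exact h'
  | cons a l ih =>
    rw [zs] at h
    rw [List.cons_append, zs]
    cases hb : Nat.beq (Nat.land s a) 0 with
    | true => rw [hb, cond_true] at h; rw [cond_true]; exact ih h
    | false => rw [hb, cond_false] at h; exact absurd h (by simp)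

theorem dj_cons {k m s : ℕ} {p q : TT (List ℕ)} {l : List Sq} (h : dj k m ((s, p, q) :: l) = true) :
    okS k s m p = true ∧ okS k s m q = true ∧ dj k m l = true := by
  rw [dj] at h
  cases h1 : okS k s m p with
  | false => rw [h1, cond_false] at h; exact absurd h (by simp)
  | true =>
    rw [h1, cond_true] at h
    cases h2 : okS k s m q with
    | false => rw [h2, cond_false] at h; exact absurd h (by simp)
    | true => rw [h2, cond_true] at h; exact ⟨rfl, rfl, h⟩

theorem mon_nonneg (z : ℕ → ℝ) (hz : ∀ i, 0 ≤ z i) (k a : ℕ) : 0 ≤ mon z k a := by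
  induction k with
  | zero => exact zero_le_one
  | succ k ih =>
    rw [mon]
    refine mul_nonneg ?_ ih
    cases tb a k with
    | true => exact hz k
    | false => exact zero_le_one

section sqval
variable {α R : Type} [CommSemiring R] (z : ℕ → R) (k m : ℕ) (v : α → R) (g : List ℕ → α)
  (hv : ∀ l, v (g l) = msum z k l) (s : ℕ) (p q : TT (List ℕ)) (l : List Sq)
include hv

theorem tsm_sqp_cons (h : okS k s m p = true) :
    tsm z k v m (sqp g k m ((s, p, q) :: l)) = (1 + 1) * (mon z (k + m) s *
      tv z k (msum z k) m p) * tv z k (msum z k) m q + tsm z k v m (sqp g k m l) := by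
  rw [sqp, tsm_cons, tv_map, tv_mS z k s _ v (1 + 1) ?_ m p h]
  · simp only [hv]
  · intro l hl
    rw [hv, msum_orS z k s _ (zs_append hl hl), msum_append]
    ring

theorem tsm_sqn_cons (h : okS k s m p = true) (h' : okS k s m q = true) :
    tsm z k v m (sqn g k m ((s, p, q) :: l)) = (mon z (k + m) s *
      tv z k (msum z k) m p) * tv z k (msum z k) m p + ((mon z (k + m) s *
      tv z k (msum z k) m q) * tv z k (msum z k) m q + tsm z k v m (sqn g k m l)) := by
  have h1 : ∀ l, zs s l = true → v (g (orS s l)) = 1 * (mon z k s * msum z k l) := by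
    intro l hl
    rw [hv, msum_orS z k s _ hl, one_mul]
  rw [sqn, tsm_cons, tsm_cons, tv_map, tv_map, tv_mS z k s _ v 1 h1 m p h,
    tv_mS z k s _ v 1 h1 m q h', one_mul, one_mul]
  simp only [hv]

end sqval

theorem squares_nonneg (z : ℕ → ℝ) (hz : ∀ i, 0 ≤ z i) {α : Type} (k m : ℕ) (v : α → ℝ)
    (g : List ℕ → α) (hv : ∀ l, v (g l) = msum z k l) (l : List Sq)
    (h : dj k m l = true) : tsm z k v m (sqp g k m l) ≤ tsm z k v m (sqn g k m l) := by
  induction l with
  | nil => simp [sqp, sqn, tsm]
  | cons q l ih =>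
    obtain ⟨s, p, q⟩ := q
    obtain ⟨h1, h2, h3⟩ := dj_cons h
    rw [tsm_sqp_cons z k m v g hv s p q l h1, tsm_sqn_cons z k m v g hv s p q l h1 h2]
    have h4 := ih h3
    have h5 := mul_nonneg (mon_nonneg z hz (k + m) s)
      (sq_nonneg (tv z k (msum z k) m p - tv z k (msum z k) m q))
    have h6 : mon z (k + m) s * (tv z k (msum z k) m p - tv z k (msum z k) m q) ^ 2 =
        mon z (k + m) s * tv z k (msum z k) m p * tv z k (msum z k) m p +
        mon z (k + m) s * tv z k (msum z k) m q * tv z k (msum z k) m q -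
        (1 + 1) * (mon z (k + m) s * tv z k (msum z k) m p) * tv z k (msum z k) m q := by ring
    linarith

theorem tsm_sqp_one {α : Type} (k m : ℕ) (v : α → ℕ) (g : List ℕ → α)
    (hv : ∀ l, v (g l) = msum (fun _ => (1 : ℕ)) k l) (l : List Sq) (h : dj k m l = true) :
    tsm (fun _ => (1 : ℕ)) k v m (sqp g k m l) = bp m l := by
  induction l with
  | nil => simp [sqp, bp, tsm]
  | cons q l ih =>
    obtain ⟨s, p, q⟩ := q
    obtain ⟨h1, h2, h3⟩ := dj_cons h
    rw [tsm_sqp_cons _ k m v g hv s p q l h1, bp, ih h3, tv_ct, tv_ct, mon_one]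
    ring

theorem tsm_sqn_one {α : Type} (k m : ℕ) (v : α → ℕ) (g : List ℕ → α)
    (hv : ∀ l, v (g l) = msum (fun _ => (1 : ℕ)) k l) (l : List Sq) (h : dj k m l = true) :
    tsm (fun _ => (1 : ℕ)) k v m (sqn g k m l) = bn m l := by
  induction l with
  | nil => simp [sqn, bn, tsm]
  | cons q l ih =>
    obtain ⟨s, p, q⟩ := q
    obtain ⟨h1, h2, h3⟩ := dj_cons h
    rw [tsm_sqn_cons _ k m v g hv s p q l h1 h2, bn, ih h3, tv_ct, tv_ct, mon_one]
    ring

/-! ### The test -/

/-- The kernel test. -/
def test (w : ℕ) (lo li : List (ℕ × ℕ)) (ce cf c0 cef : ℕ) (sq : List Sq) : Bool :=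
  chk (tstN (2 ^ (w - 1) * S w li.length)) lo.length
    ((FT (FN w li) lo ce, FT (FN w li) lo cf) :: sqp (BL w li.length) li.length lo.length sq)
    ((FT (FN w li) lo c0, FT (FN w li) lo cef) :: sqn (BL w li.length) li.length lo.length sq)

theorem test_sound (w : ℕ) (lo li : List (ℕ × ℕ)) (ce cf c0 cef : ℕ)
    (sq : List Sq) (hw : 1 ≤ w) (hd : dj li.length lo.length sq = true)
    (hp : 2 ^ (lo ++ li).length * 2 ^ (lo ++ li).length + bp lo.length sq < 2 ^ (w - 1))
    (hn : 2 ^ (lo ++ li).length * 2 ^ (lo ++ li).length + bn lo.length sq ≤ 2 ^ (w - 1))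
    (h : test w lo li ce cf c0 cef sq = true) (z : ℕ → ℝ) (hz : ∀ i, 0 ≤ z i) :
    FZ z (lo ++ li) cef * FZ z (lo ++ li) c0 ≤ FZ z (lo ++ li) ce * FZ z (lo ++ li) cf := by
  set k := li.length with hk
  set m := lo.length with hm
  set pos : List (TT (IP k) × TT (IP k)) :=
    (FT (FI li) lo ce, FT (FI li) lo cf) :: sqp (BI k) k m sq with hpos
  set neg : List (TT (IP k) × TT (IP k)) :=
    (FT (FI li) lo c0, FT (FI li) lo cef) :: sqn (BI k) k m sq with hneg
  have hFN : (fun c => ev (X w) k (FI li c)) = FN w li := by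
    funext c; rw [FN_eq]; exact ev_FI _ li c
  have hBN : (fun l => ev (X w) k (BI k l)) = BL w k := by
    funext l; rw [BL_eq, ev_BI]
  have e1 : pos.map (pm (ev (X w) k)) =
      (FT (FN w li) lo ce, FT (FN w li) lo cf) :: sqp (BL w k) k m sq := by
    rw [hpos, List.map_cons, sqp_map, pm, FT_map, FT_map, hFN, hBN]
  have e2 : neg.map (pm (ev (X w) k)) =
      (FT (FN w li) lo c0, FT (FN w li) lo cef) :: sqn (BL w k) k m sq := by
    rw [hneg, List.map_cons, sqn_map, pm, FT_map, FT_map, hFN, hBN]
  have hF : ∀ {R : Type} [CommSemiring R] (x : ℕ → R) (c : ℕ),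
      tv x k (ev x k) m (FT (FI li) lo c) = FZ x (lo ++ li) c := fun x c =>
    tv_FT x li (ev x k) (FI li) (fun c => ev_FI x li c) lo c
  have hone := FZ_one_le (lo ++ li)
  have key := engine w k m hw pos neg (by rw [e1, e2]; exact h)
    (by
      rw [hpos, tsm_cons, hF, hF, tsm_sqp_one k m _ _ (fun l => ev_BI _ k l) sq hd]
      exact lt_of_le_of_lt (Nat.add_le_add_right (Nat.mul_le_mul (hone _) (hone _)) _) hp)
    (by
      rw [hneg, tsm_cons, hF, hF, tsm_sqn_one k m _ _ (fun l => ev_BI _ k l) sq hd]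
      exact (Nat.add_le_add_right (Nat.mul_le_mul (hone _) (hone _)) _).trans hn) z hz
  rw [hpos, hneg, tsm_cons, tsm_cons, hF, hF, hF, hF] at key
  have hs := squares_nonneg z hz k m (ev z k) (BI k) (fun l => ev_BI z k l) sq hd
  rw [mul_comm (FZ z (lo ++ li) cef)]
  linarith

/-- Weights by the number of the remaining edges. -/
def zz : List ℝ → ℕ → ℝ
  | [], _ => 0
  | a :: l, j => if j = l.length then a else zz l j

theorem zz_nonneg {l : List ℝ} (h : ∀ a ∈ l, 0 ≤ a) (j : ℕ) : 0 ≤ zz l j := by
  induction l with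
  | nil => exact le_refl _
  | cons a l ih =>
    rw [zz]
    split_ifs
    · exact h a (by simp)
    · exact ih fun b hb => h b (by simp [hb])

theorem FZ_congr {R : Type} [CommSemiring R] {z z' : ℕ → R} (l : List (ℕ × ℕ)) (c : ℕ)
    (h : ∀ j < l.length, z j = z' j) : FZ z l c = FZ z' l c := by
  induction l generalizing c with
  | nil => rfl
  | cons e l ih =>
    have h' : ∀ j < l.length, z j = z' j := fun j hj => h j (by rw [List.length_cons]; omega)
    rw [FZ, FZ, ih _ h', ih _ h', h l.length (by simp)]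

theorem FF_eq_FZ (l : List (ℕ × ℕ × ℝ)) (c : ℕ) :
    FF 8 l c = FZ (zz (l.map fun p => p.2.2)) (l.map fun p => (p.1, p.2.1)) c := by
  induction l generalizing c with
  | nil => simp [FF, FZ]
  | cons p l ih =>
    obtain ⟨a, b, y⟩ := p
    have hlen : (l.map fun p => (p.1, p.2.1)).length = (l.map fun p => p.2.2).length := by simp
    have hc : ∀ c, FZ (zz (y :: l.map fun p => p.2.2)) (l.map fun p => (p.1, p.2.1)) c =
        FZ (zz (l.map fun p => p.2.2)) (l.map fun p => (p.1, p.2.1)) c := by
      intro c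
      refine FZ_congr _ _ fun j hj => ?_
      rw [zz, if_neg (by rw [hlen] at hj; omega)]
    rw [FF, List.map_cons, List.map_cons, FZ, hc, hc, ← ih, ← ih, zz, if_pos hlen]

theorem final (w : ℕ) (l : List (ℕ × ℕ × ℝ)) (hl : ∀ p ∈ l, 0 ≤ p.2.2) (lo li : List (ℕ × ℕ))
    (hL : (l.map fun p => (p.1, p.2.1)) = lo ++ li) (ce cf c0 cef : ℕ)
    (sq : List Sq) (hw : 1 ≤ w) (hd : dj li.length lo.length sq = true)
    (hp : 2 ^ (lo ++ li).length * 2 ^ (lo ++ li).length + bp lo.length sq < 2 ^ (w - 1))
    (hn : 2 ^ (lo ++ li).length * 2 ^ (lo ++ li).length + bn lo.length sq ≤ 2 ^ (w - 1))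
    (h : test w lo li ce cf c0 cef sq = true) :
    FF 8 l cef * FF 8 l c0 ≤ FF 8 l ce * FF 8 l cf := by
  rw [FF_eq_FZ, FF_eq_FZ, FF_eq_FZ, FF_eq_FZ, hL]
  refine test_sound w lo li ce cf c0 cef sq hw hd hp hn h _ (zz_nonneg ?_)
  intro a ha
  rw [List.mem_map] at ha
  obtain ⟨p, hp, rfl⟩ := ha
  exact hl p hp

end Pool.NC.Eng
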