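import Pool.Agent.NC.Sym
import Pool.Agent.NC.Cyc

/-!
Automorphisms of a connected multigraph preserve the independent sets of its cycle matroid.
-/

set_option autoImplicit false

namespace Pool.NC

open Pool.Agent.NC

/-- A bijection which preserves the spanning sets preserves the independent sets. -/
theorem indep_image_of_spanning {E : Type} {M : Matroid E} (σ : Equiv.Perm E)
    (h : ∀ S : Set E, M.Spanning (σ '' S) ↔ M.Spanning S) (A : Set E) :
    M.Indep (σ '' A) ↔ M.Indep A := by
  have h' : ∀ S : Set E, M.Spanning (σ.symm '' S) ↔ M.Spanning S := by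
    intro S
    rw [← h (σ.symm '' S), ← Set.image_comp]
    simp
  have key : ∀ τ : Equiv.Perm E, (∀ S : Set E, M.Spanning (τ '' S) ↔ M.Spanning S) → ∀ B : Set E,
      M.IsBase B → M.IsBase (τ '' B) := by
    intro τ hτ B hB
    rw [Matroid.isBase_iff_minimal_spanning] at hB ⊢
    refine ⟨(hτ B).2 hB.1, ?_⟩
    intro C hC hCB
    have h1 : C = τ '' (τ ⁻¹' C) := (Set.image_preimage_eq C τ.surjective).symm
    have h2 : M.Spanning (τ ⁻¹' C) := by rw [← hτ, ← h1]; exact hC
    have h3 : τ ⁻¹' C ⊆ B := by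
      intro x hx
      obtain ⟨y, hy, hyx⟩ := hCB hx
      rwa [← τ.injective hyx]
    have h4 := hB.2 h2 h3
    rw [h1]
    exact Set.image_mono h4
  constructor
  · intro hA
    obtain ⟨B, hB, hAB⟩ := hA.exists_isBase_superset
    refine (key σ.symm h' B hB).indep.subset ?_
    intro x hx
    exact ⟨σ x, hAB ⟨x, hx, rfl⟩, by simp⟩
  · intro hA
    obtain ⟨B, hB, hAB⟩ := hA.exists_isBase_superset
    exact (key σ h B hB).indep.subset (Set.image_mono hAB)

/-- Graph automorphisms preserve connectivity. -/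
theorem conn_image {E : Type} {d : ℕ} (src tgt : E → Fin (d + 1)) (σ : Equiv.Perm E)
    (π : Equiv.Perm (Fin (d + 1)))
    (h : ∀ e, s(src (σ e), tgt (σ e)) = s(π (src e), π (tgt e))) (S : Set E) :
    Conn src tgt (σ '' S) ↔ Conn src tgt S := by
  unfold Conn
  symm
  refine SimpleGraph.Iso.connected_iff ⟨π, ?_⟩
  intro a b
  simp only [SimpleGraph.fromEdgeSet_adj, ne_eq, EmbeddingLike.apply_eq_iff_eq]
  refine and_congr ?_ Iff.rfl
  constructor
  · rintro ⟨_, ⟨e, he, rfl⟩, h1⟩
    refine ⟨e, he, ?_⟩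
    have h2 := (h e).symm.trans h1
    rw [Sym2.eq_iff] at h2
    simp only [EmbeddingLike.apply_eq_iff_eq] at h2
    exact Sym2.eq_iff.2 h2
  · rintro ⟨e, he, h1⟩
    refine ⟨σ e, ⟨e, he, rfl⟩, ?_⟩
    refine (h e).trans ?_
    have h2 := congrArg (Sym2.map π) h1
    simpa [Sym2.map_mk] using h2

theorem cyc_indep_image {E : Type} [Fintype E] {d : ℕ} (src tgt : E → Fin (d + 1))
    (hG : Conn src tgt Set.univ) (σ : Equiv.Perm E) (π : Equiv.Perm (Fin (d + 1)))
    (h : ∀ e, s(src (σ e), tgt (σ e)) = s(π (src e), π (tgt e))) (A : Set E) :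
    (cyc src tgt).Indep (σ '' A) ↔ (cyc src tgt).Indep A := by
  refine indep_image_of_spanning σ (fun S => ?_) A
  rw [cyc_spanning_iff src tgt hG, cyc_spanning_iff src tgt hG, conn_image src tgt σ π h]

/-- The inequality is transported by a graph automorphism. -/
theorem ICor.auto {n d : ℕ} (src tgt : Fin n → Fin (d + 1)) (hG : Conn src tgt Set.univ)
    {e f : Fin n} (h : ICor (cyc src tgt) e f) (σ : Equiv.Perm (Fin n)) (π : Equiv.Perm (Fin (d + 1)))
    (hσ : ∀ e, s(src (σ e), tgt (σ e)) = s(π (src e), π (tgt e))) :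
    ICor (cyc src tgt) (σ e) (σ f) := by
  refine h.map σ fun A => ?_
  rw [Finset.coe_map]
  exact cyc_indep_image src tgt hG σ π hσ A

end Pool.NC
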