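import Pool.Agent.NC.Cyc
import Pool.Agent.NC.Defs

/-!
# From the numerical inequality `K_ineq` to real weights
-/

set_option autoImplicit false

open Finset

namespace Pool.Agent.NC

/-- first ends of the edges -/
def esrc (i : Fin 23) : Fin (9 + 1) := (Pool.NC.ends i).1

/-- second ends of the edges -/
def etgt (i : Fin 23) : Fin (9 + 1) := (Pool.NC.ends i).2

/-- the weights -/
noncomputable def ew (i : Fin 23) : ℝ := ((Pool.NC.len i : ℕ) : ℝ)⁻¹

lemma ew_pos (i : Fin 23) : 0 < ew i := by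
  have := Pool.NC.len_pos i
  unfold ew
  positivity

lemma conn_iff (A : Finset (Fin 23)) : Conn esrc etgt (A : Set (Fin 23)) ↔ (Pool.NC.gr A).Connected :=
  Iff.rfl

/-- the product of all weights of absence -/
noncomputable def tot : ℝ := ∏ i : Fin 23, ((Pool.NC.len i : ℕ) : ℝ)

lemma tot_pos : 0 < tot := by
  unfold tot
  refine Finset.prod_pos fun i _ => ?_
  exact_mod_cast Pool.NC.len_pos i

lemma prod_ew (A : Finset (Fin 23)) :
    ∏ a ∈ A, ew a = (((∏ i ∈ Aᶜ, Pool.NC.len i : ℕ) : ℝ)) / tot := by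
  rw [eq_div_iff tot_pos.ne', tot, ← Finset.prod_mul_prod_compl A, ← mul_assoc,
    ← Finset.prod_mul_distrib, Nat.cast_prod]
  have h1 : ∏ i ∈ A, ew i * ((Pool.NC.len i : ℕ) : ℝ) = 1 := by
    refine Finset.prod_eq_one fun i _ => ?_
    have : ((Pool.NC.len i : ℕ) : ℝ) ≠ 0 := by exact_mod_cast (Pool.NC.len_pos i).ne'
    unfold ew
    exact inv_mul_cancel₀ this
  rw [h1, one_mul]

open Classical in
lemma sum_K (X : Finset (Fin 23)) :
    (∑ A : Finset (Fin 23), if (Pool.NC.gr A).Connected ∧ X ⊆ A then ∏ a ∈ A, ew a else 0) =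
      (Pool.NC.K X : ℝ) / tot := by
  unfold Pool.NC.K
  rw [Nat.cast_sum, Finset.sum_div, Finset.sum_filter]
  refine Finset.sum_congr rfl fun A _ => ?_
  by_cases h : (Pool.NC.gr A).Connected ∧ X ⊆ A
  · rw [if_pos h, if_pos h.symm, prod_ew]
  · rw [if_neg h, if_neg fun h' => h h'.symm]

open Classical in
/-- the numerical violation, real weights -/
theorem violation_of (hK : Pool.NC.K {0} * Pool.NC.K {1} < Pool.NC.K {0, 1} * Pool.NC.K ∅) :
    (∑ A : Finset (Fin 23), if Conn esrc etgt (A : Set (Fin 23)) ∧ 0 ∈ A then ∏ a ∈ A, ew a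
        else 0) *
      (∑ A : Finset (Fin 23), if Conn esrc etgt (A : Set (Fin 23)) ∧ 1 ∈ A then ∏ a ∈ A, ew a
        else 0) <
      (∑ A : Finset (Fin 23), if Conn esrc etgt (A : Set (Fin 23)) ∧ 0 ∈ A ∧ 1 ∈ A
        then ∏ a ∈ A, ew a else 0) *
      (∑ A : Finset (Fin 23), if Conn esrc etgt (A : Set (Fin 23)) then ∏ a ∈ A, ew a else 0) := by
  have h0 := sum_K {0}
  have h1 := sum_K {1}
  have h01 := sum_K {0, 1}
  have he := sum_K ∅
  simp only [Finset.singleton_subset_iff, Finset.insert_subset_iff, Finset.empty_subset,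
    and_true] at h0 h1 h01 he
  simp only [conn_iff]
  rw [h0, h1, h01, he, div_mul_div_comm, div_mul_div_comm]
  refine div_lt_div_of_pos_right ?_ (mul_pos tot_pos tot_pos)
  exact_mod_cast hK

/-- the graph is connected -/
theorem conn_univ : Conn esrc etgt Set.univ := by
  have hadj : ∀ i : Fin 23, (SimpleGraph.fromEdgeSet
      ((fun e => s(esrc e, etgt e)) '' (Set.univ : Set (Fin 23)))).Reachable (esrc i) (etgt i) := by
    intro i
    by_cases h : esrc i = etgt i
    · rw [h]
    · exact SimpleGraph.Adj.reachable (by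
        rw [SimpleGraph.fromEdgeSet_adj]
        exact ⟨⟨i, Set.mem_univ i, rfl⟩, h⟩)
  have h02 := hadj 2
  have h03 := hadj 3
  have h04 := hadj 4
  have h12 := hadj 5
  have h52 := hadj 8
  have h63 := hadj 11
  have h70 := hadj 14
  have h81 := hadj 17
  have h90 := hadj 19
  have key : ∀ v : Fin 10, (SimpleGraph.fromEdgeSet
      ((fun e => s(esrc e, etgt e)) '' (Set.univ : Set (Fin 23)))).Reachable v (0 : Fin 10) := by
    intro v
    have e2 : (SimpleGraph.fromEdgeSet
      ((fun e => s(esrc e, etgt e)) '' (Set.univ : Set (Fin 23)))).Reachable (0 : Fin 10) (2 : Fin 10) := h02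
    have e3 : (SimpleGraph.fromEdgeSet
      ((fun e => s(esrc e, etgt e)) '' (Set.univ : Set (Fin 23)))).Reachable (0 : Fin 10) (3 : Fin 10) := h03
    have e4 : (SimpleGraph.fromEdgeSet
      ((fun e => s(esrc e, etgt e)) '' (Set.univ : Set (Fin 23)))).Reachable (0 : Fin 10) (4 : Fin 10) := h04
    have e1 : (SimpleGraph.fromEdgeSet
      ((fun e => s(esrc e, etgt e)) '' (Set.univ : Set (Fin 23)))).Reachable (1 : Fin 10) (2 : Fin 10) := h12
    have e5 : (SimpleGraph.fromEdgeSet
      ((fun e => s(esrc e, etgt e)) '' (Set.univ : Set (Fin 23)))).Reachable (5 : Fin 10) (2 : Fin 10) := h52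
    have e6 : (SimpleGraph.fromEdgeSet
      ((fun e => s(esrc e, etgt e)) '' (Set.univ : Set (Fin 23)))).Reachable (6 : Fin 10) (3 : Fin 10) := h63
    have e7 : (SimpleGraph.fromEdgeSet
      ((fun e => s(esrc e, etgt e)) '' (Set.univ : Set (Fin 23)))).Reachable (7 : Fin 10) (0 : Fin 10) := h70
    have e8 : (SimpleGraph.fromEdgeSet
      ((fun e => s(esrc e, etgt e)) '' (Set.univ : Set (Fin 23)))).Reachable (8 : Fin 10) (1 : Fin 10) := h81
    have e9 : (SimpleGraph.fromEdgeSet
      ((fun e => s(esrc e, etgt e)) '' (Set.univ : Set (Fin 23)))).Reachable (9 : Fin 10) (0 : Fin 10) := h90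
    fin_cases v
    · exact SimpleGraph.Reachable.refl _
    · exact e1.trans e2.symm
    · exact e2.symm
    · exact e3.symm
    · exact e4.symm
    · exact e5.trans e2.symm
    · exact e6.trans e3.symm
    · exact e7
    · exact e8.trans (e1.trans e2.symm)
    · exact e9
  exact ⟨fun a b => (key a).trans (key b).symm⟩

end Pool.Agent.NC
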